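import Pool.Agent.Work.MP_8826fd_mp.RT.Stmts2

/-! MP_8826fd_mp, block RT, item Lip: continuity in the field.  Author: helper7. -/

set_option autoImplicit false

namespace Pool.Agent.MFK.RT

open MeasureTheory Set Filter Topology Pool.Agent.MFK.NF

namespace ILip

theorem isOpen_disc : IsOpen disc :=
  (isOpen_lt (by fun_prop) continuous_const : IsOpen {x : ℝ × ℝ | x.1 ^ 2 + x.2 ^ 2 < 1})

theorem nsq (t : ℝ) (ht : 0 < t) (v w : ℂ) :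
    ‖v + w‖ ^ 2 ≤ (1 + t) * ‖v‖ ^ 2 + (1 + 1 / t) * ‖w‖ ^ 2 := by
  have h1 : ‖v + w‖ ≤ ‖v‖ + ‖w‖ := norm_add_le v w
  have h2 : ‖v + w‖ ^ 2 ≤ (‖v‖ + ‖w‖) ^ 2 := pow_le_pow_left₀ (norm_nonneg _) h1 2
  have h3 : 0 ≤ (t * ‖v‖ - ‖w‖) ^ 2 / t := by positivity
  have h4 : (t * ‖v‖ - ‖w‖) ^ 2 / t = t * ‖v‖ ^ 2 - 2 * ‖v‖ * ‖w‖ + 1 / t * ‖w‖ ^ 2 := by
    field_simp
    ring
  nlinarith

theorem pw (B B' t : ℝ) (ht : 0 < t) (u : ℝ × ℝ → ℂ) (x : ℝ × ℝ) (hx : x ∈ disc) :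
    eden B' u x ≤ (1 + t) * eden B u x + (1 + 1 / t) * (B' - B) ^ 2 / 4 * ‖u x‖ ^ 2 := by
  have hx' : x.1 ^ 2 + x.2 ^ 2 < 1 := hx
  unfold eden
  set d1 := fderiv ℝ u x ((1 : ℝ), (0 : ℝ)) with hd1
  set d2 := fderiv ℝ u x ((0 : ℝ), (1 : ℝ)) with hd2
  have e1 : d1 - Complex.I * ((-(B' * x.2 / 2) : ℝ) : ℂ) * u x =
      (d1 - Complex.I * ((-(B * x.2 / 2) : ℝ) : ℂ) * u x) +
        Complex.I * (((B' - B) * x.2 / 2 : ℝ) : ℂ) * u x := by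
    push_cast
    ring
  have e2 : d2 - Complex.I * ((B' * x.1 / 2 : ℝ) : ℂ) * u x =
      (d2 - Complex.I * ((B * x.1 / 2 : ℝ) : ℂ) * u x) +
        Complex.I * ((-((B' - B) * x.1 / 2) : ℝ) : ℂ) * u x := by
    push_cast
    ring
  rw [e1, e2]
  have n1 : ‖Complex.I * (((B' - B) * x.2 / 2 : ℝ) : ℂ) * u x‖ ^ 2 =
      (B' - B) ^ 2 / 4 * x.2 ^ 2 * ‖u x‖ ^ 2 := by
    rw [norm_mul, norm_mul, Complex.norm_I, Complex.norm_real, Real.norm_eq_abs, mul_pow, mul_pow,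
      sq_abs]
    ring
  have n2 : ‖Complex.I * ((-((B' - B) * x.1 / 2) : ℝ) : ℂ) * u x‖ ^ 2 =
      (B' - B) ^ 2 / 4 * x.1 ^ 2 * ‖u x‖ ^ 2 := by
    rw [norm_mul, norm_mul, Complex.norm_I, Complex.norm_real, Real.norm_eq_abs, mul_pow, mul_pow,
      sq_abs]
    ring
  have h1 := nsq t ht (d1 - Complex.I * ((-(B * x.2 / 2) : ℝ) : ℂ) * u x)
    (Complex.I * (((B' - B) * x.2 / 2 : ℝ) : ℂ) * u x)
  have h2 := nsq t ht (d2 - Complex.I * ((B * x.1 / 2 : ℝ) : ℂ) * u x)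
    (Complex.I * ((-((B' - B) * x.1 / 2) : ℝ) : ℂ) * u x)
  rw [n1] at h1
  rw [n2] at h2
  have h3 : 0 ≤ (1 + 1 / t) * ((B' - B) ^ 2 / 4) * ‖u x‖ ^ 2 := by positivity
  have h4 : (1 + 1 / t) * ((B' - B) ^ 2 / 4) * ‖u x‖ ^ 2 * (x.1 ^ 2 + x.2 ^ 2) ≤
      (1 + 1 / t) * ((B' - B) ^ 2 / 4) * ‖u x‖ ^ 2 * 1 := mul_le_mul_of_nonneg_left hx'.le h3
  have h5 : (1 + 1 / t) * ((B' - B) ^ 2 / 4 * x.2 ^ 2 * ‖u x‖ ^ 2) +
      (1 + 1 / t) * ((B' - B) ^ 2 / 4 * x.1 ^ 2 * ‖u x‖ ^ 2) =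
      (1 + 1 / t) * ((B' - B) ^ 2 / 4) * ‖u x‖ ^ 2 * (x.1 ^ 2 + x.2 ^ 2) := by ring
  have h6 : (1 + 1 / t) * (B' - B) ^ 2 / 4 * ‖u x‖ ^ 2 =
      (1 + 1 / t) * ((B' - B) ^ 2 / 4) * ‖u x‖ ^ 2 * 1 := by ring
  rw [h6]
  linarith

theorem eden_nonneg (B : ℝ) (u : ℝ × ℝ → ℂ) (x : ℝ × ℝ) : 0 ≤ eden B u x := by
  unfold eden
  positivity

theorem cont (B : ℝ) (u : ℝ × ℝ → ℂ) (hu : ContDiffOn ℝ 1 u disc) :
    ContinuousOn (fun x => eden B u x) disc := by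
  have hD : ContinuousOn (fderiv ℝ u) disc := hu.continuousOn_fderiv_of_isOpen isOpen_disc le_rfl
  have hc : ContinuousOn u disc := hu.continuousOn
  have h1 : ContinuousOn (fun x => fderiv ℝ u x ((1 : ℝ), (0 : ℝ))) disc :=
    hD.clm_apply continuousOn_const
  have h2 : ContinuousOn (fun x => fderiv ℝ u x ((0 : ℝ), (1 : ℝ))) disc :=
    hD.clm_apply continuousOn_const
  unfold eden
  refine ContinuousOn.add (ContinuousOn.pow (ContinuousOn.norm (ContinuousOn.sub h1 ?_)) 2)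
    (ContinuousOn.pow (ContinuousOn.norm (ContinuousOn.sub h2 ?_)) 2)
  · refine ContinuousOn.mul (ContinuousOn.mul continuousOn_const ?_) hc
    exact (Complex.continuous_ofReal.comp (by fun_prop)).continuousOn
  · refine ContinuousOn.mul (ContinuousOn.mul continuousOn_const ?_) hc
    exact (Complex.continuous_ofReal.comp (by fun_prop)).continuousOn

theorem step (B B' t : ℝ) (ht : 0 < t) (u : ℝ × ℝ → ℂ) (hu : ContDiffOn ℝ 1 u disc)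
    (h1 : IntegrableOn (fun x => ‖u x‖ ^ 2) disc) (h2 : IntegrableOn (fun x => eden B u x) disc)
    (h3 : (∫ x in disc, ‖u x‖ ^ 2) = 1) :
    IntegrableOn (fun x => eden B' u x) disc ∧
    (∫ x in disc, eden B' u x) ≤ (1 + t) * (∫ x in disc, eden B u x) +
      (1 + 1 / t) * (B' - B) ^ 2 / 4 := by
  have hm : MeasurableSet disc := isOpen_disc.measurableSet
  have hdom : IntegrableOn (fun x => (1 + t) * eden B u x +
      (1 + 1 / t) * (B' - B) ^ 2 / 4 * ‖u x‖ ^ 2) disc :=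
    (h2.const_mul (1 + t)).add (h1.const_mul ((1 + 1 / t) * (B' - B) ^ 2 / 4))
  have hint : IntegrableOn (fun x => eden B' u x) disc := by
    refine Integrable.mono' hdom ((cont B' u hu).aestronglyMeasurable hm) ?_
    refine (ae_restrict_mem hm).mono fun x hx => ?_
    rw [Real.norm_eq_abs, abs_of_nonneg (eden_nonneg B' u x)]
    exact pw B B' t ht u x hx
  refine ⟨hint, ?_⟩
  calc (∫ x in disc, eden B' u x) ≤ ∫ x in disc, ((1 + t) * eden B u x +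
        (1 + 1 / t) * (B' - B) ^ 2 / 4 * ‖u x‖ ^ 2) :=
        setIntegral_mono_on hint hdom hm fun x hx => pw B B' t ht u x hx
    _ = (1 + t) * (∫ x in disc, eden B u x) +
        (1 + 1 / t) * (B' - B) ^ 2 / 4 * (∫ x in disc, ‖u x‖ ^ 2) := by
        rw [integral_add (h2.const_mul (1 + t)) (h1.const_mul ((1 + 1 / t) * (B' - B) ^ 2 / 4)),
          integral_const_mul, integral_const_mul]
    _ = _ := by rw [h3, mul_one]

/-- general form with a side condition -/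
noncomputable def L (P : (ℝ × ℝ → ℂ) → Prop) (B : ℝ) : ℝ :=
  sInf {q : ℝ | ∃ u : ℝ × ℝ → ℂ, ContDiffOn ℝ 1 u disc ∧ P u ∧
      IntegrableOn (fun x => ‖u x‖ ^ 2) disc ∧ IntegrableOn (fun x => eden B u x) disc ∧
      (∫ x in disc, ‖u x‖ ^ 2) = 1 ∧ q = ∫ x in disc, eden B u x}

theorem main (P : (ℝ × ℝ → ℂ) → Prop) (B B' t : ℝ) (ht : 0 < t) :
    L P B' ≤ (1 + t) * L P B + (1 + 1 / t) * (B' - B) ^ 2 / 4 := by
  have hc : 0 ≤ (1 + 1 / t) * (B' - B) ^ 2 / 4 := by positivity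
  have ht1 : 0 < 1 + t := by linarith
  have hbdd : ∀ B : ℝ, BddBelow {q : ℝ | ∃ u : ℝ × ℝ → ℂ, ContDiffOn ℝ 1 u disc ∧ P u ∧
      IntegrableOn (fun x => ‖u x‖ ^ 2) disc ∧ IntegrableOn (fun x => eden B u x) disc ∧
      (∫ x in disc, ‖u x‖ ^ 2) = 1 ∧ q = ∫ x in disc, eden B u x} := by
    intro B
    refine ⟨0, ?_⟩
    rintro q ⟨u, -, -, -, -, -, rfl⟩
    exact integral_nonneg fun x => eden_nonneg B u x
  by_cases hne : {q : ℝ | ∃ u : ℝ × ℝ → ℂ, ContDiffOn ℝ 1 u disc ∧ P u ∧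
      IntegrableOn (fun x => ‖u x‖ ^ 2) disc ∧ IntegrableOn (fun x => eden B u x) disc ∧
      (∫ x in disc, ‖u x‖ ^ 2) = 1 ∧ q = ∫ x in disc, eden B u x}.Nonempty
  · have h1 : (L P B' - (1 + 1 / t) * (B' - B) ^ 2 / 4) / (1 + t) ≤ L P B := by
      refine le_csInf hne ?_
      rintro q ⟨u, hu, hP, hi1, hi2, hn, rfl⟩
      obtain ⟨hi3, hle⟩ := step B B' t ht u hu hi1 hi2 hn
      have h2 : L P B' ≤ ∫ x in disc, eden B' u x :=
        csInf_le (hbdd B') ⟨u, hu, hP, hi1, hi3, hn, rfl⟩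
      rw [div_le_iff₀ ht1]
      linarith
    rw [div_le_iff₀ ht1] at h1
    linarith
  · have hne' : ¬ {q : ℝ | ∃ u : ℝ × ℝ → ℂ, ContDiffOn ℝ 1 u disc ∧ P u ∧
        IntegrableOn (fun x => ‖u x‖ ^ 2) disc ∧ IntegrableOn (fun x => eden B' u x) disc ∧
        (∫ x in disc, ‖u x‖ ^ 2) = 1 ∧ q = ∫ x in disc, eden B' u x}.Nonempty := by
      rintro ⟨q, u, hu, hP, hi1, hi2, hn, rfl⟩
      obtain ⟨hi3, -⟩ := step B' B t ht u hu hi1 hi2 hn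
      exact hne ⟨_, u, hu, hP, hi1, hi3, hn, rfl⟩
    have e1 : L P B = 0 := by
      unfold L
      rw [not_nonempty_iff_eq_empty.1 hne, Real.sInf_empty]
    have e2 : L P B' = 0 := by
      unfold L
      rw [not_nonempty_iff_eq_empty.1 hne', Real.sInf_empty]
    rw [e1, e2, mul_zero, zero_add]
    exact hc

theorem lamN_eq (B : ℝ) : lamN B disc = L (fun _ => True) B := by
  unfold lamN L
  congr 1
  ext q
  constructor
  · rintro ⟨u, h1, h2, h3, h4, h5⟩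
    exact ⟨u, h1, trivial, h2, h3, h4, h5⟩
  · rintro ⟨u, h1, -, h2, h3, h4, h5⟩
    exact ⟨u, h1, h2, h3, h4, h5⟩

end ILip

theorem pr_Lip : StLip := by
  intro B B' t ht
  refine ⟨?_, ILip.main (fun u => ∀ x ∈ disc, ∀ y ∈ disc,
    x.1 ^ 2 + x.2 ^ 2 = y.1 ^ 2 + y.2 ^ 2 → u x = u y) B B' t ht⟩
  rw [ILip.lamN_eq, ILip.lamN_eq]
  exact ILip.main _ B B' t ht

end Pool.Agent.MFK.RT
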