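import Pool.Agent.Work.MP_8826fd_mp.RT.Stmts2

/-!
# MP_8826fd_mp, block RT, item Ud: upper bounds by the regular solutions (helper39)
-/

set_option autoImplicit false

namespace Pool.Agent.MFK.RT

open MeasureTheory Set Filter Topology Pool.Agent.MFK.NF

namespace IUd

/-- the test function -/
noncomputable def uu (c : ℝ) (m : ℕ) (F : ℝ → ℝ) (x : ℝ × ℝ) : ℂ :=
  (c : ℂ) * ((x.1 : ℂ) + (x.2 : ℂ) * Complex.I) ^ m * ((F (x.1 ^ 2 + x.2 ^ 2) : ℝ) : ℂ)

lemma uu_cd (c : ℝ) (m : ℕ) {F : ℝ → ℝ} (hF : ContDiff ℝ 2 F) : ContDiff ℝ 1 (uu c m F) := by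
  have h1 : ContDiff ℝ 1 (fun x : ℝ × ℝ => (x.1 : ℂ)) := Complex.ofRealCLM.contDiff.comp contDiff_fst
  have h2 : ContDiff ℝ 1 (fun x : ℝ × ℝ => (x.2 : ℂ)) := Complex.ofRealCLM.contDiff.comp contDiff_snd
  have h0 : ContDiff ℝ 1 (fun x : ℝ × ℝ => F (x.1 ^ 2 + x.2 ^ 2)) :=
    (hF.of_le (by norm_num)).comp ((contDiff_fst.pow 2).add (contDiff_snd.pow 2))
  have h3 : ContDiff ℝ 1 (fun x : ℝ × ℝ => ((F (x.1 ^ 2 + x.2 ^ 2) : ℝ) : ℂ)) :=
    Complex.ofRealCLM.contDiff.comp h0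
  exact (contDiff_const.mul ((h1.add (h2.mul contDiff_const)).pow m)).mul h3

lemma uu_pt (c : ℝ) (m : ℕ) (F : ℝ → ℝ) (r θ : ℝ) :
    uu c m F (pt r θ) = ((c * radf (m : ℤ) F r : ℝ) : ℂ) * Complex.exp (Complex.I * (m * θ)) := by
  have h1 : (((r * Real.cos θ : ℝ)) : ℂ) + ((r * Real.sin θ : ℝ) : ℂ) * Complex.I
      = (r : ℂ) * Complex.exp (Complex.I * θ) := by
    rw [mul_comm Complex.I (θ : ℂ), Complex.exp_mul_I]
    push_cast
    ring
  have h2 : (r * Real.cos θ) ^ 2 + (r * Real.sin θ) ^ 2 = r ^ 2 := by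
    nlinarith [Real.sin_sq_add_cos_sq θ]
  unfold uu pt radf
  simp only
  rw [h1, h2, mul_pow, ← Complex.exp_nat_mul, Int.natAbs_natCast]
  push_cast
  rw [show (m : ℂ) * (Complex.I * (θ : ℂ)) = Complex.I * (m * θ) by ring]
  ring

lemma nexp (m : ℕ) (θ : ℝ) : ‖Complex.exp (Complex.I * (m * θ))‖ = 1 := by
  have h := Complex.norm_exp_ofReal_mul_I ((m : ℝ) * θ)
  rw [mul_comm Complex.I]
  push_cast at h
  exact h

lemma norm_uu (c : ℝ) (m : ℕ) (F : ℝ → ℝ) (r θ : ℝ) :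
    ‖uu c m F (pt r θ)‖ ^ 2 = c ^ 2 * radf (m : ℤ) F r ^ 2 := by
  rw [uu_pt, norm_mul, nexp, mul_one, Complex.norm_real, Real.norm_eq_abs, sq_abs]
  ring

lemma eden_uu (B lam c : ℝ) (m : ℕ) {F : ℝ → ℝ} (hR : Rad B lam (m : ℤ) F) {r : ℝ} (hr : 0 < r) (θ : ℝ) :
    eden B (uu c m F) (pt r θ)
      = c ^ 2 * (deriv (radf (m : ℤ) F) r ^ 2 + qn B (m : ℤ) r ^ 2 * radf (m : ℤ) F r ^ 2) := by
  have hd := (rReg B lam m F hR).1 r
  obtain ⟨-, -, h3⟩ := pDens B (uu c m F) r θ hr ((uu_cd c m hR.smooth).differentiable (by norm_num) _)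
  have e1 : HasDerivAt (fun t => uu c m F (pt t θ))
      (((c * deriv (radf (m : ℤ) F) r : ℝ) : ℂ) * Complex.exp (Complex.I * (m * θ))) r := by
    have h := ((hd.const_mul c).ofReal_comp).mul_const (Complex.exp (Complex.I * (m * θ)))
    exact h.congr_of_eventuallyEq (Eventually.of_forall fun t => uu_pt c m F t θ)
  have e2 : HasDerivAt (fun t => uu c m F (pt r t))
      (((c * radf (m : ℤ) F r : ℝ) : ℂ) * (Complex.exp (Complex.I * (m * θ)) * (Complex.I * (m * 1)))) θ := by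
    have h0 : HasDerivAt (fun t : ℝ => (t : ℂ)) 1 θ := by
      simpa using (hasDerivAt_id θ).ofReal_comp
    have h := (((h0.const_mul (m : ℂ)).const_mul Complex.I).cexp).const_mul
      (((c * radf (m : ℤ) F r : ℝ) : ℂ))
    exact h.congr_of_eventuallyEq (Eventually.of_forall fun t => uu_pt c m F r t)
  rw [h3, e1.deriv, e2.deriv, uu_pt]
  have h4 : (1 / r : ℝ) * (((c * radf (m : ℤ) F r : ℝ) : ℂ) *
        (Complex.exp (Complex.I * (m * θ)) * (Complex.I * (m * 1))))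
      - Complex.I * ((B * r / 2 : ℝ) : ℂ) * (((c * radf (m : ℤ) F r : ℝ) : ℂ) * Complex.exp (Complex.I * (m * θ)))
      = ((c * radf (m : ℤ) F r * qn B (m : ℤ) r : ℝ) : ℂ) * Complex.I * Complex.exp (Complex.I * (m * θ)) := by
    unfold qn
    push_cast
    ring
  rw [h4, norm_mul, norm_mul, norm_mul, nexp, Complex.norm_I, mul_one, mul_one, mul_one,
    Complex.norm_real, Complex.norm_real, Real.norm_eq_abs, Real.norm_eq_abs, sq_abs, sq_abs]
  ring

lemma disc_sub : disc ⊆ Metric.closedBall (0 : ℝ × ℝ) 1 := by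
  intro x hx
  have hx' : x.1 ^ 2 + x.2 ^ 2 < 1 := hx
  rw [mem_closedBall_zero_iff, Prod.norm_def, Real.norm_eq_abs, Real.norm_eq_abs]
  refine max_le ?_ ?_
  · exact abs_le_of_sq_le_sq (by nlinarith [sq_nonneg x.2]) zero_le_one
  · exact abs_le_of_sq_le_sq (by nlinarith [sq_nonneg x.1]) zero_le_one

lemma int_disc {f : ℝ × ℝ → ℝ} (hf : Continuous f) : IntegrableOn f disc :=
  (hf.continuousOn.integrableOn_compact (isCompact_closedBall 0 1)).mono_set disc_sub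

lemma eden_cont (B : ℝ) {u : ℝ × ℝ → ℂ} (hu : ContDiff ℝ 1 u) : Continuous (eden B u) := by
  have h1 : Continuous (fderiv ℝ u) := hu.continuous_fderiv (by norm_num)
  have h2 : Continuous fun x => fderiv ℝ u x ((1 : ℝ), (0 : ℝ)) := h1.clm_apply continuous_const
  have h3 : Continuous fun x => fderiv ℝ u x ((0 : ℝ), (1 : ℝ)) := h1.clm_apply continuous_const
  have h4 : Continuous u := hu.continuous
  have h5 : Continuous fun x : ℝ × ℝ => ((-(B * x.2 / 2) : ℝ) : ℂ) :=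
    Complex.continuous_ofReal.comp (by fun_prop)
  have h6 : Continuous fun x : ℝ × ℝ => ((B * x.1 / 2 : ℝ) : ℂ) :=
    Complex.continuous_ofReal.comp (by fun_prop)
  unfold eden
  exact ((h2.sub ((continuous_const.mul h5).mul h4)).norm.pow 2).add
    ((h3.sub ((continuous_const.mul h6).mul h4)).norm.pow 2)

lemma main (B lam : ℝ) (m : ℕ) (F : ℝ → ℝ) (hR : Rad B lam (m : ℤ) F)
    (h0 : deriv (radf (m : ℤ) F) 1 = 0) :
    ∃ c : ℝ, (∫ x in disc, ‖uu c m F x‖ ^ 2) = 1 ∧ (∫ x in disc, eden B (uu c m F) x) = lam := by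
  obtain ⟨h1, h2, h3, h4, -, -, -, -⟩ := rReg B lam m F hR
  have hgc : Continuous (radf (m : ℤ) F) := h2.continuous
  have hK1 : IntervalIntegrable (fun r => radf (m : ℤ) F r ^ 2 * r) volume 0 1 :=
    ((hgc.pow 2).mul continuous_id).intervalIntegrable 0 1
  set K : ℝ := ∫ r in (0 : ℝ)..1, radf (m : ℤ) F r ^ 2 * r with hK
  have hKpos : 0 < K := by
    refine intervalIntegral.intervalIntegral_pos_of_pos_on hK1 ?_ zero_lt_one
    intro x hx
    have := h4 x hx.1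
    have := hx.1
    positivity
  have hpi := Real.pi_pos
  refine ⟨1 / Real.sqrt (2 * Real.pi * K), ?_⟩
  set c : ℝ := 1 / Real.sqrt (2 * Real.pi * K) with hc
  have hc2 : c ^ 2 * (2 * Real.pi * K) = 1 := by
    have hp : 0 < 2 * Real.pi * K := by positivity
    rw [hc, div_pow, Real.sq_sqrt hp.le, one_pow]
    field_simp
  have hcd := uu_cd c m hR.smooth
  have i1 : IntegrableOn (fun x => ‖uu c m F x‖ ^ 2) disc := int_disc (hcd.continuous.norm.pow 2)
  have i2 : IntegrableOn (fun x => eden B (uu c m F) x) disc := int_disc (eden_cont B hcd)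
  obtain ⟨-, -, p1⟩ := pIntD _ i1
  obtain ⟨-, -, p2⟩ := pIntD _ i2
  obtain ⟨u1, u2⟩ := uEn rReg B lam m F hR
  rw [h0, mul_zero] at u2
  constructor
  · rw [p1]
    have e : ∀ r ∈ Set.uIoc (0 : ℝ) 1, (∫ θ in (0 : ℝ)..(2 * Real.pi), ‖uu c m F (pt r θ)‖ ^ 2) * r
        = c ^ 2 * (2 * Real.pi) * (radf (m : ℤ) F r ^ 2 * r) := by
      intro r _
      simp only [norm_uu, intervalIntegral.integral_const, smul_eq_mul]
      ring
    rw [intervalIntegral.integral_congr_ae (Eventually.of_forall e), intervalIntegral.integral_const_mul,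
      ← hK, ← hc2]
    ring
  · rw [p2]
    have e : ∀ r ∈ Set.uIoc (0 : ℝ) 1, (∫ θ in (0 : ℝ)..(2 * Real.pi), eden B (uu c m F) (pt r θ)) * r
        = c ^ 2 * (2 * Real.pi) * ((deriv (radf (m : ℤ) F) r ^ 2 + (qn B (m : ℤ) r ^ 2 - lam) * radf (m : ℤ) F r ^ 2) * r
          + lam * (radf (m : ℤ) F r ^ 2 * r)) := by
      intro r hr
      rw [uIoc_of_le zero_le_one] at hr
      simp only [eden_uu B lam c m hR hr.1, intervalIntegral.integral_const, smul_eq_mul]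
      ring
    rw [intervalIntegral.integral_congr_ae (Eventually.of_forall e), intervalIntegral.integral_const_mul,
      intervalIntegral.integral_add u1 (hK1.const_mul lam), u2, intervalIntegral.integral_const_mul,
      ← hK, zero_add]
    linear_combination lam * hc2

lemma eden_nonneg (B : ℝ) (u : ℝ × ℝ → ℂ) (x : ℝ × ℝ) : 0 ≤ eden B u x := by
  unfold eden
  positivity

end IUd

/-- ITEM Ud -/
theorem pr_Ud : StUd := by
  intro B lam m hB hl h0
  have hR : Rad B lam (m : ℤ) (FK B lam (m : ℤ)) := Asm.rRad' B lam m hB hl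
  have h0' : deriv (radf (m : ℤ) (FK B lam (m : ℤ))) 1 = 0 := h0
  obtain ⟨c, h1, h2⟩ := IUd.main B lam m _ hR h0'
  have hcd := IUd.uu_cd c m hR.smooth
  have i1 : IntegrableOn (fun x => ‖IUd.uu c m (FK B lam (m : ℤ)) x‖ ^ 2) disc :=
    IUd.int_disc (hcd.continuous.norm.pow 2)
  have i2 : IntegrableOn (fun x => eden B (IUd.uu c m (FK B lam (m : ℤ))) x) disc :=
    IUd.int_disc (IUd.eden_cont B hcd)
  constructor
  · refine csInf_le ⟨0, ?_⟩ ⟨IUd.uu c m (FK B lam (m : ℤ)), hcd.contDiffOn, i1, i2, h1, h2.symm⟩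
    rintro q ⟨u, -, -, -, -, rfl⟩
    exact integral_nonneg fun x => IUd.eden_nonneg B u x
  · intro hm
    refine csInf_le ⟨0, ?_⟩ ⟨IUd.uu c m (FK B lam (m : ℤ)), hcd.contDiffOn, ?_, i1, i2, h1, h2.symm⟩
    · rintro q ⟨u, -, -, -, -, -, rfl⟩
      exact integral_nonneg fun x => IUd.eden_nonneg B u x
    · intro x _ y _ hxy
      unfold IUd.uu
      rw [hm, hxy]
      simp

end Pool.Agent.MFK.RT
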