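import Pool.Agent.Work.MP_8826fd_mp.RT.Stmts
import Pool.Agent.Work.MP_8826fd_mp.CD.Stmts
import Pool.Agent.Work.MP_8826fd_mp.NU.Stmts

/-!
# MP_8826fd_mp, block RT, second half: the radial regime and its end; the range theorem.  Captain helper88.

GOAL (StRng, StFinR).  There is `b > 0` such that at the field `b` the ground state of the unit disc is not radial (`lamN b disc < lamRad b`), and
for all `B, R > 0` with `B R² ≤ b` every open simply connected `Ω` of area `π R²` satisfies `λ(B, Ω) ≤ λ(B, D_R)`, with equality only for a disc.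
FORMAT as in `RT/Stmts.lean`: file `RT/I_NAME.lean` (import this file), namespace `Pool.Agent.MFK.RT`, main theorem `pr_NAME`.
-/

set_option autoImplicit false

namespace Pool.Agent.MFK.RT

open MeasureTheory Set Filter Topology Pool.Agent.MFK.NF

/-- infimum of the energy over the radial functions of the unit disc -/
noncomputable def lamRad (B : ℝ) : ℝ :=
  sInf {q : ℝ | ∃ u : ℝ × ℝ → ℂ, ContDiffOn ℝ 1 u disc ∧
      (∀ x ∈ disc, ∀ y ∈ disc, x.1 ^ 2 + x.2 ^ 2 = y.1 ^ 2 + y.2 ^ 2 → u x = u y) ∧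
      IntegrableOn (fun x => ‖u x‖ ^ 2) disc ∧ IntegrableOn (fun x => eden B u x) disc ∧
      (∫ x in disc, ‖u x‖ ^ 2) = 1 ∧ q = ∫ x in disc, eden B u x}

/-- ITEM RdE (IVT with `Asm.rSign'` and `Asm.rCont'`). -/
def StRdE : Prop := ∀ B : ℝ, 0 < B → ∃ lam : ℝ, Rd B lam

/-- ITEM Ud (upper bounds by the regular solutions).  `u(x) = (x₁ + i x₂)^m FK B lam m (|x|²)`: in polar coordinates `‖u‖² = g²`, `eden B u = g'² + (m/r - Br/2)² g²` (`PDens`, proved: `pDens`), `pIntD` (polar integration over `disc`): `∫ eden = 2π ∫ (g'² + q² g²) r = lam ∫ ‖u‖²` by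
`UEn` (`uEn rReg`) and `g'(1) = 0`; then `uRay` (for `lamRad`: normalise `u` directly; `u` is radial for `m = 0`). -/
def StUd : Prop := ∀ (B lam : ℝ) (m : ℕ), 0 < B → lam < B → deriv (gk B lam m) 1 = 0 →
  lamN B disc ≤ lam ∧ (m = 0 → lamRad B ≤ lam)

/-- ITEM RdL (lower bound for radial functions).  For an admissible radial `u` put `φ(r) = u(r, 0)`: `C¹` on `(0,1)`, bounded near `0`; polar coordinates (`pIntD`, `pDens`): `∫ ‖u‖² = 2π ∫ ‖φ‖² r`, `∫ eden = 2π ∫ (‖φ'‖² + (Br/2)² ‖φ‖²) r` (`∂_θ u = 0`).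
`LRad` (`lRad rReg (lPicone rReg)`) for `n = 0`, `F = FK B lam 0`.  The set in the definition of `lamRad` is not empty (constants). -/
def StRdL : Prop := ∀ B lam : ℝ, 0 < B → 0 < lam → lam < B → 0 ≤ deriv (gk B lam 0) 1 → lam ≤ lamRad B

/-- ITEM Le (the radial functions are admissible for `lamN`; the set is not empty: constants; bounded below by `0`). -/
def StLe : Prop := ∀ B : ℝ, lamN B disc ≤ lamRad B

/-- ITEM Lip (continuity in the field).  Pointwise on `disc`: the two components change by `± i (B' - B) x_j u/2`, `|x| ≤ 1`, and `‖v + w‖² ≤ (1 + t) ‖v‖² + (1 + 1/t) ‖w‖²`: `eden B' u ≤ (1 + t) eden B u + (1 + 1/t) (B' - B)²/4 ‖u‖²`.  So the same `u` is admissible for `B'`; take infima. -/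
def StLip : Prop := ∀ (B B' t : ℝ), 0 < t →
  lamN B' disc ≤ (1 + t) * lamN B disc + (1 + 1 / t) * (B' - B) ^ 2 / 4 ∧
  lamRad B' ≤ (1 + t) * lamRad B + (1 + 1 / t) * (B' - B) ^ 2 / 4

/-- ITEM Sm (small fields; uses StUd, StLe, NU.StGr).  `Gr B lam m`: `m < B/2 ≤ 1`, so `m = 0`; `lam ≤ lamN B disc ≤ lamRad B ≤ lam`. -/
def StSm : Prop := ∀ B : ℝ, 0 < B → B ≤ 2 → lamN B disc = lamRad B

/-- ITEM Big (uses StUd, StRdL, NU.StGr, NU.StUp).  `A0` from `NU.StUp`, `A = A0/2`.  There is `z > 0` with `2 Phi1 A 1 z > Phi A 1 z`: otherwise `(e^{-z/2} Phi)' ≤ 0`, `Phi ≤ e^{z/2}`, but `Phi A 1 z = ∑ (A)_n z^n/(n!)² ≥ A ∑_{n ≥ 1} z^n/(n n!) ≥ A (e^z - 1 - z)/z`.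
`B = z`, `lam' = (1 - A0) B`, so `1/2 - lam'/(2B) = A` and `RVal` (`Asm.rVal'`): `deriv (gk B lam' 0) 1 = e^{-B/4} (-B/2 Phi + B Phi1) > 0`; StRdL: `(1 - A0) B ≤ lamRad B`.  `Gr B lam m`: `lam ≤ (1 - 2 A0) B` and StUd: `lamN B disc ≤ lam`. -/
def StBig : Prop := ∃ B : ℝ, 0 < B ∧ lamN B disc < lamRad B

/-- ITEM Crs (end of the radial regime; uses StLip, StSm, StBig, StLe).  `S = {B > 0 : lamN B disc < lamRad B}` is not empty, contained in `(2, ∞)`, open in `(0,∞)` (StLip with `t = |B' - B|` gives the continuity of both functions); `B₀ = inf S ∉ S`. -/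
def StCrs : Prop := ∃ B₀ : ℝ, 0 < B₀ ∧ (∀ B : ℝ, 0 < B → B ≤ B₀ → lamN B disc = lamRad B) ∧
  ∀ η : ℝ, 0 < η → ∃ B : ℝ, B₀ < B ∧ B < B₀ + η ∧ lamN B disc < lamRad B

/-- ITEM Sml (uses StLip, StRdE, StUd, StRdL).  `Rd B₀ lam` gives `lamRad B₀ = lam < B₀`, so the right side is positive at `B₀` and the left side is `0`; both sides are continuous (StLip). -/
def StSml : Prop := ∀ B₀ e : ℝ, 0 < B₀ → 0 < e → lamN B₀ disc = lamRad B₀ → ∃ η > (0 : ℝ), ∀ B : ℝ, 0 < B → |B - B₀| < η →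
  lamRad B - lamN B disc < 1 / 32 * Real.exp (-B) * (B ^ 2 - lamRad B ^ 2) * e

/-- ITEM Dsc (equality; uses CD.StSer).  `s = 1`: `∑ j‖a_j‖² = 1 = ‖a_1‖²`, so `a_j = 0` for `j ≥ 2`, `F(w) = a_0 + w` on the ball, and `Ω = F(ball)` (as at the end of `NF/I_MU.lean`). -/
def StDsc : Prop := ∀ (Ω : Set ℂ) (f F : ℂ → ℂ) (a : ℕ → ℂ), CD.CMc Ω f F a → CD.Nrm F a 1 → Ω = Metric.ball (a 0) 1

/-- ITEM MUc (helper34, block CD: local maximality with constants locally uniform in the field). -/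
def StMUc : Prop := ∀ B₀ : ℝ, 0 < B₀ → ∃ η > (0 : ℝ), ∃ ε > (0 : ℝ), ∀ B : ℝ, 0 < B → |B - B₀| < η →
  ∀ (Ω : Set ℂ) (F₁ : ℂ → ℂ), IsOpen Ω → IsSimplyConnected Ω →
  volume Ω = ENNReal.ofReal Real.pi → DifferentiableOn ℂ F₁ (Metric.ball 0 1) → MapsTo F₁ (Metric.ball 0 1) Ω → 1 - ε ≤ ‖deriv F₁ 0‖ →
  ∃ q : ℂ, lamN B (toR Ω) ≤ lamN B disc ∧ (lamN B (toR Ω) = lamN B disc → Ω = Metric.ball q 1)

/-- ITEM Rng (captain; the range theorem for area `π`; uses StLim, CD.StCMx, StMUc, StCrs, StSml, StDsc, StRdE, StUd, StRdL). -/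
def StRng : Prop := ∃ b : ℝ, 0 < b ∧ lamN b disc < lamRad b ∧ ∀ B : ℝ, 0 < B → B ≤ b →
  ∀ Ω : Set ℂ, IsOpen Ω → IsSimplyConnected Ω → volume Ω = ENNReal.ofReal Real.pi →
  lamN B (toR Ω) ≤ lamN B disc ∧ (lamN B (toR Ω) = lamN B disc → ∃ q : ℂ, Ω = Metric.ball q 1)

/-- ITEM FinR (captain; scaling, as `NF/I_Fin.lean`). -/
def StFinR : Prop := ∃ b : ℝ, 0 < b ∧ lamN b disc < lamRad b ∧ ∀ B R : ℝ, 0 < B → 0 < R → B * R ^ 2 ≤ b →
  ∀ Ω : Set (ℝ × ℝ), IsOpen Ω → SimplyConnectedSpace Ω → volume Ω = volume (edisc 0 R) →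
  lamN B Ω ≤ lamN B (edisc 0 R) ∧ (lamN B Ω = lamN B (edisc 0 R) → ∃ q : ℝ × ℝ, Ω = edisc q R)

end Pool.Agent.MFK.RT
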