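import Pool.Agent.Work.MP_8826fd_mp.RT.Stmts
import Pool.Agent.Work.MP_8826fd_mp.NF.I_PC
import Pool.Agent.Work.MP_8826fd_mp.NF.I_F1
import Pool.Agent.Work.MP_8826fd_mp.NF.I_Area

/-!
# MP_8826fd_mp, block RT, item Dir (helper85): the area of the image in terms of the Taylor coefficients
-/

set_option autoImplicit false

namespace Pool.Agent.MFK.RT

open MeasureTheory Set Filter Topology Pool.Agent.MFK.NF
open scoped ComplexConjugate

namespace IDir

/-- the coefficients are bounded -/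
theorem bdd {a : ℕ → ℂ} (h : Summable (fun n : ℕ => (n : ℝ) * ‖a n‖ ^ 2)) :
    ∃ M : ℝ, 0 ≤ M ∧ ∀ n, ‖a n‖ ≤ M := by
  obtain ⟨M, hM⟩ := h.tendsto_atTop_zero.bddAbove_range
  have hM' : ∀ n : ℕ, (n : ℝ) * ‖a n‖ ^ 2 ≤ M := fun n => hM ⟨n, rfl⟩
  refine ⟨max ‖a 0‖ (1 + M), le_trans (norm_nonneg _) (le_max_left _ _), fun n => ?_⟩
  rcases n with _ | n
  · exact le_max_left _ _
  · refine le_trans ?_ (le_max_right _ _)
    have h1 := hM' (n + 1)
    push_cast at h1
    have h2 : 0 ≤ (n : ℝ) * ‖a (n + 1)‖ ^ 2 := by positivity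
    nlinarith [sq_nonneg (‖a (n + 1)‖ - 1), norm_nonneg (a (n + 1))]

theorem summ {a : ℕ → ℂ} {M : ℝ} (hM : ∀ n, ‖a n‖ ≤ M) {w : ℂ} (hw : ‖w‖ < 1) :
    Summable fun n : ℕ => a n * w ^ n := by
  refine Summable.of_norm_bounded ((summable_geometric_of_lt_one (norm_nonneg w) hw).mul_left M)
    fun n => ?_
  rw [norm_mul, norm_pow]
  exact mul_le_mul_of_nonneg_right (hM n) (by positivity)

/-- the power series is holomorphic on the unit disc -/
theorem hol {a : ℕ → ℂ} (h : Summable (fun n : ℕ => (n : ℝ) * ‖a n‖ ^ 2)) : Hol (ps a) a := by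
  obtain ⟨M, hM0, hM⟩ := bdd h
  refine ⟨fun w hw => ?_, fun w hw => ?_⟩
  · have hw1 : ‖w‖ < 1 := by simpa using hw
    obtain ⟨ρ, hr1, hr2⟩ := exists_between hw1
    have hr0 : 0 ≤ ρ := (norm_nonneg w).trans hr1.le
    have hd : DifferentiableOn ℂ (fun z : ℂ => ∑' n : ℕ, a n * z ^ n) (Metric.ball 0 ρ) := by
      refine Complex.differentiableOn_tsum_of_summable_norm
        ((summable_geometric_of_lt_one hr0 hr2).mul_left M) (fun n => by fun_prop)
        Metric.isOpen_ball fun n z hz => ?_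
      have hz1 : ‖z‖ ≤ ρ := by
        have : ‖z‖ < ρ := by simpa using hz
        exact this.le
      rw [norm_mul, norm_pow]
      exact mul_le_mul (hM n) (pow_le_pow_left₀ (norm_nonneg z) hz1 n) (by positivity) hM0
    have hwρ : w ∈ Metric.ball (0 : ℂ) ρ := by simpa using hr1
    exact (hd.differentiableAt (Metric.isOpen_ball.mem_nhds hwρ)).differentiableWithinAt
  · have hw1 : ‖w‖ < 1 := by simpa using hw
    exact (summ hM hw1).hasSum

/-- the derivative, away from the origin -/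
theorem der {a : ℕ → ℂ} (h : Hol (ps a) a) {w : ℂ} (hw : w ∈ Metric.ball (0 : ℂ) 1) (h0 : w ≠ 0) :
    deriv (ps a) w = psd a w := by
  have h1 := (IF1.serD h hw).tsum_eq
  have h2 : w * psd a w = ∑' n : ℕ, (n : ℂ) * a n * w ^ n := by
    rw [psd, ← tsum_mul_left]
    refine tsum_congr fun n => ?_
    rcases n with _ | n
    · simp
    · rw [Nat.add_sub_cancel, pow_succ]
      ring
  rw [← h2] at h1
  exact (mul_left_cancel₀ h0 h1).symm

theorem cont {F : ℂ → ℂ} {a : ℕ → ℂ} (h : Hol F a) :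
    ContinuousOn (fun w => ‖deriv F w‖ ^ 2) (Metric.ball (0 : ℂ) 1) :=
  ((h.Fd.deriv Metric.isOpen_ball).continuousOn.norm).pow 2

/-- the area as a `lintegral` -/
theorem lint {F : ℂ → ℂ} {a : ℕ → ℂ} (h : Hol F a) (hs : Summable (fun n : ℕ => (n : ℝ) * ‖a n‖ ^ 2)) :
    (∫⁻ w in Metric.ball (0 : ℂ) 1, ENNReal.ofReal (‖deriv F w‖ ^ 2)) = ENNReal.ofReal (Real.pi * Ar a) := by
  have hm : AEMeasurable (fun w => ENNReal.ofReal (‖deriv F w‖ ^ 2))
      (volume.restrict (Metric.ball (0 : ℂ) 1)) :=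
    (ENNReal.continuous_ofReal.comp_continuousOn (cont h)).aemeasurable
      Metric.isOpen_ball.measurableSet
  rw [IPC.polar hm]
  have e1 : (∫⁻ r in Ioo (0 : ℝ) 1, ∫⁻ θ in Ioo (0 : ℝ) (2 * Real.pi),
      ENNReal.ofReal r * ENNReal.ofReal (‖deriv F (pc r θ)‖ ^ 2)) =
      ∫⁻ r in Ioo (0 : ℝ) 1, ∑' j : ℕ,
        ENNReal.ofReal Real.pi * ENNReal.ofReal (cc a j * (2 * j * r ^ (2 * j - 1))) := by
    refine setLIntegral_congr_fun measurableSet_Ioo fun r hr => ?_
    have e2 : (∫⁻ θ in Ioo (0 : ℝ) (2 * Real.pi),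
        ENNReal.ofReal r * ENNReal.ofReal (‖deriv F (pc r θ)‖ ^ 2)) =
        ∫⁻ θ in Ioo (0 : ℝ) (2 * Real.pi), ENNReal.ofReal (r * ‖deriv F (pc r θ)‖ ^ 2) := by
      refine lintegral_congr fun θ => ?_
      rw [ENNReal.ofReal_mul hr.1.le]
    show (∫⁻ θ in Ioo (0 : ℝ) (2 * Real.pi),
        ENNReal.ofReal r * ENNReal.ofReal (‖deriv F (pc r θ)‖ ^ 2)) = _
    rw [e2, IArea.lint pr_F1 h hr, ENNReal.ofReal_mul Real.pi_pos.le, ENNReal.tsum_mul_left]
    congr 1
    unfold Aad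
    refine ENNReal.ofReal_tsum_of_nonneg (fun j => ?_) (IArea.Aad_summable pr_F1 h hr)
    have h3 := IArea.cc_nonneg a j
    have h4 := hr.1
    positivity
  rw [e1, lintegral_tsum (fun j => by fun_prop), ENNReal.ofReal_mul Real.pi_pos.le, Ar,
    ENNReal.ofReal_tsum_of_nonneg (fun n => by positivity) hs, ← ENNReal.tsum_mul_left]
  refine tsum_congr fun j => ?_
  rw [lintegral_const_mul' _ _ ENNReal.ofReal_ne_top,
    IArea.lint_pow j (cc a j) (IArea.cc_nonneg a j)]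
  · rfl
  · intro hj
    subst hj
    simp [cc]

end IDir

open IDir in
theorem pr_Dir : StDir := by
  intro a hs
  have h := hol hs
  have hne : ∀ᵐ w ∂(volume.restrict (Metric.ball (0 : ℂ) 1)), w ≠ 0 :=
    ae_restrict_of_ae (compl_mem_ae_iff.2 (measure_singleton (0 : ℂ)))
  have hae : (fun w => ‖deriv (ps a) w‖ ^ 2) =ᵐ[volume.restrict (Metric.ball (0 : ℂ) 1)]
      fun w => ‖psd a w‖ ^ 2 := by
    filter_upwards [hne, ae_restrict_mem Metric.isOpen_ball.measurableSet] with w h0 hw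
    rw [der h hw h0]
  have hm : AEStronglyMeasurable (fun w => ‖deriv (ps a) w‖ ^ 2)
      (volume.restrict (Metric.ball (0 : ℂ) 1)) :=
    (cont h).aestronglyMeasurable Metric.isOpen_ball.measurableSet
  have hl := lint h hs
  have hA : 0 ≤ Ar a := tsum_nonneg fun n => by positivity
  have hint : Integrable (fun w => ‖deriv (ps a) w‖ ^ 2)
      (volume.restrict (Metric.ball (0 : ℂ) 1)) := by
    refine ⟨hm, ?_⟩
    rw [hasFiniteIntegral_iff_ofReal (ae_of_all _ fun w => sq_nonneg _), hl]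
    exact ENNReal.ofReal_lt_top
  refine ⟨hint.congr hae, ?_⟩
  rw [← integral_congr_ae hae, integral_eq_lintegral_of_nonneg_ae (ae_of_all _ fun w => sq_nonneg _) hm,
    hl, ENNReal.toReal_ofReal (mul_nonneg Real.pi_pos.le hA)]

end Pool.Agent.MFK.RT
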