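import Pool.Agent.Work.MP_8826fd_mp.RT.RngD
import Pool.Agent.Work.MP_8826fd_mp.CD.AllU

/-!
# MP_8826fd_mp, block RT: the range theorem, without hypotheses
-/

set_option autoImplicit false

namespace Pool.Agent.MFK.RT

theorem hFinD : StFinD := finD_of CD.pr_C1p CD.hCMx CD.hSer CD.hMUU

end Pool.Agent.MFK.RT
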