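import Pool.Agent.Work.MP_8826fd_mp.NF.Gk

/-!
# MP_8826fd_mp, block RT, torsion half (captain helper88): definitions

GOAL of this half.  For a simply connected `Ω` of area `π` whose conformal radii are all `≤ s` one has
`λ(B, Ω) ≤ λ_rad(B) - (1/32) e^{-B} (B² - λ_rad²) (1 - s²)²`, where `λ_rad(B)` is the energy of the radial mode in the unit disc
(the inequality of Colbois, Lena, Provenzano and Savo with a deficit).  The test function is `f(τ)`, `τ` = torsion function of `Ω`.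
-/

set_option autoImplicit false

namespace Pool.Agent.MFK.RT

open MeasureTheory Set Filter Topology Pool.Agent.MFK.NF
open scoped ComplexConjugate

/-- conformal map of the unit disc onto `Ω` (inverse `f`), no symmetry -/
structure RM (Ω : Set ℂ) (f F : ℂ → ℂ) (a : ℕ → ℂ) : Prop extends Hol F a where
  opn : IsOpen Ω
  fd : DifferentiableOn ℂ f Ω
  fm : MapsTo f Ω (Metric.ball 0 1)
  Fm : MapsTo F (Metric.ball 0 1) Ω
  fF : ∀ w ∈ Metric.ball (0 : ℂ) 1, f (F w) = w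
  Ff : ∀ z ∈ Ω, F (f z) = z

/-- sum of the power series -/
noncomputable def ps (a : ℕ → ℂ) (w : ℂ) : ℂ := ∑' n : ℕ, a n * w ^ n

/-- its derivative -/
noncomputable def psd (a : ℕ → ℂ) (w : ℂ) : ℂ := ∑' n : ℕ, (n : ℂ) * a n * w ^ (n - 1)

/-- coefficients of `H`; `Re H = |F|²` on the unit circle -/
noncomputable def hc (a : ℕ → ℂ) (k : ℕ) : ℂ :=
  if k = 0 then ((∑' l : ℕ, ‖a l‖ ^ 2 : ℝ) : ℂ) else 2 * ∑' l : ℕ, a (l + k) * conj (a l)

/-- torsion function of the image in the coordinate of the disc: `τ = (Re H - |F|²)/4` -/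
noncomputable def tau (a : ℕ → ℂ) (w : ℂ) : ℝ := ((ps (hc a) w).re - ‖ps a w‖ ^ 2) / 4

/-- `q = conj F * F' - H'/2`, so `dτ(h) = -Re(q h)/2` and `|∇τ|² = |q|²/4` -/
noncomputable def qq (a : ℕ → ℂ) (w : ℂ) : ℂ := conj (ps a w) * psd a w - psd (hc a) w / 2

/-- power series with radius of convergence larger than `1` -/
def Nice (a : ℕ → ℂ) : Prop := ∃ θ C : ℝ, 0 < θ ∧ θ < 1 ∧ ∀ n, ‖a n‖ ≤ C * θ ^ n

/-- area of the image divided by `π` -/
noncomputable def Ar (a : ℕ → ℂ) : ℝ := ∑' n : ℕ, (n : ℝ) * ‖a n‖ ^ 2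

/-- conformal radius of the image at `F(w)` -/
noncomputable def cr (a : ℕ → ℂ) (w : ℂ) : ℝ := ‖psd a w‖ * (1 - ‖w‖ ^ 2)

/-- area of the part of the image where the torsion function is larger than `t` -/
noncomputable def av (a : ℕ → ℂ) (t : ℝ) : ℝ := ∫ w in {w : ℂ | ‖w‖ < 1 ∧ t < tau a w}, ‖psd a w‖ ^ 2

/-- coefficients of `F(ρ w)` -/
noncomputable def rs (ρ : ℝ) (a : ℕ → ℂ) (n : ℕ) : ℂ := a n * (ρ : ℂ) ^ n

/-- data of the radial mode of the unit disc -/
structure Rd (B lam : ℝ) : Prop where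
  hB : 0 < B
  pos : 0 < lam
  lt : lam < B
  zero : deriv (gk B lam 0) 1 = 0

/-- profile of the radial mode as a function of the torsion function `t = (1 - r²)/4` of the unit disc -/
noncomputable def fr (B lam t : ℝ) : ℝ := FK B lam 0 (1 - 4 * t)

/-- `Φ = f'² + B² f² - 2 lam f f'` -/
noncomputable def Phf (B lam : ℝ) (f : ℝ → ℝ) (t : ℝ) : ℝ :=
  deriv f t ^ 2 + B ^ 2 * f t ^ 2 - 2 * lam * (f t * deriv f t)

end Pool.Agent.MFK.RT
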