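import Pool.Agent.Work.MP_8826fd_mp.RT.Stmts
import Pool.Agent.Work.MP_8826fd_mp.NF.I_PC
import Pool.Agent.Work.MP_8826fd_mp.NF.I_F1
import Pool.Agent.Work.MP_8826fd_mp.NF.I_Area

/-!
# MP_8826fd_mp, block RT, item Arr (helper59): area, power series and derivative of the Riemann map
-/

set_option autoImplicit false

namespace Pool.Agent.MFK.RT

open MeasureTheory Set Filter Topology Pool.Agent.MFK.NF
open scoped ComplexConjugate

namespace IArr

/-- the derivative is given by the differentiated series -/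
theorem derEq {F : ℂ → ℂ} {a : ℕ → ℂ} (h : Hol F a) {w : ℂ} (hw1 : ‖w‖ < 1) :
    deriv F w = psd a w := by
  have hw : w ∈ Metric.ball (0 : ℂ) 1 := by simpa using hw1
  obtain ⟨ρ, hr1, hr2⟩ := exists_between hw1
  have hr0 : 0 < ρ := (norm_nonneg w).trans_lt hr1
  have hsum := IF1.sumA h hr0.le hr2
  have hu : Summable fun j : ℕ => (j : ℝ) * ‖a j‖ * ρ ^ (j - 1) := by
    have h2 := hsum.mul_left (1 / ρ)
    refine h2.congr fun j => ?_
    rcases j with _ | j
    · simp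
    · rw [Nat.add_sub_cancel, pow_succ]
      field_simp
  have hwρ : w ∈ Metric.ball (0 : ℂ) ρ := by simpa using hr1
  have hder : ∀ (n : ℕ) (y : ℂ), y ∈ Metric.ball (0 : ℂ) ρ →
      HasDerivAt (fun z => a n * z ^ n) (a n * (n * y ^ (n - 1))) y := fun n y _ =>
    (hasDerivAt_pow n y).const_mul (a n)
  have hbd : ∀ (n : ℕ) (y : ℂ), y ∈ Metric.ball (0 : ℂ) ρ →
      ‖a n * (n * y ^ (n - 1))‖ ≤ (n : ℝ) * ‖a n‖ * ρ ^ (n - 1) := by
    intro n y hy
    have hy' : ‖y‖ ≤ ρ := by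
      have : ‖y‖ < ρ := by simpa using hy
      exact this.le
    rw [norm_mul, norm_mul, norm_pow, Complex.norm_natCast]
    have : ‖y‖ ^ (n - 1) ≤ ρ ^ (n - 1) := pow_le_pow_left₀ (norm_nonneg y) hy' _
    calc ‖a n‖ * (n * ‖y‖ ^ (n - 1)) = (n : ℝ) * ‖a n‖ * ‖y‖ ^ (n - 1) := by ring
      _ ≤ _ := mul_le_mul_of_nonneg_left this (by positivity)
  have hd := hasDerivAt_tsum_of_isPreconnected hu Metric.isOpen_ball
    (convex_ball (0 : ℂ) ρ).isPreconnected hder hbd hwρ (h.ser w hw).summable hwρ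
  have hev : F =ᶠ[𝓝 w] fun z => ∑' n, a n * z ^ n := by
    filter_upwards [Metric.isOpen_ball.mem_nhds hw] with z hz
    exact (h.ser z hz).tsum_eq.symm
  rw [(hd.congr_of_eventuallyEq hev).deriv, psd]
  exact tsum_congr fun n => by ring

/-- the area as a series with values in `[0, ∞]` -/
theorem lint {F : ℂ → ℂ} {a : ℕ → ℂ} (h : Hol F a) :
    (∫⁻ w in Metric.ball (0 : ℂ) 1, ENNReal.ofReal (‖deriv F w‖ ^ 2)) =
      ENNReal.ofReal Real.pi * ∑' n : ℕ, ENNReal.ofReal ((n : ℝ) * ‖a n‖ ^ 2) := by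
  have hc : ContinuousOn (fun w => ‖deriv F w‖ ^ 2) (Metric.ball (0 : ℂ) 1) :=
    ((h.Fd.deriv Metric.isOpen_ball).continuousOn.norm).pow 2
  have hm : AEMeasurable (fun w => ENNReal.ofReal (‖deriv F w‖ ^ 2))
      (volume.restrict (Metric.ball (0 : ℂ) 1)) :=
    (ENNReal.continuous_ofReal.comp_continuousOn hc).aemeasurable
      Metric.isOpen_ball.measurableSet
  rw [IPC.polar hm]
  have e1 : (∫⁻ r in Ioo (0 : ℝ) 1, ∫⁻ θ in Ioo (0 : ℝ) (2 * Real.pi),
      ENNReal.ofReal r * ENNReal.ofReal (‖deriv F (pc r θ)‖ ^ 2)) =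
      ∫⁻ r in Ioo (0 : ℝ) 1, ∑' j : ℕ,
        ENNReal.ofReal Real.pi * ENNReal.ofReal (cc a j * (2 * j * r ^ (2 * j - 1))) := by
    refine setLIntegral_congr_fun measurableSet_Ioo fun r hr => ?_
    have e2 : (∫⁻ θ in Ioo (0 : ℝ) (2 * Real.pi),
        ENNReal.ofReal r * ENNReal.ofReal (‖deriv F (pc r θ)‖ ^ 2)) =
        ∫⁻ θ in Ioo (0 : ℝ) (2 * Real.pi), ENNReal.ofReal (r * ‖deriv F (pc r θ)‖ ^ 2) := by
      refine lintegral_congr fun θ => ?_
      rw [ENNReal.ofReal_mul hr.1.le]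
    show (∫⁻ θ in Ioo (0 : ℝ) (2 * Real.pi),
        ENNReal.ofReal r * ENNReal.ofReal (‖deriv F (pc r θ)‖ ^ 2)) = _
    rw [e2, IArea.lint pr_F1 h hr, ENNReal.ofReal_mul Real.pi_pos.le, ENNReal.tsum_mul_left]
    congr 1
    unfold Aad
    refine ENNReal.ofReal_tsum_of_nonneg (fun j => ?_) (IArea.Aad_summable pr_F1 h hr)
    have h3 := IArea.cc_nonneg a j
    have h4 := hr.1
    positivity
  rw [e1, lintegral_tsum (fun j => by fun_prop), ← ENNReal.tsum_mul_left]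
  refine tsum_congr fun j => ?_
  rw [lintegral_const_mul' _ _ ENNReal.ofReal_ne_top,
    IArea.lint_pow j (cc a j) (IArea.cc_nonneg a j)]
  · rfl
  · intro hj
    subst hj
    simp [cc]

end IArr

open IArr in
theorem pr_Arr (h1 : StPC0) : StArr := by
  intro Ω f F a hC hvol
  have hpi : ENNReal.ofReal Real.pi ≠ 0 := by
    rw [Ne, ENNReal.ofReal_eq_zero, not_le]
    exact Real.pi_pos
  have h2 := h1 Ω f F a (fun _ => 1) hC aemeasurable_const
  have h3 : (∫⁻ _ in Ω, (1 : ENNReal)) = ENNReal.ofReal Real.pi := by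
    rw [setLIntegral_one, hvol]
  rw [h3] at h2
  simp only [mul_one] at h2
  rw [lint hC.toHol] at h2
  have h4 : (∑' n : ℕ, ENNReal.ofReal ((n : ℝ) * ‖a n‖ ^ 2)) = 1 := by
    have h5 : ENNReal.ofReal Real.pi * 1 =
        ENNReal.ofReal Real.pi * ∑' n : ℕ, ENNReal.ofReal ((n : ℝ) * ‖a n‖ ^ 2) := by
      rw [mul_one]; exact h2
    exact ((ENNReal.mul_right_inj hpi ENNReal.ofReal_ne_top).1 h5).symm
  have hnn : ∀ n : ℕ, 0 ≤ (n : ℝ) * ‖a n‖ ^ 2 := fun n => by positivity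
  have hs : Summable (fun n : ℕ => (n : ℝ) * ‖a n‖ ^ 2) := by
    have h6 : (∑' n : ℕ, ENNReal.ofReal ((n : ℝ) * ‖a n‖ ^ 2)) ≠ ⊤ := by
      rw [h4]; exact ENNReal.one_ne_top
    refine (ENNReal.summable_toReal h6).congr fun n => ?_
    exact ENNReal.toReal_ofReal (hnn n)
  refine ⟨hs, ?_, ?_⟩
  · have h7 := ENNReal.ofReal_tsum_of_nonneg hnn hs
    rw [h4] at h7
    have h8 : ENNReal.ofReal (Ar a) = 1 := h7
    have h9 : 0 ≤ Ar a := tsum_nonneg hnn
    have := congrArg ENNReal.toReal h8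
    rwa [ENNReal.toReal_ofReal h9, ENNReal.toReal_one] at this
  · intro w hw1
    have hw : w ∈ Metric.ball (0 : ℂ) 1 := by simpa using hw1
    have hd := derEq hC.toHol hw1
    refine ⟨(hC.ser w hw).tsum_eq.symm, hd, ?_⟩
    rw [← hd]
    intro h0
    have hFd : HasDerivAt F (deriv F w) w :=
      (hC.Fd.differentiableAt (Metric.isOpen_ball.mem_nhds hw)).hasDerivAt
    have hfd : HasDerivAt f (deriv f (F w)) (F w) :=
      (hC.fd.differentiableAt (hC.opn.mem_nhds (hC.Fm hw))).hasDerivAt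
    have hcomp := hfd.comp w hFd
    have hid : HasDerivAt (f ∘ F) 1 w := by
      refine (hasDerivAt_id w).congr_of_eventuallyEq ?_
      filter_upwards [Metric.isOpen_ball.mem_nhds hw] with z hz
      exact hC.fF z hz
    have := hcomp.unique hid
    rw [h0, mul_zero] at this
    exact zero_ne_one this

end Pool.Agent.MFK.RT
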