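import Pool.Agent.Work.MP_8826fd_mp.RT.Stmts

/-!
# MP_8826fd_mp, block RT, item Bd: the torsion function vanishes on the unit circle (helper39)

On the circle `|F|^2` is the sum of `f_l conj(f_p)` with `f_n = a_n w^n`; the pairs with `p ≤ l` are `(p + k, p)`, the pairs with
`l < p` are `(l, l + (k+1))`, and the second sum is conjugate to the part `k ≥ 1` of the first.
-/

set_option autoImplicit false

namespace Pool.Agent.MFK.RT

open MeasureTheory Set Filter Topology Pool.Agent.MFK.NF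
open scoped ComplexConjugate

namespace IBd

/-- pairs with `p ≤ l` -/
def e1 (x : ℕ × ℕ) : ℕ × ℕ := (x.2 + x.1, x.2)

/-- pairs with `l < p` -/
def e2 (x : ℕ × ℕ) : ℕ × ℕ := (x.2, x.2 + (x.1 + 1))

lemma e1_inj : Function.Injective e1 := by
  rintro ⟨a, b⟩ ⟨c, d⟩ h
  have h1 : b + a = d + c := congrArg Prod.fst h
  have h2 : b = d := congrArg Prod.snd h
  have : a = c := by omega
  subst this; subst h2; rfl

lemma e2_inj : Function.Injective e2 := by
  rintro ⟨a, b⟩ ⟨c, d⟩ h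
  have h1 : b = d := congrArg Prod.fst h
  have h2 : b + (a + 1) = d + (c + 1) := congrArg Prod.snd h
  have : a = c := by omega
  subst this; subst h1; rfl

lemma em_bij : Function.Bijective (Sum.elim e1 e2) := by
  constructor
  · rintro (⟨a, b⟩ | ⟨a, b⟩) (⟨c, d⟩ | ⟨c, d⟩) h
    · exact congrArg Sum.inl (e1_inj h)
    · exfalso
      have h1 : b + a = d := congrArg Prod.fst h
      have h2 : b = d + (c + 1) := congrArg Prod.snd h
      omega
    · exfalso
      have h1 : b = d + c := congrArg Prod.fst h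
      have h2 : b + (a + 1) = d := congrArg Prod.snd h
      omega
    · exact congrArg Sum.inr (e2_inj h)
  · rintro ⟨l, p⟩
    rcases le_or_gt p l with h | h
    · refine ⟨Sum.inl (l - p, p), Prod.ext ?_ rfl⟩
      show p + (l - p) = l
      omega
    · refine ⟨Sum.inr (p - l - 1, l), Prod.ext rfl ?_⟩
      show l + (p - l - 1 + 1) = p
      omega

lemma split (g : ℕ × ℕ → ℂ) (hg : Summable g) :
    (∑' x, g x) = (∑' x, g (e1 x)) + ∑' x, g (e2 x) := by
  have h1 : Summable fun x => g (e1 x) := hg.comp_injective e1_inj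
  have h2 : Summable fun x => g (e2 x) := hg.comp_injective e2_inj
  have h3 : HasSum (g ∘ Sum.elim e1 e2) ((∑' x, g (e1 x)) + ∑' x, g (e2 x)) :=
    HasSum.sum (f := g ∘ Sum.elim e1 e2) h1.hasSum h2.hasSum
  have h4 : HasSum (g ∘ Sum.elim e1 e2) (∑' x, g x) :=
    (Equiv.ofBijective (Sum.elim e1 e2) em_bij).hasSum_iff.mpr hg.hasSum
  exact h4.unique h3

lemma conj_mul_self_pow {w : ℂ} (hw : ‖w‖ = 1) (n : ℕ) : w ^ n * conj (w ^ n) = 1 := by
  rw [Complex.mul_conj, Complex.normSq_eq_norm_sq, norm_pow, hw]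
  simp

/-- correlation -/
noncomputable def cc (a : ℕ → ℂ) (k : ℕ) : ℂ := ∑' l : ℕ, a (l + k) * conj (a l)

lemma key (a : ℕ → ℂ) {w : ℂ} (hw : ‖w‖ = 1) (l k : ℕ) :
    (a (l + k) * w ^ (l + k)) * conj (a l * w ^ l) = (a (l + k) * conj (a l)) * w ^ k := by
  have h := conj_mul_self_pow hw l
  rw [map_mul, pow_add]
  linear_combination (a (l + k) * conj (a l) * w ^ k) * h

/-- the product of the two series as a double series -/
noncomputable def G (a : ℕ → ℂ) (w : ℂ) (x : ℕ × ℕ) : ℂ := (a x.1 * w ^ x.1) * conj (a x.2 * w ^ x.2)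

lemma G_e1 (a : ℕ → ℂ) {w : ℂ} (hw : ‖w‖ = 1) (k l : ℕ) :
    G a w (e1 (k, l)) = (a (l + k) * conj (a l)) * w ^ k := key a hw l k

lemma G_e2 (a : ℕ → ℂ) {w : ℂ} (hw : ‖w‖ = 1) (k l : ℕ) :
    G a w (e2 (k, l)) = conj ((a (l + (k + 1)) * conj (a l)) * w ^ (k + 1)) := by
  rw [← key a hw l (k + 1), map_mul, Complex.conj_conj, mul_comm]
  rfl

lemma normf (a : ℕ → ℂ) {w : ℂ} (hw : ‖w‖ = 1) (n : ℕ) : ‖a n * w ^ n‖ = ‖a n‖ := by
  rw [norm_mul, norm_pow, hw, one_pow, mul_one]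

lemma G_sum (a : ℕ → ℂ) (ha : Summable fun n => ‖a n‖) {w : ℂ} (hw : ‖w‖ = 1) : Summable (G a w) := by
  have hfs : Summable fun n => ‖a n * w ^ n‖ := ha.congr fun n => (normf a hw n).symm
  have hgs : Summable fun n => ‖conj (a n * w ^ n)‖ := hfs.congr fun n => (RCLike.norm_conj _).symm
  have h := summable_mul_of_summable_norm (f := fun n : ℕ => a n * w ^ n)
    (g := fun n : ℕ => conj (a n * w ^ n)) hfs hgs
  exact h

lemma G_tsum (a : ℕ → ℂ) (ha : Summable fun n => ‖a n‖) {w : ℂ} (hw : ‖w‖ = 1) :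
    ps a w * conj (ps a w) = ∑' x, G a w x := by
  have hfs : Summable fun n => ‖a n * w ^ n‖ := ha.congr fun n => (normf a hw n).symm
  have hgs : Summable fun n => ‖conj (a n * w ^ n)‖ := hfs.congr fun n => (RCLike.norm_conj _).symm
  rw [ps, Complex.conj_tsum]
  have h := tsum_mul_tsum_of_summable_norm (f := fun n : ℕ => a n * w ^ n)
    (g := fun n : ℕ => conj (a n * w ^ n)) hfs hgs
  exact h

lemma part1 (a : ℕ → ℂ) (ha : Summable fun n => ‖a n‖) {w : ℂ} (hw : ‖w‖ = 1) :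
    Summable (fun k : ℕ => cc a k * w ^ k) ∧ (∑' x, G a w (e1 x)) = ∑' k : ℕ, cc a k * w ^ k := by
  have h : Summable fun x => G a w (e1 x) := (G_sum a ha hw).comp_injective e1_inj
  have h1 : ∀ k : ℕ, (∑' l : ℕ, G a w (e1 (k, l))) = cc a k * w ^ k := by
    intro k
    rw [cc, ← tsum_mul_right]
    exact tsum_congr fun l => G_e1 a hw k l
  refine ⟨h.prod.congr h1, ?_⟩
  rw [h.tsum_prod]
  exact tsum_congr h1

lemma part2 (a : ℕ → ℂ) (ha : Summable fun n => ‖a n‖) {w : ℂ} (hw : ‖w‖ = 1) :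
    (∑' x, G a w (e2 x)) = conj (∑' k : ℕ, cc a (k + 1) * w ^ (k + 1)) := by
  have h : Summable fun x => G a w (e2 x) := (G_sum a ha hw).comp_injective e2_inj
  have h1 : ∀ k : ℕ, (∑' l : ℕ, G a w (e2 (k, l))) = conj (cc a (k + 1) * w ^ (k + 1)) := by
    intro k
    rw [cc, ← tsum_mul_right, Complex.conj_tsum]
    exact tsum_congr fun l => G_e2 a hw k l
  rw [h.tsum_prod, Complex.conj_tsum]
  exact tsum_congr h1

lemma hc_zero (a : ℕ → ℂ) : hc a 0 = cc a 0 := by
  rw [hc, if_pos rfl, cc, Complex.ofReal_tsum]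
  refine tsum_congr fun l => ?_
  rw [Nat.add_zero, Complex.mul_conj, Complex.normSq_eq_norm_sq]

lemma hc_succ (a : ℕ → ℂ) (k : ℕ) : hc a (k + 1) = 2 * cc a (k + 1) := by
  rw [hc, if_neg (Nat.succ_ne_zero k), cc]

lemma main (a : ℕ → ℂ) (ha : Summable fun n => ‖a n‖) (w : ℂ) (hw : ‖w‖ = 1) :
    ‖ps a w‖ ^ 2 = (ps (hc a) w).re := by
  obtain ⟨h1s, h1⟩ := part1 a ha hw
  have h3 : (∑' k : ℕ, cc a k * w ^ k) = cc a 0 + ∑' k : ℕ, cc a (k + 1) * w ^ (k + 1) := by
    rw [h1s.tsum_eq_zero_add, pow_zero, mul_one]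
  have h4s : Summable fun k : ℕ => cc a (k + 1) * w ^ (k + 1) := (summable_nat_add_iff 1).mpr h1s
  have h5s : Summable fun k : ℕ => hc a k * w ^ k := by
    rw [← summable_nat_add_iff 1]
    refine (h4s.mul_left 2).congr fun k => ?_
    rw [hc_succ]; ring
  have h5 : ps (hc a) w = cc a 0 + 2 * ∑' k : ℕ, cc a (k + 1) * w ^ (k + 1) := by
    rw [ps, h5s.tsum_eq_zero_add, hc_zero, pow_zero, mul_one, ← tsum_mul_left]
    congr 1
    refine tsum_congr fun k => ?_
    rw [hc_succ]; ring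
  have h7 : ‖ps a w‖ ^ 2 = (ps a w * conj (ps a w)).re := by
    rw [Complex.mul_conj, Complex.normSq_eq_norm_sq, Complex.ofReal_re]
  rw [h7, G_tsum a ha hw, split _ (G_sum a ha hw), h1, part2 a ha hw, h3, h5]
  simp only [Complex.add_re, Complex.conj_re, Complex.mul_re, Complex.re_ofNat, Complex.im_ofNat]
  ring

end IBd

/-- ITEM Bd -/
theorem pr_Bd : StBd := by
  intro a ha w hw
  obtain ⟨θ, C, h0, h1, h⟩ := ha
  have hs : Summable fun n => ‖a n‖ :=
    Summable.of_nonneg_of_le (fun n => norm_nonneg _) h ((summable_geometric_of_lt_one h0.le h1).mul_left C)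
  rw [tau, IBd.main a hs w hw]
  simp

end Pool.Agent.MFK.RT
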