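import Pool.Agent.Work.MP_8826fd_mp.RT.Stmts2
import Pool.Agent.Work.MP_8826fd_mp.NU.I_Gr
import Pool.Agent.Work.MP_8826fd_mp.NU.I_Up

/-!
# MP_8826fd_mp, block RT, item Big: a field for which the ground state of the disc is not radial
-/

set_option autoImplicit false

namespace Pool.Agent.MFK.RT

open MeasureTheory Set Filter Topology Pool.Agent.MFK.NF

namespace IBig

theorem kc_succ (A : ℝ) (k : ℕ) : kc A 1 (k + 1) = kc A 1 k * ((A + k) / ((1 + k) * (k + 1))) := by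
  unfold kc
  rw [Finset.prod_range_succ]

theorem kc_low {A : ℝ} (hA : 0 < A) (k : ℕ) : A ≤ kc A 1 (k + 1) * ((k + 1 : ℕ) * (Nat.factorial (k + 1) : ℝ)) := by
  induction k with
  | zero => simp [kc]
  | succ k ih =>
    rw [kc_succ A (k + 1), Nat.factorial_succ (k + 1)]
    have e : kc A 1 (k + 1) * ((A + ((k + 1 : ℕ) : ℝ)) / ((1 + ((k + 1 : ℕ) : ℝ)) * (((k + 1 : ℕ) : ℝ) + 1))) *
        (((k + 1 + 1 : ℕ) : ℝ) * (((k + 1 + 1) * Nat.factorial (k + 1) : ℕ) : ℝ)) =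
        kc A 1 (k + 1) * ((k + 1 : ℕ) * (Nat.factorial (k + 1) : ℝ)) * ((A + ((k + 1 : ℕ) : ℝ)) / ((k + 1 : ℕ) : ℝ)) := by
      push_cast
      have h1 : (1 : ℝ) + (k + 1) ≠ 0 := by positivity
      have h2 : (k : ℝ) + 1 ≠ 0 := by positivity
      have h3 : (k : ℝ) + 1 + 1 ≠ 0 := by positivity
      field_simp
      ring
    rw [e]
    have h4 : 1 ≤ (A + ((k + 1 : ℕ) : ℝ)) / ((k + 1 : ℕ) : ℝ) := by
      have h5 : (0 : ℝ) < ((k + 1 : ℕ) : ℝ) := by positivity
      rw [le_div_iff₀ h5]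
      linarith
    exact ih.trans (le_mul_of_one_le_right (hA.le.trans ih) h4)

theorem kc_low' {A : ℝ} (hA : 0 < A) (hA1 : A ≤ 1) (k : ℕ) : A / (Nat.factorial (k + 1) : ℝ) ≤ kc A 1 k := by
  have hf : (0 : ℝ) < (Nat.factorial (k + 1) : ℝ) := by exact_mod_cast Nat.factorial_pos _
  rw [div_le_iff₀ hf]
  rcases k with _ | k
  · simpa [kc] using hA1
  · have h1 := kc_low hA k
    have h2 : 0 ≤ kc A 1 (k + 1) := by
      unfold kc
      exact Finset.prod_nonneg fun i _ => by positivity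
    refine h1.trans (mul_le_mul_of_nonneg_left ?_ h2)
    rw [Nat.factorial_succ (k + 1)]
    push_cast
    have h3 : (0 : ℝ) ≤ (Nat.factorial (k + 1) : ℝ) := by positivity
    nlinarith

theorem exp_tail (z : ℝ) : HasSum (fun k : ℕ => z ^ (k + 1) / (Nat.factorial (k + 1) : ℝ)) (Real.exp z - 1) := by
  have h := NormedSpace.expSeries_div_hasSum_exp (𝔸 := ℝ) z
  rw [← Real.exp_eq_exp_ℝ] at h
  have h2 := (hasSum_nat_add_iff' 1).2 h
  simpa using h2

theorem phi_low {A : ℝ} (hA : 0 < A) (hA1 : A ≤ 1) {z : ℝ} (hz : 0 < z) : A * (Real.exp z - 1) ≤ z * Phi A 1 z := by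
  have h1 := (exp_tail z).mul_left A
  have h2 := ((kSum A 1 z one_pos).1.hasSum).mul_left z
  refine hasSum_le (fun k => ?_) h1 h2
  have h3 := mul_le_mul_of_nonneg_right (kc_low' hA hA1 k) (pow_nonneg hz.le (k + 1))
  calc A * (z ^ (k + 1) / (Nat.factorial (k + 1) : ℝ)) = A / (Nat.factorial (k + 1) : ℝ) * z ^ (k + 1) := by ring
    _ ≤ kc A 1 k * z ^ (k + 1) := h3
    _ = z * (kc A 1 k * z ^ k) := by ring

theorem phi_zero (A : ℝ) : Phi A 1 0 = 1 := by
  unfold Phi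
  rw [tsum_eq_single 0 (fun k hk => by rw [zero_pow hk, mul_zero])]
  simp [kc]

theorem exists_z {A : ℝ} (hA : 0 < A) (hA1 : A ≤ 1 / 4) : ∃ z > 0, Phi A 1 z < 2 * Phi1 A 1 z := by
  by_contra hcon
  push Not at hcon
  have hd : ∀ z : ℝ, HasDerivAt (fun z => Real.exp (-(z / 2)) * Phi A 1 z)
      (Real.exp (-(z / 2)) * (Phi1 A 1 z - Phi A 1 z / 2)) z := by
    intro z
    have h1 : HasDerivAt (fun z : ℝ => -(z / 2)) (-(1 / 2)) z := ((hasDerivAt_id z).div_const 2).neg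
    have h2 := h1.exp.mul (Asm.kDer' A 1 z one_pos)
    refine h2.congr_deriv ?_
    ring
  have hanti : AntitoneOn (fun z => Real.exp (-(z / 2)) * Phi A 1 z) (Ici 0) := by
    refine antitoneOn_of_deriv_nonpos (convex_Ici 0) (fun z _ => (hd z).continuousAt.continuousWithinAt)
      (fun z _ => (hd z).differentiableAt.differentiableWithinAt) fun z hz => ?_
    rw [interior_Ici] at hz
    rw [(hd z).deriv]
    have h1 := hcon z hz
    have h2 := Real.exp_pos (-(z / 2))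
    nlinarith
  have hub : ∀ z : ℝ, 0 < z → Phi A 1 z ≤ Real.exp (z / 2) := by
    intro z hz
    have h1 := hanti (self_mem_Ici) (show z ∈ Ici (0 : ℝ) from hz.le) hz.le
    simp only [phi_zero, zero_div, neg_zero, Real.exp_zero, mul_one] at h1
    have h2 : Real.exp (z / 2) * (Real.exp (-(z / 2)) * Phi A 1 z) ≤ Real.exp (z / 2) * 1 :=
      mul_le_mul_of_nonneg_left h1 (Real.exp_pos _).le
    rw [← mul_assoc, ← Real.exp_add, add_neg_cancel, Real.exp_zero, one_mul, mul_one] at h2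
    exact h2
  -- `t = 6/A`, `z = 2t`
  obtain ⟨t, ht⟩ : ∃ t, t = 6 / A := ⟨_, rfl⟩
  have hAt : A * t = 6 := by rw [ht]; field_simp
  have ht24 : 24 ≤ t := by
    rw [ht, le_div_iff₀ hA]
    linarith
  have h1 := phi_low hA (by linarith) (show 0 < 2 * t by linarith)
  have h2 := hub (2 * t) (by linarith)
  rw [show 2 * t / 2 = t by ring] at h2
  have h3 : A * (Real.exp (2 * t) - 1) ≤ 2 * t * Real.exp t :=
    h1.trans (mul_le_mul_of_nonneg_left h2 (by linarith))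
  rw [two_mul, Real.exp_add] at h3
  have h4 := Real.quadratic_le_exp_of_nonneg (show (0 : ℝ) ≤ t by linarith)
  set x := Real.exp t with hx
  have hx1 : 1 ≤ x := by nlinarith
  -- `A x ≤ 2 t + A / x ≤ 2 t + 1`
  have h5 : A * x ≤ 2 * t + 1 := by
    have h6 : A * (x * x) ≤ (2 * t + 1) * x := by nlinarith
    have h7 : A * x * x ≤ (2 * t + 1) * x := by linarith
    exact le_of_mul_le_mul_right h7 (by linarith)
  have h8 : A * (1 + t + t ^ 2 / 2) ≤ A * x := mul_le_mul_of_nonneg_left h4 hA.le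
  nlinarith

end IBig

open IBig in
theorem pr_Big (h1 : StUd) (h2 : StRdL) : StBig := by
  obtain ⟨A0, hA0, hA1, hUp⟩ := NU.pr_Up
  obtain ⟨z, hz, hz2⟩ := exists_z (A := A0 / 2) (by linarith) (by linarith)
  obtain ⟨B, hBdef⟩ : ∃ B, B = 2 * z := ⟨_, rfl⟩
  have hB : 0 < B := by rw [hBdef]; linarith
  have hl'0 : 0 < (1 - A0) * B := mul_pos (by linarith) hB
  have hl'1 : (1 - A0) * B < B := by nlinarith
  have hAn : An B ((1 - A0) * B) ((0 : ℕ) : ℤ) = A0 / 2 := by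
    unfold An
    have : ¬ (((0 : ℕ) : ℤ) < 0) := by simp
    rw [if_neg this]
    field_simp
    ring
  have hv := (Asm.rVal' B ((1 - A0) * B) ((0 : ℕ) : ℤ) hB).1
  rw [hAn] at hv
  have hpos : 0 ≤ deriv (gk B ((1 - A0) * B) 0) 1 := by
    show 0 ≤ deriv (radf ((0 : ℕ) : ℤ) (FK B ((1 - A0) * B) ((0 : ℕ) : ℤ))) 1
    rw [hv]
    have e1 : B / 2 = z := by rw [hBdef]; ring
    simp only [Nat.cast_zero, Int.natAbs_zero, CharP.cast_eq_zero, zero_add, zero_sub, e1]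
    refine mul_nonneg (Real.exp_pos _).le ?_
    rw [hBdef]
    nlinarith
  have hR := h2 B ((1 - A0) * B) hB hl'0 hl'1 hpos
  obtain ⟨lam, m, hG⟩ := NU.pr_Gr B hB
  have hU := (h1 B lam m hB hG.lam_lt hG.zero).1
  have h3 := (hUp B lam m hG).1
  refine ⟨B, hB, ?_⟩
  have h4 : lam ≤ (1 - 2 * A0) * B := by
    have h5 : lam / (2 * B) ≤ 1 / 2 - A0 := by linarith
    rw [div_le_iff₀ (by linarith)] at h5
    linarith
  have h6 : (1 - 2 * A0) * B < (1 - A0) * B := by nlinarith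
  linarith

end Pool.Agent.MFK.RT
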