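import Pool.Agent.Work.MP_8826fd_mp.RT.Stmts2

/-!
# MP_8826fd_mp, block RT, item Crs: end of the radial regime
-/

set_option autoImplicit false

namespace Pool.Agent.MFK.RT

open MeasureTheory Set Filter Topology Pool.Agent.MFK.NF

namespace ICrs

/-- two functions with the Lipschitz type bound of `StLip` which agree on `(0, b)` satisfy `G b ≤ F b` -/
lemma le_left (F G : ℝ → ℝ) (hF : ∀ B B' t : ℝ, 0 < t → F B' ≤ (1 + t) * F B + (1 + 1 / t) * (B' - B) ^ 2 / 4)
    (hG : ∀ B B' t : ℝ, 0 < t → G B' ≤ (1 + t) * G B + (1 + 1 / t) * (B' - B) ^ 2 / 4)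
    (b : ℝ) (hb : 0 < b) (heq : ∀ B, 0 < B → B < b → F B = G B) : G b ≤ F b := by
  have key : ∀ d ∈ Ioo (0 : ℝ) b, G b ≤ (1 + d) ^ 2 * F b + (1 + d) * (d ^ 2 + d) / 4 + (d ^ 2 + d) / 4 := by
    intro d hd
    have hd0 : 0 < d := hd.1
    have e1 := hG (b - d) b d hd0
    have e2 := hF b (b - d) d hd0
    rw [heq (b - d) (by linarith [hd.2]) (by linarith)] at e2
    have e3 : (1 + 1 / d) * (b - (b - d)) ^ 2 / 4 = (d ^ 2 + d) / 4 := by
      field_simp
      ring
    have e4 : (1 + 1 / d) * (b - d - b) ^ 2 / 4 = (d ^ 2 + d) / 4 := by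
      field_simp
      ring
    rw [e3] at e1
    rw [e4] at e2
    have e5 : (1 + d) * G (b - d) ≤ (1 + d) * ((1 + d) * F b + (d ^ 2 + d) / 4) :=
      mul_le_mul_of_nonneg_left e2 (by linarith)
    nlinarith [e1, e5]
  have hlim : Tendsto (fun d : ℝ => (1 + d) ^ 2 * F b + (1 + d) * (d ^ 2 + d) / 4 + (d ^ 2 + d) / 4)
      (𝓝[>] (0 : ℝ)) (𝓝 (F b)) := by
    have hc : Continuous (fun d : ℝ => (1 + d) ^ 2 * F b + (1 + d) * (d ^ 2 + d) / 4 + (d ^ 2 + d) / 4) := by
      fun_prop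
    have h := hc.tendsto 0
    have h0 : (1 + (0 : ℝ)) ^ 2 * F b + (1 + 0) * (0 ^ 2 + 0) / 4 + (0 ^ 2 + 0) / 4 = F b := by ring
    rw [h0] at h
    exact h.mono_left nhdsWithin_le_nhds
  refine ge_of_tendsto hlim ?_
  filter_upwards [Ioo_mem_nhdsGT hb] with d hd
  exact key d hd

end ICrs

open ICrs

theorem pr_Crs (h1 : StLip) (h2 : StSm) (h3 : StBig) (h4 : StLe) : StCrs := by
  set S : Set ℝ := {B : ℝ | 0 < B ∧ lamN B disc < lamRad B} with hS
  have hne : S.Nonempty := h3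
  have hlb : ∀ B ∈ S, 2 ≤ B := by
    intro B hB
    by_contra hlt
    push Not at hlt
    have := h2 B hB.1 hlt.le
    exact absurd hB.2 (by rw [this]; exact lt_irrefl _)
  have hbdd : BddBelow S := ⟨2, fun B hB => hlb B hB⟩
  set b : ℝ := sInf S with hb
  have hb2 : 2 ≤ b := le_csInf hne hlb
  have hb0 : 0 < b := by linarith
  have heq : ∀ B, 0 < B → B < b → lamN B disc = lamRad B := by
    intro B hB0 hBb
    refine le_antisymm (h4 B) ?_
    by_contra hlt
    push Not at hlt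
    exact absurd (csInf_le hbdd (show B ∈ S from ⟨hB0, hlt⟩)) (not_le.mpr hBb)
  have hbb : lamRad b ≤ lamN b disc :=
    le_left (fun B => lamN B disc) lamRad (fun B B' t ht => (h1 B B' t ht).1)
      (fun B B' t ht => (h1 B B' t ht).2) b hb0 heq
  have hbeq : lamN b disc = lamRad b := le_antisymm (h4 b) hbb
  refine ⟨b, hb0, ?_, ?_⟩
  · intro B hB0 hBb
    rcases lt_or_eq_of_le hBb with h | h
    · exact heq B hB0 h
    · rw [h]
      exact hbeq
  · intro η hη
    obtain ⟨B, hBS, hBlt⟩ := exists_lt_of_csInf_lt hne (show sInf S < b + η by rw [← hb]; linarith)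
    refine ⟨B, ?_, hBlt, hBS.2⟩
    rcases lt_or_eq_of_le (csInf_le hbdd hBS) with h | h
    · exact h
    · exfalso
      have h' : b = B := h
      rw [h'] at hbeq
      exact absurd hBS.2 (by rw [hbeq]; exact lt_irrefl _)

end Pool.Agent.MFK.RT
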