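import Pool.Agent.Work.MP_8826fd_mp.RT.Stmts

/-!
# MP_8826fd_mp, block RT, item Der (helper90)
Smoothness of the torsion function in the coordinate of the disc, its gradient and its Laplacian.
-/

set_option autoImplicit false

namespace Pool.Agent.MFK.RT

open MeasureTheory Set Filter Topology Pool.Agent.MFK.NF
open scoped ComplexConjugate

namespace IDer

/-- real derivative of a holomorphic function -/
lemma hasFDerivAt_real {f : ℂ → ℂ} {d w : ℂ} (h : HasDerivAt f d w) :
    HasFDerivAt f ((ContinuousLinearMap.mul ℝ ℂ) d) w := by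
  have h1 := h.hasFDerivAt.restrictScalars ℝ
  refine h1.congr_fderiv ?_
  ext z
  all_goals simp [mul_comm]

/-- real derivative of the torsion function -/
lemma hasFDerivAt_tau {a : ℕ → ℂ} {w : ℂ} (h1 : HasDerivAt (ps a) (psd a w) w)
    (h2 : HasDerivAt (ps (hc a)) (psd (hc a) w) w) :
    ∃ L : ℂ →L[ℝ] ℝ, HasFDerivAt (tau a) L w ∧ ∀ h : ℂ, L h = -(qq a w * h).re / 2 := by
  have e1 := hasFDerivAt_real h1
  have e2 := hasFDerivAt_real h2
  have e3 : HasFDerivAt (fun z => ‖ps a z‖ ^ 2)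
      (2 • (innerSL ℝ (ps a w)).comp ((ContinuousLinearMap.mul ℝ ℂ) (psd a w))) w := e1.norm_sq
  have e4 : HasFDerivAt (fun z => (ps (hc a) z).re)
      (Complex.reCLM.comp ((ContinuousLinearMap.mul ℝ ℂ) (psd (hc a) w))) w :=
    Complex.reCLM.hasFDerivAt.comp w e2
  have e5 := (e4.sub e3).const_mul (4⁻¹ : ℝ)
  refine ⟨_, e5.congr_of_eventuallyEq ?_, ?_⟩
  · refine Filter.Eventually.of_forall fun z => ?_
    simp only [tau, Pi.sub_apply]
    ring
  · intro h
    simp only [ContinuousLinearMap.smul_apply, ContinuousLinearMap.sub_apply,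
      ContinuousLinearMap.comp_apply, ContinuousLinearMap.mul_apply', Complex.reCLM_apply,
      innerSL_apply_apply, Complex.inner, qq, smul_eq_mul, nsmul_eq_mul]
    simp only [Complex.mul_re, Complex.mul_im, Complex.sub_re, Complex.sub_im, Complex.conj_re,
      Complex.conj_im]
    have t1 : (psd (hc a) w / 2).re = (psd (hc a) w).re / 2 := by
      rw [show (psd (hc a) w / 2 : ℂ) = psd (hc a) w / ((2 : ℝ) : ℂ) by norm_num,
        Complex.div_ofReal_re]
    have t2 : (psd (hc a) w / 2).im = (psd (hc a) w).im / 2 := by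
      rw [show (psd (hc a) w / 2 : ℂ) = psd (hc a) w / ((2 : ℝ) : ℂ) by norm_num,
        Complex.div_ofReal_im]
    rw [t1, t2]
    push_cast
    ring

/-- real derivative of `q` -/
lemma hasFDerivAt_qq {a : ℕ → ℂ} {w d2 h2 : ℂ} (k1 : HasDerivAt (ps a) (psd a w) w)
    (k2 : HasDerivAt (psd a) d2 w) (k3 : HasDerivAt (psd (hc a)) h2 w) :
    ∃ L : ℂ →L[ℝ] ℂ, HasFDerivAt (qq a) L w ∧
      ∀ h : ℂ, L h = conj (psd a w * h) * psd a w + (conj (ps a w) * d2 - h2 / 2) * h := by
  have e1 := hasFDerivAt_real k1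
  have e2 := hasFDerivAt_real k2
  have e3 := hasFDerivAt_real k3
  have e4 : HasFDerivAt (fun z => conj (ps a z))
      ((Complex.conjCLE : ℂ →L[ℝ] ℂ).comp ((ContinuousLinearMap.mul ℝ ℂ) (psd a w))) w :=
    (Complex.conjCLE : ℂ →L[ℝ] ℂ).hasFDerivAt.comp w e1
  have e5 := (e4.mul e2).sub (e3.const_mul (2⁻¹ : ℂ))
  refine ⟨_, e5.congr_of_eventuallyEq ?_, ?_⟩
  · refine Filter.Eventually.of_forall fun z => ?_
    simp only [qq, Pi.sub_apply, Pi.mul_apply]
    ring
  · intro h
    simp only [ContinuousLinearMap.smul_apply, ContinuousLinearMap.sub_apply,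
      ContinuousLinearMap.add_apply, ContinuousLinearMap.comp_apply,
      ContinuousLinearMap.mul_apply', smul_eq_mul, ContinuousLinearEquiv.coe_coe,
      Complex.conjCLE_apply]
    ring

end IDer

theorem pr_Der (hPs : StPs) (hHc : StHc) : StDer := by
  intro a ha
  obtain ⟨-, -, R, C, hR, hb⟩ := hHc.2 a ha
  have hR0 : 0 < R := by linarith
  obtain ⟨a1, a2, a3⟩ := hPs a R C hR0 (fun n => (hb n).1)
  obtain ⟨b1, b2, b3⟩ := hPs (hc a) R C hR0 (fun n => (hb n).2)
  have hop : IsOpen (Metric.ball (0 : ℂ) R) := Metric.isOpen_ball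
  refine ⟨R, hR, ?_, ?_, ?_⟩
  · have c1 : ContDiffOn ℝ 2 (ps a) (Metric.ball 0 R) := (a1.contDiffOn hop).restrict_scalars ℝ
    have c2 : ContDiffOn ℝ 2 (ps (hc a)) (Metric.ball 0 R) :=
      (b1.contDiffOn hop).restrict_scalars ℝ
    have c3 : ContDiffOn ℝ 2 (fun w => (ps (hc a) w).re) (Metric.ball 0 R) :=
      Complex.reCLM.contDiff.comp_contDiffOn c2
    have c4 : ContDiffOn ℝ 2 (fun w => ‖ps a w‖ ^ 2) (Metric.ball 0 R) := c1.norm_sq ℝ
    exact (c3.sub c4).div_const 4
  · have c1 : ContinuousOn (fun w => conj (ps a w)) (Metric.ball 0 R) :=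
      Complex.continuous_conj.comp_continuousOn a1.continuousOn
    exact (c1.mul a2.continuousOn).sub (b2.continuousOn.div_const 2)
  · intro w hw
    have hwm : w ∈ Metric.ball (0 : ℂ) R := by simpa using hw
    have hn : Metric.ball (0 : ℂ) R ∈ 𝓝 w := hop.mem_nhds hwm
    obtain ⟨L, hL, hL'⟩ := IDer.hasFDerivAt_tau (a3 w hw).2.1 (b3 w hw).2.1
    obtain ⟨M, hM, hM'⟩ := IDer.hasFDerivAt_qq (a3 w hw).2.1
      (a2.differentiableAt hn).hasDerivAt (b2.differentiableAt hn).hasDerivAt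
    refine ⟨fun h => ?_, hM.differentiableAt, ?_⟩
    · rw [hL.fderiv]; exact hL' h
    · rw [hM.fderiv, hM' 1, hM' Complex.I]
      set Z := conj (ps a w) * deriv (psd a) w - deriv (psd (hc a)) w / 2 with hZ
      have hn2 : ‖psd a w‖ ^ 2 = (psd a w).re * (psd a w).re + (psd a w).im * (psd a w).im := by
        rw [← Complex.normSq_eq_norm_sq, Complex.normSq_apply]
      rw [hn2]
      simp only [Complex.add_re, Complex.add_im, Complex.mul_re, Complex.mul_im, Complex.conj_re,
        Complex.conj_im, Complex.one_re, Complex.one_im, Complex.I_re, Complex.I_im]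
      ring

end Pool.Agent.MFK.RT
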