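import Pool.Agent.Work.MP_8826fd_mp.RT.Stmts

/-!
# MP_8826fd_mp, block RT, item Dn0: energy density of a transplanted function with a general gauge
-/

set_option autoImplicit false

namespace Pool.Agent.MFK.RT

open MeasureTheory Set Filter Topology Pool.Agent.MFK.NF
open scoped ComplexConjugate

namespace IDn0

/-- conformal invariance of the sum of squares -/
lemma conf (L : ℂ → ℂ) (hL : ∀ a b : ℝ, L (a + b * Complex.I) = a * L 1 + b * L Complex.I)
    (c : ℂ) : ‖L c‖ ^ 2 + ‖L (c * Complex.I)‖ ^ 2 = ‖c‖ ^ 2 * (‖L 1‖ ^ 2 + ‖L Complex.I‖ ^ 2) := by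
  have h1 : L c = (c.re : ℂ) * L 1 + (c.im : ℂ) * L Complex.I := by
    conv_lhs => rw [← Complex.re_add_im c]
    exact hL c.re c.im
  have h2 : L (c * Complex.I) = ((-c.im : ℝ) : ℂ) * L 1 + (c.re : ℂ) * L Complex.I := by
    have h3 : c * Complex.I = ((-c.im : ℝ) : ℂ) + (c.re : ℂ) * Complex.I := by
      conv_lhs => rw [← Complex.re_add_im c]
      push_cast
      have := Complex.I_mul_I
      linear_combination (c.im : ℂ) * this
    rw [h3]
    exact hL (-c.im) c.re
  rw [h1, h2]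
  simp only [Complex.sq_norm, Complex.normSq_apply]
  simp
  ring

end IDn0

open IDn0

theorem pr_Dn0 : StDn0 := by
  intro Ω f F a φ v B hC hφ hv
  have hfc : ContDiffOn ℝ 1 f Ω := (hC.fd.contDiffOn hC.opn).restrict_scalars ℝ
  have hφf : ContDiffOn ℝ 1 (fun z => φ (f z)) Ω := hφ.comp hfc hC.fm
  have hvf : ContDiffOn ℝ 1 (fun z => v (f z)) Ω := hv.comp hfc hC.fm
  set U : ℂ → ℂ := fun z => v (f z) * Complex.exp (Complex.I * ((B * φ (f z) : ℝ) : ℂ)) with hUdef
  have hU : ContDiffOn ℝ 1 U Ω := by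
    refine ContDiffOn.mul hvf ?_
    refine ContDiffOn.cexp ?_
    refine contDiffOn_const.mul ?_
    exact Complex.ofRealCLM.contDiff.comp_contDiffOn (contDiffOn_const.mul hφf)
  refine ⟨hU, ?_⟩
  intro w hwb
  set z := F w with hz
  have hzΩ : z ∈ Ω := hC.Fm hwb
  have hfz : f z = w := hC.fF w hwb
  -- derivatives
  have hUd : HasFDerivAt U (fderiv ℝ U z) z :=
    ((hU.contDiffAt (hC.opn.mem_nhds hzΩ)).differentiableAt (by norm_num)).hasFDerivAt
  have hFd : HasDerivAt F (deriv F w) w :=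
    (hC.Fd.differentiableAt (Metric.isOpen_ball.mem_nhds hwb)).hasDerivAt
  have hFr : HasFDerivAt F ((ContinuousLinearMap.toSpanSingleton ℂ (deriv F w)).restrictScalars ℝ) w :=
    hFd.hasFDerivAt.restrictScalars ℝ
  have hcomp := HasFDerivAt.comp w (show HasFDerivAt U (fderiv ℝ U z) (F w) from hUd) hFr
  have hφd : HasFDerivAt φ (fderiv ℝ φ w) w :=
    ((hφ.contDiffAt (Metric.isOpen_ball.mem_nhds hwb)).differentiableAt (by norm_num)).hasFDerivAt
  have hvd : HasFDerivAt v (fderiv ℝ v w) w :=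
    ((hv.contDiffAt (Metric.isOpen_ball.mem_nhds hwb)).differentiableAt (by norm_num)).hasFDerivAt
  set ph : ℂ := Complex.exp (Complex.I * ((B * φ w : ℝ) : ℂ)) with hph
  have hphn : ‖ph‖ = 1 := by
    rw [hph, mul_comm, Complex.norm_exp_ofReal_mul_I]
  have hdir : ∀ h : ℂ, fderiv ℝ U z (deriv F w * h) =
      ph * (fderiv ℝ v w h + Complex.I * ((B * fderiv ℝ φ w h : ℝ) : ℂ) * v w) := by
    intro h
    -- compare along the line `w + s h`
    have hline : HasDerivAt (fun s : ℝ => w + (s : ℂ) * h) h 0 := by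
      have := ((Complex.ofRealCLM.hasDerivAt (x := (0 : ℝ))).mul_const h).const_add w
      simpa using this
    have hw0 : w + ((0 : ℝ) : ℂ) * h = w := by simp
    have e1 : HasDerivAt (fun s : ℝ => U (F (w + (s : ℂ) * h)))
        (fderiv ℝ U z (deriv F w * h)) 0 := by
      have h1 : HasFDerivAt (U ∘ F) ((fderiv ℝ U z).comp
          ((ContinuousLinearMap.toSpanSingleton ℂ (deriv F w)).restrictScalars ℝ))
          (w + ((0 : ℝ) : ℂ) * h) := by rw [hw0]; exact hcomp
      have h2 := h1.comp_hasDerivAt (0 : ℝ) hline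
      have h3 : ((fderiv ℝ U z).comp
          ((ContinuousLinearMap.toSpanSingleton ℂ (deriv F w)).restrictScalars ℝ)) h =
          fderiv ℝ U z (deriv F w * h) := by
        simp [mul_comm]
      rw [h3] at h2
      exact h2
    have e2 : HasDerivAt (fun s : ℝ => v (w + (s : ℂ) * h) *
        Complex.exp (Complex.I * ((B * φ (w + (s : ℂ) * h) : ℝ) : ℂ)))
        (ph * (fderiv ℝ v w h +
          Complex.I * ((B * fderiv ℝ φ w h : ℝ) : ℂ) * v w)) 0 := by
      have h1 : HasDerivAt (fun s : ℝ => v (w + (s : ℂ) * h)) (fderiv ℝ v w h) 0 := by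
        have h2 : HasFDerivAt v (fderiv ℝ v w) (w + ((0 : ℝ) : ℂ) * h) := by
          rw [hw0]; exact hvd
        exact h2.comp_hasDerivAt (0 : ℝ) hline
      have h3 : HasDerivAt (fun s : ℝ => φ (w + (s : ℂ) * h)) (fderiv ℝ φ w h) 0 := by
        have h2 : HasFDerivAt φ (fderiv ℝ φ w) (w + ((0 : ℝ) : ℂ) * h) := by
          rw [hw0]; exact hφd
        exact h2.comp_hasDerivAt (0 : ℝ) hline
      have h4 : HasDerivAt (fun s : ℝ => Complex.exp (Complex.I *
          ((B * φ (w + (s : ℂ) * h) : ℝ) : ℂ)))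
          (Complex.exp (Complex.I * ((B * φ (w + ((0 : ℝ) : ℂ) * h) : ℝ) : ℂ)) *
            (Complex.I * ((B * fderiv ℝ φ w h : ℝ) : ℂ))) 0 :=
        (((h3.const_mul B).ofReal_comp).const_mul Complex.I).cexp
      have h5 := h1.mul h4
      rw [hw0] at h5
      have h6 : fderiv ℝ v w h * Complex.exp (Complex.I * ((B * φ w : ℝ) : ℂ)) +
          v w * (Complex.exp (Complex.I * ((B * φ w : ℝ) : ℂ)) *
            (Complex.I * ((B * fderiv ℝ φ w h : ℝ) : ℂ))) =
          ph * (fderiv ℝ v w h +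
            Complex.I * ((B * fderiv ℝ φ w h : ℝ) : ℂ) * v w) := by
        rw [hph]; ring
      rw [h6] at h5
      exact h5
    have e3 : (fun s : ℝ => U (F (w + (s : ℂ) * h))) =ᶠ[𝓝 (0 : ℝ)]
        (fun s : ℝ => v (w + (s : ℂ) * h) *
        Complex.exp (Complex.I * ((B * φ (w + (s : ℂ) * h) : ℝ) : ℂ))) := by
      have h1 : ContinuousAt (fun s : ℝ => w + (s : ℂ) * h) 0 := hline.continuousAt
      have h2 : ∀ᶠ s : ℝ in 𝓝 (0 : ℝ), w + (s : ℂ) * h ∈ Metric.ball (0 : ℂ) 1 := by
        refine h1.eventually_mem (Metric.isOpen_ball.mem_nhds ?_)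
        simpa using hwb
      filter_upwards [h2] with s hs
      rw [hUdef]
      simp only
      rw [hC.fF _ hs]
    exact (e1.congr_of_eventuallyEq e3.symm).unique e2
  have hUz : U z = v w * ph := by
    rw [hUdef]
    simp only
    rw [hfz]
  -- the real linear map L
  have key : ∀ h : ℂ, fderiv ℝ U z (deriv F w * h) -
      Complex.I * ((B * AA z (deriv F w * h) : ℝ) : ℂ) * U z =
      ph * (fderiv ℝ v w h -
        Complex.I * ((B * (AA z (deriv F w * h) - fderiv ℝ φ w h) : ℝ) : ℂ) * v w) := by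
    intro h
    rw [hdir h, hUz]
    push_cast
    ring
  set L : ℂ → ℂ := fun h => fderiv ℝ U z h -
      Complex.I * ((B * AA z h : ℝ) : ℂ) * U z with hLdef
  have hLlin : ∀ a b : ℝ, L (a + b * Complex.I) = a * L 1 + b * L Complex.I := by
    intro a b
    have h1 : fderiv ℝ U z ((a : ℂ) + b * Complex.I) =
        a * fderiv ℝ U z 1 + b * fderiv ℝ U z Complex.I := by
      have h2 : (a : ℂ) + b * Complex.I = a • (1 : ℂ) + b • Complex.I := by
        rw [Complex.real_smul, Complex.real_smul, mul_one]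
      rw [h2, map_add, map_smul, map_smul, Complex.real_smul, Complex.real_smul]
    have h3 : AA z ((a : ℂ) + b * Complex.I) = a * AA z 1 + b * AA z Complex.I := by
      unfold AA
      simp
      ring
    simp only [hLdef]
    rw [h1, h3]
    push_cast
    ring
  have hconf := conf L hLlin (deriv F w)
  have hL1 : ‖L (deriv F w)‖ = ‖fderiv ℝ v w 1 -
        Complex.I * ((B * (AA z (deriv F w) - fderiv ℝ φ w 1) : ℝ) : ℂ) * v w‖ := by
    have h1 := key 1
    rw [mul_one] at h1
    have h2 : L (deriv F w) = ph * (fderiv ℝ v w 1 -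
        Complex.I * ((B * (AA z (deriv F w) - fderiv ℝ φ w 1) : ℝ) : ℂ) * v w) := h1
    rw [h2, norm_mul, hphn, one_mul]
  have hL2 : ‖L (deriv F w * Complex.I)‖ = ‖fderiv ℝ v w Complex.I -
        Complex.I * ((B * (AA z (deriv F w * Complex.I) - fderiv ℝ φ w Complex.I) : ℝ) : ℂ) *
          v w‖ := by
    have h2 : L (deriv F w * Complex.I) = ph * (fderiv ℝ v w Complex.I -
        Complex.I * ((B * (AA z (deriv F w * Complex.I) - fderiv ℝ φ w Complex.I) : ℝ) : ℂ) *
          v w) := key Complex.I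
    rw [h2, norm_mul, hphn, one_mul]
  refine ⟨?_, ?_⟩
  · rw [← hL1, ← hL2, hconf]
    rfl
  · show ‖U z‖ = ‖v w‖
    rw [hUz, norm_mul, hphn, mul_one]

end Pool.Agent.MFK.RT
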