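import Pool.Agent.Work.MP_8826fd_mp.RT.Stmts2

/-!
# MP_8826fd_mp, block RT, item Dsc (equality case)
-/

set_option autoImplicit false

namespace Pool.Agent.MFK.RT

open MeasureTheory Set Filter Topology Pool.Agent.MFK.NF

theorem pr_Dsc (hSer : CD.StSer) : StDsc := by
  intro Ω f F a hCM h
  have hz : ∀ j, 2 ≤ j → a j = 0 := by
    intro j hj
    rcases Nat.lt_or_ge j 3 with h3 | h3
    · have : j = 2 := by omega
      rw [this]
      exact h.a2
    · have h4 := (hSer F a 1 h).2.2.1 (j - 1) (by omega)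
      have hj1 : j - 1 + 1 = j := by omega
      rw [hj1] at h4
      have h5 : (0 : ℝ) ≤ ((j - 1 : ℕ) : ℝ) := Nat.cast_nonneg _
      have h6 : ‖a j‖ ^ 2 ≤ 0 := by
        have h7 : 0 ≤ ‖a j‖ ^ 2 := by positivity
        nlinarith
      have h7 : ‖a j‖ = 0 := by
        have h8 : 0 ≤ ‖a j‖ ^ 2 := by positivity
        exact pow_eq_zero_iff (two_ne_zero) |>.1 (le_antisymm h6 h8)
      exact norm_eq_zero.1 h7
  have hF : ∀ w ∈ Metric.ball (0 : ℂ) 1, F w = a 0 + w := by
    intro w hw
    refine (hCM.ser w hw).unique ?_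
    have h1 : HasSum (fun j : ℕ => a j * w ^ j) (∑ j ∈ Finset.range 2, a j * w ^ j) := by
      refine hasSum_sum_of_ne_finset_zero fun j hj => ?_
      rw [Finset.mem_range, not_lt] at hj
      rw [hz j hj, zero_mul]
    rw [Finset.sum_range_succ, Finset.sum_range_one, h.a1] at h1
    simpa using h1
  ext z
  constructor
  · intro hz
    have h1 := hCM.fm hz
    have h2 := hF _ h1
    rw [hCM.Ff z hz] at h2
    rw [mem_ball_iff_norm, h2, add_sub_cancel_left]
    rwa [mem_ball_zero_iff] at h1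
  · intro hz
    rw [mem_ball_iff_norm] at hz
    have h1 : z - a 0 ∈ Metric.ball (0 : ℂ) 1 := by
      rw [mem_ball_zero_iff]
      exact hz
    have h2 := hF _ h1
    rw [add_sub_cancel] at h2
    rw [← h2]
    exact hCM.Fm h1

end Pool.Agent.MFK.RT
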