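import Pool.Agent.Work.MP_8826fd_mp.RT.Stmts2
import Pool.Agent.Work.MP_8826fd_mp.NF.I_Fin

/-! # MP_8826fd_mp, block RT: item FinR (scaling) -/

set_option autoImplicit false

namespace Pool.Agent.MFK.RT

open MeasureTheory Set Filter Topology Pool.Agent.MFK.NF

namespace IFinR

/-- the image of a disc of the complex plane under the scaling -/
theorem toR_ball (q : ℂ) : toR (Metric.ball q 1) = edisc (q.re, q.im) 1 := by
  ext x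
  show (⟨x.1, x.2⟩ : ℂ) ∈ Metric.ball q 1 ↔ (x.1 - q.re) ^ 2 + (x.2 - q.im) ^ 2 < 1 ^ 2
  rw [Metric.mem_ball, dist_eq_norm]
  have h : ‖(⟨x.1, x.2⟩ : ℂ) - q‖ ^ 2 = (x.1 - q.re) ^ 2 + (x.2 - q.im) ^ 2 := by
    rw [Complex.sq_norm, Complex.normSq_apply, Complex.sub_re, Complex.sub_im]
    ring
  rw [← h]
  constructor
  · intro h1
    nlinarith [norm_nonneg ((⟨x.1, x.2⟩ : ℂ) - q)]
  · intro h1
    nlinarith [norm_nonneg ((⟨x.1, x.2⟩ : ℂ) - q)]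

theorem aff_edisc (q : ℝ × ℝ) {R : ℝ} (hR : 0 < R) :
    Sc.aff (0 : ℝ × ℝ) R '' edisc q 1 = edisc (R • q) R := by
  ext x
  constructor
  · rintro ⟨y, hy, rfl⟩
    have hy' : (y.1 - q.1) ^ 2 + (y.2 - q.2) ^ 2 < 1 ^ 2 := hy
    show ((0 : ℝ) + R * y.1 - R * q.1) ^ 2 + ((0 : ℝ) + R * y.2 - R * q.2) ^ 2 < R ^ 2
    have h1 : ((0 : ℝ) + R * y.1 - R * q.1) ^ 2 + ((0 : ℝ) + R * y.2 - R * q.2) ^ 2
        = R ^ 2 * ((y.1 - q.1) ^ 2 + (y.2 - q.2) ^ 2) := by ring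
    rw [h1]
    have h2 : 0 < R ^ 2 := by positivity
    nlinarith
  · intro hx
    have hx' : (x.1 - R * q.1) ^ 2 + (x.2 - R * q.2) ^ 2 < R ^ 2 := hx
    refine ⟨R⁻¹ • x, ?_, ?_⟩
    · show (R⁻¹ * x.1 - q.1) ^ 2 + (R⁻¹ * x.2 - q.2) ^ 2 < 1 ^ 2
      have h1 : (R⁻¹ * x.1 - q.1) ^ 2 + (R⁻¹ * x.2 - q.2) ^ 2
          = (R ^ 2)⁻¹ * ((x.1 - R * q.1) ^ 2 + (x.2 - R * q.2) ^ 2) := by
        field_simp
      rw [h1, one_pow]
      have h2 : 0 < (R ^ 2)⁻¹ := by positivity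
      calc (R ^ 2)⁻¹ * ((x.1 - R * q.1) ^ 2 + (x.2 - R * q.2) ^ 2) < (R ^ 2)⁻¹ * R ^ 2 :=
            mul_lt_mul_of_pos_left hx' h2
        _ = 1 := by field_simp
    · unfold Sc.aff
      rw [smul_inv_smul₀ hR.ne', zero_add]

end IFinR

theorem pr_FinR (h1 : StRng) : StFinR := by
  obtain ⟨b, hb, hb2, hN₀⟩ := h1
  refine ⟨b, hb, hb2, fun B R hB hR hBR Ω hO hsc hvol => ?_⟩
  have hne := IFin.nd_eq (0 : ℝ × ℝ) hR Ω
  have hO' : IsOpen (IFin.nd (0 : ℝ × ℝ) R Ω) := by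
    rw [hne]
    exact hO.preimage (IFin.hom (0 : ℝ × ℝ) hR).continuous
  have hsc' : IsSimplyConnected (IFin.nd (0 : ℝ × ℝ) R Ω) := by
    rw [hne, Homeomorph.isSimplyConnected_preimage]
    exact hsc
  have himg := IFin.image_toR (0 : ℝ × ℝ) hR Ω
  have hvol' : volume (IFin.nd (0 : ℝ × ℝ) R Ω) = ENNReal.ofReal Real.pi := by
    have e1 := IFin.vol_aff (0 : ℝ × ℝ) hR (toR (IFin.nd (0 : ℝ × ℝ) R Ω))
    rw [himg, hvol, F3.vol_edisc (0 : ℝ × ℝ) hR.le, IFin.vol_toR hO', mul_comm Real.pi,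
      ENNReal.ofReal_mul (by positivity)] at e1
    have h0 : ENNReal.ofReal (R ^ 2) ≠ 0 := by
      rw [Ne, ENNReal.ofReal_eq_zero, not_le]
      positivity
    exact ((ENNReal.mul_right_inj h0 ENNReal.ofReal_ne_top).1 e1).symm
  obtain ⟨hle, heq⟩ := hN₀ (B * R ^ 2) (by positivity) hBR (IFin.nd (0 : ℝ × ℝ) R Ω) hO' hsc' hvol'
  have s1 : lamN B Ω = (R ^ 2)⁻¹ * lamN (B * R ^ 2) (toR (IFin.nd (0 : ℝ × ℝ) R Ω)) := by
    have h2 := sc B R (0 : ℝ × ℝ) (toR (IFin.nd (0 : ℝ × ℝ) R Ω)) hR (IFin.isOpen_toR hO')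
    rw [← h2]
    congr 1
    exact himg.symm
  have s2 : lamN B (edisc (0 : ℝ × ℝ) R) = (R ^ 2)⁻¹ * lamN (B * R ^ 2) disc := by
    have h2 := sc B R (0 : ℝ × ℝ) disc hR IFin.isOpen_disc
    rw [← h2]
    congr 1
    exact F2.edisc_image hR (0 : ℝ × ℝ)
  have hR2 : (0 : ℝ) < (R ^ 2)⁻¹ := by positivity
  refine ⟨?_, fun he => ?_⟩
  · rw [s1, s2]
    exact mul_le_mul_of_nonneg_left hle hR2.le
  · rw [s1, s2] at he
    obtain ⟨q, hq⟩ := heq (mul_left_cancel₀ hR2.ne' he)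
    refine ⟨R • ((q.re, q.im) : ℝ × ℝ), ?_⟩
    rw [← IFinR.aff_edisc (q.re, q.im) hR, ← IFinR.toR_ball, ← hq]
    exact himg.symm

end Pool.Agent.MFK.RT
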