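import Pool.Agent.Work.MP_8826fd_mp.RT.Stmts

/-!
# MP_8826fd_mp, block RT: Green's identity for functions of the torsion function
-/

set_option autoImplicit false

namespace Pool.Agent.MFK.RT

open MeasureTheory Set Filter Topology Pool.Agent.MFK.NF
open scoped ComplexConjugate

namespace IGrn

/-- the integral of a directional derivative of a compactly supported `C¹` function is zero -/
theorem int_zero (V : ℂ → ℝ) (hV : ContDiff ℝ 1 V) (hc : HasCompactSupport V) (v : ℂ) :
    (∫ w, fderiv ℝ V w v) = 0 := by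
  have h1 : Continuous (fun w => fderiv ℝ V w v) :=
    (hV.continuous_fderiv (by norm_num)).clm_apply continuous_const
  have h2 : HasCompactSupport (fun w => fderiv ℝ V w v) := hc.fderiv_apply (𝕜 := ℝ) v
  have h3 : Integrable (fun w => fderiv ℝ V w v) := h1.integrable_of_hasCompactSupport h2
  have h4 : Integrable V := hV.continuous.integrable_of_hasCompactSupport hc
  have e1 : (fun x : ℂ => V x * fderiv ℝ (fun _ : ℂ => (1 : ℝ)) x v) = fun _ => (0 : ℝ) := by
    funext x; simp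
  have e2 : (fun x : ℂ => fderiv ℝ V x v * (1 : ℝ)) = fun x => fderiv ℝ V x v := by
    funext x; simp
  have e3 : (fun x : ℂ => V x * (1 : ℝ)) = V := by
    funext x; simp
  have i1 : Integrable (fun x : ℂ => fderiv ℝ V x v * (1 : ℝ)) := by rw [e2]; exact h3
  have i2 : Integrable (fun x : ℂ => V x * fderiv ℝ (fun _ : ℂ => (1 : ℝ)) x v) := by
    rw [e1]; exact integrable_zero _ _ _
  have i3 : Integrable (fun x : ℂ => V x * (1 : ℝ)) := by rw [e3]; exact h4
  have h5 := integral_mul_fderiv_eq_neg_fderiv_mul_of_integrable (μ := (volume : Measure ℂ))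
    (f := V) (g := fun _ : ℂ => (1 : ℝ)) (v := v) i1 i2 i3
    (fun x _ => (hV.differentiable (by norm_num)) x) (fun x _ => differentiableAt_const _)
  rw [e1, e2, integral_zero] at h5
  linarith

theorem core (T D : ℂ → ℝ) (R : ℝ) (hR : 1 < R) (hT : ContDiffOn ℝ 1 T (Metric.ball 0 R))
    (hD : ContDiffOn ℝ 1 D (Metric.ball 0 R)) (hb : ∀ w : ℂ, ‖w‖ = 1 → T w = 0)
    (θ θ' : ℝ → ℝ) (t₀ : ℝ) (ht₀ : 0 < t₀) (hθ : ∀ t, HasDerivAt θ (θ' t) t)
    (hθ' : Continuous θ') (hz : ∀ t ≤ t₀, θ t = 0) (v : ℂ) :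
    (∫ w in Metric.ball (0 : ℂ) 1,
      (θ' (T w) * fderiv ℝ T w v * D w + θ (T w) * fderiv ℝ D w v)) = 0 := by
  have hθC : ContDiff ℝ 1 θ := by
    rw [contDiff_one_iff_deriv]
    refine ⟨fun t => (hθ t).differentiableAt, ?_⟩
    have : deriv θ = θ' := funext fun t => (hθ t).deriv
    rw [this]; exact hθ'
  have hTc : ContinuousOn T (Metric.closedBall (0 : ℂ) 1) :=
    hT.continuousOn.mono (Metric.closedBall_subset_ball hR)
  have hKcl : IsClosed (Metric.closedBall (0 : ℂ) 1 ∩ T ⁻¹' Ici t₀) :=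
    hTc.preimage_isClosed_of_isClosed Metric.isClosed_closedBall isClosed_Ici
  have hKc : IsCompact (Metric.closedBall (0 : ℂ) 1 ∩ T ⁻¹' Ici t₀) :=
    (isCompact_closedBall (0 : ℂ) 1).of_isClosed_subset hKcl inter_subset_left
  set K : Set ℂ := Metric.closedBall (0 : ℂ) 1 ∩ T ⁻¹' Ici t₀ with hKdef
  set V : ℂ → ℝ := fun w => if ‖w‖ < 1 then θ (T w) * D w else 0 with hVdef
  have hVzero : ∀ w, w ∉ K → V w = 0 := by
    intro w hw
    by_cases h1 : ‖w‖ < 1
    · have h2 : T w < t₀ := by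
        by_contra h3
        exact hw ⟨by simpa using h1.le, by simpa using h3⟩
      simp [hVdef, h1, hz _ h2.le]
    · simp [hVdef, h1]
  have hin : ∀ x : ℂ, ‖x‖ < 1 → V =ᶠ[𝓝 x] fun w => θ (T w) * D w := by
    intro x hx
    have : Metric.ball (0 : ℂ) 1 ∈ 𝓝 x := Metric.isOpen_ball.mem_nhds (by simpa using hx)
    filter_upwards [this] with w hw
    have hw' : ‖w‖ < 1 := by simpa using hw
    simp [hVdef, hw']
  have hout : ∀ x : ℂ, x ∉ K → V =ᶠ[𝓝 x] fun _ => (0 : ℝ) := by
    intro x hx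
    have : Kᶜ ∈ 𝓝 x := hKcl.isOpen_compl.mem_nhds hx
    filter_upwards [this] with w hw
    exact hVzero w hw
  have hcase : ∀ x : ℂ, ¬ ‖x‖ < 1 → x ∉ K := by
    rintro x hx ⟨h1, h2⟩
    have h3 : ‖x‖ ≤ 1 := by simpa using h1
    have h4 : ‖x‖ = 1 := le_antisymm h3 (not_lt.1 hx)
    have h5 : t₀ ≤ T x := h2
    rw [hb x h4] at h5
    linarith
  have hTat : ∀ x : ℂ, ‖x‖ < 1 → ContDiffAt ℝ 1 T x := fun x hx =>
    hT.contDiffAt (Metric.isOpen_ball.mem_nhds (by simpa using hx.trans hR))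
  have hDat : ∀ x : ℂ, ‖x‖ < 1 → ContDiffAt ℝ 1 D x := fun x hx =>
    hD.contDiffAt (Metric.isOpen_ball.mem_nhds (by simpa using hx.trans hR))
  have hVC : ContDiff ℝ 1 V := by
    rw [contDiff_iff_contDiffAt]
    intro x
    by_cases hx : ‖x‖ < 1
    · exact ((hθC.contDiffAt.comp x (hTat x hx)).mul (hDat x hx)).congr_of_eventuallyEq (hin x hx)
    · exact contDiffAt_const.congr_of_eventuallyEq (hout x (hcase x hx))
  have hVs : HasCompactSupport V := HasCompactSupport.intro hKc hVzero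
  have h0 := int_zero V hVC hVs v
  rw [← setIntegral_eq_integral_of_forall_compl_eq_zero (s := Metric.ball (0 : ℂ) 1)] at h0
  · rw [← h0]
    refine setIntegral_congr_fun measurableSet_ball ?_
    intro x hx
    have hx' : ‖x‖ < 1 := by simpa using hx
    have hTd : HasFDerivAt T (fderiv ℝ T x) x :=
      ((hTat x hx').differentiableAt (by norm_num)).hasFDerivAt
    have hDd : HasFDerivAt D (fderiv ℝ D x) x :=
      ((hDat x hx').differentiableAt (by norm_num)).hasFDerivAt
    have h1 : HasFDerivAt (fun w => θ (T w)) (θ' (T x) • fderiv ℝ T x) x :=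
      (hθ (T x)).comp_hasFDerivAt x hTd
    have h2 := h1.mul hDd
    have h3 : fderiv ℝ V x = θ (T x) • fderiv ℝ D x + D x • (θ' (T x) • fderiv ℝ T x) := by
      rw [(hin x hx').fderiv_eq]
      exact h2.fderiv
    simp only [h3, ContinuousLinearMap.add_apply, ContinuousLinearMap.smul_apply, smul_eq_mul]
    ring
  · intro x hx
    have hx' : ¬ ‖x‖ < 1 := by simpa using hx
    rw [(hout x (hcase x hx')).fderiv_eq]
    simp

end IGrn

theorem pr_Grn (hDer : StDer) (hBd : StBd) : StGrn := by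
  intro a ha θ θ' t₀ ht₀ hθ hθ' hz
  obtain ⟨R, hR, hC2, hqc, hall⟩ := hDer a ha
  have hbd : ∀ w : ℂ, ‖w‖ = 1 → tau a w = 0 := fun w hw => hBd a ha w hw
  have hC1 : ContDiffOn ℝ 1 (tau a) (Metric.ball 0 R) := hC2.of_le (by norm_num)
  have hfd : ContDiffOn ℝ 1 (fderiv ℝ (tau a)) (Metric.ball (0 : ℂ) R) :=
    hC2.fderiv_of_isOpen Metric.isOpen_ball (by norm_num)
  have hD : ∀ v : ℂ, ContDiffOn ℝ 1 (fun w => fderiv ℝ (tau a) w v) (Metric.ball (0 : ℂ) R) :=
    fun v => hfd.clm_apply contDiffOn_const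
  have hDc : ∀ v : ℂ, ContinuousOn (fun w => fderiv ℝ (tau a) w v) (Metric.ball (0 : ℂ) R) :=
    fun v => (hD v).continuousOn
  have hDDc : ∀ v : ℂ, ContinuousOn
      (fun w => fderiv ℝ (fun z => fderiv ℝ (tau a) z v) w v) (Metric.ball (0 : ℂ) R) :=
    fun v => ((hD v).continuousOn_fderiv_of_isOpen Metric.isOpen_ball (by norm_num)).clm_apply
      continuousOn_const
  have hθc : Continuous θ := continuous_iff_continuousAt.2 fun t => (hθ t).continuousAt
  have hsub : Metric.closedBall (0 : ℂ) 1 ⊆ Metric.ball 0 R := Metric.closedBall_subset_ball hR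
  have hint : ∀ g : ℂ → ℝ, ContinuousOn g (Metric.ball (0 : ℂ) R) →
      IntegrableOn g (Metric.ball (0 : ℂ) 1) := fun g hg =>
    ((hg.mono hsub).integrableOn_compact (isCompact_closedBall 0 1)).mono_set
      Metric.ball_subset_closedBall
  have hA : ∀ v : ℂ, IntegrableOn
      (fun w => θ' (tau a w) * fderiv ℝ (tau a) w v * fderiv ℝ (tau a) w v)
      (Metric.ball (0 : ℂ) 1) := fun v =>
    hint _ (((hθ'.comp_continuousOn hC1.continuousOn).mul (hDc v)).mul (hDc v))
  have hB : ∀ v : ℂ, IntegrableOn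
      (fun w => θ (tau a w) * fderiv ℝ (fun z => fderiv ℝ (tau a) z v) w v)
      (Metric.ball (0 : ℂ) 1) := fun v =>
    hint _ ((hθc.comp_continuousOn hC1.continuousOn).mul (hDDc v))
  have hcore : ∀ v : ℂ,
      (∫ w in Metric.ball (0 : ℂ) 1, θ' (tau a w) * fderiv ℝ (tau a) w v * fderiv ℝ (tau a) w v)
      + (∫ w in Metric.ball (0 : ℂ) 1,
          θ (tau a w) * fderiv ℝ (fun z => fderiv ℝ (tau a) z v) w v) = 0 := by
    intro v
    rw [← integral_add (hA v) (hB v)]
    exact IGrn.core (tau a) (fun w => fderiv ℝ (tau a) w v) R hR hC1 (hD v) hbd θ θ' t₀ ht₀ hθ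
      hθ' hz v
  have h1 := hcore 1
  have h2 := hcore Complex.I
  have hL : (∫ w in Metric.ball (0 : ℂ) 1, θ (tau a w) * ‖psd a w‖ ^ 2)
      = -((∫ w in Metric.ball (0 : ℂ) 1,
            θ (tau a w) * fderiv ℝ (fun z => fderiv ℝ (tau a) z 1) w 1)
          + ∫ w in Metric.ball (0 : ℂ) 1,
            θ (tau a w) * fderiv ℝ (fun z => fderiv ℝ (tau a) z Complex.I) w Complex.I) := by
    rw [← integral_add (hB 1) (hB Complex.I), ← integral_neg]
    refine setIntegral_congr_fun measurableSet_ball ?_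
    intro w hw
    have hwR : ‖w‖ < R := lt_trans (by simpa using hw) hR
    obtain ⟨_, hqd, hlap⟩ := hall w hwR
    have hball : Metric.ball (0 : ℂ) R ∈ 𝓝 w :=
      Metric.isOpen_ball.mem_nhds (by simpa using hwR)
    have e1 : (fun z => fderiv ℝ (tau a) z 1) =ᶠ[𝓝 w] fun z => (-(1 / 2) : ℝ) * (qq a z).re := by
      filter_upwards [hball] with z hz1
      rw [(hall z (by simpa using hz1)).1 1, mul_one]
      ring
    have e2 : (fun z => fderiv ℝ (tau a) z Complex.I) =ᶠ[𝓝 w]
        fun z => (1 / 2 : ℝ) * (qq a z).im := by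
      filter_upwards [hball] with z hz1
      rw [(hall z (by simpa using hz1)).1 Complex.I]
      simp only [Complex.mul_re, Complex.I_re, Complex.I_im, mul_zero, mul_one, zero_sub]
      ring
    have d1 : HasFDerivAt (fun z => (-(1 / 2) : ℝ) * (qq a z).re)
        ((-(1 / 2) : ℝ) • (Complex.reCLM.comp (fderiv ℝ (qq a) w))) w :=
      ((Complex.reCLM.hasFDerivAt.comp w hqd.hasFDerivAt)).const_mul _
    have d2 : HasFDerivAt (fun z => (1 / 2 : ℝ) * (qq a z).im)
        ((1 / 2 : ℝ) • (Complex.imCLM.comp (fderiv ℝ (qq a) w))) w :=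
      ((Complex.imCLM.hasFDerivAt.comp w hqd.hasFDerivAt)).const_mul _
    have f1 : fderiv ℝ (fun z => fderiv ℝ (tau a) z 1) w 1
        = -(1 / 2) * (fderiv ℝ (qq a) w 1).re := by
      rw [e1.fderiv_eq, d1.fderiv]
      simp
    have f2 : fderiv ℝ (fun z => fderiv ℝ (tau a) z Complex.I) w Complex.I
        = (1 / 2) * (fderiv ℝ (qq a) w Complex.I).im := by
      rw [e2.fderiv_eq, d2.fderiv]
      simp
    simp only [f1, f2]
    have : ‖psd a w‖ ^ 2
        = (fderiv ℝ (qq a) w 1).re / 2 - (fderiv ℝ (qq a) w Complex.I).im / 2 := by linarith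
    rw [this]
    ring
  have hRr : (∫ w in Metric.ball (0 : ℂ) 1, θ' (tau a w) * (‖qq a w‖ ^ 2 / 4))
      = (∫ w in Metric.ball (0 : ℂ) 1,
            θ' (tau a w) * fderiv ℝ (tau a) w 1 * fderiv ℝ (tau a) w 1)
          + ∫ w in Metric.ball (0 : ℂ) 1,
            θ' (tau a w) * fderiv ℝ (tau a) w Complex.I * fderiv ℝ (tau a) w Complex.I := by
    rw [← integral_add (hA 1) (hA Complex.I)]
    refine setIntegral_congr_fun measurableSet_ball ?_
    intro w hw
    have hwR : ‖w‖ < R := lt_trans (by simpa using hw) hR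
    have g1 := (hall w hwR).1 1
    have g2 := (hall w hwR).1 Complex.I
    simp only [mul_one] at g1
    simp only [Complex.mul_re, Complex.I_re, Complex.I_im, mul_zero, mul_one, zero_sub] at g2
    simp only [g1, g2]
    rw [← Complex.normSq_eq_norm_sq, Complex.normSq_apply]
    ring
  rw [hL, hRr]
  linarith

end Pool.Agent.MFK.RT
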