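import Pool.Agent.Work.MP_8826fd_mp.RT.Stmts

/-!
# MP_8826fd_mp, block RT, item Hc
-/

set_option autoImplicit false

namespace Pool.Agent.MFK.RT

open MeasureTheory Set Filter Topology Pool.Agent.MFK.NF
open scoped ComplexConjugate

namespace IHc

theorem nprod (a : ℕ → ℂ) (k l : ℕ) : ‖a (l + k) * conj (a l)‖ ≤ (‖a (l + k)‖ ^ 2 + ‖a l‖ ^ 2) / 2 := by
  rw [norm_mul, Complex.norm_conj]
  nlinarith [sq_nonneg (‖a (l + k)‖ - ‖a l‖)]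

theorem shiftS (a : ℕ → ℂ) (h : Summable (fun n => ‖a n‖ ^ 2)) (k : ℕ) :
    Summable (fun l => ‖a (l + k)‖ ^ 2) :=
  (summable_nat_add_iff (f := fun n => ‖a n‖ ^ 2) k).2 h

theorem shiftT (a : ℕ → ℂ) (h : Summable (fun n => ‖a n‖ ^ 2)) (k : ℕ) :
    (∑' l, ‖a (l + k)‖ ^ 2) ≤ ∑' l, ‖a l‖ ^ 2 := by
  have h1 := h.sum_add_tsum_nat_add k
  have h2 : (0 : ℝ) ≤ ∑ i ∈ Finset.range k, ‖a i‖ ^ 2 := Finset.sum_nonneg fun i _ => by positivity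
  linarith

theorem sumProd (a : ℕ → ℂ) (h : Summable (fun n => ‖a n‖ ^ 2)) (k : ℕ) :
    Summable (fun l => a (l + k) * conj (a l)) :=
  Summable.of_norm_bounded (((shiftS a h k).add h).div_const 2) (nprod a k)

theorem part1 (a : ℕ → ℂ) (h : Summable (fun n => ‖a n‖ ^ 2)) (k : ℕ) :
    ‖hc a k‖ ≤ 2 * ∑' l, ‖a l‖ ^ 2 := by
  have h0 : (0 : ℝ) ≤ ∑' l, ‖a l‖ ^ 2 := tsum_nonneg fun l => by positivity
  unfold hc
  split_ifs with hk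
  · rw [Complex.norm_real, Real.norm_eq_abs, abs_of_nonneg h0]
    linarith
  · rw [norm_mul]
    have e2 : ‖(2 : ℂ)‖ = 2 := by simp
    rw [e2]
    have h1 : ‖∑' l : ℕ, a (l + k) * conj (a l)‖ ≤ ∑' l, (‖a (l + k)‖ ^ 2 + ‖a l‖ ^ 2) / 2 :=
      tsum_of_norm_bounded (((shiftS a h k).add h).div_const 2).hasSum (nprod a k)
    have h2 : (∑' l, (‖a (l + k)‖ ^ 2 + ‖a l‖ ^ 2) / 2) = ((∑' l, ‖a (l + k)‖ ^ 2) + ∑' l, ‖a l‖ ^ 2) / 2 := by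
      rw [tsum_div_const, (shiftS a h k).tsum_add h]
    have h3 := shiftT a h k
    linarith

end IHc

open IHc in
theorem pr_Hc : StHc := by
  refine ⟨fun a h k => ⟨sumProd a h k, part1 a h k⟩, ?_⟩
  rintro a ⟨θ, C, hθ0, hθ1, hC⟩
  have hC0 : 0 ≤ C := by
    have := hC 0
    simp only [pow_zero, mul_one] at this
    exact le_trans (norm_nonneg _) this
  have hq0 : 0 ≤ θ ^ 2 := by positivity
  have hq1 : θ ^ 2 < 1 := by nlinarith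
  have hsq : ∀ n, ‖a n‖ ^ 2 ≤ C ^ 2 * (θ ^ 2) ^ n := by
    intro n
    have h1 := pow_le_pow_left₀ (norm_nonneg (a n)) (hC n) 2
    calc ‖a n‖ ^ 2 ≤ (C * θ ^ n) ^ 2 := h1
      _ = C ^ 2 * (θ ^ 2) ^ n := by rw [mul_pow, ← pow_mul, ← pow_mul, mul_comm n 2]
  have hg : Summable (fun n : ℕ => C ^ 2 * (θ ^ 2) ^ n) :=
    (summable_geometric_of_lt_one hq0 hq1).mul_left _
  have hS : Summable (fun n => ‖a n‖ ^ 2) :=
    Summable.of_nonneg_of_le (fun n => by positivity) hsq hg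
  have hS1 : Summable (fun n : ℕ => (n : ℝ) * ‖a n‖ ^ 2) := by
    have hqn : ‖θ ^ 2‖ < 1 := by
      rw [Real.norm_eq_abs, abs_of_nonneg hq0]
      exact hq1
    have hg0 : Summable (fun n : ℕ => (n : ℝ) ^ 1 * (θ ^ 2) ^ n) :=
      summable_pow_mul_geometric_of_norm_lt_one (R := ℝ) 1 hqn
    have hg1 : Summable (fun n : ℕ => C ^ 2 * ((n : ℝ) ^ 1 * (θ ^ 2) ^ n)) := hg0.mul_left _
    refine Summable.of_nonneg_of_le (fun n => by positivity) (fun n => ?_) hg1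
    have h1 : (n : ℝ) * ‖a n‖ ^ 2 ≤ (n : ℝ) * (C ^ 2 * (θ ^ 2) ^ n) :=
      mul_le_mul_of_nonneg_left (hsq n) (Nat.cast_nonneg n)
    calc (n : ℝ) * ‖a n‖ ^ 2 ≤ (n : ℝ) * (C ^ 2 * (θ ^ 2) ^ n) := h1
      _ = C ^ 2 * ((n : ℝ) ^ 1 * (θ ^ 2) ^ n) := by ring
  have hd : 0 < 1 - θ ^ 2 := by linarith
  have htg : (∑' n : ℕ, C ^ 2 * (θ ^ 2) ^ n) = C ^ 2 / (1 - θ ^ 2) := by
    rw [tsum_mul_left, tsum_geometric_of_lt_one hq0 hq1, div_eq_mul_inv]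
  have hhc : ∀ k, ‖hc a k‖ ≤ 2 * (C ^ 2 / (1 - θ ^ 2)) * θ ^ k := by
    intro k
    unfold hc
    split_ifs with hk
    · have h0 : (0 : ℝ) ≤ ∑' l, ‖a l‖ ^ 2 := tsum_nonneg fun l => by positivity
      rw [Complex.norm_real, Real.norm_eq_abs, abs_of_nonneg h0, hk, pow_zero, mul_one]
      have h1 : (∑' l, ‖a l‖ ^ 2) ≤ ∑' n : ℕ, C ^ 2 * (θ ^ 2) ^ n := hS.tsum_le_tsum hsq hg
      rw [htg] at h1
      have h2 : 0 ≤ C ^ 2 / (1 - θ ^ 2) := by positivity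
      linarith
    · rw [norm_mul]
      have e2 : ‖(2 : ℂ)‖ = 2 := by simp
      rw [e2]
      have hb : ∀ l, ‖a (l + k) * conj (a l)‖ ≤ θ ^ k * (C ^ 2 * (θ ^ 2) ^ l) := by
        intro l
        rw [norm_mul, Complex.norm_conj]
        have h1 : ‖a (l + k)‖ * ‖a l‖ ≤ (C * θ ^ (l + k)) * (C * θ ^ l) :=
          mul_le_mul (hC _) (hC _) (norm_nonneg _) (by positivity)
        calc ‖a (l + k)‖ * ‖a l‖ ≤ (C * θ ^ (l + k)) * (C * θ ^ l) := h1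
          _ = θ ^ k * (C ^ 2 * (θ ^ 2) ^ l) := by rw [pow_add, ← pow_mul, mul_comm 2 l, pow_mul]; ring
      have h1 : ‖∑' l : ℕ, a (l + k) * conj (a l)‖ ≤ ∑' l : ℕ, θ ^ k * (C ^ 2 * (θ ^ 2) ^ l) :=
        tsum_of_norm_bounded (hg.mul_left _).hasSum hb
      rw [tsum_mul_left, htg] at h1
      calc 2 * ‖∑' l : ℕ, a (l + k) * conj (a l)‖ ≤ 2 * (θ ^ k * (C ^ 2 / (1 - θ ^ 2))) := by linarith
        _ = 2 * (C ^ 2 / (1 - θ ^ 2)) * θ ^ k := by ring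
  refine ⟨hS, hS1, 1 / θ, max C (2 * (C ^ 2 / (1 - θ ^ 2))), ?_, fun n => ⟨?_, ?_⟩⟩
  · rw [lt_div_iff₀ hθ0]
    linarith
  · have h1 : ‖a n‖ * (1 / θ) ^ n ≤ (C * θ ^ n) * (1 / θ) ^ n :=
      mul_le_mul_of_nonneg_right (hC n) (by positivity)
    have h2 : (C * θ ^ n) * (1 / θ) ^ n = C := by
      rw [mul_assoc, ← mul_pow, mul_one_div_cancel hθ0.ne', one_pow, mul_one]
    rw [h2] at h1
    exact h1.trans (le_max_left _ _)
  · have h1 : ‖hc a n‖ * (1 / θ) ^ n ≤ (2 * (C ^ 2 / (1 - θ ^ 2)) * θ ^ n) * (1 / θ) ^ n :=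
      mul_le_mul_of_nonneg_right (hhc n) (by positivity)
    have h2 : (2 * (C ^ 2 / (1 - θ ^ 2)) * θ ^ n) * (1 / θ) ^ n = 2 * (C ^ 2 / (1 - θ ^ 2)) := by
      rw [mul_assoc, ← mul_pow, mul_one_div_cancel hθ0.ne', one_pow, mul_one]
    rw [h2] at h1
    exact h1.trans (le_max_right _ _)

end Pool.Agent.MFK.RT
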