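import Pool.Agent.Work.MP_8826fd_mp.RT.Stmts
import Pool.Agent.Work.MP_8826fd_mp.NF.I_PC
import Pool.Agent.Work.MP_a78000_an.HolInv

/-! MP_8826fd_mp, block RT, item Iso (helper20): the Sobolev inequality in the coordinate of the disc. -/

set_option autoImplicit false

namespace Pool.Agent.MFK.RT

open MeasureTheory Set Filter Topology Pool.Agent.MFK.NF
open scoped ComplexConjugate

namespace IIso

/-- the transplanted function -/
noncomputable def WW (F : ℂ → ℂ) (u : ℂ → ℝ) : ℂ → ℝ :=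
  (F '' Metric.ball 0 1).indicator (fun z => u (Function.invFunOn F (Metric.ball 0 1) z))

theorem WW_F {F : ℂ → ℂ} (hinj : InjOn F (Metric.ball 0 1)) (u : ℂ → ℝ) {w : ℂ}
    (hw : w ∈ Metric.ball (0 : ℂ) 1) : WW F u (F w) = u w := by
  unfold WW
  rw [indicator_of_mem (mem_image_of_mem F hw), hinj.leftInvOn_invFunOn hw]

theorem WW_zero {F : ℂ → ℂ} (hinj : InjOn F (Metric.ball 0 1)) (u : ℂ → ℝ) (K : Set ℂ)
    (hK : ∀ w ∈ Metric.ball (0 : ℂ) 1, w ∉ K → u w = 0) {z : ℂ} (hz : z ∉ F '' K) : WW F u z = 0 := by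
  by_cases h : z ∈ F '' Metric.ball 0 1
  · obtain ⟨w, hw, rfl⟩ := h
    rw [WW_F hinj u hw]
    exact hK w hw (fun hc => hz (mem_image_of_mem F hc))
  · exact indicator_of_notMem h _

theorem WW_contDiff {F : ℂ → ℂ} (hF : DifferentiableOn ℂ F (Metric.ball 0 1))
    (hinj : InjOn F (Metric.ball 0 1)) (u : ℂ → ℝ) (hu : ∀ w ∈ Metric.ball (0 : ℂ) 1, ContDiffAt ℝ 1 u w)
    (K : Set ℂ) (hKc : IsCompact K) (hKs : K ⊆ Metric.ball 0 1)
    (hK : ∀ w ∈ Metric.ball (0 : ℂ) 1, w ∉ K → u w = 0) : ContDiff ℝ 1 (WW F u) := by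
  have hcl : IsClosed (F '' K) := (hKc.image_of_continuousOn (hF.continuousOn.mono hKs)).isClosed
  have hop : IsOpen (F '' Metric.ball 0 1) := Pool.Agent.HolInv.isOpen_image Metric.isOpen_ball hF hinj
  rw [contDiff_iff_contDiffAt]
  intro z
  by_cases h : z ∈ F '' Metric.ball 0 1
  · obtain ⟨w, hw, rfl⟩ := h
    have h1 : WW F u =ᶠ[𝓝 (F w)] fun z => u (Function.invFunOn F (Metric.ball 0 1) z) := by
      filter_upwards [hop.mem_nhds (mem_image_of_mem F hw)] with z hz
      exact indicator_of_mem hz _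
    refine ContDiffAt.congr_of_eventuallyEq ?_ h1
    have h2 : ContDiffAt ℝ 1 (Function.invFunOn F (Metric.ball 0 1)) (F w) := by
      have h3 : ContDiffAt ℂ 1 (Function.invFunOn F (Metric.ball 0 1)) (F w) :=
        ((Pool.Agent.HolInv.differentiableOn_inv Metric.isOpen_ball hF hinj).contDiffOn hop).contDiffAt
          (hop.mem_nhds (mem_image_of_mem F hw))
      exact h3.restrict_scalars ℝ
    have h4 : ContDiffAt ℝ 1 u (Function.invFunOn F (Metric.ball 0 1) (F w)) := by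
      rw [hinj.leftInvOn_invFunOn hw]
      exact hu w hw
    exact h4.comp (F w) h2
  · have h0 : z ∈ (F '' K)ᶜ := fun hc => h (image_mono hKs hc)
    have h1 : WW F u =ᶠ[𝓝 z] fun _ => (0 : ℝ) := by
      filter_upwards [hcl.isOpen_compl.mem_nhds h0] with y hy
      exact WW_zero hinj u K hK hy
    exact contDiffAt_const.congr_of_eventuallyEq h1

theorem WW_supp {F : ℂ → ℂ} (hF : DifferentiableOn ℂ F (Metric.ball 0 1))
    (hinj : InjOn F (Metric.ball 0 1)) (u : ℂ → ℝ)
    (K : Set ℂ) (hKc : IsCompact K) (hKs : K ⊆ Metric.ball 0 1)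
    (hK : ∀ w ∈ Metric.ball (0 : ℂ) 1, w ∉ K → u w = 0) : HasCompactSupport (WW F u) :=
  HasCompactSupport.intro (hKc.image_of_continuousOn (hF.continuousOn.mono hKs))
    (fun _ hz => WW_zero hinj u K hK hz)

theorem WW_fderiv_zero {F : ℂ → ℂ} (hF : DifferentiableOn ℂ F (Metric.ball 0 1))
    (hinj : InjOn F (Metric.ball 0 1)) (u : ℂ → ℝ)
    (K : Set ℂ) (hKc : IsCompact K) (hKs : K ⊆ Metric.ball 0 1)
    (hK : ∀ w ∈ Metric.ball (0 : ℂ) 1, w ∉ K → u w = 0) {z : ℂ} (hz : z ∉ F '' Metric.ball 0 1) :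
    fderiv ℝ (WW F u) z = 0 := by
  have hcl : IsClosed (F '' K) := (hKc.image_of_continuousOn (hF.continuousOn.mono hKs)).isClosed
  have h0 : z ∈ (F '' K)ᶜ := fun hc => hz (image_mono hKs hc)
  have h1 : WW F u =ᶠ[𝓝 z] fun _ => (0 : ℝ) := by
    filter_upwards [hcl.isOpen_compl.mem_nhds h0] with y hy
    exact WW_zero hinj u K hK hy
  rw [h1.fderiv_eq]
  exact fderiv_const_apply _

/-- chain rule -/
theorem WW_chain {F : ℂ → ℂ} (hinj : InjOn F (Metric.ball 0 1)) (u : ℂ → ℝ)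
    (hW : ContDiff ℝ 1 (WW F u)) {w c : ℂ} (hw : w ∈ Metric.ball (0 : ℂ) 1) (hc : HasDerivAt F c w) (h : ℂ) :
    fderiv ℝ (WW F u) (F w) (c * h) = fderiv ℝ u w h := by
  have h1 : (WW F u) ∘ F =ᶠ[𝓝 w] u := by
    filter_upwards [Metric.isOpen_ball.mem_nhds hw] with y hy
    exact WW_F hinj u hy
  have h2 : HasFDerivAt F ((ContinuousLinearMap.toSpanSingleton ℂ c).restrictScalars ℝ : ℂ →L[ℝ] ℂ) w :=
    hc.hasFDerivAt.restrictScalars ℝ
  have h3 : HasFDerivAt (WW F u) (fderiv ℝ (WW F u) (F w)) (F w) :=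
    ((hW.differentiable (by norm_num)) (F w)).hasFDerivAt
  have h4 := (h3.comp w h2).congr_of_eventuallyEq h1.symm
  rw [h4.fderiv]
  simp [mul_comm]

theorem cov {F F' : ℂ → ℂ} (hF' : ∀ w ∈ Metric.ball (0 : ℂ) 1, HasDerivAt F (F' w) w)
    (hinj : InjOn F (Metric.ball 0 1)) (h : ℂ → ℝ) :
    ∫ z in F '' (Metric.ball 0 1), h z = ∫ w in Metric.ball (0 : ℂ) 1, ‖F' w‖ ^ 2 * h (F w) := by
  have hD : ∀ w ∈ Metric.ball (0 : ℂ) 1, HasFDerivWithinAt F
      ((ContinuousLinearMap.toSpanSingleton ℂ (F' w)).restrictScalars ℝ : ℂ →L[ℝ] ℂ)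
      (Metric.ball 0 1) w := by
    intro w hw
    exact ((hF' w hw).hasFDerivAt.restrictScalars ℝ).hasFDerivWithinAt
  rw [integral_image_eq_integral_abs_det_fderiv_smul volume Metric.isOpen_ball.measurableSet hD
    hinj]
  refine integral_congr_ae (Eventually.of_forall (fun w => ?_))
  simp only [smul_eq_mul]
  rw [IPC.det_mul, abs_of_nonneg (by positivity)]

/-- plane integrals -/
theorem plane (G : ℝ × ℝ → ℝ) : (∫ p : ℝ × ℝ, G p) = ∫ z : ℂ, G (z.re, z.im) :=
  (Complex.volume_preserving_equiv_real_prod.integral_comp' (g := G)).symm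

theorem sob (hS : StSob) (W : ℂ → ℝ) (hW : ContDiff ℝ 1 W) (hc : HasCompactSupport W) (h0 : ∀ z, 0 ≤ W z) :
    4 * Real.pi * (∫ z : ℂ, W z ^ 2) ≤
      (∫ z : ℂ, Real.sqrt (fderiv ℝ W z 1 ^ 2 + fderiv ℝ W z Complex.I ^ 2)) ^ 2 := by
  have h1 := hS (fun p => W (Complex.equivRealProdCLM.symm p))
    (hW.comp Complex.equivRealProdCLM.symm.contDiff)
    (hc.comp_homeomorph Complex.equivRealProdCLM.symm.toHomeomorph) (fun p => h0 _)
  have h2 : ∀ p : ℝ × ℝ, HasFDerivAt (fun p => W (Complex.equivRealProdCLM.symm p))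
      ((fderiv ℝ W (Complex.equivRealProdCLM.symm p)).comp
        (Complex.equivRealProdCLM.symm : ℝ × ℝ →L[ℝ] ℂ)) p := fun p =>
    ((hW.differentiable (by norm_num)) _).hasFDerivAt.comp p
      (Complex.equivRealProdCLM.symm : ℝ × ℝ →L[ℝ] ℂ).hasFDerivAt
  have h3 : ∀ p : ℝ × ℝ, fderiv ℝ (fun p => W (Complex.equivRealProdCLM.symm p)) p (1, 0)
      = fderiv ℝ W (Complex.equivRealProdCLM.symm p) 1 := by
    intro p
    rw [(h2 p).fderiv]
    have : (Complex.equivRealProdCLM.symm : ℝ × ℝ →L[ℝ] ℂ) (1, 0) = 1 := by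
      simp [Complex.ext_iff]
    rw [ContinuousLinearMap.comp_apply, this]
  have h4 : ∀ p : ℝ × ℝ, fderiv ℝ (fun p => W (Complex.equivRealProdCLM.symm p)) p (0, 1)
      = fderiv ℝ W (Complex.equivRealProdCLM.symm p) Complex.I := by
    intro p
    rw [(h2 p).fderiv]
    have : (Complex.equivRealProdCLM.symm : ℝ × ℝ →L[ℝ] ℂ) (0, 1) = Complex.I := by
      simp [Complex.ext_iff]
    rw [ContinuousLinearMap.comp_apply, this]
  simp only [h3, h4] at h1
  rw [plane, plane] at h1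
  have h5 : ∀ z : ℂ, Complex.equivRealProdCLM.symm (z.re, z.im) = z := by
    intro z
    simp [Complex.ext_iff]
  simpa only [h5] using h1

end IIso

theorem pr_Iso (hDer : StDer) (hBd : StBd) (hSob : StSob) (hPs : StPs) (hHc : StHc) : StIso := by
  intro a ha hinj θ θ' t₀ ht0 hθ hθc hθz hθn
  obtain ⟨-, -, R₀, C₀, hR₀, hC₀⟩ := hHc.2 a ha
  obtain ⟨-, -, hP⟩ := hPs a R₀ C₀ (by linarith) (fun n => (hC₀ n).1)
  have hF' : ∀ w ∈ Metric.ball (0 : ℂ) 1, HasDerivAt (ps a) (psd a w) w := by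
    intro w hw
    rw [mem_ball_zero_iff] at hw
    exact (hP w (by linarith)).2.1
  have hF : DifferentiableOn ℂ (ps a) (Metric.ball 0 1) := fun w hw =>
    (hF' w hw).differentiableAt.differentiableWithinAt
  obtain ⟨R, hR, hτ, -, hτd⟩ := hDer a ha
  have hsub : Metric.closedBall (0 : ℂ) 1 ⊆ Metric.ball 0 R := Metric.closedBall_subset_ball hR
  -- the compact set
  set K : Set ℂ := Metric.closedBall (0 : ℂ) 1 ∩ (tau a) ⁻¹' (Ici t₀) with hKdef
  have hKc : IsCompact K := by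
    refine (isCompact_closedBall (0 : ℂ) 1).of_isClosed_subset ?_ inter_subset_left
    exact (hτ.continuousOn.mono hsub).preimage_isClosed_of_isClosed Metric.isClosed_closedBall isClosed_Ici
  have hKs : K ⊆ Metric.ball 0 1 := by
    rintro w ⟨hw1, hw2⟩
    rw [mem_closedBall_zero_iff] at hw1
    rw [mem_ball_zero_iff]
    rcases lt_or_eq_of_le hw1 with h | h
    · exact h
    · exfalso
      have h1 : t₀ ≤ tau a w := hw2
      rw [hBd a ha w h] at h1
      linarith
  have hθC : ContDiff ℝ 1 θ := by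
    rw [contDiff_one_iff_deriv]
    refine ⟨fun t => (hθ t).differentiableAt, ?_⟩
    have : deriv θ = θ' := funext (fun t => (hθ t).deriv)
    rw [this]
    exact hθc
  have hθ0 : ∀ t, 0 ≤ θ t := by
    intro t
    rcases le_total t t₀ with h | h
    · rw [hθz t h]
    · have hm : Monotone θ := monotone_of_deriv_nonneg (fun t => (hθ t).differentiableAt)
        (fun t => by rw [(hθ t).deriv]; exact hθn t)
      have := hm h
      rw [hθz t₀ le_rfl] at this
      exact this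
  have hτC : ∀ w ∈ Metric.ball (0 : ℂ) 1, ContDiffAt ℝ 1 (tau a) w := by
    intro w hw
    have hw' : w ∈ Metric.ball (0 : ℂ) R := hsub (Metric.ball_subset_closedBall hw)
    exact (hτ.contDiffAt (Metric.isOpen_ball.mem_nhds hw')).of_le (by norm_num)
  set u : ℂ → ℝ := fun w => θ (tau a w) with hu
  have huC : ∀ w ∈ Metric.ball (0 : ℂ) 1, ContDiffAt ℝ 1 u w := fun w hw =>
    hθC.contDiffAt.comp w (hτC w hw)
  have hK : ∀ w ∈ Metric.ball (0 : ℂ) 1, w ∉ K → u w = 0 := by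
    intro w hw hwK
    refine hθz _ ?_
    by_contra hc
    push Not at hc
    exact hwK ⟨Metric.ball_subset_closedBall hw, hc.le⟩
  have hW := IIso.WW_contDiff hF hinj u huC K hKc hKs hK
  have hWc := IIso.WW_supp hF hinj u K hKc hKs hK
  have hW0 : ∀ z, 0 ≤ IIso.WW (ps a) u z := by
    intro z
    refine indicator_nonneg (fun y _ => ?_) z
    exact hθ0 _
  have hmain := IIso.sob hSob _ hW hWc hW0
  have hmeas : MeasurableSet (ps a '' Metric.ball 0 1) :=
    (Pool.Agent.HolInv.isOpen_image Metric.isOpen_ball hF hinj).measurableSet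
  -- first integral
  have e1 : (∫ z : ℂ, IIso.WW (ps a) u z ^ 2)
      = ∫ w in Metric.ball (0 : ℂ) 1, θ (tau a w) ^ 2 * ‖psd a w‖ ^ 2 := by
    rw [← setIntegral_eq_integral_of_forall_compl_eq_zero (s := ps a '' Metric.ball 0 1),
      IIso.cov hF' hinj]
    · refine setIntegral_congr_fun Metric.isOpen_ball.measurableSet (fun w hw => ?_)
      rw [IIso.WW_F hinj u hw, mul_comm]
    · intro z hz
      have : IIso.WW (ps a) u z = 0 := indicator_of_notMem hz _
      rw [this]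
      norm_num
  -- second integral
  have e2 : (∫ z : ℂ, Real.sqrt (fderiv ℝ (IIso.WW (ps a) u) z 1 ^ 2
        + fderiv ℝ (IIso.WW (ps a) u) z Complex.I ^ 2))
      = ∫ w in Metric.ball (0 : ℂ) 1, θ' (tau a w) * (‖qq a w‖ / 2) * ‖psd a w‖ := by
    rw [← setIntegral_eq_integral_of_forall_compl_eq_zero (s := ps a '' Metric.ball 0 1),
      IIso.cov hF' hinj]
    · refine setIntegral_congr_fun Metric.isOpen_ball.measurableSet (fun w hw => ?_)
      have hne : psd a w ≠ 0 := by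
        have h := Pool.Agent.HolInv.deriv_ne_zero Metric.isOpen_ball hF hinj hw
        rwa [(hF' w hw).deriv] at h
      have hfu : ∀ h : ℂ, fderiv ℝ u w h = θ' (tau a w) * (-(qq a w * h).re / 2) := by
        intro h
        have hwR : ‖w‖ < R := by
          rw [mem_ball_zero_iff] at hw
          linarith
        have h1 : HasFDerivAt (tau a) (fderiv ℝ (tau a) w) w :=
          ((hτC w hw).differentiableAt (by norm_num)).hasFDerivAt
        have h2 : HasFDerivAt u (θ' (tau a w) • fderiv ℝ (tau a) w) w :=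
          (hθ (tau a w)).comp_hasFDerivAt w h1
        rw [h2.fderiv, smul_apply, (hτd w hwR).1 h, smul_eq_mul]
      have hch : ∀ k : ℂ, fderiv ℝ (IIso.WW (ps a) u) (ps a w) k
          = θ' (tau a w) * (-(qq a w / psd a w * k).re / 2) := by
        intro k
        have h1 := IIso.WW_chain hinj u hW hw (hF' w hw) (k / psd a w)
        rw [mul_div_cancel₀ _ hne] at h1
        rw [h1, hfu]
        congr 4
        ring
      rw [hch, hch]
      set ρ : ℂ := qq a w / psd a w with hρ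
      have h3 : (θ' (tau a w) * (-(ρ * 1).re / 2)) ^ 2 + (θ' (tau a w) * (-(ρ * Complex.I).re / 2)) ^ 2
          = (θ' (tau a w) * (‖ρ‖ / 2)) ^ 2 := by
        have h4 : ‖ρ‖ ^ 2 = ρ.re ^ 2 + ρ.im ^ 2 := by
          rw [← Complex.normSq_eq_norm_sq, Complex.normSq_apply]
          ring
        have h5 : (ρ * Complex.I).re = -ρ.im := by simp
        rw [mul_one, h5]
        have : (θ' (tau a w) * (‖ρ‖ / 2)) ^ 2 = θ' (tau a w) ^ 2 * (‖ρ‖ ^ 2) / 4 := by ring
        rw [this, h4]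
        ring
      rw [h3, Real.sqrt_sq (mul_nonneg (hθn _) (by positivity))]
      have h6 : ‖ρ‖ = ‖qq a w‖ / ‖psd a w‖ := by rw [hρ, norm_div]
      rw [h6]
      have h7 : ‖psd a w‖ ≠ 0 := norm_ne_zero_iff.2 hne
      field_simp
    · intro z hz
      rw [IIso.WW_fderiv_zero hF hinj u K hKc hKs hK hz]
      simp
  rw [e1, e2] at hmain
  exact hmain

end Pool.Agent.MFK.RT
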