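import Pool.Agent.Work.MP_8826fd_mp.RT.Stmts

/-!
# MP_8826fd_mp, block RT, item Kno: the Knothe map in one variable
-/

set_option autoImplicit false

namespace Pool.Agent.MFK.RT

open MeasureTheory Set Filter Topology

namespace IKno

/-- the area function in the angle: `K(θ) = H(sin θ)` -/
noncomputable def K (θ : ℝ) : ℝ := θ + Real.sin (2 * θ) / 2 + Real.pi / 2

theorem K_hasDeriv (θ : ℝ) : HasDerivAt K (2 * Real.cos θ ^ 2) θ := by
  have h1 : HasDerivAt (fun t : ℝ => 2 * t) 2 θ := by
    simpa using (hasDerivAt_id θ).const_mul (2 : ℝ)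
  have h2 := ((Real.hasDerivAt_sin (2 * θ)).comp θ h1).div_const 2
  have h3 := ((hasDerivAt_id θ).add h2).add_const (Real.pi / 2)
  have h4 : (1 : ℝ) + Real.cos (2 * θ) * 2 / 2 = 2 * Real.cos θ ^ 2 := by
    rw [Real.cos_two_mul]; ring
  rw [← h4]
  exact h3

theorem K_cont : Continuous K := by
  unfold K
  fun_prop

theorem K_strictMono : StrictMono K := by
  intro a b hab
  unfold K
  have h1 : Real.sin (2 * b) - Real.sin (2 * a) = 2 * Real.sin (b - a) * Real.cos (a + b) := by
    rw [Real.sin_sub_sin]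
    congr 3 <;> ring_nf
  have h2 : |Real.sin (b - a)| < b - a := by
    have h6 := Real.abs_sin_lt_abs (x := b - a) (by linarith)
    rwa [abs_of_pos (show 0 < b - a by linarith)] at h6
  have h3 : |Real.sin (b - a) * Real.cos (a + b)| < b - a := by
    rw [abs_mul]
    have := Real.abs_cos_le_one (a + b)
    have h4 := abs_nonneg (Real.sin (b - a))
    nlinarith
  have h5 := (abs_lt.1 h3).1
  nlinarith

theorem K_surj : Function.Surjective K := by
  refine K_cont.surjective ?_ ?_
  · refine tendsto_atTop_mono (f := id) (fun θ => ?_) tendsto_id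
    have h1 := Real.neg_one_le_sin (2 * θ)
    have h2 := Real.pi_gt_three
    show θ ≤ θ + Real.sin (2 * θ) / 2 + Real.pi / 2
    linarith
  · have h0 : Tendsto (fun θ : ℝ => θ + (1 / 2 + Real.pi / 2)) atBot atBot :=
      tendsto_atBot_add_const_right _ _ tendsto_id
    refine tendsto_atBot_mono (fun θ => ?_) h0
    have h1 := Real.sin_le_one (2 * θ)
    show θ + Real.sin (2 * θ) / 2 + Real.pi / 2 ≤ θ + (1 / 2 + Real.pi / 2)
    linarith

noncomputable def Ki : ℝ ≃o ℝ := StrictMono.orderIsoOfSurjective K K_strictMono K_surj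

theorem Ki_apply (θ : ℝ) : Ki θ = K θ := rfl

theorem K_symm (y : ℝ) : K (Ki.symm y) = y := by
  rw [← Ki_apply]; exact Ki.apply_symm_apply y

theorem Ki_symm_cont : Continuous Ki.symm := Ki.symm.toHomeomorph.continuous

theorem K_neg : K (-(Real.pi / 2)) = 0 := by
  unfold K
  have : 2 * (-(Real.pi / 2)) = -Real.pi := by ring
  rw [this, Real.sin_neg, Real.sin_pi]
  ring

theorem K_pos : K (Real.pi / 2) = Real.pi := by
  unfold K
  have : 2 * (Real.pi / 2) = Real.pi := by ring
  rw [this, Real.sin_pi]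
  ring

theorem Ki_symm_zero : Ki.symm 0 = -(Real.pi / 2) := by
  rw [← K_neg, ← Ki_apply]; exact Ki.symm_apply_apply _

theorem Ki_symm_pi : Ki.symm Real.pi = Real.pi / 2 := by
  conv_lhs => rw [← K_pos, ← Ki_apply]
  exact Ki.symm_apply_apply _

theorem Ki_symm_deriv {y : ℝ} (h : Real.cos (Ki.symm y) ≠ 0) :
    HasDerivAt Ki.symm (2 * Real.cos (Ki.symm y) ^ 2)⁻¹ y := by
  refine HasDerivAt.of_local_left_inverse Ki_symm_cont.continuousAt (K_hasDeriv _) ?_
    (Eventually.of_forall fun z => K_symm z)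
  positivity

theorem Ki_symm_mem {y : ℝ} (h0 : 0 < y) (h1 : y < Real.pi) :
    -(Real.pi / 2) < Ki.symm y ∧ Ki.symm y < Real.pi / 2 := by
  rw [← Ki_symm_zero, ← Ki_symm_pi]
  exact ⟨Ki.symm.lt_iff_lt.2 h0, Ki.symm.lt_iff_lt.2 h1⟩

end IKno

open IKno in
theorem pr_Kno : StKno := by
  intro P hP hPc hP0 hPi
  obtain ⟨M, hM0, hM⟩ := hPc.exists_pos_le_norm
  set G : ℝ → ℝ := fun x => ∫ y in (-M)..x, P y with hG
  have hGd : ∀ x, HasDerivAt G (P x) x := fun x =>
    (hP.integral_hasStrictDerivAt (-M) x).hasDerivAt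
  have hGc : Continuous G := continuous_iff_continuousAt.2 fun x => (hGd x).continuousAt
  have hGm : Monotone G := monotone_of_hasDerivAt_nonneg hGd hP0
  have hG1 : ∀ x, M ≤ x → G x = Real.pi := by
    intro x hx
    rw [← hPi]
    refine intervalIntegral.integral_eq_integral_of_support_subset fun y hy => ?_
    have hy1 : ¬ M ≤ ‖y‖ := fun h => hy (hM y h)
    rw [Real.norm_eq_abs, not_le, abs_lt] at hy1
    exact ⟨hy1.1, by linarith⟩
  have hG0 : ∀ x, x ≤ -M → G x = 0 := by
    intro x hx
    show ∫ y in (-M)..x, P y = 0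
    have h1 : ∀ y ∈ uIcc (-M) x, P y = 0 := by
      intro y hy
      rw [uIcc_of_ge hx] at hy
      apply hM
      rw [Real.norm_eq_abs, abs_of_nonpos (by linarith [hy.2])]
      linarith [hy.2]
    rw [intervalIntegral.integral_congr (g := fun _ => (0 : ℝ)) h1]
    simp
  have hGle : ∀ x, G x ≤ Real.pi := fun x =>
    (hGm (le_max_left x M)).trans (hG1 _ (le_max_right x M)).le
  have hGge : ∀ x, 0 ≤ G x := fun x =>
    (hG0 _ (min_le_right x (-M))).symm.le.trans (hGm (min_le_left x (-M)))
  have hGP : ∀ x, 0 < P x → 0 < G x ∧ G x < Real.pi := by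
    intro x hx
    constructor
    · refine lt_of_le_of_ne (hGge x) fun h => ?_
      have h1 : IsLocalMin G x := Eventually.of_forall fun y => by
        show G x ≤ G y
        rw [← h]; exact hGge y
      have := h1.hasDerivAt_eq_zero (hGd x)
      linarith
    · refine lt_of_le_of_ne (hGle x) fun h => ?_
      have h1 : IsLocalMax G x := Eventually.of_forall fun y => by
        show G y ≤ G x
        rw [h]; exact hGle y
      have := h1.hasDerivAt_eq_zero (hGd x)
      linarith
  set T : ℝ → ℝ := fun x => Real.sin (Ki.symm (G x)) with hT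
  have hTc : Continuous T := Real.continuous_sin.comp (Ki_symm_cont.comp hGc)
  have hT1 : ∀ x, |T x| ≤ 1 := fun x => Real.abs_sin_le_one _
  -- the set where `0 < G < π`
  have hcos : ∀ x, 0 < G x → G x < Real.pi → 0 < Real.cos (Ki.symm (G x)) := fun x h0 h1 =>
    Real.cos_pos_of_mem_Ioo (Ki_symm_mem h0 h1)
  have hsq : ∀ x, 0 < G x → G x < Real.pi → Real.sqrt (1 - T x ^ 2) = Real.cos (Ki.symm (G x)) := by
    intro x h0 h1
    rw [hT]
    simp only
    rw [← Real.abs_cos_eq_sqrt_one_sub_sin_sq, abs_of_pos (hcos x h0 h1)]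
  have hTlt : ∀ x, 0 < G x → G x < Real.pi → |T x| < 1 := by
    intro x h0 h1
    have h2 := hcos x h0 h1
    have h3 := Real.sin_sq_add_cos_sq (Ki.symm (G x))
    rw [← sq_lt_one_iff_abs_lt_one]
    show Real.sin (Ki.symm (G x)) ^ 2 < 1
    nlinarith
  set T' : ℝ → ℝ := fun x => if 0 < G x ∧ G x < Real.pi then P x / (2 * Real.sqrt (1 - T x ^ 2)) else 0
    with hT'
  have hTd : ∀ x, 0 < G x → G x < Real.pi → HasDerivAt T (T' x) x := by
    intro x h0 h1
    have h2 := (Ki_symm_deriv (hcos x h0 h1).ne').comp x (hGd x)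
    have h3 := (Real.hasDerivAt_sin (Ki.symm (G x))).comp x h2
    have h4 : T' x = Real.cos (Ki.symm (G x)) * ((2 * Real.cos (Ki.symm (G x)) ^ 2)⁻¹ * P x) := by
      rw [hT']
      simp only
      rw [if_pos ⟨h0, h1⟩, hsq x h0 h1]
      have := hcos x h0 h1
      field_simp
    rw [h4]
    exact h3
  have hT'0 : ∀ x, 0 ≤ T' x := by
    intro x
    rw [hT']
    simp only
    split_ifs
    · exact div_nonneg (hP0 x) (by positivity)
    · exact le_rfl
  -- the interval
  set U : Set ℝ := {x | 0 < G x ∧ G x < Real.pi} with hU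
  have hUne : U.Nonempty := by
    by_contra h
    have h1 : ∀ x, P x = 0 := by
      intro x
      by_contra h2
      exact h ⟨x, hGP x (lt_of_le_of_ne (hP0 x) (Ne.symm h2))⟩
    have h2 : (∫ x, P x) = 0 := by simp [h1]
    rw [hPi] at h2
    exact Real.pi_ne_zero h2
  have hUb : U ⊆ Icc (-M) M := by
    intro x hx
    constructor
    · by_contra h
      have := hG0 x (by linarith)
      linarith [hx.1]
    · by_contra h
      have := hG1 x (by linarith)
      linarith [hx.2]
  have hUbb : BddBelow U := bddBelow_Icc.mono hUb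
  have hUba : BddAbove U := bddAbove_Icc.mono hUb
  set α := sInf U with hα
  set β := sSup U with hβ
  have hlt : ∀ x, x < α → G x = 0 := by
    intro x hx
    obtain ⟨u, hu⟩ := hUne
    have h1 : x < u := lt_of_lt_of_le hx (csInf_le hUbb hu)
    by_contra h2
    have h3 : x ∈ U := ⟨lt_of_le_of_ne (hGge x) (Ne.symm h2), (hGm h1.le).trans_lt hu.2⟩
    exact absurd (csInf_le hUbb h3) (not_le.2 hx)
  have hgt : ∀ x, β < x → G x = Real.pi := by
    intro x hx
    obtain ⟨u, hu⟩ := hUne
    have h1 : u < x := lt_of_le_of_lt (le_csSup hUba hu) hx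
    by_contra h2
    have h3 : x ∈ U := ⟨hu.1.trans_le (hGm h1.le), lt_of_le_of_ne (hGle x) h2⟩
    exact absurd (le_csSup hUba h3) (not_le.2 hx)
  have hmid : ∀ x, α < x → x < β → 0 < G x ∧ G x < Real.pi := by
    intro x h1 h2
    obtain ⟨u, hu, hux⟩ := exists_lt_of_csInf_lt hUne h1
    obtain ⟨v, hv, hvx⟩ := exists_lt_of_lt_csSup hUne h2
    exact ⟨hu.1.trans_le (hGm hux.le), (hGm hvx.le).trans_lt hv.2⟩
  have hd : ∀ x, x ≠ α → x ≠ β → HasDerivAt T (T' x) x := by
    intro x hxα hxβ
    rcases lt_or_gt_of_ne hxα with h1 | h1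
    · have h2 : T' x = 0 := by
        rw [hT']
        simp only
        rw [if_neg]
        rintro ⟨h3, -⟩
        linarith [hlt x h1]
      rw [h2]
      have h4 : T =ᶠ[𝓝 x] fun _ => Real.sin (Ki.symm 0) := by
        filter_upwards [Iio_mem_nhds h1] with y hy
        show Real.sin (Ki.symm (G y)) = _
        rw [hlt y hy]
      exact (hasDerivAt_const x _).congr_of_eventuallyEq h4
    · rcases lt_or_gt_of_ne hxβ with h2 | h2
      · obtain ⟨h3, h4⟩ := hmid x h1 h2
        exact hTd x h3 h4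
      · have h3 : T' x = 0 := by
          rw [hT']
          simp only
          rw [if_neg]
          rintro ⟨-, h4⟩
          linarith [hgt x h2]
        rw [h3]
        have h4 : T =ᶠ[𝓝 x] fun _ => Real.sin (Ki.symm Real.pi) := by
          filter_upwards [Ioi_mem_nhds h2] with y hy
          show Real.sin (Ki.symm (G y)) = _
          rw [hgt y hy]
        exact (hasDerivAt_const x _).congr_of_eventuallyEq h4
  have hint : Integrable T' := by
    have h1 : IntegrableOn T' (Ioc α β) :=
      intervalIntegral.integrableOn_deriv_of_nonneg hTc.continuousOn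
        (fun x hx => hTd x (hmid x hx.1 hx.2).1 (hmid x hx.1 hx.2).2) (fun x _ => hT'0 x)
    have h2 : IntegrableOn T' (Icc α β) := (integrableOn_Icc_iff_integrableOn_Ioc).2 h1
    refine h2.integrable_of_forall_notMem_eq_zero fun x hx => ?_
    rw [hT']
    simp only
    rw [if_neg]
    rintro ⟨h3, h4⟩
    apply hx
    exact ⟨csInf_le hUbb ⟨h3, h4⟩, le_csSup hUba ⟨h3, h4⟩⟩
  refine ⟨T, T', hTc, hT1, hT'0, hint, fun a b hab => ?_, fun x hx => ?_⟩
  · refine MeasureTheory.integral_eq_of_hasDerivAt_off_countable_of_le T T' hab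
      (s := {α, β}) (Set.to_countable _) hTc.continuousOn (fun x hx => ?_) hint.intervalIntegrable
    have h1 := hx.2
    simp only [mem_insert_iff, mem_singleton_iff, not_or] at h1
    exact hd x h1.1 h1.2
  · obtain ⟨h0, h1⟩ := hGP x hx
    refine ⟨hTlt x h0 h1, ?_⟩
    rw [hT']
    simp only
    rw [if_pos ⟨h0, h1⟩]
    have h2 := hcos x h0 h1
    rw [← hsq x h0 h1] at h2
    have h3 : 2 * Real.sqrt (1 - T x ^ 2) ≠ 0 := by positivity
    exact div_mul_cancel₀ _ h3

end Pool.Agent.MFK.RT
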