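import Pool.Agent.Work.MP_8826fd_mp.RT.Stmts2

/-! # MP_8826fd_mp, block RT: item Le -/

set_option autoImplicit false

namespace Pool.Agent.MFK.RT

open MeasureTheory Set Filter Topology Pool.Agent.MFK.NF

namespace ILe

theorem eden_nonneg (B : ℝ) (u : ℝ × ℝ → ℂ) (x : ℝ × ℝ) : 0 ≤ eden B u x := by
  unfold eden; positivity

theorem measurable_disc : MeasurableSet disc :=
  (isOpen_lt (by fun_prop) continuous_const : IsOpen {x : ℝ × ℝ | x.1 ^ 2 + x.2 ^ 2 < 1}).measurableSet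

theorem disc_sub : disc ⊆ Icc (-1 : ℝ) 1 ×ˢ Icc (-1 : ℝ) 1 := by
  intro x hx
  have hx' : x.1 ^ 2 + x.2 ^ 2 < 1 := hx
  refine ⟨⟨?_, ?_⟩, ⟨?_, ?_⟩⟩ <;> nlinarith [sq_nonneg x.1, sq_nonneg x.2]

theorem vol_lt_top : volume disc < ⊤ :=
  (measure_mono disc_sub).trans_lt (isCompact_Icc.prod isCompact_Icc).measure_lt_top

theorem vol_pos : 0 < volume disc := by
  have hO : IsOpen disc := (isOpen_lt (by fun_prop) continuous_const : IsOpen {x : ℝ × ℝ | x.1 ^ 2 + x.2 ^ 2 < 1})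
  exact hO.measure_pos volume ⟨(0, 0), by show (0 : ℝ) ^ 2 + 0 ^ 2 < 1; norm_num⟩

/-- the constants are admissible -/
theorem const_adm (B : ℝ) : ∃ u : ℝ × ℝ → ℂ, ContDiffOn ℝ 1 u disc ∧
      (∀ x ∈ disc, ∀ y ∈ disc, x.1 ^ 2 + x.2 ^ 2 = y.1 ^ 2 + y.2 ^ 2 → u x = u y) ∧
      IntegrableOn (fun x => ‖u x‖ ^ 2) disc ∧ IntegrableOn (fun x => eden B u x) disc ∧
      (∫ x in disc, ‖u x‖ ^ 2) = 1 := by
  set V := (volume disc).toReal with hV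
  have hV0 : 0 < V := ENNReal.toReal_pos vol_pos.ne' vol_lt_top.ne
  set c : ℂ := ((Real.sqrt (V⁻¹) : ℝ) : ℂ) with hc
  have hc2 : ‖c‖ ^ 2 = V⁻¹ := by
    rw [hc, Complex.norm_real, Real.norm_eq_abs, sq_abs, Real.sq_sqrt (by positivity)]
  refine ⟨fun _ => c, contDiffOn_const, fun x _ y _ _ => rfl, ?_, ?_, ?_⟩
  · exact integrableOn_const vol_lt_top.ne
  · have h1 : (fun x : ℝ × ℝ => eden B (fun _ => c) x)
        = fun x => ‖Complex.I * ((-(B * x.2 / 2) : ℝ) : ℂ) * c‖ ^ 2 + ‖Complex.I * ((B * x.1 / 2 : ℝ) : ℂ) * c‖ ^ 2 := by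
      funext x
      unfold eden
      rw [fderiv_fun_const]
      simp
    rw [h1]
    have h2 : Continuous (fun x : ℝ × ℝ => ‖Complex.I * ((-(B * x.2 / 2) : ℝ) : ℂ) * c‖ ^ 2
        + ‖Complex.I * ((B * x.1 / 2 : ℝ) : ℂ) * c‖ ^ 2) := by fun_prop
    exact (h2.continuousOn.integrableOn_compact (isCompact_Icc.prod isCompact_Icc)).mono_set disc_sub
  · rw [setIntegral_const, hc2]
    show V * V⁻¹ = 1
    exact mul_inv_cancel₀ hV0.ne'

end ILe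

theorem pr_Le : StLe := by
  intro B
  obtain ⟨u, h1, h2, h3, h4, h5⟩ := ILe.const_adm B
  refine csInf_le_csInf ?_ ?_ ?_
  · refine ⟨0, ?_⟩
    rintro q ⟨v, -, -, -, -, rfl⟩
    exact integral_nonneg fun x => ILe.eden_nonneg B v x
  · exact ⟨_, u, h1, h2, h3, h4, h5, rfl⟩
  · rintro q ⟨v, k1, k2, k3, k4, k5, k6⟩
    exact ⟨v, k1, k3, k4, k5, k6⟩

end Pool.Agent.MFK.RT
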