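import Pool.Agent.Work.MP_8826fd_mp.RT.Stmts

/-!
# MP_8826fd_mp, block RT, item Lim.

Passage to the limit `ρ → 1` (Fatou) and the test function: the radial energy bound with a deficit for a simply connected domain of
area `π` whose conformal radii are at most `s`.
-/

set_option autoImplicit false

namespace Pool.Agent.MFK.RT

open MeasureTheory Set Filter Topology Pool.Agent.MFK.NF
open scoped ComplexConjugate

namespace ILim

/-- Fatou's lemma for nonnegative integrable functions with a convergent bound of the integrals -/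
theorem fatou {μ : Measure ℂ} (g : ℕ → ℂ → ℝ) (G : ℂ → ℝ) (K : ℕ → ℝ) (K0 : ℝ)
    (hint : ∀ n, Integrable (g n) μ) (hpos : ∀ n, ∀ᵐ w ∂μ, 0 ≤ g n w)
    (hK : ∀ n, (∫ w, g n w ∂μ) ≤ K n) (hKl : Tendsto K atTop (𝓝 K0))
    (hlim : ∀ᵐ w ∂μ, Tendsto (fun n => g n w) atTop (𝓝 (G w))) :
    Integrable G μ ∧ (∫ w, G w ∂μ) ≤ K0 := by
  have hGm : AEStronglyMeasurable G μ :=
    aestronglyMeasurable_of_tendsto_ae atTop (fun n => (hint n).aestronglyMeasurable) hlim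
  have hG0 : ∀ᵐ w ∂μ, 0 ≤ G w := by
    have h : ∀ᵐ w ∂μ, ∀ n, 0 ≤ g n w := ae_all_iff.mpr hpos
    filter_upwards [h, hlim] with w h1 h2
    exact ge_of_tendsto' h2 h1
  have h1 : (∫⁻ w, ENNReal.ofReal (G w) ∂μ) ≤ ENNReal.ofReal K0 := by
    calc (∫⁻ w, ENNReal.ofReal (G w) ∂μ)
        = ∫⁻ w, liminf (fun n => ENNReal.ofReal (g n w)) atTop ∂μ := by
          refine lintegral_congr_ae ?_
          filter_upwards [hlim] with w hw
          exact ((ENNReal.continuous_ofReal.tendsto _).comp hw).liminf_eq.symm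
      _ ≤ liminf (fun n => ∫⁻ w, ENNReal.ofReal (g n w) ∂μ) atTop := by
          refine lintegral_liminf_le' (fun n => ?_)
          exact (hint n).aestronglyMeasurable.aemeasurable.ennreal_ofReal
      _ ≤ liminf (fun n => ENNReal.ofReal (K n)) atTop := by
          refine liminf_le_liminf (Eventually.of_forall fun n => ?_)
          rw [← ofReal_integral_eq_lintegral_ofReal (hint n) (hpos n)]
          exact ENNReal.ofReal_le_ofReal (hK n)
      _ = ENNReal.ofReal K0 := ((ENNReal.continuous_ofReal.tendsto _).comp hKl).liminf_eq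
  have hGi : Integrable G μ := ⟨hGm, by
    rw [hasFiniteIntegral_iff_ofReal hG0]
    exact lt_of_le_of_lt h1 ENNReal.ofReal_lt_top⟩
  refine ⟨hGi, ?_⟩
  have hK0 : 0 ≤ K0 :=
    ge_of_tendsto' hKl (fun n => (integral_nonneg_of_ae (hpos n)).trans (hK n))
  rw [← ofReal_integral_eq_lintegral_ofReal hGi hG0] at h1
  exact (ENNReal.ofReal_le_ofReal_iff hK0).mp h1

theorem ps_meas (b : ℕ → ℂ) (C : ℝ) (hb : ∀ n, ‖b n‖ ≤ C) :
    AEStronglyMeasurable (ps b) (volume.restrict (Metric.ball (0 : ℂ) 1)) := by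
  refine aestronglyMeasurable_of_tendsto_ae atTop
    (f := fun (N : ℕ) (w : ℂ) => ∑ n ∈ Finset.range N, b n * w ^ n) (fun N => ?_) ?_
  · have hc : Continuous (fun w : ℂ => ∑ n ∈ Finset.range N, b n * w ^ n) := by fun_prop
    exact hc.aestronglyMeasurable
  · filter_upwards [ae_restrict_mem Metric.isOpen_ball.measurableSet] with w hw
    have hw1 : ‖w‖ < 1 := by simpa using hw
    have hs : Summable (fun n => b n * w ^ n) := by
      refine Summable.of_norm_bounded (g := fun n => C * ‖w‖ ^ n)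
        ((summable_geometric_of_lt_one (norm_nonneg _) hw1).mul_left _) (fun n => ?_)
      rw [norm_mul, norm_pow]
      exact mul_le_mul_of_nonneg_right (hb n) (by positivity)
    exact hs.hasSum.tendsto_sum_nat

theorem psd_meas (b : ℕ → ℂ) (C : ℝ) (hb : ∀ n, ‖b n‖ ≤ C) :
    AEStronglyMeasurable (psd b) (volume.restrict (Metric.ball (0 : ℂ) 1)) := by
  refine aestronglyMeasurable_of_tendsto_ae atTop
    (f := fun (N : ℕ) (w : ℂ) => ∑ n ∈ Finset.range N, (n : ℂ) * b n * w ^ (n - 1)) (fun N => ?_) ?_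
  · have hc : Continuous (fun w : ℂ => ∑ n ∈ Finset.range N, (n : ℂ) * b n * w ^ (n - 1)) := by fun_prop
    exact hc.aestronglyMeasurable
  · filter_upwards [ae_restrict_mem Metric.isOpen_ball.measurableSet] with w hw
    have hw1 : ‖w‖ < 1 := by simpa using hw
    have hs : Summable (fun n : ℕ => (n : ℂ) * b n * w ^ (n - 1)) := by
      rw [← summable_nat_add_iff 1]
      have h1 : Summable (fun n : ℕ => (n : ℝ) * ‖w‖ ^ n) := by
        have := summable_pow_mul_geometric_of_norm_lt_one 1 (r := ‖w‖) (by simpa using hw1)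
        simpa using this
      have h2 : Summable (fun n : ℕ => ‖w‖ ^ n) := summable_geometric_of_lt_one (norm_nonneg _) hw1
      refine Summable.of_norm_bounded (g := fun n : ℕ => C * ((n : ℝ) * ‖w‖ ^ n + ‖w‖ ^ n))
        ((h1.add h2).mul_left _) (fun n => ?_)
      rw [norm_mul, norm_mul, norm_pow, Nat.add_sub_cancel]
      have h3 : ‖((n + 1 : ℕ) : ℂ)‖ = (n : ℝ) + 1 := by
        rw [Complex.norm_natCast]; push_cast; ring
      rw [h3]
      have h4 : ((n : ℝ) + 1) * ‖b (n + 1)‖ * ‖w‖ ^ n ≤ ((n : ℝ) + 1) * C * ‖w‖ ^ n := by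
        have := hb (n + 1)
        gcongr
      calc ((n : ℝ) + 1) * ‖b (n + 1)‖ * ‖w‖ ^ n ≤ ((n : ℝ) + 1) * C * ‖w‖ ^ n := h4
        _ = C * ((n : ℝ) * ‖w‖ ^ n + ‖w‖ ^ n) := by ring
    exact hs.hasSum.tendsto_sum_nat

theorem bnd_of_nice (hHc : StHc) (b : ℕ → ℂ) (hb : Nice b) :
    ∃ C : ℝ, (∀ n, ‖b n‖ ≤ C) ∧ ∀ n, ‖hc b n‖ ≤ C := by
  obtain ⟨-, -, R, C, hR, h⟩ := hHc.2 b hb
  refine ⟨C, fun n => ?_, fun n => ?_⟩
  · refine le_trans ?_ (h n).1
    have h1 : 1 ≤ R ^ n := one_le_pow₀ hR.le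
    nlinarith [norm_nonneg (b n)]
  · refine le_trans ?_ (h n).2
    have h1 : 1 ≤ R ^ n := one_le_pow₀ hR.le
    nlinarith [norm_nonneg (hc b n)]

theorem tau_meas (hHc : StHc) (b : ℕ → ℂ) (hb : Nice b) :
    AEStronglyMeasurable (tau b) (volume.restrict (Metric.ball (0 : ℂ) 1)) := by
  obtain ⟨C, h1, h2⟩ := bnd_of_nice hHc b hb
  have m1 := ps_meas b C h1
  have m2 := ps_meas (hc b) C h2
  have m3 : AEStronglyMeasurable (fun w => (ps (hc b) w).re) (volume.restrict (Metric.ball (0 : ℂ) 1)) :=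
    Complex.continuous_re.comp_aestronglyMeasurable m2
  have m4 : AEStronglyMeasurable (fun w => ‖ps b w‖ ^ 2) (volume.restrict (Metric.ball (0 : ℂ) 1)) :=
    m1.norm.pow 2
  have m5 := (m3.sub m4).mul_const (1 / 4)
  refine m5.congr (Eventually.of_forall fun w => ?_)
  simp only [tau, Pi.sub_apply]
  ring

theorem Mint (hHc : StHc) (hDir : StDir) (b : ℕ → ℂ) (hb : Nice b) (f : ℝ → ℝ) (hf : Continuous f) (c : ℝ)
    (hbd : ∀ w : ℂ, ‖w‖ < 1 → f (tau b w) ^ 2 ≤ c) :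
    IntegrableOn (fun w => f (tau b w) ^ 2 * ‖psd b w‖ ^ 2) (Metric.ball (0 : ℂ) 1) := by
  obtain ⟨C, h1, h2⟩ := bnd_of_nice hHc b hb
  have hD := (hDir b (hHc.2 b hb).2.1).1
  refine Integrable.mono' (g := fun w => c * ‖psd b w‖ ^ 2) (hD.const_mul c) ?_ ?_
  · exact ((hf.comp_aestronglyMeasurable (tau_meas hHc b hb)).pow 2).mul ((psd_meas b C h1).norm.pow 2)
  · filter_upwards [ae_restrict_mem Metric.isOpen_ball.measurableSet] with w hw
    have hw1 : ‖w‖ < 1 := by simpa using hw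
    rw [Real.norm_of_nonneg (by positivity)]
    exact mul_le_mul_of_nonneg_right (hbd w hw1) (by positivity)

/-! ### the rescaled series -/

theorem rs_norm (a : ℕ → ℂ) (ρ : ℝ) (h0 : 0 < ρ) (n : ℕ) : ‖rs ρ a n‖ = ‖a n‖ * ρ ^ n := by
  rw [rs, norm_mul, norm_pow, Complex.norm_of_nonneg h0.le]

theorem rs_nice (a : ℕ → ℂ) (C ρ : ℝ) (hC : ∀ n, ‖a n‖ ≤ C) (h0 : 0 < ρ) (h1 : ρ < 1) : Nice (rs ρ a) := by
  refine ⟨ρ, C, h0, h1, fun n => ?_⟩
  rw [rs_norm a ρ h0]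
  exact mul_le_mul_of_nonneg_right (hC n) (pow_nonneg h0.le n)

theorem ps_rs (a : ℕ → ℂ) (ρ : ℝ) (w : ℂ) : ps (rs ρ a) w = ps a ((ρ : ℂ) * w) := by
  unfold ps rs
  refine tsum_congr (fun n => ?_)
  rw [mul_pow]; ring

theorem psd_rs (a : ℕ → ℂ) (ρ : ℝ) (w : ℂ) : psd (rs ρ a) w = (ρ : ℂ) * psd a ((ρ : ℂ) * w) := by
  unfold psd rs
  rw [← tsum_mul_left]
  refine tsum_congr (fun n => ?_)
  rcases n with _ | n
  · simp
  · rw [Nat.add_sub_cancel, mul_pow]; ring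

theorem cr_rs_le (a : ℕ → ℂ) (ρ : ℝ) (h0 : 0 < ρ) (h1 : ρ < 1) (w : ℂ) (hw : ‖w‖ < 1) :
    cr (rs ρ a) w ≤ cr a ((ρ : ℂ) * w) := by
  unfold cr
  rw [psd_rs, norm_mul, norm_mul, Complex.norm_of_nonneg h0.le]
  have h2 : ρ * (1 - ‖w‖ ^ 2) ≤ 1 - (ρ * ‖w‖) ^ 2 := by
    have h3 : 0 ≤ ‖w‖ := norm_nonneg w
    have h4 : ‖w‖ ^ 2 ≤ 1 := by nlinarith
    nlinarith [mul_nonneg (sub_nonneg.mpr h1.le) (sub_nonneg.mpr h4), mul_nonneg (mul_nonneg h0.le (sub_nonneg.mpr h1.le)) (sq_nonneg ‖w‖), mul_nonneg (sub_nonneg.mpr h1.le) (sq_nonneg ‖w‖)]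
  calc ρ * ‖psd a ((ρ : ℂ) * w)‖ * (1 - ‖w‖ ^ 2) = ‖psd a ((ρ : ℂ) * w)‖ * (ρ * (1 - ‖w‖ ^ 2)) := by ring
    _ ≤ ‖psd a ((ρ : ℂ) * w)‖ * (1 - (ρ * ‖w‖) ^ 2) := mul_le_mul_of_nonneg_left h2 (norm_nonneg _)

theorem norm_rs_lt (ρ : ℝ) (h0 : 0 < ρ) (h1 : ρ < 1) (w : ℂ) (hw : ‖w‖ < 1) : ‖(ρ : ℂ) * w‖ < 1 := by
  rw [norm_mul, Complex.norm_of_nonneg h0.le]
  nlinarith [norm_nonneg w]

theorem cr_rs_pos (a : ℕ → ℂ) (ρ : ℝ) (h0 : 0 < ρ) (w : ℂ) (hw : ‖w‖ < 1) (hne : psd a ((ρ : ℂ) * w) ≠ 0) :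
    0 < cr (rs ρ a) w := by
  unfold cr
  rw [psd_rs, norm_mul, Complex.norm_of_nonneg h0.le]
  have h2 : 0 < ‖psd a ((ρ : ℂ) * w)‖ := norm_pos_iff.mpr hne
  have h3 : 0 < 1 - ‖w‖ ^ 2 := by nlinarith [norm_nonneg w]
  positivity

theorem Ar_le (a : ℕ → ℂ) (hs : Summable (fun n : ℕ => (n : ℝ) * ‖a n‖ ^ 2)) (ρ : ℝ) (h0 : 0 < ρ) (h1 : ρ < 1) :
    (∀ n : ℕ, (n : ℝ) * ‖rs ρ a n‖ ^ 2 ≤ (n : ℝ) * ‖a n‖ ^ 2) ∧
    Summable (fun n : ℕ => (n : ℝ) * ‖rs ρ a n‖ ^ 2) ∧ Ar (rs ρ a) ≤ Ar a := by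
  have hle : ∀ n : ℕ, (n : ℝ) * ‖rs ρ a n‖ ^ 2 ≤ (n : ℝ) * ‖a n‖ ^ 2 := by
    intro n
    rw [rs_norm a ρ h0]
    have h2 : ρ ^ n ≤ 1 := pow_le_one₀ h0.le h1.le
    have h3 : 0 ≤ ρ ^ n := pow_nonneg h0.le n
    have h4 : ‖a n‖ * ρ ^ n ≤ ‖a n‖ := by nlinarith [norm_nonneg (a n)]
    have h5 : 0 ≤ ‖a n‖ * ρ ^ n := by positivity
    gcongr
  have hs2 : Summable (fun n : ℕ => (n : ℝ) * ‖rs ρ a n‖ ^ 2) :=
    Summable.of_nonneg_of_le (fun n => by positivity) hle hs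
  exact ⟨hle, hs2, hs2.tsum_le_tsum hle hs⟩

theorem Ar_lim (a : ℕ → ℂ) (hs : Summable (fun n : ℕ => (n : ℝ) * ‖a n‖ ^ 2)) (r : ℕ → ℝ)
    (h0 : ∀ n, 0 < r n) (h1 : ∀ n, r n < 1) (hr : Tendsto r atTop (𝓝 1)) :
    Tendsto (fun n => Ar (rs (r n) a)) atTop (𝓝 (Ar a)) := by
  unfold Ar
  refine tendsto_tsum_of_dominated_convergence (bound := fun n : ℕ => (n : ℝ) * ‖a n‖ ^ 2) hs (fun k => ?_)
    (Eventually.of_forall fun n k => ?_)
  · have h2 : Tendsto (fun n => (k : ℝ) * (‖a k‖ * (r n) ^ k) ^ 2) atTop (𝓝 ((k : ℝ) * (‖a k‖ * (1 : ℝ) ^ k) ^ 2)) :=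
      (((hr.pow k).const_mul _).pow 2).const_mul _
    rw [one_pow, mul_one] at h2
    refine h2.congr (fun n => ?_)
    rw [rs_norm a (r n) (h0 n)]
  · rw [Real.norm_of_nonneg (by positivity)]
    exact (Ar_le a hs (r n) (h0 n) (h1 n)).1 k

/-- the sequence of radii -/
noncomputable def r (n : ℕ) : ℝ := 1 - 1 / ((n : ℝ) + 2)

theorem r_pos (n : ℕ) : 0 < r n := by
  have h : 1 / ((n : ℝ) + 2) < 1 := by
    rw [div_lt_one (by positivity)]
    have : (0 : ℝ) ≤ n := by positivity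
    linarith
  unfold r; linarith

theorem r_lt (n : ℕ) : r n < 1 := by
  have h : 0 < 1 / ((n : ℝ) + 2) := by positivity
  unfold r; linarith

theorem r_tend : Tendsto r atTop (𝓝 1) := by
  have h : Tendsto (fun n : ℕ => (1 : ℝ) / ((n : ℝ) + 2)) atTop (𝓝 0) := by
    have h1 : Tendsto (fun n : ℕ => (n : ℝ) + 2) atTop atTop :=
      tendsto_atTop_add_const_right _ _ tendsto_natCast_atTop_atTop
    simpa using h1.const_div_atTop 1
  have h2 := h.const_sub 1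
  rw [sub_zero] at h2
  exact h2

theorem r_tend' : Tendsto r atTop (𝓝[<] 1) :=
  tendsto_nhdsWithin_iff.mpr ⟨r_tend, Eventually.of_forall fun n => r_lt n⟩

/-- the one-dimensional remainder -/
theorem oneD (B lam T : ℝ) (hRd : Rd B lam) (hOne : StOne) (h0 : 0 < T) (h1 : T ≤ 1 / 4) :
    (∫ t in (0 : ℝ)..T, Phf B lam (fr B lam) t * (Real.pi - 4 * Real.pi * t)) - lam * fr B lam 0 ^ 2 * Real.pi
      ≤ -((B ^ 2 - lam ^ 2) * Real.exp (-(B / 2)) * (2 * Real.pi * (1 / 4 - T) ^ 2)) := by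
  obtain ⟨hf, hbd, hPhi, hid⟩ := hOne B lam hRd
  have hcf : Continuous (fr B lam) := hf.continuous
  have hcd : Continuous (deriv (fr B lam)) := hf.continuous_deriv_one
  have hcP : Continuous (fun t => Phf B lam (fr B lam) t * (Real.pi - 4 * Real.pi * t)) := by
    unfold Phf
    fun_prop
  have hsplit := intervalIntegral.integral_add_adjacent_intervals (μ := volume)
    (hcP.intervalIntegrable 0 T) (hcP.intervalIntegrable T (1 / 4))
  have hlow : (∫ t in T..(1 / 4), ((B ^ 2 - lam ^ 2) * Real.exp (-(B / 2))) * (Real.pi - 4 * Real.pi * t))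
      ≤ ∫ t in T..(1 / 4), Phf B lam (fr B lam) t * (Real.pi - 4 * Real.pi * t) := by
    refine intervalIntegral.integral_mono_on h1 ?_ (hcP.intervalIntegrable _ _) (fun t ht => ?_)
    · exact (by fun_prop : Continuous (fun t : ℝ => ((B ^ 2 - lam ^ 2) * Real.exp (-(B / 2))) * (Real.pi - 4 * Real.pi * t))).intervalIntegrable _ _
    · have ht0 : 0 ≤ t := h0.le.trans ht.1
      have h2 := (hbd t ⟨ht0, ht.2⟩).1
      have h3 := hPhi t
      have h4 : 0 ≤ B ^ 2 - lam ^ 2 := by nlinarith [hRd.lt, hRd.pos, hRd.hB]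
      have h5 : (B ^ 2 - lam ^ 2) * Real.exp (-(B / 2)) ≤ Phf B lam (fr B lam) t :=
        (mul_le_mul_of_nonneg_left h2 h4).trans h3
      have h6 : 0 ≤ Real.pi - 4 * Real.pi * t := by
        nlinarith [Real.pi_pos, ht.2]
      exact mul_le_mul_of_nonneg_right h5 h6
  have hval : (∫ t in T..(1 / 4), ((B ^ 2 - lam ^ 2) * Real.exp (-(B / 2))) * (Real.pi - 4 * Real.pi * t))
      = (B ^ 2 - lam ^ 2) * Real.exp (-(B / 2)) * (2 * Real.pi * (1 / 4 - T) ^ 2) := by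
    rw [intervalIntegral.integral_const_mul]
    congr 1
    have hder : ∀ t ∈ uIcc T (1 / 4), HasDerivAt (fun t : ℝ => Real.pi * t - 2 * Real.pi * t ^ 2) (Real.pi - 4 * Real.pi * t) t := by
      intro t _
      have e1 : HasDerivAt (fun t : ℝ => Real.pi * t) Real.pi t := by
        simpa using (hasDerivAt_id t).const_mul Real.pi
      have e2 : HasDerivAt (fun t : ℝ => 2 * Real.pi * t ^ 2) (4 * Real.pi * t) t := by
        have h := (hasDerivAt_pow 2 t).const_mul (2 * Real.pi)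
        have h' : 2 * Real.pi * (((2 : ℕ) : ℝ) * t ^ (2 - 1)) = 4 * Real.pi * t := by
          norm_num; ring
        rw [h'] at h
        exact h
      exact e1.sub e2
    rw [intervalIntegral.integral_eq_sub_of_hasDerivAt hder
      ((by fun_prop : Continuous (fun t : ℝ => Real.pi - 4 * Real.pi * t)).intervalIntegrable _ _)]
    ring
  rw [hid] at hsplit
  rw [hval] at hlow
  linarith

/-- the final arithmetic -/
theorem arith (B lam s E M : ℝ) (hRd : Rd B lam)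
    (hE : E - lam * M ≤ -((B ^ 2 - lam ^ 2) * Real.exp (-(B / 2)) * (2 * Real.pi * (1 / 4 - (1 + s ^ 2) / 8) ^ 2)))
    (hM : M ≤ Real.exp (B / 2) * Real.pi) :
    E ≤ (lam - 1 / 32 * Real.exp (-B) * (B ^ 2 - lam ^ 2) * (1 - s ^ 2) ^ 2) * M := by
  have h4 : 0 ≤ B ^ 2 - lam ^ 2 := by nlinarith [hRd.lt, hRd.pos, hRd.hB]
  have h5 : Real.exp (-B) * Real.exp (B / 2) = Real.exp (-(B / 2)) := by
    rw [← Real.exp_add]; congr 1; ring
  have h6 : 0 ≤ 1 / 32 * Real.exp (-B) * (B ^ 2 - lam ^ 2) * (1 - s ^ 2) ^ 2 := by positivity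
  have h7 := mul_le_mul_of_nonneg_left hM h6
  have h8 : 1 / 32 * Real.exp (-B) * (B ^ 2 - lam ^ 2) * (1 - s ^ 2) ^ 2 * (Real.exp (B / 2) * Real.pi)
      = (B ^ 2 - lam ^ 2) * Real.exp (-(B / 2)) * (2 * Real.pi * (1 / 4 - (1 + s ^ 2) / 8) ^ 2) := by
    rw [← h5]; ring
  rw [h8] at h7
  nlinarith [h7, hE]

end ILim

open ILim in
theorem pr_Lim (hUpp : StUpp) (hOne : StOne) (hMob : StMob) (hLmp : StLmp) (hTst : StTst) (hDir : StDir) (hHc : StHc)
    (hArr : StArr) : StLim := by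
  intro Ω f F a B lam s hRM hvol hRd hs0 hs1 hcr
  obtain ⟨hsum, hAr, hF⟩ := hArr Ω f F a hRM hvol
  obtain ⟨hf, hbd, hPhi, hid⟩ := hOne B lam hRd
  have hcf : Continuous (fr B lam) := hf.continuous
  have hcd : Continuous (deriv (fr B lam)) := hf.continuous_deriv_one
  have hlam : 0 ≤ lam := hRd.pos.le
  have hBl : 0 ≤ B ^ 2 - lam ^ 2 := by nlinarith [hRd.lt, hRd.pos, hRd.hB]
  -- `‖a n‖` is bounded
  obtain ⟨C, hC⟩ : ∃ C : ℝ, ∀ n, ‖a n‖ ≤ C := by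
    refine ⟨max ‖a 0‖ 1, fun n => ?_⟩
    rcases Nat.eq_zero_or_pos n with h | h
    · subst h; exact le_max_left _ _
    · refine le_trans ?_ (le_max_right _ _)
      have h1 : (n : ℝ) * ‖a n‖ ^ 2 ≤ 1 := by
        rw [← hAr]
        exact hsum.le_tsum n (fun j _ => by positivity)
      have h2 : (1 : ℝ) ≤ n := by exact_mod_cast h
      have h3 : ‖a n‖ ^ 2 ≤ 1 := by nlinarith [sq_nonneg ‖a n‖]
      nlinarith [norm_nonneg (a n)]
  set T : ℝ := (1 + s ^ 2) / 8 with hT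
  have hT0 : 0 < T := by positivity
  have hT4 : T ≤ 1 / 4 := by rw [hT]; nlinarith
  set b : ℕ → ℕ → ℂ := fun n => rs (r n) a with hb
  have hnice : ∀ n, Nice (b n) := fun n => rs_nice a C (r n) hC (r_pos n) (r_lt n)
  have hArn : ∀ n, Ar (b n) ≤ 1 := fun n => by
    rw [← hAr]; exact (Ar_le a hsum (r n) (r_pos n) (r_lt n)).2.2
  have hsumn : ∀ n, Summable (fun k : ℕ => (k : ℝ) * ‖b n k‖ ^ 2) := fun n =>
    (Ar_le a hsum (r n) (r_pos n) (r_lt n)).2.1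
  have hinj : ∀ n, InjOn (ps (b n)) (Metric.ball 0 1) := by
    intro n w hw w' hw' h
    have hw1 : ‖w‖ < 1 := by simpa using hw
    have hw1' : ‖w'‖ < 1 := by simpa using hw'
    have k1 := norm_rs_lt (r n) (r_pos n) (r_lt n) w hw1
    have k2 := norm_rs_lt (r n) (r_pos n) (r_lt n) w' hw1'
    simp only [hb] at h
    rw [ps_rs, ps_rs, ← (hF _ k1).1, ← (hF _ k2).1] at h
    have h2 : ((r n : ℝ) : ℂ) * w = ((r n : ℝ) : ℂ) * w' := by
      have q1 := hRM.fF (((r n : ℝ) : ℂ) * w) (mem_ball_zero_iff.mpr k1)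
      have q2 := hRM.fF (((r n : ℝ) : ℂ) * w') (mem_ball_zero_iff.mpr k2)
      rw [h] at q1
      exact q1.symm.trans q2
    exact mul_left_cancel₀ (by exact_mod_cast (r_pos n).ne') h2
  have htau : ∀ n, ∀ w : ℂ, ‖w‖ < 1 → 0 < tau (b n) w ∧ tau (b n) w ≤ T := by
    intro n w hw
    have k1 := norm_rs_lt (r n) (r_pos n) (r_lt n) w hw
    obtain ⟨m1, m2⟩ := hMob (b n) (hnice n) w hw
    have c1 : cr (b n) w ≤ s := (cr_rs_le a (r n) (r_pos n) (r_lt n) w hw).trans (hcr _ k1)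
    have c2 : 0 < cr (b n) w := cr_rs_pos a (r n) (r_pos n) w hw (hF _ k1).2.2
    have c3 := hArn n
    have c4 : cr (b n) w ^ 2 ≤ s ^ 2 := by nlinarith
    refine ⟨by nlinarith, ?_⟩
    rw [hT]; linarith
  have hPn : ∀ t ∈ Icc (0 : ℝ) T, 0 ≤ Phf B lam (fr B lam) t := fun t _ =>
    le_trans (mul_nonneg hBl (sq_nonneg _)) (hPhi t)
  have hU := fun n => hUpp (b n) B lam T (fr B lam) (hnice n) (hinj n) (hArn n) hT0 hT4 (htau n) hf hlam hPn
  have hfn : ∀ n, ∀ w : ℂ, ‖w‖ < 1 → fr B lam (tau (b n) w) ^ 2 ≤ Real.exp (B / 2) := fun n w hw =>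
    (hbd _ ⟨(htau n w hw).1.le, (htau n w hw).2.trans hT4⟩).2
  have hMn := fun n => Mint hHc hDir (b n) (hnice n) (fr B lam) hcf (Real.exp (B / 2)) (hfn n)
  have hDn := fun n => hDir (b n) (hsumn n)
  obtain ⟨hDa, hDa2⟩ := hDir a hsum
  rw [hAr, mul_one] at hDa2
  -- limits
  have hL := fun (w : ℂ) (hw : ‖w‖ < 1) => hLmp a hsum w hw
  have hLt : ∀ w : ℂ, ‖w‖ < 1 → Tendsto (fun n => tau (b n) w) atTop (𝓝 (tau a w)) := fun w hw =>
    (hL w hw).1.comp r_tend'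
  have hLq : ∀ w : ℂ, ‖w‖ < 1 → Tendsto (fun n => qq (b n) w) atTop (𝓝 (qq a w)) := fun w hw =>
    (hL w hw).2.1.comp r_tend'
  have hLp : ∀ w : ℂ, ‖w‖ < 1 → Tendsto (fun n => psd (b n) w) atTop (𝓝 (psd a w)) := fun w hw =>
    (hL w hw).2.2.comp r_tend'
  have htau0 : ∀ w : ℂ, ‖w‖ < 1 → 0 ≤ tau a w ∧ tau a w ≤ T := fun w hw =>
    ⟨ge_of_tendsto' (hLt w hw) fun n => (htau n w hw).1.le, le_of_tendsto' (hLt w hw) fun n => (htau n w hw).2⟩
  have hfb : ∀ w : ℂ, ‖w‖ < 1 → Real.exp (-(B / 2)) ≤ fr B lam (tau a w) ^ 2 ∧ fr B lam (tau a w) ^ 2 ≤ Real.exp (B / 2) :=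
    fun w hw => hbd _ ⟨(htau0 w hw).1, (htau0 w hw).2.trans hT4⟩
  have hLm : ∀ w : ℂ, ‖w‖ < 1 → Tendsto (fun n => fr B lam (tau (b n) w) ^ 2 * ‖psd (b n) w‖ ^ 2) atTop
      (𝓝 (fr B lam (tau a w) ^ 2 * ‖psd a w‖ ^ 2)) := fun w hw =>
    (((hcf.tendsto _).comp (hLt w hw)).pow 2).mul ((hLp w hw).norm.pow 2)
  have hLd : ∀ w : ℂ, ‖w‖ < 1 → Tendsto
      (fun n => (deriv (fr B lam) (tau (b n) w) ^ 2 + B ^ 2 * fr B lam (tau (b n) w) ^ 2) * (‖qq (b n) w‖ ^ 2 / 4)) atTop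
      (𝓝 ((deriv (fr B lam) (tau a w) ^ 2 + B ^ 2 * fr B lam (tau a w) ^ 2) * (‖qq a w‖ ^ 2 / 4))) := fun w hw =>
    ((((hcd.tendsto _).comp (hLt w hw)).pow 2).add ((((hcf.tendsto _).comp (hLt w hw)).pow 2).const_mul _)).mul
      (((hLq w hw).norm.pow 2).div_const 4)
  -- integrability of the mass density
  have hball : ∀ᵐ w ∂(volume.restrict (Metric.ball (0 : ℂ) 1)), ‖w‖ < 1 := by
    filter_upwards [ae_restrict_mem Metric.isOpen_ball.measurableSet] with w hw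
    simpa using hw
  have hMa : IntegrableOn (fun w => fr B lam (tau a w) ^ 2 * ‖psd a w‖ ^ 2) (Metric.ball (0 : ℂ) 1) := by
    refine Integrable.mono' (g := fun w => Real.exp (B / 2) * ‖psd a w‖ ^ 2) (hDa.const_mul _) ?_ ?_
    · refine aestronglyMeasurable_of_tendsto_ae atTop (fun n => (hMn n).aestronglyMeasurable) ?_
      filter_upwards [hball] with w hw
      exact hLm w hw
    · filter_upwards [hball] with w hw
      rw [Real.norm_of_nonneg (by positivity)]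
      exact mul_le_mul_of_nonneg_right (hfb w hw).2 (by positivity)
  have hRn : ∀ n, IntegrableOn (fun w => lam * (Real.exp (B / 2) * ‖psd (b n) w‖ ^ 2 - fr B lam (tau (b n) w) ^ 2 * ‖psd (b n) w‖ ^ 2))
      (Metric.ball (0 : ℂ) 1) := fun n => (((hDn n).1.const_mul _).sub (hMn n)).const_mul lam
  -- Fatou
  set J : ℝ := ∫ t in (0 : ℝ)..T, Phf B lam (fr B lam) t * (Real.pi - 4 * Real.pi * t) with hJ
  have hfat := fatou (μ := volume.restrict (Metric.ball (0 : ℂ) 1))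
    (fun n w => (deriv (fr B lam) (tau (b n) w) ^ 2 + B ^ 2 * fr B lam (tau (b n) w) ^ 2) * (‖qq (b n) w‖ ^ 2 / 4)
      + lam * (Real.exp (B / 2) * ‖psd (b n) w‖ ^ 2 - fr B lam (tau (b n) w) ^ 2 * ‖psd (b n) w‖ ^ 2))
    (fun w => (deriv (fr B lam) (tau a w) ^ 2 + B ^ 2 * fr B lam (tau a w) ^ 2) * (‖qq a w‖ ^ 2 / 4)
      + lam * (Real.exp (B / 2) * ‖psd a w‖ ^ 2 - fr B lam (tau a w) ^ 2 * ‖psd a w‖ ^ 2))
    (fun n => J - lam * fr B lam 0 ^ 2 * (Real.pi * Ar (b n)) + lam * (Real.exp (B / 2) * (Real.pi * Ar (b n))))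
    (J - lam * fr B lam 0 ^ 2 * (Real.pi * 1) + lam * (Real.exp (B / 2) * (Real.pi * 1)))
    (fun n => Integrable.add (hU n).1 (hRn n))
    (fun n => by
      filter_upwards [hball] with w hw
      have h1 := mul_le_mul_of_nonneg_right (hfn n w hw) (sq_nonneg ‖psd (b n) w‖)
      have h2 := mul_nonneg hlam (sub_nonneg.mpr h1)
      positivity)
    (fun n => by
      rw [integral_add (hU n).1 (hRn n), integral_const_mul,
        integral_sub ((hDn n).1.const_mul _) (hMn n), integral_const_mul, (hDn n).2]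
      have := (hU n).2
      linarith)
    (by
      have h1 := Ar_lim a hsum r r_pos r_lt r_tend
      rw [hAr] at h1
      exact ((((h1.const_mul Real.pi).const_mul (lam * fr B lam 0 ^ 2)).const_sub J)).add
        (((h1.const_mul Real.pi).const_mul (Real.exp (B / 2))).const_mul lam))
    (by
      filter_upwards [hball] with w hw
      exact (hLd w hw).add (((((hLp w hw).norm.pow 2).const_mul _).sub (hLm w hw)).const_mul lam))
  obtain ⟨hGi, hGle⟩ := hfat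
  have hRi : IntegrableOn (fun w => lam * (Real.exp (B / 2) * ‖psd a w‖ ^ 2 - fr B lam (tau a w) ^ 2 * ‖psd a w‖ ^ 2))
      (Metric.ball (0 : ℂ) 1) := ((hDa.const_mul _).sub hMa).const_mul lam
  have hEa : IntegrableOn (fun w => (deriv (fr B lam) (tau a w) ^ 2 + B ^ 2 * fr B lam (tau a w) ^ 2) * (‖qq a w‖ ^ 2 / 4))
      (Metric.ball (0 : ℂ) 1) := by
    refine (hGi.sub hRi).congr (Eventually.of_forall fun w => ?_)
    simp only [Pi.sub_apply]
    ring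
  have hsplit : (∫ w in Metric.ball (0 : ℂ) 1,
      ((deriv (fr B lam) (tau a w) ^ 2 + B ^ 2 * fr B lam (tau a w) ^ 2) * (‖qq a w‖ ^ 2 / 4)
      + lam * (Real.exp (B / 2) * ‖psd a w‖ ^ 2 - fr B lam (tau a w) ^ 2 * ‖psd a w‖ ^ 2)))
      = (∫ w in Metric.ball (0 : ℂ) 1, (deriv (fr B lam) (tau a w) ^ 2 + B ^ 2 * fr B lam (tau a w) ^ 2) * (‖qq a w‖ ^ 2 / 4))
        + lam * (Real.exp (B / 2) * Real.pi - ∫ w in Metric.ball (0 : ℂ) 1, fr B lam (tau a w) ^ 2 * ‖psd a w‖ ^ 2) := by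
    rw [integral_add hEa hRi, integral_const_mul, integral_sub (hDa.const_mul _) hMa, integral_const_mul, hDa2]
  rw [hsplit] at hGle
  have hone := oneD B lam T hRd hOne hT0 hT4
  rw [← hJ] at hone
  have hM1 : (∫ w in Metric.ball (0 : ℂ) 1, fr B lam (tau a w) ^ 2 * ‖psd a w‖ ^ 2) ≤ Real.exp (B / 2) * Real.pi := by
    rw [← hDa2, ← integral_const_mul]
    refine integral_mono_ae hMa (hDa.const_mul _) ?_
    filter_upwards [hball] with w hw
    exact mul_le_mul_of_nonneg_right (hfb w hw).2 (by positivity)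
  have hM2 : Real.exp (-(B / 2)) * Real.pi ≤ ∫ w in Metric.ball (0 : ℂ) 1, fr B lam (tau a w) ^ 2 * ‖psd a w‖ ^ 2 := by
    rw [← hDa2, ← integral_const_mul]
    refine integral_mono_ae (hDa.const_mul _) hMa ?_
    filter_upwards [hball] with w hw
    exact mul_le_mul_of_nonneg_right (hfb w hw).1 (by positivity)
  have hM3 : 0 < ∫ w in Metric.ball (0 : ℂ) 1, fr B lam (tau a w) ^ 2 * ‖psd a w‖ ^ 2 :=
    lt_of_lt_of_le (mul_pos (Real.exp_pos _) Real.pi_pos) hM2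
  refine hTst Ω f F a B _ (fr B lam) hRM hsum hf hEa hMa hM3 ?_
  refine arith B lam s _ _ hRd ?_ hM1
  rw [← hT]
  linarith

end Pool.Agent.MFK.RT
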