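import Pool.Agent.Work.MP_8826fd_mp.RT.Stmts

/-!
# MP_8826fd_mp, block RT, item Lmp (helper77)
Pointwise limits of the torsion function and its gradient under dilation.
-/

set_option autoImplicit false

namespace Pool.Agent.MFK.RT

open MeasureTheory Set Filter Topology Pool.Agent.MFK.NF
open scoped ComplexConjugate

namespace ILmp

/-- the weighted sum controls the sum of squares -/
lemma summable_sq {a : ℕ → ℂ} (h : Summable (fun n : ℕ => (n : ℝ) * ‖a n‖ ^ 2)) :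
    Summable (fun n => ‖a n‖ ^ 2) := by
  rw [← summable_nat_add_iff 1]
  have h1 := (summable_nat_add_iff 1).2 h
  refine Summable.of_nonneg_of_le (fun n => by positivity) (fun n => ?_) h1
  have h2 : (1 : ℝ) ≤ ((n + 1 : ℕ) : ℝ) := by
    push_cast
    linarith [Nat.cast_nonneg (α := ℝ) n]
  nlinarith [sq_nonneg ‖a (n + 1)‖]

lemma norm_le {a : ℕ → ℂ} (h : Summable (fun n => ‖a n‖ ^ 2)) (n : ℕ) :
    ‖a n‖ ≤ Real.sqrt (∑' l, ‖a l‖ ^ 2) := by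
  refine Real.le_sqrt_of_sq_le ?_
  exact h.le_tsum n (fun j _ => by positivity)

lemma norm_rs_le (a : ℕ → ℂ) {ρ : ℝ} (h0 : 0 ≤ ρ) (h1 : ρ ≤ 1) (n : ℕ) : ‖rs ρ a n‖ ≤ ‖a n‖ := by
  rw [rs, norm_mul, norm_pow, Complex.norm_real, Real.norm_of_nonneg h0]
  exact mul_le_of_le_one_right (norm_nonneg _) (pow_le_one₀ h0 h1)

lemma tendsto_rs (a : ℕ → ℂ) (n : ℕ) :
    Tendsto (fun ρ : ℝ => rs ρ a n) (𝓝[<] 1) (𝓝 (a n)) := by
  have h : Continuous (fun ρ : ℝ => rs ρ a n) := by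
    unfold rs
    fun_prop
  have h1 := (h.tendsto 1).mono_left (nhdsWithin_le_nhds (s := Iio (1 : ℝ)))
  have h2 : rs 1 a n = a n := by simp [rs]
  rwa [h2] at h1

lemma ev_unit : ∀ᶠ ρ : ℝ in 𝓝[<] 1, 0 ≤ ρ ∧ ρ ≤ 1 := by
  have h1 : ∀ᶠ ρ : ℝ in 𝓝[<] 1, 0 < ρ :=
    nhdsWithin_le_nhds (lt_mem_nhds (by norm_num : (0 : ℝ) < 1))
  have h2 : ∀ᶠ ρ : ℝ in 𝓝[<] 1, ρ < 1 := self_mem_nhdsWithin
  filter_upwards [h1, h2] with ρ a b using ⟨a.le, b.le⟩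

/-- convergence of the coefficients with a uniform bound gives convergence of the sums -/
lemma tendsto_ps {l : Filter ℝ} {b : ℝ → ℕ → ℂ} {b₀ : ℕ → ℂ} {C : ℝ}
    (h : ∀ n, Tendsto (fun ρ => b ρ n) l (𝓝 (b₀ n))) (hC : ∀ᶠ ρ in l, ∀ n, ‖b ρ n‖ ≤ C)
    {w : ℂ} (hw : ‖w‖ < 1) :
    Tendsto (fun ρ => ps (b ρ) w) l (𝓝 (ps b₀ w)) := by
  unfold ps
  refine tendsto_tsum_of_dominated_convergence (bound := fun n => C * ‖w‖ ^ n) ?_ ?_ ?_
  · exact (summable_geometric_of_lt_one (norm_nonneg _) hw).mul_left C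
  · intro n
    exact (h n).mul_const _
  · filter_upwards [hC] with ρ hρ n
    rw [norm_mul, norm_pow]
    exact mul_le_mul_of_nonneg_right (hρ n) (by positivity)

lemma tendsto_psd {l : Filter ℝ} {b : ℝ → ℕ → ℂ} {b₀ : ℕ → ℂ} {C : ℝ}
    (h : ∀ n, Tendsto (fun ρ => b ρ n) l (𝓝 (b₀ n))) (hC : ∀ᶠ ρ in l, ∀ n, ‖b ρ n‖ ≤ C)
    {w : ℂ} (hw : ‖w‖ < 1) :
    Tendsto (fun ρ => psd (b ρ) w) l (𝓝 (psd b₀ w)) := by
  unfold psd
  have hs : Summable (fun n : ℕ => (n : ℝ) * ‖w‖ ^ (n - 1)) := by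
    rw [← summable_nat_add_iff 1]
    have h1 : Summable (fun n : ℕ => ((n : ℝ) ^ 1) * ‖w‖ ^ n) :=
      summable_pow_mul_geometric_of_norm_lt_one 1 (by simpa using hw)
    have h2 : Summable (fun n : ℕ => ‖w‖ ^ n) := summable_geometric_of_lt_one (norm_nonneg _) hw
    refine (h1.add h2).congr fun n => ?_
    push_cast
    ring
  refine tendsto_tsum_of_dominated_convergence (bound := fun n => C * ((n : ℝ) * ‖w‖ ^ (n - 1)))
    ?_ ?_ ?_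
  · exact hs.mul_left C
  · intro n
    exact ((h n).const_mul _).mul_const _
  · filter_upwards [hC] with ρ hρ n
    rw [norm_mul, norm_mul, norm_pow, Complex.norm_natCast]
    have h1 : (n : ℝ) * ‖b ρ n‖ ≤ n * C := mul_le_mul_of_nonneg_left (hρ n) (Nat.cast_nonneg n)
    calc (n : ℝ) * ‖b ρ n‖ * ‖w‖ ^ (n - 1) ≤ n * C * ‖w‖ ^ (n - 1) :=
          mul_le_mul_of_nonneg_right h1 (by positivity)
      _ = C * ((n : ℝ) * ‖w‖ ^ (n - 1)) := by ring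

lemma summable_rs {a : ℕ → ℂ} (h : Summable (fun n => ‖a n‖ ^ 2)) {ρ : ℝ} (h0 : 0 ≤ ρ)
    (h1 : ρ ≤ 1) : Summable (fun n => ‖rs ρ a n‖ ^ 2) :=
  Summable.of_nonneg_of_le (fun n => by positivity)
    (fun n => pow_le_pow_left₀ (norm_nonneg _) (norm_rs_le a h0 h1 n) 2) h

lemma tendsto_hc (hHc : StHc) {a : ℕ → ℂ} (h : Summable (fun n => ‖a n‖ ^ 2)) (k : ℕ) :
    Tendsto (fun ρ : ℝ => hc (rs ρ a) k) (𝓝[<] 1) (𝓝 (hc a k)) := by
  by_cases hk : k = 0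
  · subst hk
    simp only [hc, if_true]
    refine (Complex.continuous_ofReal.tendsto _).comp ?_
    refine tendsto_tsum_of_dominated_convergence h (fun n => ?_) ?_
    · exact ((tendsto_rs a n).norm).pow 2
    · filter_upwards [ev_unit] with ρ hρ n
      rw [Real.norm_of_nonneg (by positivity)]
      exact pow_le_pow_left₀ (norm_nonneg _) (norm_rs_le a hρ.1 hρ.2 n) 2
  · simp only [hc, if_neg hk]
    refine Tendsto.const_mul _ ?_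
    refine tendsto_tsum_of_dominated_convergence ((hHc.1 a h k).1.norm) (fun n => ?_) ?_
    · exact (tendsto_rs a (n + k)).mul ((Complex.continuous_conj.tendsto _).comp (tendsto_rs a n))
    · filter_upwards [ev_unit] with ρ hρ n
      rw [norm_mul, norm_mul, RCLike.norm_conj, RCLike.norm_conj]
      exact mul_le_mul (norm_rs_le a hρ.1 hρ.2 _) (norm_rs_le a hρ.1 hρ.2 _) (norm_nonneg _)
        (norm_nonneg _)

lemma hc_bound (hHc : StHc) {a : ℕ → ℂ} (h : Summable (fun n => ‖a n‖ ^ 2)) {ρ : ℝ}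
    (h0 : 0 ≤ ρ) (h1 : ρ ≤ 1) (k : ℕ) : ‖hc (rs ρ a) k‖ ≤ 2 * ∑' l, ‖a l‖ ^ 2 := by
  refine ((hHc.1 (rs ρ a) (summable_rs h h0 h1) k).2).trans ?_
  refine mul_le_mul_of_nonneg_left ?_ (by norm_num)
  exact Summable.tsum_le_tsum
    (fun n => pow_le_pow_left₀ (norm_nonneg _) (norm_rs_le a h0 h1 n) 2) (summable_rs h h0 h1) h

end ILmp

theorem pr_Lmp (hHc : StHc) : StLmp := by
  intro a ha w hw
  have hs := ILmp.summable_sq ha
  have hb : ∀ᶠ ρ : ℝ in 𝓝[<] 1, ∀ n, ‖rs ρ a n‖ ≤ Real.sqrt (∑' l, ‖a l‖ ^ 2) := by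
    filter_upwards [ILmp.ev_unit] with ρ hρ n
    exact (ILmp.norm_rs_le a hρ.1 hρ.2 n).trans (ILmp.norm_le hs n)
  have hb' : ∀ᶠ ρ : ℝ in 𝓝[<] 1, ∀ n, ‖hc (rs ρ a) n‖ ≤ 2 * ∑' l, ‖a l‖ ^ 2 := by
    filter_upwards [ILmp.ev_unit] with ρ hρ n
    exact ILmp.hc_bound hHc hs hρ.1 hρ.2 n
  have p1 : Tendsto (fun ρ : ℝ => ps (rs ρ a) w) (𝓝[<] 1) (𝓝 (ps a w)) :=
    ILmp.tendsto_ps (ILmp.tendsto_rs a) hb hw
  have p2 : Tendsto (fun ρ : ℝ => psd (rs ρ a) w) (𝓝[<] 1) (𝓝 (psd a w)) :=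
    ILmp.tendsto_psd (ILmp.tendsto_rs a) hb hw
  have p3 : Tendsto (fun ρ : ℝ => ps (hc (rs ρ a)) w) (𝓝[<] 1) (𝓝 (ps (hc a) w)) :=
    ILmp.tendsto_ps (ILmp.tendsto_hc hHc hs) hb' hw
  have p4 : Tendsto (fun ρ : ℝ => psd (hc (rs ρ a)) w) (𝓝[<] 1) (𝓝 (psd (hc a) w)) :=
    ILmp.tendsto_psd (ILmp.tendsto_hc hHc hs) hb' hw
  refine ⟨?_, ?_, p2⟩
  · exact (((Complex.continuous_re.tendsto _).comp p3).sub (p1.norm.pow 2)).div_const 4
  · exact (((Complex.continuous_conj.tendsto _).comp p1).mul p2).sub (p4.div_const 2)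

end Pool.Agent.MFK.RT
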