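import Pool.Agent.Work.MP_8826fd_mp.RT.Stmts
import Pool.Agent.Work.MP_8826fd_mp.NF.I_PC

/-! MP_8826fd_mp, block RT, item Mob (helper12): the torsion function at a point through the Moebius map. -/

set_option autoImplicit false

namespace Pool.Agent.MFK.RT

open MeasureTheory Set Filter Topology Pool.Agent.MFK.NF
open scoped ComplexConjugate

namespace IMob

/-- the Moebius map of the disc with `0 ↦ w` -/
noncomputable def mu (w ζ : ℂ) : ℂ := (ζ + w) / (1 + conj w * ζ)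

theorem key (w ζ : ℂ) :
    ‖1 + conj w * ζ‖ ^ 2 - ‖ζ + w‖ ^ 2 = (1 - ‖w‖ ^ 2) * (1 - ‖ζ‖ ^ 2) := by
  rw [← Complex.normSq_eq_norm_sq, ← Complex.normSq_eq_norm_sq, ← Complex.normSq_eq_norm_sq,
    ← Complex.normSq_eq_norm_sq]
  simp only [Complex.normSq_apply, Complex.add_re, Complex.add_im, Complex.mul_re, Complex.mul_im,
    Complex.conj_re, Complex.conj_im, Complex.one_re, Complex.one_im]
  ring

theorem den_ne {w ζ : ℂ} (hw : ‖w‖ < 1) (hz : ‖ζ‖ ≤ 1) : 1 + conj w * ζ ≠ 0 := by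
  intro h
  have h1 : conj w * ζ = -1 := eq_neg_of_add_eq_zero_right h
  have h2 : ‖conj w * ζ‖ = 1 := by rw [h1]; simp
  rw [norm_mul, RCLike.norm_conj] at h2
  nlinarith [norm_nonneg w, norm_nonneg ζ]

theorem num_le {w ζ : ℂ} (hw : ‖w‖ < 1) (hz : ‖ζ‖ ≤ 1) : ‖ζ + w‖ ≤ ‖1 + conj w * ζ‖ := by
  have h := key w ζ
  have h1 : 0 ≤ (1 - ‖w‖ ^ 2) * (1 - ‖ζ‖ ^ 2) := by
    apply mul_nonneg
    · nlinarith [norm_nonneg w]
    · nlinarith [norm_nonneg ζ]
  exact (sq_le_sq₀ (norm_nonneg _) (norm_nonneg _)).1 (by linarith)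

theorem num_lt {w ζ : ℂ} (hw : ‖w‖ < 1) (hz : ‖ζ‖ < 1) : ‖ζ + w‖ < ‖1 + conj w * ζ‖ := by
  have h := key w ζ
  have h1 : 0 < (1 - ‖w‖ ^ 2) * (1 - ‖ζ‖ ^ 2) := by
    apply mul_pos
    · nlinarith [norm_nonneg w]
    · nlinarith [norm_nonneg ζ]
  exact (sq_lt_sq₀ (norm_nonneg _) (norm_nonneg _)).1 (by linarith)

theorem num_eq {w ζ : ℂ} (hz : ‖ζ‖ = 1) : ‖ζ + w‖ = ‖1 + conj w * ζ‖ := by
  have h := key w ζ
  rw [hz] at h
  have h1 : ‖1 + conj w * ζ‖ ^ 2 = ‖ζ + w‖ ^ 2 := by linarith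
  exact ((sq_eq_sq₀ (norm_nonneg _) (norm_nonneg _)).1 h1).symm

theorem mu_lt {w ζ : ℂ} (hw : ‖w‖ < 1) (hz : ‖ζ‖ < 1) : ‖mu w ζ‖ < 1 := by
  have hd := norm_pos_iff.2 (den_ne hw hz.le)
  rw [mu, norm_div, div_lt_one hd]
  exact num_lt hw hz

theorem mu_eq {w ζ : ℂ} (hw : ‖w‖ < 1) (hz : ‖ζ‖ = 1) : ‖mu w ζ‖ = 1 := by
  have hd := norm_pos_iff.2 (den_ne hw hz.le)
  rw [mu, norm_div, num_eq hz, div_self hd.ne']

theorem mu_zero (w : ℂ) : mu w 0 = w := by simp [mu]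

theorem mu_der {w ζ : ℂ} (hd : 1 + conj w * ζ ≠ 0) :
    HasDerivAt (mu w) ((1 - conj w * w) / (1 + conj w * ζ) ^ 2) ζ := by
  have h1 : HasDerivAt (fun z : ℂ => z + w) 1 ζ := (hasDerivAt_id ζ).add_const w
  have h2 : HasDerivAt (fun z : ℂ => 1 + conj w * z) (conj w) ζ := by
    simpa using ((hasDerivAt_id ζ).const_mul (conj w)).const_add 1
  have h3 := h1.div h2 hd
  have e : (1 * (1 + conj w * ζ) - (ζ + w) * conj w) = 1 - conj w * w := by ring
  rw [e] at h3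
  exact h3

theorem mu_inj {w : ℂ} (hw : ‖w‖ < 1) : InjOn (mu w) (Metric.ball 0 1) := by
  intro x hx y hy hxy
  rw [mem_ball_zero_iff] at hx hy
  have h1 := den_ne hw hx.le
  have h2 := den_ne hw hy.le
  unfold mu at hxy
  rw [div_eq_div_iff h1 h2] at hxy
  have h3 : (x - y) * (1 - conj w * w) = 0 := by linear_combination hxy
  rcases mul_eq_zero.1 h3 with h | h
  · exact sub_eq_zero.1 h
  · exfalso
    have h4 : conj w * w = 1 := (sub_eq_zero.1 h).symm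
    have h5 : ‖conj w * w‖ = 1 := by rw [h4]; simp
    rw [norm_mul, RCLike.norm_conj] at h5
    nlinarith [norm_nonneg w]

/-- a larger disc which `mu` maps into the disc of radius `R` -/
theorem bigger {w : ℂ} (hw : ‖w‖ < 1) {R : ℝ} (hR : 1 < R) :
    ∃ δ : ℝ, 0 < δ ∧ ∀ ζ : ℂ, ‖ζ‖ < δ + 1 → 1 + conj w * ζ ≠ 0 ∧ ‖mu w ζ‖ < R := by
  have hV : IsOpen {ζ : ℂ | ‖ζ + w‖ < R * ‖1 + conj w * ζ‖} :=
    isOpen_lt (by fun_prop) (by fun_prop)
  have hsub : Metric.closedBall (0 : ℂ) 1 ⊆ {ζ : ℂ | ‖ζ + w‖ < R * ‖1 + conj w * ζ‖} := by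
    intro ζ hζ
    rw [mem_closedBall_zero_iff] at hζ
    have hd := norm_pos_iff.2 (den_ne hw hζ)
    have h1 := num_le hw hζ
    show ‖ζ + w‖ < R * ‖1 + conj w * ζ‖
    nlinarith
  obtain ⟨δ, hδ, hs⟩ := (isCompact_closedBall (0 : ℂ) 1).exists_thickening_subset_open hV hsub
  rw [thickening_closedBall hδ zero_le_one] at hs
  refine ⟨δ, hδ, fun ζ hζ => ?_⟩
  have h1 : ‖ζ + w‖ < R * ‖1 + conj w * ζ‖ := hs (mem_ball_zero_iff.2 hζ)
  have hne : 1 + conj w * ζ ≠ 0 := by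
    intro h0
    rw [h0, norm_zero, mul_zero] at h1
    exact absurd h1 (not_lt.2 (norm_nonneg _))
  refine ⟨hne, ?_⟩
  rw [mu, norm_div, div_lt_iff₀ (norm_pos_iff.2 hne)]
  exact h1

/-- power series of a function which is holomorphic on a larger disc -/
theorem series {G : ℂ → ℂ} {R : ℝ} (hR : 1 < R) (hG : DifferentiableOn ℂ G (Metric.ball 0 R)) :
    ∃ (b : ℕ → ℂ) (r : ℝ), 1 < r ∧ r < R ∧ Nice b ∧
      (∀ ζ : ℂ, ‖ζ‖ < r → HasSum (fun n => b n * ζ ^ n) (G ζ)) ∧ HasDerivAt G (b 1) 0 := by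
  set r : ℝ := (1 + R) / 2 with hr
  have hr1 : 1 < r := by rw [hr]; linarith
  have hrR : r < R := by rw [hr]; linarith
  have hr0 : 0 < r := by linarith
  have hcl : DifferentiableOn ℂ G (Metric.closedBall 0 r) :=
    hG.mono (Metric.closedBall_subset_ball hrR)
  lift r to NNReal using hr0.le with r' hr'
  have hp := hcl.hasFPowerSeriesOnBall (by exact_mod_cast hr0)
  set p := cauchyPowerSeries G 0 (r' : ℝ) with hpdef
  refine ⟨p.coeff, (r' : ℝ), hr1, hrR, ?_, ?_, ?_⟩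
  · refine ⟨(r' : ℝ)⁻¹, (2 * Real.pi)⁻¹ * ∫ θ : ℝ in (0)..2 * Real.pi, ‖G (circleMap 0 r' θ)‖,
      inv_pos.2 hr0, inv_lt_one_of_one_lt₀ hr1, fun n => ?_⟩
    have h1 := norm_cauchyPowerSeries_le G 0 (r' : ℝ) n
    rw [abs_of_pos hr0] at h1
    rw [← FormalMultilinearSeries.norm_apply_eq_norm_coef]
    exact h1
  · intro ζ hζ
    have hm : ζ ∈ Metric.eball (0 : ℂ) r' := by
      rw [Metric.mem_eball, edist_eq_enorm_sub, sub_zero]
      have : ‖ζ‖₊ < r' := by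
        rw [← NNReal.coe_lt_coe]
        exact hζ
      rw [enorm_eq_nnnorm]
      exact_mod_cast this
    have h1 := hp.hasSum hm
    rw [zero_add] at h1
    have e : (fun n => p.coeff n * ζ ^ n) = fun n => p n fun _ => ζ := by
      funext n
      rw [FormalMultilinearSeries.apply_eq_pow_smul_coeff, smul_eq_mul, mul_comm]
    rw [e]
    exact h1
  · exact hp.hasFPowerSeriesAt.hasDerivAt

/-- a holomorphic function on a larger disc whose real part vanishes on the unit circle -/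
theorem expmax {D : ℂ → ℂ} {R : ℝ} (hR : 1 < R) (hD : DifferentiableOn ℂ D (Metric.ball 0 R))
    (h0 : ∀ z : ℂ, ‖z‖ = 1 → (D z).re = 0) : (D 0).re = 0 := by
  have hcl : Metric.closedBall (0 : ℂ) 1 ⊆ Metric.ball 0 R := Metric.closedBall_subset_ball hR
  have hle : ∀ E : ℂ → ℂ, DifferentiableOn ℂ E (Metric.ball 0 R) →
      (∀ z : ℂ, ‖z‖ = 1 → (E z).re = 0) → (E 0).re ≤ 0 := by
    intro E hE hE0
    have h1 : DiffContOnCl ℂ (fun z => Complex.exp (E z)) (Metric.ball 0 1) :=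
      (hE.cexp).diffContOnCl_ball hcl
    have h2 : ‖Complex.exp (E 0)‖ ≤ 1 := by
      refine Complex.norm_le_of_forall_mem_frontier_norm_le (U := Metric.ball 0 1)
        Metric.isBounded_ball h1 (fun z hz => ?_) (subset_closure (Metric.mem_ball_self one_pos))
      rw [frontier_ball _ one_ne_zero, mem_sphere_zero_iff_norm] at hz
      rw [Complex.norm_exp, hE0 z hz, Real.exp_zero]
    rw [Complex.norm_exp] at h2
    exact Real.exp_le_one_iff.1 h2
  have h1 := hle D hD h0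
  have h2 := hle (fun z => - D z) hD.neg (fun z hz => by simp [h0 z hz])
  simp only [Complex.neg_re] at h2
  linarith

theorem ps_zero (c : ℕ → ℂ) : ps c 0 = c 0 := by
  unfold ps
  rw [tsum_eq_single 0 (fun n hn => by simp [hn])]
  simp

theorem core (hPs : StPs) (hHc : StHc) (hBd : StBd) (hDir : StDir) (a : ℕ → ℂ) (ha : Nice a)
    (w : ℂ) (hw : ‖w‖ < 1) :
    ∃ b : ℕ → ℂ, Nice b ∧ b 0 = ps a w ∧ ‖b 1‖ = cr a w ∧
      (ps (hc a) w).re = ∑' l, ‖b l‖ ^ 2 ∧ Ar b ≤ Ar a := by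
  obtain ⟨hs1, hs2, R, C, hR, hRC⟩ := hHc.2 a ha
  have hR0 : 0 < R := by linarith
  obtain ⟨hFa, -, hPa⟩ := hPs a R C hR0 (fun n => (hRC n).1)
  obtain ⟨hHa, -, -⟩ := hPs (hc a) R C hR0 (fun n => (hRC n).2)
  obtain ⟨δ, hδ, hmu⟩ := bigger hw hR
  have hmud : DifferentiableOn ℂ (mu w) (Metric.ball 0 (δ + 1)) := fun ζ hζ =>
    (mu_der (hmu ζ (mem_ball_zero_iff.1 hζ)).1).differentiableAt.differentiableWithinAt
  have hmaps : MapsTo (mu w) (Metric.ball 0 (δ + 1)) (Metric.ball 0 R) := fun ζ hζ =>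
    mem_ball_zero_iff.2 (hmu ζ (mem_ball_zero_iff.1 hζ)).2
  have hG : DifferentiableOn ℂ (fun ζ => ps a (mu w ζ)) (Metric.ball 0 (δ + 1)) :=
    hFa.comp hmud hmaps
  obtain ⟨b, r, hr1, hrR, hb, hbs, hb1⟩ := series (by linarith) hG
  have hGb : ∀ ζ : ℂ, ‖ζ‖ < r → ps b ζ = ps a (mu w ζ) := fun ζ hζ => (hbs ζ hζ).tsum_eq
  have hb0 : b 0 = ps a w := by
    have h := hGb 0 (by rw [norm_zero]; linarith)
    rw [mu_zero, ps_zero] at h
    exact h
  obtain ⟨ht1, ht2, Rb, Cb, hRb, hRCb⟩ := hHc.2 b hb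
  have hRb0 : 0 < Rb := by linarith
  obtain ⟨-, -, hPb⟩ := hPs b Rb Cb hRb0 (fun n => (hRCb n).1)
  obtain ⟨hHb, -, -⟩ := hPs (hc b) Rb Cb hRb0 (fun n => (hRCb n).2)
  -- the first coefficient
  have hmu0 : mu w 0 = w := mu_zero w
  have hG0 : HasDerivAt (fun ζ => ps a (mu w ζ)) (psd a w * (1 - conj w * w)) 0 := by
    have h1 : HasDerivAt (ps a) (psd a (mu w 0)) (mu w 0) := by
      rw [hmu0]
      exact (hPa w (by linarith)).2.1
    have h2 := mu_der (w := w) (ζ := 0) (by simp)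
    have h3 := h1.comp (0 : ℂ) h2
    rw [hmu0, mul_zero, add_zero, one_pow, div_one] at h3
    exact h3
  have hb1' : b 1 = psd a w * (1 - conj w * w) := hb1.unique hG0
  have hcr : ‖b 1‖ = cr a w := by
    rw [hb1', norm_mul, cr]
    congr 1
    have e : (1 - conj w * w : ℂ) = ((1 - ‖w‖ ^ 2 : ℝ) : ℂ) := by
      rw [Complex.conj_mul']
      push_cast
      ring
    rw [e, Complex.norm_real, Real.norm_eq_abs, abs_of_nonneg]
    nlinarith [norm_nonneg w]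
  -- the real parts
  have hre : (ps (hc a) w).re = ∑' l, ‖b l‖ ^ 2 := by
    have hR1 : 1 < min (δ + 1) Rb := lt_min (by linarith) hRb
    have hD : DifferentiableOn ℂ (fun ζ => ps (hc a) (mu w ζ) - ps (hc b) ζ)
        (Metric.ball 0 (min (δ + 1) Rb)) := by
      refine DifferentiableOn.sub ?_ ?_
      · exact (hHa.comp hmud hmaps).mono (Metric.ball_subset_ball (min_le_left _ _))
      · exact hHb.mono (Metric.ball_subset_ball (min_le_right _ _))
    have h := expmax hR1 hD (fun ζ hζ => by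
      have h1 := hBd b hb ζ hζ
      have h2 := hBd a ha (mu w ζ) (mu_eq hw hζ)
      unfold tau at h1 h2
      rw [hGb ζ (by linarith)] at h1
      rw [Complex.sub_re]
      linarith)
    rw [hmu0, ps_zero, Complex.sub_re] at h
    have h2 : (hc b 0).re = ∑' l, ‖b l‖ ^ 2 := by
      rw [hc, if_pos rfl, Complex.ofReal_re]
    linarith
  -- the area
  have hA : Ar b ≤ Ar a := by
    obtain ⟨ia, ea⟩ := hDir a hs2
    obtain ⟨ib, eb⟩ := hDir b ht2
    have hpos : 0 ≤ ∫ w in Metric.ball (0 : ℂ) 1, ‖psd a w‖ ^ 2 :=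
      integral_nonneg (fun _ => by positivity)
    have hle : ENNReal.ofReal (∫ w in Metric.ball (0 : ℂ) 1, ‖psd b w‖ ^ 2)
        ≤ ENNReal.ofReal (∫ w in Metric.ball (0 : ℂ) 1, ‖psd a w‖ ^ 2) := by
      rw [ofReal_integral_eq_lintegral_ofReal ib (ae_of_all _ fun _ => by positivity),
        ofReal_integral_eq_lintegral_ofReal ia (ae_of_all _ fun _ => by positivity)]
      have hsub1 : Metric.ball (0 : ℂ) 1 ⊆ Metric.ball 0 (δ + 1) :=
        Metric.ball_subset_ball (by linarith)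
      calc ∫⁻ ζ in Metric.ball (0 : ℂ) 1, ENNReal.ofReal (‖psd b ζ‖ ^ 2)
          = ∫⁻ ζ in Metric.ball (0 : ℂ) 1, ENNReal.ofReal (‖deriv (mu w) ζ‖ ^ 2) *
              (fun z => ENNReal.ofReal (‖psd a z‖ ^ 2)) (mu w ζ) := by
            refine setLIntegral_congr_fun measurableSet_ball (fun ζ hζ => ?_)
            have hζ' : ‖ζ‖ < 1 := mem_ball_zero_iff.1 hζ
            have hm := mu_der (w := w) (hmu ζ (by linarith)).1
            have h1 : HasDerivAt (ps a) (psd a (mu w ζ)) (mu w ζ) :=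
              (hPa (mu w ζ) (hmu ζ (by linarith)).2).2.1
            have h2 : HasDerivAt (fun ζ => ps a (mu w ζ)) (psd a (mu w ζ) * deriv (mu w) ζ) ζ := by
              rw [hm.deriv]
              exact h1.comp ζ hm
            have h3 : HasDerivAt (ps b) (psd b ζ) ζ := (hPb ζ (by linarith)).2.1
            have h4 : (fun ζ => ps a (mu w ζ)) =ᶠ[𝓝 ζ] ps b := by
              have : Metric.ball (0 : ℂ) r ∈ 𝓝 ζ :=
                Metric.isOpen_ball.mem_nhds (mem_ball_zero_iff.2 (by linarith))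
              filter_upwards [this] with z hz
              exact (hGb z (mem_ball_zero_iff.1 hz)).symm
            have h5 : psd b ζ = psd a (mu w ζ) * deriv (mu w) ζ :=
              (h3.congr_of_eventuallyEq h4).unique h2
            show ENNReal.ofReal (‖psd b ζ‖ ^ 2) = ENNReal.ofReal (‖deriv (mu w) ζ‖ ^ 2) *
              ENNReal.ofReal (‖psd a (mu w ζ)‖ ^ 2)
            rw [← ENNReal.ofReal_mul (by positivity), h5, norm_mul]
            congr 1
            ring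
        _ = ∫⁻ z in mu w '' Metric.ball 0 1, ENNReal.ofReal (‖psd a z‖ ^ 2) :=
            (IPC.cov (hmud.mono hsub1) (mu_inj hw) (fun z => ENNReal.ofReal (‖psd a z‖ ^ 2))).symm
        _ ≤ ∫⁻ z in Metric.ball (0 : ℂ) 1, ENNReal.ofReal (‖psd a z‖ ^ 2) := by
            refine lintegral_mono_set ?_
            rintro _ ⟨ζ, hζ, rfl⟩
            exact mem_ball_zero_iff.2 (mu_lt hw (mem_ball_zero_iff.1 hζ))
    have h1 := (ENNReal.ofReal_le_ofReal_iff hpos).1 hle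
    rw [ea, eb] at h1
    exact le_of_mul_le_mul_left h1 Real.pi_pos
  exact ⟨b, hb, hb0, hcr, hre, hA⟩

end IMob

/-- ITEM Mob -/
theorem pr_Mob (hPs : StPs) (hHc : StHc) (hBd : StBd) (hDir : StDir) : StMob := by
  intro a ha w hw
  obtain ⟨b, hb, h0, h1, hre, hA⟩ := IMob.core hPs hHc hBd hDir a ha w hw
  obtain ⟨hs1, hs2, -⟩ := hHc.2 b hb
  have e : 4 * tau a w = (∑' l, ‖b l‖ ^ 2) - ‖b 0‖ ^ 2 := by
    rw [tau, hre, h0]
    ring
  have e1 := hs1.sum_add_tsum_nat_add 2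
  have e2 := hs2.sum_add_tsum_nat_add 2
  simp only [Finset.sum_range_succ, Finset.sum_range_zero, Nat.cast_zero, Nat.cast_one, zero_add,
    zero_mul, one_mul] at e1 e2
  have u1 : Summable fun i : ℕ => ‖b (i + 2)‖ ^ 2 := (summable_nat_add_iff 2).2 hs1
  have u2 : Summable fun i : ℕ => ((i + 2 : ℕ) : ℝ) * ‖b (i + 2)‖ ^ 2 :=
    (summable_nat_add_iff (f := fun n : ℕ => (n : ℝ) * ‖b n‖ ^ 2) 2).2 hs2
  have hT0 : 0 ≤ ∑' i : ℕ, ‖b (i + 2)‖ ^ 2 := tsum_nonneg (fun i => by positivity)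
  have hT : 2 * ∑' i : ℕ, ‖b (i + 2)‖ ^ 2 ≤ ∑' i : ℕ, ((i + 2 : ℕ) : ℝ) * ‖b (i + 2)‖ ^ 2 := by
    rw [← tsum_mul_left]
    refine Summable.tsum_le_tsum (fun i => ?_) (u1.mul_left 2) u2
    have : (2 : ℝ) ≤ ((i + 2 : ℕ) : ℝ) := by
      push_cast
      linarith [(Nat.cast_nonneg i : (0 : ℝ) ≤ i)]
    exact mul_le_mul_of_nonneg_right this (by positivity)
  have hAr : Ar b = ‖b 1‖ ^ 2 + ∑' i : ℕ, ((i + 2 : ℕ) : ℝ) * ‖b (i + 2)‖ ^ 2 := e2.symm
  rw [← h1]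
  constructor
  · rw [e]
    linarith
  · rw [e]
    linarith

end Pool.Agent.MFK.RT
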