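import Pool.Agent.Work.MP_8826fd_mp.RT.Stmts

/-!
# MP_8826fd_mp, block RT, item One: one-dimensional facts on the profile of the radial mode
-/

set_option autoImplicit false

namespace Pool.Agent.MFK.RT

open MeasureTheory Set Filter Topology Pool.Agent.MFK.NF

namespace IOne

/-- first Kummer parameter -/
noncomputable def AA0 (B lam : ℝ) : ℝ := 1 / 2 - lam / (2 * B)

theorem fr_eq (B lam t : ℝ) : fr B lam t =
    Real.exp (-(B * (1 - 4 * t) / 4)) * Phi (AA0 B lam) 1 (B * (1 - 4 * t) / 2) := by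
  unfold fr FK An AA0
  simp

theorem phi_zero (A b : ℝ) : Phi A b 0 = 1 := by
  unfold Phi
  rw [tsum_eq_single 0]
  · simp [kc]
  · intro k hk
    simp [hk]

/-- `Phi A 1 z ≤ e^z` for `0 ≤ A ≤ 1` -/
theorem phi_le {A z : ℝ} (h0 : 0 ≤ A) (h1 : A ≤ 1) (hz : 0 ≤ z) : Phi A 1 z ≤ Real.exp z := by
  have hd : ∀ x : ℝ, HasDerivAt (fun x => Real.exp (-x) * Phi A 1 x)
      (Real.exp (-x) * (Phi1 A 1 x - Phi A 1 x)) x := by
    intro x
    have e1 : HasDerivAt (fun x : ℝ => Real.exp (-x)) (Real.exp (-x) * (-1)) x :=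
      (hasDerivAt_neg' x).exp
    exact (e1.fun_mul (Asm.kDer' A 1 x one_pos)).congr_deriv (by ring)
  have hanti : AntitoneOn (fun x => Real.exp (-x) * Phi A 1 x) (Ici 0) := by
    refine antitoneOn_of_deriv_nonpos (convex_Ici 0)
      (fun x _ => (hd x).continuousAt.continuousWithinAt)
      (fun x _ => (hd x).differentiableAt.differentiableWithinAt) ?_
    intro x hx
    rw [interior_Ici] at hx
    rw [(hd x).deriv]
    have h2 := (Asm.kBd A 1 x h0 h1 one_pos (le_of_lt hx)).2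
    have h3 := Real.exp_pos (-x)
    nlinarith
  have h4 := hanti (mem_Ici.mpr le_rfl) (mem_Ici.mpr hz) hz
  simp only [neg_zero, Real.exp_zero, one_mul, phi_zero] at h4
  have h5 : Real.exp z * Real.exp (-z) = 1 := by
    rw [← Real.exp_add]; simp
  have h6 := Real.exp_pos z
  calc Phi A 1 z = Real.exp z * (Real.exp (-z) * Phi A 1 z) := by rw [← mul_assoc, h5, one_mul]
    _ ≤ Real.exp z * 1 := mul_le_mul_of_nonneg_left h4 h6.le
    _ = Real.exp z := mul_one _

/-- derivative of the profile -/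
noncomputable def f1 (B lam t : ℝ) : ℝ := -(2 * B) * (Real.exp (-(B * (1 - 4 * t) / 4)) *
  (Phi1 (AA0 B lam) 1 (B * (1 - 4 * t) / 2) - Phi (AA0 B lam) 1 (B * (1 - 4 * t) / 2) / 2))

theorem hexp (B t : ℝ) : HasDerivAt (fun t : ℝ => Real.exp (-(B * (1 - 4 * t) / 4)))
    (B * Real.exp (-(B * (1 - 4 * t) / 4))) t := by
  have h1 : HasDerivAt (fun t : ℝ => -(B * (1 - 4 * t) / 4)) B t := by
    have h := (((((hasDerivAt_id' t).const_mul 4).const_sub 1).const_mul B).div_const 4).fun_neg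
    exact h.congr_deriv (by ring)
  exact h1.exp.congr_deriv (by ring)

theorem hz (B t : ℝ) : HasDerivAt (fun t : ℝ => B * (1 - 4 * t) / 2) (-(2 * B)) t := by
  have h := ((((hasDerivAt_id' t).const_mul 4).const_sub 1).const_mul B).div_const 2
  exact h.congr_deriv (by ring)

theorem hPhi (A B t : ℝ) : HasDerivAt (fun t : ℝ => Phi A 1 (B * (1 - 4 * t) / 2))
    (Phi1 A 1 (B * (1 - 4 * t) / 2) * (-(2 * B))) t :=
  HasDerivAt.comp (h₂ := Phi A 1) (h := fun t : ℝ => B * (1 - 4 * t) / 2) t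
    (Asm.kDer' A 1 _ one_pos) (hz B t)

theorem hPhi1 (A B t : ℝ) : HasDerivAt (fun t : ℝ => Phi1 A 1 (B * (1 - 4 * t) / 2))
    (Phi2 A 1 (B * (1 - 4 * t) / 2) * (-(2 * B))) t :=
  HasDerivAt.comp (h₂ := Phi1 A 1) (h := fun t : ℝ => B * (1 - 4 * t) / 2) t
    (Asm.kDer2' A 1 _ one_pos) (hz B t)

theorem fr_d (B lam t : ℝ) : HasDerivAt (fr B lam) (f1 B lam t) t := by
  have h : HasDerivAt (fun t : ℝ => Real.exp (-(B * (1 - 4 * t) / 4)) *
      Phi (AA0 B lam) 1 (B * (1 - 4 * t) / 2)) (f1 B lam t) t := by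
    refine ((hexp B t).fun_mul (hPhi (AA0 B lam) B t)).congr_deriv ?_
    unfold f1
    ring
  refine h.congr_of_eventuallyEq (Eventually.of_forall fun s => fr_eq B lam s)

theorem fr_deriv (B lam : ℝ) : deriv (fr B lam) = f1 B lam := by
  funext t
  exact (fr_d B lam t).deriv

theorem f1_d {B lam : ℝ} (hB : 0 < B) (t : ℝ) : HasDerivAt (fun t => (1 - 4 * t) * f1 B lam t)
    (B ^ 2 * (1 - 4 * t) * fr B lam t - 4 * lam * fr B lam t) t := by
  have h1 := ((hPhi1 (AA0 B lam) B t).fun_sub ((hPhi (AA0 B lam) B t).div_const 2))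
  have h2 := ((hexp B t).fun_mul h1).const_mul (-(2 * B))
  have h3 : HasDerivAt (fun t : ℝ => 1 - 4 * t) (-4) t := by
    have h := ((hasDerivAt_id' t).const_mul 4).const_sub 1
    exact h.congr_deriv (by ring)
  have h4 := h3.fun_mul h2
  refine h4.congr_deriv ?_
  rw [fr_eq]
  have ho := Asm.kOde' (AA0 B lam) 1 (B * (1 - 4 * t) / 2) one_pos
  have hA : AA0 B lam = 1 / 2 - lam / (2 * B) := rfl
  have hA' : 2 * B * AA0 B lam = B - lam := by
    rw [hA]; field_simp
  set E := Real.exp (-(B * (1 - 4 * t) / 4))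
  set P0 := Phi (AA0 B lam) 1 (B * (1 - 4 * t) / 2)
  set P1 := Phi1 (AA0 B lam) 1 (B * (1 - 4 * t) / 2)
  set P2 := Phi2 (AA0 B lam) 1 (B * (1 - 4 * t) / 2)
  set A := AA0 B lam
  linear_combination (8 * B * E) * ho + 4 * E * P0 * hA'

theorem fr_smooth (B lam : ℝ) : ContDiff ℝ 1 (fr B lam) := by
  have h1 : fr B lam = fun t => Real.exp (-(B * (1 - 4 * t) / 4)) *
      Phi (AA0 B lam) 1 (B * (1 - 4 * t) / 2) := by
    funext t; exact fr_eq B lam t
  rw [h1]
  have h2 : ContDiff ℝ 1 (Phi (AA0 B lam) 1) := (Asm.kSmooth' (AA0 B lam) 1 one_pos).of_le (by norm_num)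
  have h3 : ContDiff ℝ 1 (fun t : ℝ => B * (1 - 4 * t) / 2) := by fun_prop
  have h4 : ContDiff ℝ 1 (fun t : ℝ => Real.exp (-(B * (1 - 4 * t) / 4))) := by fun_prop
  exact h4.mul (h2.comp h3)

/-- the profile has zero derivative at `0` -/
theorem f1_zero {B lam : ℝ} (h : deriv (gk B lam 0) 1 = 0) : f1 B lam 0 = 0 := by
  have h1 : HasDerivAt (fun r : ℝ => (1 - r ^ 2) / 4) (-(1 / 2)) 1 := by
    have e := (((hasDerivAt_pow 2 (1 : ℝ)).const_sub 1).div_const 4)
    exact e.congr_deriv (by norm_num)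
  have h2 : HasDerivAt (fr B lam) (f1 B lam 0) ((fun r : ℝ => (1 - r ^ 2) / 4) 1) := by
    have e : (fun r : ℝ => (1 - r ^ 2) / 4) 1 = 0 := by norm_num
    rw [e]; exact fr_d B lam 0
  have h3 : HasDerivAt (fun r : ℝ => fr B lam ((1 - r ^ 2) / 4)) (f1 B lam 0 * (-(1 / 2))) 1 :=
    HasDerivAt.comp (h₂ := fr B lam) (h := fun r : ℝ => (1 - r ^ 2) / 4) 1 h2 h1
  have h4 : (fun r : ℝ => fr B lam ((1 - r ^ 2) / 4)) = gk B lam 0 := by
    funext r
    unfold fr gk radf
    have e : 1 - 4 * ((1 - r ^ 2) / 4) = r ^ 2 := by ring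
    rw [e]
    simp
  rw [h4] at h3
  have h5 := h3.deriv
  rw [h] at h5
  linarith

end IOne

open IOne in
theorem pr_One : StOne := by
  intro B lam hR
  have hB := hR.hB
  have hl0 := hR.pos
  have hl := hR.lt
  have hA0 : 0 ≤ AA0 B lam := by
    unfold AA0
    have : lam / (2 * B) ≤ 1 / 2 := by
      rw [div_le_iff₀ (by positivity)]; linarith
    linarith
  have hA1 : AA0 B lam ≤ 1 := by
    unfold AA0
    have : 0 < lam / (2 * B) := by positivity
    linarith
  refine ⟨fr_smooth B lam, ?_, ?_, ?_⟩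
  · intro t ht
    have hz0 : 0 ≤ B * (1 - 4 * t) / 2 := by
      have : 0 ≤ 1 - 4 * t := by linarith [ht.2]
      positivity
    have hzB : B * (1 - 4 * t) / 2 ≤ B / 2 := by
      have : B * t ≥ 0 := mul_nonneg hB.le ht.1
      nlinarith
    have hp1 := (Asm.kPos (AA0 B lam) 1 (B * (1 - 4 * t) / 2) hA0 one_pos hz0).1
    have hp2 := phi_le hA0 hA1 hz0
    rw [fr_eq, mul_pow]
    have hE : Real.exp (-(B * (1 - 4 * t) / 4)) ^ 2 = Real.exp (-(B * (1 - 4 * t) / 2)) := by
      rw [← Real.exp_nat_mul]; congr 1; push_cast; ring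
    rw [hE]
    have hEp := Real.exp_pos (-(B * (1 - 4 * t) / 2))
    constructor
    · have e1 : Real.exp (-(B / 2)) ≤ Real.exp (-(B * (1 - 4 * t) / 2)) :=
        Real.exp_le_exp.mpr (by linarith)
      have e2 : (1 : ℝ) ≤ Phi (AA0 B lam) 1 (B * (1 - 4 * t) / 2) ^ 2 := one_le_pow₀ hp1
      nlinarith
    · have e2 : Phi (AA0 B lam) 1 (B * (1 - 4 * t) / 2) ^ 2 ≤ Real.exp (B * (1 - 4 * t) / 2) ^ 2 :=
        pow_le_pow_left₀ (by linarith) hp2 2
      have e3 : Real.exp (-(B * (1 - 4 * t) / 2)) * Real.exp (B * (1 - 4 * t) / 2) ^ 2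
          = Real.exp (B * (1 - 4 * t) / 2) := by
        rw [pow_two, ← mul_assoc, ← Real.exp_add]; simp
      calc Real.exp (-(B * (1 - 4 * t) / 2)) * Phi (AA0 B lam) 1 (B * (1 - 4 * t) / 2) ^ 2
          ≤ Real.exp (-(B * (1 - 4 * t) / 2)) * Real.exp (B * (1 - 4 * t) / 2) ^ 2 :=
            mul_le_mul_of_nonneg_left e2 hEp.le
        _ = Real.exp (B * (1 - 4 * t) / 2) := e3
        _ ≤ Real.exp (B / 2) := Real.exp_le_exp.mpr hzB
  · intro t
    unfold Phf
    nlinarith [sq_nonneg (deriv (fr B lam) t - lam * fr B lam t)]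
  · have hprim : ∀ t : ℝ, HasDerivAt
        (fun t => Real.pi * (fr B lam t * ((1 - 4 * t) * f1 B lam t)
          - lam * ((1 - 4 * t) * fr B lam t ^ 2)))
        (Phf B lam (fr B lam) t * (Real.pi - 4 * Real.pi * t)) t := by
      intro t
      have a1 := (fr_d B lam t).fun_mul (f1_d (lam := lam) hB t)
      have a0 : HasDerivAt (fun t : ℝ => 1 - 4 * t) (-4) t := by
        have h := ((hasDerivAt_id' t).const_mul 4).const_sub 1
        exact h.congr_deriv (by ring)
      have a2 := (a0.fun_mul ((fr_d B lam t).fun_pow 2)).const_mul lam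
      refine ((a1.fun_sub a2).const_mul Real.pi).congr_deriv ?_
      unfold Phf
      rw [fr_deriv]
      push_cast
      ring
    have hcont : Continuous (fun t => Phf B lam (fr B lam) t * (Real.pi - 4 * Real.pi * t)) := by
      have c1 := (fr_smooth B lam).continuous
      have c2 := (fr_smooth B lam).continuous_deriv (by norm_num)
      unfold Phf
      fun_prop
    rw [intervalIntegral.integral_eq_sub_of_hasDerivAt (fun t _ => hprim t)
      (hcont.intervalIntegrable _ _)]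
    rw [f1_zero hR.zero]
    ring

end Pool.Agent.MFK.RT
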