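import Pool.Agent.Work.MP_8826fd_mp.RT.Stmts
import Pool.Agent.Work.MP_8826fd_mp.NF.I_PC

/-!
# MP_8826fd_mp, block RT, item PC0: change of variables
-/

set_option autoImplicit false

namespace Pool.Agent.MFK.RT

open MeasureTheory Set Filter Topology Pool.Agent.MFK.NF

theorem pr_PC0 : StPC0 := by
  intro Ω f F a h hC _
  have hinj : InjOn F (Metric.ball 0 1) := by
    intro w hw w' hw' hww
    rw [← hC.fF w hw, ← hC.fF w' hw', hww]
  have himg : F '' (Metric.ball 0 1) = Ω := by
    ext z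
    constructor
    · rintro ⟨w, hw, rfl⟩
      exact hC.Fm hw
    · intro hz
      exact ⟨f z, hC.fm hz, hC.Ff z hz⟩
  rw [← himg, NF.IPC.cov hC.Fd hinj h]

end Pool.Agent.MFK.RT
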