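import Pool.Agent.Work.MP_8826fd_mp.RT.Stmts

/-!
# MP_8826fd_mp, block RT, item Ps (power series), helper53
-/

set_option autoImplicit false

namespace Pool.Agent.MFK.RT

open MeasureTheory Set Filter Topology Pool.Agent.MFK.NF
open scoped ComplexConjugate

namespace IPs

lemma bd (b : ℕ → ℂ) (R C r : ℝ) (hR : 0 < R) (hb : ∀ n, ‖b n‖ * R ^ n ≤ C) (hr : 0 ≤ r) (n : ℕ) :
    ‖b n‖ * r ^ n ≤ C * (r / R) ^ n := by
  have h1 : ‖b n‖ * r ^ n = ‖b n‖ * R ^ n * (r / R) ^ n := by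
    rw [div_pow]
    field_simp
  rw [h1]
  exact mul_le_mul_of_nonneg_right (hb n) (by positivity)

lemma sum0 (b : ℕ → ℂ) (R C r : ℝ) (hR : 0 < R) (hb : ∀ n, ‖b n‖ * R ^ n ≤ C) (hr : 0 ≤ r)
    (hrR : r < R) : Summable (fun n : ℕ => ‖b n‖ * r ^ n) := by
  have hq : r / R < 1 := (div_lt_one hR).2 hrR
  have hg : Summable (fun n : ℕ => C * (r / R) ^ n) :=
    (summable_geometric_of_lt_one (by positivity) hq).mul_left C
  exact Summable.of_nonneg_of_le (fun n => by positivity) (fun n => bd b R C r hR hb hr n) hg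

lemma sum1 (b : ℕ → ℂ) (R C s : ℝ) (hR : 0 < R) (hb : ∀ n, ‖b n‖ * R ^ n ≤ C) (hs : 0 ≤ s)
    (hsR : s < R) : Summable (fun n : ℕ => (n : ℝ) * ‖b n‖ * s ^ (n - 1)) := by
  obtain ⟨r, hsr, hrR⟩ := exists_between hsR
  have hr : 0 < r := lt_of_le_of_lt hs hsr
  have hq : r / R < 1 := (div_lt_one hR).2 hrR
  have hq0 : 0 ≤ r / R := by positivity
  have hg : Summable (fun n : ℕ => ((n : ℝ) ^ 1 * (r / R) ^ n)) :=
    summable_pow_mul_geometric_of_norm_lt_one 1 (by rw [Real.norm_of_nonneg hq0]; exact hq)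
  have hg2 : Summable (fun n : ℕ => C / r * ((n : ℝ) ^ 1 * (r / R) ^ n)) := hg.mul_left (C / r)
  refine Summable.of_nonneg_of_le (fun n => by positivity) (fun n => ?_) hg2
  rcases Nat.eq_zero_or_pos n with h0 | hn
  · subst h0; simp
  · obtain ⟨m, rfl⟩ : ∃ m, n = m + 1 := ⟨n - 1, by omega⟩
    have h1 : s ^ (m + 1 - 1) ≤ r ^ m := by
      simpa using pow_le_pow_left₀ hs hsr.le m
    have h2 := bd b R C r hR hb hr.le (m + 1)
    have h3 : ‖b (m + 1)‖ * r ^ m ≤ C / r * (r / R) ^ (m + 1) := by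
      have h4 : ‖b (m + 1)‖ * r ^ m = (‖b (m + 1)‖ * r ^ (m + 1)) / r := by
        rw [pow_succ]; field_simp
      rw [h4, div_mul_eq_mul_div]
      exact div_le_div_of_nonneg_right h2 hr.le
    calc ((m + 1 : ℕ) : ℝ) * ‖b (m + 1)‖ * s ^ (m + 1 - 1)
        ≤ ((m + 1 : ℕ) : ℝ) * ‖b (m + 1)‖ * r ^ m := by
          exact mul_le_mul_of_nonneg_left h1 (by positivity)
      _ = ((m + 1 : ℕ) : ℝ) * (‖b (m + 1)‖ * r ^ m) := by ring
      _ ≤ ((m + 1 : ℕ) : ℝ) * (C / r * (r / R) ^ (m + 1)) :=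
          mul_le_mul_of_nonneg_left h3 (by positivity)
      _ = C / r * (((m + 1 : ℕ) : ℝ) ^ 1 * (r / R) ^ (m + 1)) := by ring

lemma nrm (b : ℕ → ℂ) (r : ℝ) (n : ℕ) (w : ℂ) (hw : w ∈ Metric.ball (0 : ℂ) r) :
    ‖b n * w ^ n‖ ≤ ‖b n‖ * r ^ n := by
  rw [norm_mul, norm_pow]
  have h : ‖w‖ ≤ r := by
    have := mem_ball_zero_iff.1 hw
    exact this.le
  exact mul_le_mul_of_nonneg_left (pow_le_pow_left₀ (norm_nonneg w) h n) (norm_nonneg _)

lemma dif (b : ℕ → ℂ) (n : ℕ) (U : Set ℂ) : DifferentiableOn ℂ (fun w : ℂ => b n * w ^ n) U := by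
  fun_prop

lemma der (b : ℕ → ℂ) (n : ℕ) (w : ℂ) :
    deriv (fun w : ℂ => b n * w ^ n) w = (n : ℂ) * b n * w ^ (n - 1) := by
  have h : HasDerivAt (fun w : ℂ => b n * w ^ n) (b n * ((n : ℂ) * w ^ (n - 1))) w :=
    (hasDerivAt_pow n w).const_mul (b n)
  rw [h.deriv]; ring

end IPs

theorem pr_Ps : StPs := by
  intro b R C hR hb
  have key : ∀ w : ℂ, ‖w‖ < R →
      HasSum (fun n : ℕ => b n * w ^ n) (ps b w) ∧ HasDerivAt (ps b) (psd b w) w ∧
      HasSum (fun n : ℕ => (n : ℂ) * b n * w ^ (n - 1)) (psd b w) := by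
    intro w hw
    obtain ⟨r, hwr, hrR⟩ := exists_between hw
    have hr : 0 ≤ r := (norm_nonneg w).trans hwr.le
    have hwm : w ∈ Metric.ball (0 : ℂ) r := mem_ball_zero_iff.2 hwr
    have hu := IPs.sum0 b R C r hR hb hr hrR
    have h1 : Summable (fun n : ℕ => b n * w ^ n) :=
      Summable.of_norm_bounded hu (fun n => IPs.nrm b r n w hwm)
    have h2 : DifferentiableOn ℂ (fun z : ℂ => ∑' n : ℕ, b n * z ^ n) (Metric.ball (0 : ℂ) r) :=
      Complex.differentiableOn_tsum_of_summable_norm hu (fun n => IPs.dif b n _) Metric.isOpen_ball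
        (fun n z hz => IPs.nrm b r n z hz)
    have h3 : HasSum (fun n : ℕ => deriv (fun z : ℂ => b n * z ^ n) w)
        (deriv (fun z : ℂ => ∑' n : ℕ, b n * z ^ n) w) :=
      Complex.hasSum_deriv_of_summable_norm hu (fun n => IPs.dif b n _) Metric.isOpen_ball
        (fun n z hz => IPs.nrm b r n z hz) hwm
    have h4 : HasSum (fun n : ℕ => (n : ℂ) * b n * w ^ (n - 1))
        (deriv (fun z : ℂ => ∑' n : ℕ, b n * z ^ n) w) := by
      have he : (fun n : ℕ => deriv (fun z : ℂ => b n * z ^ n) w)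
          = fun n : ℕ => (n : ℂ) * b n * w ^ (n - 1) := by
        funext n; exact IPs.der b n w
      rw [he] at h3; exact h3
    have h5 : psd b w = deriv (fun z : ℂ => ∑' n : ℕ, b n * z ^ n) w := h4.tsum_eq
    have h6 : HasDerivAt (ps b) (psd b w) w := by
      rw [h5]
      exact (h2.differentiableAt (Metric.isOpen_ball.mem_nhds hwm)).hasDerivAt
    refine ⟨h1.hasSum, h6, ?_⟩
    rw [h5]; exact h4
  have hD : DifferentiableOn ℂ (ps b) (Metric.ball 0 R) := fun w hw =>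
    (key w (mem_ball_zero_iff.1 hw)).2.1.differentiableAt.differentiableWithinAt
  refine ⟨hD, ?_, fun w hw => ⟨(key w hw).1, (key w hw).2.1, (key w hw).2.2,
    IPs.sum0 b R C ‖w‖ hR hb (norm_nonneg w) hw, IPs.sum1 b R C ‖w‖ hR hb (norm_nonneg w) hw⟩⟩
  refine (hD.deriv Metric.isOpen_ball).congr (fun w hw => ?_)
  exact (key w (mem_ball_zero_iff.1 hw)).2.1.deriv.symm

end Pool.Agent.MFK.RT
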