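import Pool.Agent.Work.MP_8826fd_mp.RT.Stmts2

/-! # MP_8826fd_mp, block RT: item RdE -/

set_option autoImplicit false

namespace Pool.Agent.MFK.RT

open MeasureTheory Set Filter Topology Pool.Agent.MFK.NF

theorem pr_RdE : StRdE := by
  intro B hB
  obtain ⟨-, -, h3, h4⟩ := Asm.rSign' B hB
  have hc := Asm.rCont' B 0 hB
  have h30 := h3 0
  have hcc : ContinuousOn (fun lam => deriv (radf ((0 : ℕ) : ℤ) (FK B lam ((0 : ℕ) : ℤ))) 1) (Icc 0 B) :=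
    hc.continuousOn
  have h40 : deriv (radf ((0 : ℕ) : ℤ) (FK B B ((0 : ℕ) : ℤ))) 1 < 0 := by
    simpa using h4
  obtain ⟨lam, ⟨hl0, hlB⟩, hlam⟩ := intermediate_value_Icc' hB.le hcc ⟨h40.le, h30.le⟩
  have hz : deriv (radf ((0 : ℕ) : ℤ) (FK B lam ((0 : ℕ) : ℤ))) 1 = 0 := hlam
  refine ⟨lam, hB, lt_of_le_of_ne hl0 ?_, lt_of_le_of_ne hlB ?_, hz⟩
  · intro h
    rw [← h] at hz
    exact h30.ne' hz
  · intro h
    rw [h] at hz
    exact h40.ne hz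

end Pool.Agent.MFK.RT
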