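import Pool.Agent.Work.MP_8826fd_mp.RT.Stmts2

/-!
# MP_8826fd_mp, block RT, item RdL: lower bound for the radial functions (helper51)
-/

set_option autoImplicit false

namespace Pool.Agent.MFK.RT

open MeasureTheory Set Filter Topology Pool.Agent.MFK.NF

namespace IRdL

theorem disc_sub : disc ⊆ Icc (-1 : ℝ) 1 ×ˢ Icc (-1 : ℝ) 1 := by
  intro x hx
  have h : x.1 ^ 2 + x.2 ^ 2 < 1 := hx
  have h1 : |x.1| ≤ 1 := abs_le_one_iff_mul_self_le_one.2 (by nlinarith [sq_nonneg x.2])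
  have h2 : |x.2| ≤ 1 := abs_le_one_iff_mul_self_le_one.2 (by nlinarith [sq_nonneg x.1])
  exact ⟨abs_le.1 h1, abs_le.1 h2⟩

theorem int_cont {g : ℝ × ℝ → ℝ} (hg : Continuous g) : IntegrableOn g disc :=
  (hg.continuousOn.integrableOn_compact (isCompact_Icc.prod isCompact_Icc)).mono_set disc_sub

theorem nonempty (B : ℝ) :
    {q : ℝ | ∃ u : ℝ × ℝ → ℂ, ContDiffOn ℝ 1 u disc ∧
      (∀ x ∈ disc, ∀ y ∈ disc, x.1 ^ 2 + x.2 ^ 2 = y.1 ^ 2 + y.2 ^ 2 → u x = u y) ∧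
      IntegrableOn (fun x => ‖u x‖ ^ 2) disc ∧ IntegrableOn (fun x => eden B u x) disc ∧
      (∫ x in disc, ‖u x‖ ^ 2) = 1 ∧ q = ∫ x in disc, eden B u x}.Nonempty := by
  have hfin : volume disc ≠ ⊤ :=
    ((measure_mono disc_sub).trans_lt (isCompact_Icc.prod isCompact_Icc).measure_lt_top).ne
  have hpos : 0 < volume disc := L6.isOpen_disc.measure_pos _ ⟨(0, 0), by
    show (0 : ℝ) ^ 2 + (0 : ℝ) ^ 2 < 1
    norm_num⟩
  have hV : 0 < (volume disc).toReal := ENNReal.toReal_pos hpos.ne' hfin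
  set c : ℝ := 1 / Real.sqrt (volume disc).toReal with hc
  have hc2 : c ^ 2 * (volume disc).toReal = 1 := by
    rw [hc, div_pow, Real.sq_sqrt hV.le]
    field_simp
  refine ⟨_, fun _ => (c : ℂ), contDiffOn_const, fun _ _ _ _ _ => rfl, ?_, ?_, ?_, rfl⟩
  · exact int_cont continuous_const
  · refine int_cont ?_
    unfold eden
    simp only [fderiv_fun_const, Pi.zero_apply, _root_.zero_apply]
    fun_prop
  · show (∫ _x in disc, ‖((c : ℝ) : ℂ)‖ ^ 2) = 1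
    rw [Complex.norm_real, Real.norm_eq_abs, sq_abs, setIntegral_const, smul_eq_mul,
      Measure.real, mul_comm]
    exact hc2

theorem main {B lam : ℝ} (hB : 0 < B) (h0 : 0 < lam) (hl : lam < B)
    (hd : 0 ≤ deriv (gk B lam 0) 1) (u : ℝ × ℝ → ℂ) (hu : ContDiffOn ℝ 1 u disc)
    (hr : ∀ x ∈ disc, ∀ y ∈ disc, x.1 ^ 2 + x.2 ^ 2 = y.1 ^ 2 + y.2 ^ 2 → u x = u y)
    (hi2 : IntegrableOn (fun x => ‖u x‖ ^ 2) disc) (hie : IntegrableOn (fun x => eden B u x) disc) :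
    lam * ∫ x in disc, ‖u x‖ ^ 2 ≤ ∫ x in disc, eden B u x := by
  obtain ⟨-, hEi, hEe⟩ := pIntD _ hie
  obtain ⟨-, hNi, hNe⟩ := pIntD _ hi2
  have hsq : ∀ r θ : ℝ, (pt r θ).1 ^ 2 + (pt r θ).2 ^ 2 = r ^ 2 := by
    intro r θ
    show (r * Real.cos θ) ^ 2 + (r * Real.sin θ) ^ 2 = r ^ 2
    have := Real.sin_sq_add_cos_sq θ
    nlinarith
  have hrad : ∀ r ∈ Ioo (0 : ℝ) 1, ∀ θ, u (pt r θ) = u (pt r 0) := fun r h θ =>
    hr _ (L6.pt_mem h.1 h.2 θ) _ (L6.pt_mem h.1 h.2 0) (by rw [hsq, hsq])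
  set φ : ℝ → ℂ := fun t => u (pt t 0) with hφ
  have hden : ∀ r ∈ Ioo (0 : ℝ) 1, ∀ θ, eden B u (pt r θ)
      = ‖deriv φ r‖ ^ 2 + qn B 0 r ^ 2 * ‖φ r‖ ^ 2 := by
    intro r h θ
    have h1 := (pDens B u r θ h.1 (L6.diffAt hu (L6.pt_mem h.1 h.2 θ))).2.2
    have h2 : deriv (fun t => u (pt t θ)) r = deriv φ r := by
      apply Filter.EventuallyEq.deriv_eq
      filter_upwards [Ioo_mem_nhds h.1 h.2] with t ht
      exact hrad t ht θ
    have h3 : deriv (fun t => u (pt r t)) θ = 0 := by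
      have h4 : (fun t => u (pt r t)) = fun _ => φ r := funext fun t => hrad r h t
      rw [h4]
      exact deriv_const _ _
    rw [h1, h2, h3, mul_zero, zero_sub, norm_neg, norm_mul, norm_mul, Complex.norm_I, one_mul,
      Complex.norm_real, mul_pow, Real.norm_eq_abs, sq_abs, hrad r h θ]
    unfold qn
    simp only [Int.cast_zero, zero_div, zero_sub]
    ring
  have hE : ∀ r ∈ Ioo (0 : ℝ) 1, (∫ θ in (0 : ℝ)..(2 * Real.pi), eden B u (pt r θ)) * r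
      = 2 * Real.pi * ((‖deriv φ r‖ ^ 2 + qn B 0 r ^ 2 * ‖φ r‖ ^ 2) * r) := by
    intro r h
    rw [intervalIntegral.integral_congr (g := fun _ => ‖deriv φ r‖ ^ 2 + qn B 0 r ^ 2 * ‖φ r‖ ^ 2)
      (fun θ _ => hden r h θ), intervalIntegral.integral_const, smul_eq_mul]
    ring
  have hN : ∀ r ∈ Ioo (0 : ℝ) 1, (∫ θ in (0 : ℝ)..(2 * Real.pi), ‖u (pt r θ)‖ ^ 2) * r
      = 2 * Real.pi * (‖φ r‖ ^ 2 * r) := by
    intro r h
    rw [intervalIntegral.integral_congr (g := fun _ => ‖φ r‖ ^ 2)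
      (fun θ _ => by show ‖u (pt r θ)‖ ^ 2 = _; rw [hrad r h θ]),
      intervalIntegral.integral_const, smul_eq_mul]
    ring
  have hpi : 0 < 2 * Real.pi := by positivity
  have hEi' : IntegrableOn (fun r => (‖deriv φ r‖ ^ 2 + qn B 0 r ^ 2 * ‖φ r‖ ^ 2) * r) (Ioc 0 1) := by
    rw [integrableOn_Ioc_iff_integrableOn_Ioo]
    have h1 := (hEi.mono_set Ioo_subset_Ioc_self).const_mul (2 * Real.pi)⁻¹
    refine IntegrableOn.congr_fun h1 (fun r h => ?_) measurableSet_Ioo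
    show (2 * Real.pi)⁻¹ * ((∫ θ in (0 : ℝ)..(2 * Real.pi), eden B u (pt r θ)) * r) = _
    rw [hE r h, ← mul_assoc, inv_mul_cancel₀ hpi.ne', one_mul]
  have hNi' : IntegrableOn (fun r => ‖φ r‖ ^ 2 * r) (Ioc 0 1) := by
    rw [integrableOn_Ioc_iff_integrableOn_Ioo]
    have h1 := (hNi.mono_set Ioo_subset_Ioc_self).const_mul (2 * Real.pi)⁻¹
    refine IntegrableOn.congr_fun h1 (fun r h => ?_) measurableSet_Ioo
    show (2 * Real.pi)⁻¹ * ((∫ θ in (0 : ℝ)..(2 * Real.pi), ‖u (pt r θ)‖ ^ 2) * r) = _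
    rw [hN r h, ← mul_assoc, inv_mul_cancel₀ hpi.ne', one_mul]
  have hLR := lRad rReg (lPicone rReg) B lam 0 (FK B lam 0) φ (deriv φ) h0 (gk_rad hB hl 0) hd
    (fun r h => (pDens B u r 0 h.1 (L6.diffAt hu (L6.pt_mem h.1 h.2 0))).1)
    (by
      have h1 : ContinuousOn (fun r : ℝ => fderiv ℝ u (pt r 0) (Real.cos 0, Real.sin 0))
          (Ioo 0 1) := by
        have h2 : ContinuousOn (fun r : ℝ => fderiv ℝ u (pt r 0)) (Ioo 0 1) :=
          (L6.cont_fderiv hu).comp (by unfold pt; fun_prop) fun r h => L6.pt_mem h.1 h.2 0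
        exact h2.clm_apply continuousOn_const
      exact h1.congr fun r h => L6.deriv_r hu h.1 h.2 0)
    (fun h => absurd rfl h)
    (by
      have hz : ((0 : ℝ), (0 : ℝ)) ∈ disc := by
        show (0 : ℝ) ^ 2 + (0 : ℝ) ^ 2 < 1
        norm_num
      have h1 : ContinuousAt u ((0 : ℝ), (0 : ℝ)) :=
        hu.continuousOn.continuousAt (L6.isOpen_disc.mem_nhds hz)
      have h2 : Tendsto (fun t : ℝ => pt t 0) (𝓝[>] 0) (𝓝 ((0 : ℝ), (0 : ℝ))) := by
        have h3 : Continuous (fun t : ℝ => pt t 0) := by unfold pt; fun_prop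
        have h4 := h3.tendsto 0
        have h5 : pt 0 0 = ((0 : ℝ), (0 : ℝ)) := by unfold pt; simp
        rw [h5] at h4
        exact h4.mono_left nhdsWithin_le_nhds
      refine ⟨‖u ((0 : ℝ), (0 : ℝ))‖ + 1, ?_⟩
      have h6 := (h1.tendsto.comp h2).norm.eventually
        (gt_mem_nhds (show ‖u ((0 : ℝ), (0 : ℝ))‖ < ‖u ((0 : ℝ), (0 : ℝ))‖ + 1 by linarith))
      filter_upwards [h6] with t ht
      exact ht.le)
    hEi' hNi'
  have e1 : ∫ r in (0 : ℝ)..1, (∫ θ in (0 : ℝ)..(2 * Real.pi), eden B u (pt r θ)) * r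
      = 2 * Real.pi * ∫ r in (0 : ℝ)..1, (‖deriv φ r‖ ^ 2 + qn B 0 r ^ 2 * ‖φ r‖ ^ 2) * r := by
    rw [← intervalIntegral.integral_const_mul, intervalIntegral.integral_of_le zero_le_one,
      intervalIntegral.integral_of_le zero_le_one, integral_Ioc_eq_integral_Ioo,
      integral_Ioc_eq_integral_Ioo]
    exact setIntegral_congr_fun measurableSet_Ioo hE
  have e2 : ∫ r in (0 : ℝ)..1, (∫ θ in (0 : ℝ)..(2 * Real.pi), ‖u (pt r θ)‖ ^ 2) * r
      = 2 * Real.pi * ∫ r in (0 : ℝ)..1, ‖φ r‖ ^ 2 * r := by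
    rw [← intervalIntegral.integral_const_mul, intervalIntegral.integral_of_le zero_le_one,
      intervalIntegral.integral_of_le zero_le_one, integral_Ioc_eq_integral_Ioo,
      integral_Ioc_eq_integral_Ioo]
    exact setIntegral_congr_fun measurableSet_Ioo hN
  rw [hNe, hEe, e1, e2]
  have := mul_le_mul_of_nonneg_left hLR hpi.le
  calc lam * (2 * Real.pi * ∫ r in (0 : ℝ)..1, ‖φ r‖ ^ 2 * r)
      = 2 * Real.pi * (lam * ∫ r in (0 : ℝ)..1, ‖φ r‖ ^ 2 * r) := by ring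
    _ ≤ _ := this

end IRdL

theorem pr_RdL : StRdL := by
  intro B lam hB h0 hl hd
  unfold lamRad
  refine le_csInf (IRdL.nonempty B) ?_
  rintro q ⟨u, hu, hr, hi2, hie, h1, rfl⟩
  have h := IRdL.main hB h0 hl hd u hu hr hi2 hie
  rwa [h1, mul_one] at h

end Pool.Agent.MFK.RT
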