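import Pool.Agent.Work.MP_8826fd_mp.RT.Stmts2

/-! # MP_8826fd_mp, block RT: item Rng (the range theorem for area `π`) -/

set_option autoImplicit false

namespace Pool.Agent.MFK.RT

open MeasureTheory Set Filter Topology Pool.Agent.MFK.NF

namespace IRng

theorem ne_univ {Ω : Set ℂ} (hvol : volume Ω = ENNReal.ofReal Real.pi) : Ω ≠ univ := by
  intro h
  rw [h] at hvol
  have h2 : volume (univ : Set ℂ) = ⊤ := by
    have := (Complex.volume_preserving_equiv_real_prod).measure_preimage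
      (nullMeasurableSet_univ (α := ℝ × ℝ))
    rw [preimage_univ] at this
    rw [this]
    simp
  rw [h2] at hvol
  exact ENNReal.ofReal_ne_top hvol.symm

theorem psd_zero (a : ℕ → ℂ) : psd a 0 = a 1 := by
  unfold psd
  rw [tsum_eq_single 1]
  · simp
  · intro n hn
    rcases Nat.eq_zero_or_pos n with h | h
    · rw [h]; simp
    · have : n - 1 ≠ 0 := by omega
      rw [zero_pow this, mul_zero]

theorem rm {Ω : Set ℂ} {f F : ℂ → ℂ} {a : ℕ → ℂ} (h : CD.CMc Ω f F a) : RM Ω f F a :=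
  { toHol := h.toHol, opn := h.opn, fd := h.fd, fm := h.fm, Fm := h.Fm, fF := h.fF, Ff := h.Ff }

theorem deriv_ne {Ω : Set ℂ} {f F : ℂ → ℂ} (hO : IsOpen Ω) (hf : DifferentiableOn ℂ f Ω)
    (hF : DifferentiableOn ℂ F (Metric.ball 0 1)) (hm : MapsTo F (Metric.ball 0 1) Ω)
    (hfF : ∀ w ∈ Metric.ball (0 : ℂ) 1, f (F w) = w) : deriv F 0 ≠ 0 := by
  have h0 : (0 : ℂ) ∈ Metric.ball (0 : ℂ) 1 := Metric.mem_ball_self one_pos
  have h1 : HasDerivAt F (deriv F 0) 0 :=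
    ((hF 0 h0).differentiableAt (Metric.isOpen_ball.mem_nhds h0)).hasDerivAt
  have h2 : DifferentiableAt ℂ f (F 0) := (hf (F 0) (hm h0)).differentiableAt (hO.mem_nhds (hm h0))
  have h3 : HasDerivAt (f ∘ F) (deriv f (F 0) * deriv F 0) 0 := h2.hasDerivAt.comp 0 h1
  have h4 : HasDerivAt (f ∘ F) 1 0 := by
    refine (hasDerivAt_id (0 : ℂ)).congr_of_eventuallyEq ?_
    filter_upwards [Metric.ball_mem_nhds (0 : ℂ) one_pos] with w hw
    exact hfF w hw
  intro hc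
  have h5 := h3.unique h4
  rw [hc, mul_zero] at h5
  exact zero_ne_one h5

end IRng

theorem pr_Rng (hLim : StLim) (hArr : StArr) (hC1p : CD.StC1p) (hCMx : CD.StCMx) (hSer : CD.StSer)
    (hMU : StMUc) (hCrs : StCrs) (hSml : StSml) (hDsc : StDsc) (hRdE : StRdE) (hUd : StUd)
    (hRdL : StRdL) : StRng := by
  obtain ⟨B₀, hB0, hle, hgt⟩ := hCrs
  obtain ⟨η₁, hη1, ε₀, hε0, hM⟩ := hMU B₀ hB0
  set ε := min ε₀ 1 with hεd
  have hε : 0 < ε := lt_min hε0 one_pos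
  have hε1 : ε ≤ 1 := min_le_right _ _
  obtain ⟨η₂, hη2, hS⟩ := hSml B₀ (ε ^ 2) hB0 (by positivity) (hle B₀ hB0 le_rfl)
  obtain ⟨b, hb1, hb2, hb3⟩ := hgt (min η₁ η₂) (lt_min hη1 hη2)
  refine ⟨b, by linarith, hb3, fun B hB hBb Ω hO hsc hvol => ?_⟩
  have hne := IRng.ne_univ hvol
  have hnon : Ω.Nonempty := by
    rw [nonempty_iff_ne_empty]
    intro h
    rw [h, measure_empty] at hvol
    have := (ENNReal.ofReal_pos.2 Real.pi_pos).ne'
    exact this hvol.symm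
  obtain ⟨p, hp⟩ := hnon
  obtain ⟨f₁, F₁, hf1, hF1, hm1, hM1, hfF1, hFf1, -⟩ := hC1p Ω p hO hsc hne hp
  have hd1 := IRng.deriv_ne hO hf1 hF1 hM1 hfF1
  obtain ⟨f, F, a, s, hCM, hN, hρs, hmax⟩ :=
    hCMx Ω F₁ ‖deriv F₁ 0‖ hO hsc hvol hF1 hM1 (norm_pos_iff.2 hd1) le_rfl
  have hs0 := hN.s0
  have hs1 : s ≤ 1 := (hSer F a s hN).1
  have hRM := IRng.rm hCM
  obtain ⟨-, -, hA⟩ := hArr Ω f F a hRM hvol
  have hcr : ∀ w : ℂ, ‖w‖ < 1 → cr a w ≤ s := by
    intro w hw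
    unfold cr
    rw [← (hA w hw).2.1]
    exact hmax w (by rwa [mem_ball_zero_iff])
  have hF0 : ‖deriv F 0‖ = s := by
    rw [(hA 0 (by simp)).2.1, IRng.psd_zero, hN.a1, Complex.norm_real, Real.norm_eq_abs, abs_of_pos hs0]
  obtain ⟨lam, hR⟩ := hRdE B hB
  have hrad : lamRad B = lam :=
    le_antisymm ((hUd B lam 0 hR.hB hR.lt hR.zero).2 rfl) (hRdL B lam hR.hB hR.pos hR.lt hR.zero.ge)
  have hL := hLim Ω f F a B lam s hRM hvol hR hs0 hs1 hcr
  have hk : 0 < 1 / 32 * Real.exp (-B) * (B ^ 2 - lam ^ 2) := by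
    have h1 : 0 < B ^ 2 - lam ^ 2 := by nlinarith [hR.lt, hR.pos, hR.hB]
    have h2 := Real.exp_pos (-B)
    positivity
  rcases le_or_gt B B₀ with hBB | hBB
  · have he : lamN B disc = lam := by rw [hle B hB hBB, hrad]
    refine ⟨?_, fun h => ?_⟩
    · rw [he]
      have : 0 ≤ 1 / 32 * Real.exp (-B) * (B ^ 2 - lam ^ 2) * (1 - s ^ 2) ^ 2 := by positivity
      linarith
    · rw [h, he] at hL
      have h3 : (1 - s ^ 2) ^ 2 ≤ 0 := by
        by_contra hc
        push Not at hc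
        have := mul_pos hk hc
        linarith
      have h4 : 1 - s ^ 2 = 0 := by
        have := pow_eq_zero_iff (two_ne_zero) |>.1 (le_antisymm h3 (sq_nonneg _))
        exact this
      have h5 : s = 1 := by nlinarith
      rw [h5] at hN
      exact ⟨a 0, hDsc Ω f F a hCM hN⟩
  · have hBabs : |B - B₀| < min η₁ η₂ := by
      rw [abs_of_pos (by linarith)]
      linarith
    rcases le_or_gt (1 - ε) s with h | h
    · obtain ⟨q, hq1, hq2⟩ := hM B hB (hBabs.trans_le (min_le_left _ _)) Ω F hO hsc hvol hCM.Fd hCM.Fm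
        (by rw [hF0]; have := min_le_left ε₀ 1; linarith)
      exact ⟨hq1, fun he => ⟨q, hq2 he⟩⟩
    · have h1 := hS B hB (hBabs.trans_le (min_le_right _ _))
      rw [hrad] at h1
      have h2 : ε ^ 2 ≤ (1 - s ^ 2) ^ 2 := by
        have h3 : ε ≤ 1 - s ^ 2 := by nlinarith
        exact pow_le_pow_left₀ hε.le h3 2
      have h4 := mul_le_mul_of_nonneg_left h2 hk.le
      have h5 : lamN B (toR Ω) < lamN B disc := by linarith
      exact ⟨h5.le, fun he => absurd he h5.ne⟩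

end Pool.Agent.MFK.RT
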