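import Pool.Agent.Work.MP_8826fd_mp.RT.Stmts2
import Pool.Agent.Work.MP_8826fd_mp.NU.I_Gr

/-! # MP_8826fd_mp, block RT: item Sm -/

set_option autoImplicit false

namespace Pool.Agent.MFK.RT

open MeasureTheory Set Filter Topology Pool.Agent.MFK.NF

theorem pr_Sm (hUd : StUd) (hLe : StLe) : StSm := by
  intro B hB hB2
  obtain ⟨lam, m, G⟩ := NU.pr_Gr B hB
  have hm : m = 0 := by
    have h1 := G.hp
    by_contra hc
    have h2 : (1 : ℝ) ≤ m := by exact_mod_cast Nat.one_le_iff_ne_zero.2 hc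
    linarith
  subst hm
  have h1 := (hUd B lam 0 hB G.lam_lt G.zero).2 rfl
  have h2 := G.lb
  have h3 := hLe B
  linarith [le_antisymm (h2.trans h3) h1, h1, h2, h3, le_antisymm h3 (h1.trans h2)]

end Pool.Agent.MFK.RT
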