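import Pool.Agent.Work.MP_8826fd_mp.RT.Stmts2

/-!
# MP_8826fd_mp, block RT, item Sml: the gap is small near a field with a radial ground state
-/

set_option autoImplicit false

namespace Pool.Agent.MFK.RT

open MeasureTheory Set Filter Topology Pool.Agent.MFK.NF

namespace ISml

/-- two-sided continuity from the inequalities of the item Lip -/
lemma two_sided {f : ℝ → ℝ} (hf : ∀ B B' t : ℝ, 0 < t →
      f B' ≤ (1 + t) * f B + (1 + 1 / t) * (B' - B) ^ 2 / 4)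
    {B₀ B δ : ℝ} (hL : 0 ≤ f B₀) (hδ : |B - B₀| = δ) (hδ1 : δ ≤ 1) :
    f B ≤ f B₀ + δ * (f B₀ + 1 / 2) ∧ f B₀ - δ * (2 * f B₀ + 1) ≤ f B := by
  rcases eq_or_lt_of_le (abs_nonneg (B - B₀)) with h0 | h0
  · have hB : B = B₀ := by
      have := abs_eq_zero.1 h0.symm
      linarith
    have hd : δ = 0 := by rw [← hδ, ← h0]
    subst hB
    subst hd
    constructor <;> simp
  · rw [hδ] at h0
    have hsq : (B - B₀) ^ 2 = δ ^ 2 := by rw [← hδ, sq_abs]
    have hsq' : (B₀ - B) ^ 2 = δ ^ 2 := by rw [← hsq]; ring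
    have h1 := hf B₀ B δ h0
    have h2 := hf B B₀ δ h0
    rw [hsq] at h1
    rw [hsq'] at h2
    have h3 : (1 + 1 / δ) * δ ^ 2 / 4 = (δ ^ 2 + δ) / 4 := by
      field_simp
    rw [h3] at h1 h2
    have h4 : (δ ^ 2 + δ) / 4 ≤ δ / 2 := by nlinarith
    constructor
    · nlinarith
    · have h5 : f B ≤ 2 * f B₀ + 1 / 2 := by nlinarith
      nlinarith

end ISml

open ISml in
theorem pr_Sml (hLip : StLip) (hRdE : StRdE) (hUd : StUd) (hRdL : StRdL) : StSml := by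
  intro B₀ e hB₀ he heq
  obtain ⟨lam, hR⟩ := hRdE B₀ hB₀
  have h1 : lamRad B₀ ≤ lam := (hUd B₀ lam 0 hB₀ hR.lt hR.zero).2 rfl
  have h2 : lam ≤ lamRad B₀ := hRdL B₀ lam hB₀ hR.pos hR.lt hR.zero.ge
  have hL : lamRad B₀ = lam := le_antisymm h1 h2
  have hN : lamN B₀ disc = lam := heq.trans hL
  have hpos := hR.pos
  have hlt := hR.lt
  have hfR : ∀ B B' t : ℝ, 0 < t →
      lamRad B' ≤ (1 + t) * lamRad B + (1 + 1 / t) * (B' - B) ^ 2 / 4 :=
    fun B B' t ht => (hLip B B' t ht).2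
  have hfN : ∀ B B' t : ℝ, 0 < t →
      (fun b => lamN b disc) B' ≤ (1 + t) * (fun b => lamN b disc) B
        + (1 + 1 / t) * (B' - B) ^ 2 / 4 :=
    fun B B' t ht => (hLip B B' t ht).1
  set c : ℝ := (B₀ - lam) / 2 * B₀ with hc
  have hcpos : 0 < c := mul_pos (by linarith) hB₀
  set κ : ℝ := 1 / 32 * Real.exp (-(B₀ + 1)) * c * e with hκ
  have hκpos : 0 < κ := by positivity
  have hd1 : 0 < (B₀ - lam) / (2 * (lam + 3 / 2)) := div_pos (by linarith) (by linarith)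
  have hd2 : 0 < lam / (2 * lam + 2) := div_pos hpos (by linarith)
  have hd3 : 0 < κ / (3 * lam + 3 / 2) := div_pos hκpos (by linarith)
  refine ⟨min 1 (min ((B₀ - lam) / (2 * (lam + 3 / 2))) (min (lam / (2 * lam + 2))
    (κ / (3 * lam + 3 / 2)))), lt_min one_pos (lt_min hd1 (lt_min hd2 hd3)), ?_⟩
  intro B hB hBη
  obtain ⟨g1, g2⟩ := lt_min_iff.1 hBη
  obtain ⟨g2, g3⟩ := lt_min_iff.1 g2
  obtain ⟨g3, g4⟩ := lt_min_iff.1 g3
  set δ : ℝ := |B - B₀| with hδ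
  have hδ0 : 0 ≤ δ := abs_nonneg _
  obtain ⟨r1, r2⟩ := two_sided (B := B) (δ := δ) hfR (by rw [hL]; exact hpos.le) rfl g1.le
  obtain ⟨-, n2⟩ := two_sided (B := B) (δ := δ) hfN
    (by show 0 ≤ lamN B₀ disc; rw [hN]; exact hpos.le) rfl g1.le
  change lamN B₀ disc - δ * (2 * lamN B₀ disc + 1) ≤ lamN B disc at n2
  rw [hL] at r1 r2
  rw [hN] at n2
  have habs := abs_le.1 (le_of_eq hδ.symm : |B - B₀| ≤ δ)
  rw [lt_div_iff₀ (by linarith)] at g2 g3 g4
  -- the right side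
  have e1 : (B₀ - lam) / 2 ≤ B - lamRad B := by nlinarith [habs.1]
  have e2 : B₀ ≤ B + lamRad B := by nlinarith [habs.1]
  have e3 : c ≤ B ^ 2 - lamRad B ^ 2 := by
    have h3 : (B₀ - lam) / 2 * B₀ ≤ (B - lamRad B) * (B + lamRad B) :=
      mul_le_mul e1 e2 hB₀.le (le_trans (by linarith) e1)
    calc c ≤ (B - lamRad B) * (B + lamRad B) := h3
      _ = B ^ 2 - lamRad B ^ 2 := by ring
  have e4 : Real.exp (-(B₀ + 1)) ≤ Real.exp (-B) := by
    apply Real.exp_le_exp.2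
    linarith [habs.2]
  have e5 : κ ≤ 1 / 32 * Real.exp (-B) * (B ^ 2 - lamRad B ^ 2) * e := by
    rw [hκ]
    apply mul_le_mul_of_nonneg_right _ he.le
    apply mul_le_mul _ e3 hcpos.le (by positivity)
    exact mul_le_mul_of_nonneg_left e4 (by norm_num)
  -- the left side
  have e6 : lamRad B - lamN B disc ≤ δ * (3 * lam + 3 / 2) := by linarith
  linarith

end Pool.Agent.MFK.RT
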