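import Pool.Agent.Work.MP_8826fd_mp.RT.Stmts

/-!
# MP_8826fd_mp, block RT, item Sob: the sharp inequality `4π ∫ w² ≤ (∫ |∇w|)²` (Gromov, Knothe map)
-/

set_option autoImplicit false

namespace Pool.Agent.MFK.RT

open MeasureTheory Set Filter Topology Pool.Agent.MFK.NF

namespace ISob

/-- integration by parts against a primitive of an integrable function -/
theorem parts1 (u : ℝ → ℝ) (hu : ContDiff ℝ 1 u) (hc : HasCompactSupport u) (T T' : ℝ → ℝ)
    (hT : Continuous T) (hT' : Integrable T')
    (hFT : ∀ a b : ℝ, a ≤ b → (∫ x in a..b, T' x) = T b - T a) :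
    (∫ x, T' x * u x) = -∫ x, deriv u x * T x := by
  have hdc : Continuous (deriv u) := hu.continuous_deriv le_rfl
  have hdi : Integrable (deriv u) := hdc.integrable_of_hasCompactSupport hc.deriv
  have hdT : Integrable (fun x => deriv u x * T x) :=
    (hdc.mul hT).integrable_of_hasCompactSupport hc.deriv.mul_right
  let h : ℝ → ℝ → ℝ := fun x t => (Ioi x).indicator (fun t => T' x * deriv u t) t
  have hunc : Function.uncurry h = {p : ℝ × ℝ | p.1 < p.2}.indicator
      (fun p => T' p.1 * deriv u p.2) := by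
    funext p
    rcases p with ⟨x, t⟩
    show (Ioi x).indicator (fun t => T' x * deriv u t) t = _
    by_cases hx : x < t
    · rw [indicator_of_mem (show t ∈ Ioi x from hx),
        indicator_of_mem (show (x, t) ∈ {p : ℝ × ℝ | p.1 < p.2} from hx)]
    · rw [indicator_of_notMem (show t ∉ Ioi x from hx),
        indicator_of_notMem (show (x, t) ∉ {p : ℝ × ℝ | p.1 < p.2} from hx)]
  have hint : Integrable (Function.uncurry h) (volume.prod volume) := by
    rw [hunc]
    exact (hT'.mul_prod hdi).indicator (measurableSet_lt measurable_fst measurable_snd)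
  have hsw := integral_integral_swap hint
  have hL : ∀ x, (∫ t, h x t) = -(T' x * u x) := by
    intro x
    show (∫ t, (Ioi x).indicator (fun t => T' x * deriv u t) t) = _
    rw [integral_indicator measurableSet_Ioi, integral_const_mul,
      hc.integral_Ioi_deriv_eq hu]
    ring
  obtain ⟨c, hcT⟩ : ∃ c : ℝ, ∀ t, (∫ x in Iio t, T' x) = T t + c := by
    refine ⟨(∫ x in Iic (0 : ℝ), T' x) - T 0, fun t => ?_⟩
    have h1 := intervalIntegral.integral_Iic_sub_Iic (μ := volume) (f := T') (a := 0) (b := t)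
      hT'.integrableOn hT'.integrableOn
    have h2 : (∫ x in (0 : ℝ)..t, T' x) = T t - T 0 := by
      rcases le_total 0 t with h | h
      · exact hFT 0 t h
      · rw [intervalIntegral.integral_symm, hFT t 0 h]
        ring
    have h3 : (∫ x in Iio t, T' x) = ∫ x in Iic t, T' x := setIntegral_congr_set Iio_ae_eq_Iic
    rw [h3]
    linarith
  have hR : ∀ t, (∫ x, h x t) = deriv u t * T t + c * deriv u t := by
    intro t
    have h1 : ∀ x, h x t = (Iio t).indicator (fun x => T' x * deriv u t) x := by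
      intro x
      show (Ioi x).indicator (fun t => T' x * deriv u t) t = _
      by_cases hx : x < t
      · rw [indicator_of_mem (show t ∈ Ioi x from hx),
          indicator_of_mem (show x ∈ Iio t from hx)]
      · rw [indicator_of_notMem (show t ∉ Ioi x from hx),
          indicator_of_notMem (show x ∉ Iio t from hx)]
    rw [integral_congr_ae (Eventually.of_forall h1), integral_indicator measurableSet_Iio,
      integral_mul_const, hcT]
    ring
  have h0 : (∫ t, deriv u t) = 0 := by
    refine integral_eq_zero_of_hasDerivAt_of_integrable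
      (fun x => (hu.differentiable one_ne_zero x).hasDerivAt) hdi
      (hu.continuous.integrable_of_hasCompactSupport hc)
  rw [integral_congr_ae (Eventually.of_forall hL), integral_congr_ae (Eventually.of_forall hR),
    integral_neg, integral_add hdT (hdi.const_mul c), integral_const_mul, h0] at hsw
  linarith

/-- the data of the function -/
structure Dat (w : ℝ × ℝ → ℝ) (R : ℝ) : Prop where
  sm : ContDiff ℝ 1 w
  cs : HasCompactSupport w
  nn : ∀ x, 0 ≤ w x
  hR : 0 < R
  zx : ∀ x y, R ≤ |x| → w (x, y) = 0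
  zy : ∀ x y, R ≤ |y| → w (x, y) = 0

theorem exists_dat (w : ℝ × ℝ → ℝ) (sm : ContDiff ℝ 1 w) (cs : HasCompactSupport w)
    (nn : ∀ x, 0 ≤ w x) : ∃ R, Dat w R := by
  obtain ⟨r, hr⟩ := cs.isCompact.isBounded.subset_closedBall (0 : ℝ × ℝ)
  have key : ∀ x y, max |x| |y| > r → w (x, y) = 0 := by
    intro x y h
    by_contra hne
    have h1 := hr (subset_tsupport w hne)
    rw [mem_closedBall_zero_iff, Prod.norm_def] at h1
    simp only [Real.norm_eq_abs] at h1
    exact absurd h1 (not_le.2 h)
  refine ⟨|r| + 1, sm, cs, nn, by positivity, ?_, ?_⟩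
  · intro x y h
    refine key x y ?_
    have := le_max_left |x| |y|
    have := le_abs_self r
    linarith
  · intro x y h
    refine key x y ?_
    have := le_max_right |x| |y|
    have := le_abs_self r
    linarith

section
variable {w : ℝ × ℝ → ℝ} {R : ℝ} (D : Dat w R)
include D

theorem cont_w2 : Continuous (Function.uncurry (fun x t : ℝ => w (x, t) ^ 2)) :=
  (D.sm.continuous.comp continuous_id).pow 2

/-- partial integral -/
noncomputable def gI (w : ℝ × ℝ → ℝ) (R : ℝ) (p : ℝ × ℝ) : ℝ := ∫ t in (-R)..p.2, w (p.1, t) ^ 2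

/-- total integral over a line -/
noncomputable def Jf (w : ℝ × ℝ → ℝ) (R : ℝ) (x : ℝ) : ℝ := ∫ t in (-R)..R, w (x, t) ^ 2

theorem cont_gI : Continuous (gI w R) := by
  have h : Continuous (Function.uncurry (fun (p : ℝ × ℝ) (t : ℝ) => w (p.1, t) ^ 2)) := by
    have : Continuous (fun q : (ℝ × ℝ) × ℝ => w (q.1.1, q.2) ^ 2) :=
      (D.sm.continuous.comp ((continuous_fst.comp continuous_fst).prodMk continuous_snd)).pow 2
    exact this
  exact intervalIntegral.continuous_parametric_intervalIntegral_of_continuous h continuous_snd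

theorem cont_line (x : ℝ) : Continuous (fun t : ℝ => w (x, t)) :=
  D.sm.continuous.comp (continuous_const.prodMk continuous_id)

theorem cont_J : Continuous (Jf w R) :=
  intervalIntegral.continuous_parametric_intervalIntegral_of_continuous' (cont_w2 D) _ _

theorem J_eq (x : ℝ) : Jf w R x = ∫ y, w (x, y) ^ 2 := by
  unfold Jf
  refine intervalIntegral.integral_eq_integral_of_support_subset ?_
  intro t ht
  by_contra h
  apply ht
  have : R ≤ |t| := by
    simp only [mem_Ioc, not_and_or, not_lt, not_le] at h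
    rcases h with h | h
    · rw [abs_of_nonpos (by linarith [D.hR])]
      linarith
    · rw [abs_of_pos (by linarith [D.hR])]
      exact h.le
  show w (x, t) ^ 2 = 0
  rw [D.zy x t this]
  norm_num

theorem J_nonneg (x : ℝ) : 0 ≤ Jf w R x := by
  rw [J_eq D]
  exact integral_nonneg fun y => sq_nonneg _

theorem gI_bounds (p : ℝ × ℝ) : 0 ≤ gI w R p ∧ gI w R p ≤ Jf w R p.1 := by
  have hc : Continuous (fun t : ℝ => w (p.1, t) ^ 2) := (cont_line D p.1).pow 2
  have hR := D.hR
  unfold gI Jf
  rcases le_total (-R) p.2 with h | h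
  · rcases le_total p.2 R with h2 | h2
    · refine ⟨intervalIntegral.integral_nonneg h fun t _ => sq_nonneg _, ?_⟩
      rw [← intervalIntegral.integral_add_adjacent_intervals (hc.intervalIntegrable (-R) p.2)
        (hc.intervalIntegrable p.2 R)]
      have : 0 ≤ ∫ t in p.2..R, w (p.1, t) ^ 2 :=
        intervalIntegral.integral_nonneg h2 fun t _ => sq_nonneg _
      exact le_add_of_nonneg_right this
    · refine ⟨intervalIntegral.integral_nonneg h fun t _ => sq_nonneg _, le_of_eq ?_⟩
      rw [← intervalIntegral.integral_add_adjacent_intervals (hc.intervalIntegrable (-R) R)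
        (hc.intervalIntegrable R p.2)]
      have : (∫ t in R..p.2, w (p.1, t) ^ 2) = 0 := by
        refine intervalIntegral.integral_zero_ae (Eventually.of_forall fun t ht => ?_)
        rw [uIoc_of_le h2] at ht
        rw [D.zy p.1 t (by rw [abs_of_pos (by linarith [ht.1])]; exact ht.1.le)]
        norm_num
      exact add_eq_left.2 this
  · have h0 : (∫ t in (-R)..p.2, w (p.1, t) ^ 2) = 0 := by
      refine intervalIntegral.integral_zero_ae (Eventually.of_forall fun t ht => ?_)
      rw [uIoc_of_ge h] at ht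
      rw [D.zy p.1 t (by rw [abs_of_nonpos (by linarith [ht.2])]; linarith [ht.2])]
      norm_num
    rw [h0]
    exact ⟨le_rfl, intervalIntegral.integral_nonneg (by linarith) fun t _ => sq_nonneg _⟩

theorem hasDerivAt_gI (x y : ℝ) : HasDerivAt (fun y => gI w R (x, y)) (w (x, y) ^ 2) y :=
  ((cont_line D x).pow 2).integral_hasStrictDerivAt (-R) y |>.hasDerivAt

theorem w_zero_of_J {x : ℝ} (h : Jf w R x = 0) (y : ℝ) : w (x, y) = 0 := by
  have hc : Continuous (fun t : ℝ => w (x, t) ^ 2) := (cont_line D x).pow 2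
  by_cases hy : R ≤ |y|
  · exact D.zy x y hy
  · rw [not_le, abs_lt] at hy
    by_contra hne
    have h1 : 0 < ∫ t in (-R)..R, w (x, t) ^ 2 := by
      refine intervalIntegral.integral_pos (by linarith [D.hR]) hc.continuousOn
        (fun t _ => sq_nonneg _) ⟨y, ⟨hy.1.le, hy.2.le⟩, ?_⟩
      positivity
    exact absurd h h1.ne'

theorem dx (x y : ℝ) : HasDerivAt (fun x => w (x, y)) (fderiv ℝ w (x, y) (1, 0)) x := by
  have h1 : HasFDerivAt w (fderiv ℝ w (x, y)) (x, y) :=
    (D.sm.differentiable one_ne_zero _).hasFDerivAt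
  have h2 : HasDerivAt (fun x : ℝ => (x, y)) ((1 : ℝ), (0 : ℝ)) x :=
    (hasDerivAt_id x).prodMk (hasDerivAt_const x y)
  exact h1.comp_hasDerivAt x h2

theorem dy (x y : ℝ) : HasDerivAt (fun y => w (x, y)) (fderiv ℝ w (x, y) (0, 1)) y := by
  have h1 : HasFDerivAt w (fderiv ℝ w (x, y)) (x, y) :=
    (D.sm.differentiable one_ne_zero _).hasFDerivAt
  have h2 : HasDerivAt (fun y : ℝ => (x, y)) ((0 : ℝ), (1 : ℝ)) y :=
    (hasDerivAt_const y x).prodMk (hasDerivAt_id y)
  exact h1.comp_hasDerivAt y h2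

theorem cont_fd (v : ℝ × ℝ) : Continuous (fun p => fderiv ℝ w p v) :=
  (D.sm.continuous_fderiv one_ne_zero).clm_apply continuous_const

theorem cs_fd (v : ℝ × ℝ) : HasCompactSupport (fun p => fderiv ℝ w p v) := by
  have h := D.cs.fderiv (𝕜 := ℝ)
  exact h.comp_left (g := fun L : (ℝ × ℝ) →L[ℝ] ℝ => L v) rfl

/-! ### lines -/

theorem cs_line (x : ℝ) : HasCompactSupport (fun y : ℝ => w (x, y)) := by
  refine HasCompactSupport.intro (K := Icc (-R) R) isCompact_Icc fun y hy => D.zy x y ?_
  by_contra h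
  rw [not_le, abs_lt] at h
  exact hy ⟨h.1.le, h.2.le⟩

theorem cs_line' (y : ℝ) : HasCompactSupport (fun x : ℝ => w (x, y)) := by
  refine HasCompactSupport.intro (K := Icc (-R) R) isCompact_Icc fun x hx => D.zx x y ?_
  by_contra h
  rw [not_le, abs_lt] at h
  exact hx ⟨h.1.le, h.2.le⟩

theorem cs_wy (x : ℝ) : HasCompactSupport (fun y : ℝ => fderiv ℝ w (x, y) (0, 1)) := by
  have h := (cs_line D x).deriv
  have h2 : deriv (fun y : ℝ => w (x, y)) = fun y : ℝ => fderiv ℝ w (x, y) (0, 1) :=
    funext fun y => (dy D x y).deriv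
  rwa [h2] at h

/-- the second component of the Knothe map -/
noncomputable def T2 (w : ℝ × ℝ → ℝ) (R : ℝ) (T : ℝ → ℝ) (p : ℝ × ℝ) : ℝ :=
  Real.sqrt (1 - T p.1 ^ 2) * (2 * (gI w R p / Jf w R p.1) - 1)

theorem T2_sq {T : ℝ → ℝ} (hT1 : ∀ x, |T x| ≤ 1) (p : ℝ × ℝ) :
    T p.1 ^ 2 + T2 w R T p ^ 2 ≤ 1 := by
  have h0 : T p.1 ^ 2 ≤ 1 := by
    rw [← sq_abs]
    exact pow_le_one₀ (abs_nonneg _) (hT1 _)
  have hb := gI_bounds D p
  have h1 : 0 ≤ gI w R p / Jf w R p.1 := div_nonneg hb.1 (J_nonneg D _)
  have h2 : gI w R p / Jf w R p.1 ≤ 1 := div_le_one_of_le₀ hb.2 (J_nonneg D _)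
  have h3 : (2 * (gI w R p / Jf w R p.1) - 1) ^ 2 ≤ 1 := by
    rw [sq_le_one_iff_abs_le_one, abs_le]
    constructor <;> linarith
  unfold T2
  rw [mul_pow, Real.sq_sqrt (by linarith)]
  have h4 : (1 - T p.1 ^ 2) * (2 * (gI w R p / Jf w R p.1) - 1) ^ 2 ≤ (1 - T p.1 ^ 2) * 1 :=
    mul_le_mul_of_nonneg_left h3 (by linarith)
  linarith

theorem T2_abs {T : ℝ → ℝ} (hT1 : ∀ x, |T x| ≤ 1) (p : ℝ × ℝ) : |T2 w R T p| ≤ 1 := by
  have h := T2_sq D hT1 p
  have h2 : T2 w R T p ^ 2 ≤ 1 := by nlinarith [sq_nonneg (T p.1)]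
  exact (sq_le_one_iff_abs_le_one _).1 h2

theorem T2_meas {T : ℝ → ℝ} (hT : Continuous T) : Measurable (T2 w R T) := by
  unfold T2
  have h1 : Measurable (fun p : ℝ × ℝ => Real.sqrt (1 - T p.1 ^ 2)) := by
    have : Continuous (fun p : ℝ × ℝ => Real.sqrt (1 - T p.1 ^ 2)) := by fun_prop
    exact this.measurable
  have h2 : Measurable (fun p : ℝ × ℝ => gI w R p / Jf w R p.1) :=
    (cont_gI D).measurable.div ((cont_J D).measurable.comp measurable_fst)
  exact h1.mul ((h2.const_mul 2).sub_const 1)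

/-- the inequality on one line -/
theorem line_le {T T' : ℝ → ℝ} {K : ℝ} (hK : 0 < K)
    (hP : ∀ x, 0 < Jf w R x → |T x| < 1 ∧ T' x * (2 * Real.sqrt (1 - T x ^ 2)) = K * Jf w R x)
    (x : ℝ) :
    2 * Real.sqrt K * Jf w R x ≤
      T' x * (∫ y, w (x, y)) - ∫ y, fderiv ℝ w (x, y) (0, 1) * T2 w R T (x, y) := by
  rcases (J_nonneg D x).eq_or_lt with h0 | hJ
  · have hz : ∀ y, w (x, y) = 0 := w_zero_of_J D h0.symm
    have hzy : ∀ y, fderiv ℝ w (x, y) (0, 1) = 0 := by
      intro y
      have h1 := dy D x y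
      have h2 : (fun y => w (x, y)) = fun _ => (0 : ℝ) := funext hz
      rw [h2] at h1
      exact h1.unique (hasDerivAt_const y 0)
    simp only [hz, hzy, zero_mul, integral_zero, ← h0, mul_zero, sub_zero, le_refl]
  · obtain ⟨hT1, hT2⟩ := hP x hJ
    have hl : 0 < Real.sqrt (1 - T x ^ 2) := by
      apply Real.sqrt_pos.2
      have : T x ^ 2 < 1 := by
        rw [← sq_abs]
        exact pow_lt_one₀ (abs_nonneg _) hT1 (by norm_num)
      linarith
    set l := Real.sqrt (1 - T x ^ 2) with hl_def
    set Dx : ℝ := 2 * l / Jf w R x with hDx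
    have hD : 0 < Dx := by positivity
    have hTD : T' x * Dx = K := by
      rw [hDx, ← mul_div_assoc, hT2]
      field_simp
    -- integration by parts
    have hv : ∀ y, HasDerivAt (fun y => T2 w R T (x, y)) (Dx * w (x, y) ^ 2) y := by
      intro y
      have h1 := ((((hasDerivAt_gI D x y).div_const (Jf w R x)).const_mul 2).sub_const 1).const_mul l
      refine h1.congr_deriv ?_
      rw [hDx]
      ring
    have hcw : Continuous (fun y => w (x, y)) := cont_line D x
    have hcs := cs_line D x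
    have hcT : Continuous (fun y => T2 w R T (x, y)) :=
      continuous_iff_continuousAt.2 fun y => (hv y).continuousAt
    have hcy : Continuous (fun y : ℝ => fderiv ℝ w (x, y) (0, 1)) :=
      (cont_fd D (0, 1)).comp (continuous_const.prodMk continuous_id)
    have hparts : (∫ y, w (x, y) * (Dx * w (x, y) ^ 2)) =
        -∫ y, fderiv ℝ w (x, y) (0, 1) * T2 w R T (x, y) := by
      refine integral_mul_deriv_eq_deriv_mul_of_integrable (fun y _ => dy D x y)
        (fun y _ => hv y) ?_ ?_ ?_
      · have : Continuous (fun y => w (x, y) * (Dx * w (x, y) ^ 2)) :=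
          hcw.mul (continuous_const.mul (hcw.pow 2))
        exact this.integrable_of_hasCompactSupport hcs.mul_right
      · exact (hcy.mul hcT).integrable_of_hasCompactSupport (cs_wy D x).mul_right
      · exact (hcw.mul hcT).integrable_of_hasCompactSupport hcs.mul_right
    rw [sub_eq_add_neg, ← hparts, J_eq D, ← integral_const_mul, ← integral_const_mul]
    have hi1 : Integrable (fun y => T' x * w (x, y)) :=
      (hcw.integrable_of_hasCompactSupport hcs).const_mul _
    have hi2 : Integrable (fun y => w (x, y) * (Dx * w (x, y) ^ 2)) := by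
      have : Continuous (fun y => w (x, y) * (Dx * w (x, y) ^ 2)) :=
        hcw.mul (continuous_const.mul (hcw.pow 2))
      exact this.integrable_of_hasCompactSupport hcs.mul_right
    have hi3 : Integrable (fun y => 2 * Real.sqrt K * w (x, y) ^ 2) := by
      have h1 : Continuous (fun y => 2 * Real.sqrt K * w (x, y) ^ 2) :=
        continuous_const.mul (hcw.pow 2)
      have h2 : HasCompactSupport (fun y => 2 * Real.sqrt K * w (x, y) ^ 2) := by
        have : (fun y => 2 * Real.sqrt K * w (x, y) ^ 2) =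
            (fun y => (2 * Real.sqrt K * w (x, y)) * w (x, y)) := by
          funext y
          ring
        rw [this]
        exact hcs.mul_left
      exact h1.integrable_of_hasCompactSupport h2
    rw [← integral_add hi1 hi2]
    refine integral_mono hi3 (hi1.add hi2) fun y => ?_
    show 2 * Real.sqrt K * w (x, y) ^ 2 ≤ T' x * w (x, y) + w (x, y) * (Dx * w (x, y) ^ 2)
    have hw := D.nn (x, y)
    have hsK : Real.sqrt K ^ 2 = K := Real.sq_sqrt hK.le
    have h5 : 0 ≤ T' x + Dx * w (x, y) ^ 2 - 2 * Real.sqrt K * w (x, y) := by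
      have h6 : Dx * (T' x + Dx * w (x, y) ^ 2 - 2 * Real.sqrt K * w (x, y)) =
          (Dx * w (x, y) - Real.sqrt K) ^ 2 := by
        have : Dx * T' x = Real.sqrt K ^ 2 := by rw [hsK, ← hTD, mul_comm]
        linear_combination this
      have h7 : 0 ≤ Dx * (T' x + Dx * w (x, y) ^ 2 - 2 * Real.sqrt K * w (x, y)) := by
        rw [h6]
        exact sq_nonneg _
      exact nonneg_of_mul_nonneg_right h7 hD
    have h8 := mul_nonneg hw h5
    nlinarith [h8]

theorem int_slice {T T' : ℝ → ℝ} (hT : Continuous T) (hT' : Integrable T')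
    (hFT : ∀ a b : ℝ, a ≤ b → (∫ x in a..b, T' x) = T b - T a) :
    Integrable (fun x => T' x * ∫ y, w (x, y)) ∧
    (∫ x, T' x * ∫ y, w (x, y)) = -∫ p : ℝ × ℝ, fderiv ℝ w p (1, 0) * T p.1 := by
  have hcw := D.sm.continuous
  obtain ⟨C, hC⟩ := hcw.bounded_above_of_compact_support D.cs
  have hprod : Integrable (fun p : ℝ × ℝ => T' p.1 * w p) (volume.prod volume) := by
    have h1 : Integrable ((Icc (-R) R).indicator (fun _ : ℝ => (1 : ℝ))) :=
      (integrable_indicator_iff measurableSet_Icc).2 (by simp)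
    have h2 := (hT'.mul_prod h1).mul_bdd (c := C)
      (hcw.aestronglyMeasurable (μ := (volume : Measure ℝ).prod volume))
      (Eventually.of_forall hC)
    refine h2.congr (Eventually.of_forall fun p => ?_)
    rcases p with ⟨x, y⟩
    show T' x * (Icc (-R) R).indicator (fun _ => (1 : ℝ)) y * w (x, y) = T' x * w (x, y)
    by_cases hy : y ∈ Icc (-R) R
    · rw [indicator_of_mem hy, mul_one]
    · have : w (x, y) = 0 := by
        refine D.zy x y ?_
        by_contra h
        rw [not_le, abs_lt] at h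
        exact hy ⟨h.1.le, h.2.le⟩
      rw [this, mul_zero, mul_zero]
  have hxi : Integrable (fun p : ℝ × ℝ => fderiv ℝ w p (1, 0) * T p.1) (volume.prod volume) :=
    ((cont_fd D (1, 0)).mul (hT.comp continuous_fst)).integrable_of_hasCompactSupport
      (cs_fd D (1, 0)).mul_right
  constructor
  · have h1 := hprod.integral_prod_left
    refine h1.congr (Eventually.of_forall fun x => ?_)
    show (∫ y, T' x * w (x, y)) = T' x * ∫ y, w (x, y)
    rw [integral_const_mul]
  · have h1 : (∫ x, T' x * ∫ y, w (x, y)) = ∫ x, ∫ y, T' x * w (x, y) :=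
      integral_congr_ae (Eventually.of_forall fun x => by
        show T' x * (∫ y, w (x, y)) = ∫ y, T' x * w (x, y)
        rw [integral_const_mul])
    have h2 : (∫ x, ∫ y, T' x * w (x, y)) = ∫ y, ∫ x, T' x * w (x, y) :=
      integral_integral_swap hprod
    have h3 : (∫ y, ∫ x, T' x * w (x, y)) = ∫ y, -∫ x, fderiv ℝ w (x, y) (1, 0) * T x := by
      refine integral_congr_ae (Eventually.of_forall fun y => ?_)
      have hu : ContDiff ℝ 1 (fun x : ℝ => w (x, y)) :=
        D.sm.comp (contDiff_id.prodMk contDiff_const)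
      have h4 := parts1 (fun x => w (x, y)) hu (cs_line' D y) T T' hT hT' hFT
      show (∫ x, T' x * w (x, y)) = -∫ x, fderiv ℝ w (x, y) (1, 0) * T x
      rw [h4]
      congr 1
      refine integral_congr_ae (Eventually.of_forall fun x => ?_)
      show deriv (fun x => w (x, y)) x * T x = _
      rw [(dx D x y).deriv]
    rw [h1, h2, h3, integral_neg]
    congr 1
    exact (integral_prod_symm (fun p : ℝ × ℝ => fderiv ℝ w p (1, 0) * T p.1) hxi).symm

end

end ISob

open ISob in
/-- ITEM Sob -/
theorem pr_Sob (h1 : StKno) : StSob := by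
  intro w sm cs nn
  obtain ⟨R, D⟩ := exists_dat w sm cs nn
  have hcw := sm.continuous
  set N := ∫ x, Real.sqrt (fderiv ℝ w x (1, 0) ^ 2 + fderiv ℝ w x (0, 1) ^ 2) with hN
  have hw2 : Integrable (fun p : ℝ × ℝ => w p ^ 2) (volume.prod volume) := by
    have h2 : HasCompactSupport (fun p => w p ^ 2) := by
      have : (fun p => w p ^ 2) = fun p => w p * w p := by
        funext p
        ring
      rw [this]
      exact cs.mul_left
    exact (hcw.pow 2).integrable_of_hasCompactSupport h2
  have hI : (∫ p, w p ^ 2) = ∫ x, Jf w R x := by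
    rw [Measure.volume_eq_prod, integral_prod _ hw2]
    exact integral_congr_ae (Eventually.of_forall fun x => (J_eq D x).symm)
  have hJi : Integrable (Jf w R) := by
    refine hw2.integral_prod_left.congr (Eventually.of_forall fun x => (J_eq D x).symm)
  set I := ∫ p, w p ^ 2 with hIdef
  have hI0 : 0 ≤ I := integral_nonneg fun p => sq_nonneg _
  rcases hI0.eq_or_lt with h0 | hIpos
  · rw [← h0, mul_zero]
    exact sq_nonneg _
  -- the Knothe map
  set K := Real.pi / I with hK
  have hKpos : 0 < K := by positivity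
  obtain ⟨T, T', hT, hT1, hT0, hTi, hFT, hTP⟩ := h1 (fun x => K * Jf w R x)
    (continuous_const.mul (cont_J D))
    (by
      refine HasCompactSupport.intro (K := Icc (-R) R) isCompact_Icc fun x hx => ?_
      have : Jf w R x = 0 := by
        rw [J_eq D]
        have hz : ∀ y, w (x, y) = 0 := fun y => by
          refine D.zx x y ?_
          by_contra h
          rw [not_le, abs_lt] at h
          exact hx ⟨h.1.le, h.2.le⟩
        simp [hz]
      rw [this, mul_zero])
    (fun x => mul_nonneg hKpos.le (J_nonneg D x))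
    (by
      rw [integral_const_mul, ← hI, hK]
      field_simp)
  have hP : ∀ x, 0 < Jf w R x →
      |T x| < 1 ∧ T' x * (2 * Real.sqrt (1 - T x ^ 2)) = K * Jf w R x :=
    fun x hx => hTP x (mul_pos hKpos hx)
  obtain ⟨hs1, hs2⟩ := int_slice D hT hTi hFT
  -- integrability of the two terms
  have hxi : Integrable (fun p : ℝ × ℝ => fderiv ℝ w p (1, 0) * T p.1) (volume.prod volume) :=
    ((cont_fd D (1, 0)).mul (hT.comp continuous_fst)).integrable_of_hasCompactSupport
      (cs_fd D (1, 0)).mul_right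
  have hyi : Integrable (fun p : ℝ × ℝ => fderiv ℝ w p (0, 1) * T2 w R T p)
      (volume.prod volume) :=
    ((cont_fd D (0, 1)).integrable_of_hasCompactSupport (cs_fd D (0, 1))).mul_bdd (c := 1)
      (T2_meas D hT).aestronglyMeasurable (Eventually.of_forall fun p => by
        rw [Real.norm_eq_abs]
        exact T2_abs D hT1 p)
  have hyx := hyi.integral_prod_left
  have hmono : (∫ x, 2 * Real.sqrt K * Jf w R x) ≤
      ∫ x, (T' x * (∫ y, w (x, y)) - ∫ y, fderiv ℝ w (x, y) (0, 1) * T2 w R T (x, y)) :=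
    integral_mono (hJi.const_mul _) (hs1.sub hyx) fun x => line_le D hKpos hP x
  rw [integral_const_mul, ← hI, integral_sub hs1 hyx, hs2] at hmono
  have hyf : (∫ x, ∫ y, fderiv ℝ w (x, y) (0, 1) * T2 w R T (x, y)) =
      ∫ p : ℝ × ℝ, fderiv ℝ w p (0, 1) * T2 w R T p := by
    rw [Measure.volume_eq_prod, integral_prod _ hyi]
  rw [hyf] at hmono
  -- the pointwise Cauchy inequality
  have hNi : Integrable (fun p : ℝ × ℝ =>
      Real.sqrt (fderiv ℝ w p (1, 0) ^ 2 + fderiv ℝ w p (0, 1) ^ 2)) := by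
    have hc : Continuous (fun p : ℝ × ℝ =>
        Real.sqrt (fderiv ℝ w p (1, 0) ^ 2 + fderiv ℝ w p (0, 1) ^ 2)) :=
      (((cont_fd D (1, 0)).pow 2).add ((cont_fd D (0, 1)).pow 2)).sqrt
    refine hc.integrable_of_hasCompactSupport ?_
    refine HasCompactSupport.intro (K := tsupport w) cs.isCompact fun p hp => ?_
    rw [fderiv_of_notMem_tsupport (𝕜 := ℝ) hp]
    simp
  have hle : -((∫ p : ℝ × ℝ, fderiv ℝ w p (1, 0) * T p.1) +
      ∫ p : ℝ × ℝ, fderiv ℝ w p (0, 1) * T2 w R T p) ≤ N := by
    rw [← integral_add (by exact hxi) (by exact hyi), ← integral_neg]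
    refine integral_mono ((by exact hxi.add hyi : Integrable (fun p : ℝ × ℝ =>
      fderiv ℝ w p (1, 0) * T p.1 + fderiv ℝ w p (0, 1) * T2 w R T p)).neg) hNi fun p => ?_
    show -(fderiv ℝ w p (1, 0) * T p.1 + fderiv ℝ w p (0, 1) * T2 w R T p) ≤
      Real.sqrt (fderiv ℝ w p (1, 0) ^ 2 + fderiv ℝ w p (0, 1) ^ 2)
    have hsq := T2_sq D hT1 p
    refine Real.le_sqrt_of_sq_le ?_
    set a := fderiv ℝ w p (1, 0)
    set b := fderiv ℝ w p (0, 1)
    set s := T p.1
    set t := T2 w R T p
    have h3 : (-(a * s + b * t)) ^ 2 ≤ (a ^ 2 + b ^ 2) * (s ^ 2 + t ^ 2) := by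
      nlinarith [sq_nonneg (a * t - b * s)]
    have h4 : (a ^ 2 + b ^ 2) * (s ^ 2 + t ^ 2) ≤ (a ^ 2 + b ^ 2) * 1 :=
      mul_le_mul_of_nonneg_left hsq (by positivity)
    linarith
  have hfin : 2 * Real.sqrt K * I ≤ N := by linarith
  have h0' : 0 ≤ 2 * Real.sqrt K * I := by positivity
  calc 4 * Real.pi * I = (2 * Real.sqrt K * I) ^ 2 := by
        rw [mul_pow, mul_pow, Real.sq_sqrt hKpos.le, hK]
        field_simp
        ring
    _ ≤ N ^ 2 := pow_le_pow_left₀ h0' hfin 2

end Pool.Agent.MFK.RT
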