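import Pool.Agent.Work.MP_8826fd_mp.RT.Stmts

/-!
# MP_8826fd_mp, block RT, item Tal: the inequality of Talenti for the level sets of the torsion function
-/

set_option autoImplicit false

namespace Pool.Agent.MFK.RT

open MeasureTheory Set Filter Topology Pool.Agent.MFK.NF
open scoped ComplexConjugate

namespace ITal

/-- trapezoid -/
noncomputable def eta (t h s x : ℝ) : ℝ := max 0 (min 1 (min ((x - t) / s) ((t + h - x) / s)))

theorem eta_cont (t h s : ℝ) : Continuous (eta t h s) := by
  unfold eta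
  exact continuous_const.max (continuous_const.min
    (((continuous_id.sub continuous_const).div_const s).min
      ((continuous_const.sub continuous_id).div_const s)))

theorem eta_nonneg (t h s x : ℝ) : 0 ≤ eta t h s x := le_max_left _ _

theorem eta_le_one (t h s x : ℝ) : eta t h s x ≤ 1 := max_le (by norm_num) (min_le_left _ _)

theorem eta_left {t h s x : ℝ} (hs : 0 < s) (hx : x ≤ t) : eta t h s x = 0 := by
  unfold eta
  apply max_eq_left
  refine le_trans (min_le_right _ _) (le_trans (min_le_left _ _) ?_)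
  exact div_nonpos_of_nonpos_of_nonneg (by linarith) hs.le

theorem eta_right {t h s x : ℝ} (hs : 0 < s) (hx : t + h ≤ x) : eta t h s x = 0 := by
  unfold eta
  apply max_eq_left
  refine le_trans (min_le_right _ _) (le_trans (min_le_right _ _) ?_)
  exact div_nonpos_of_nonpos_of_nonneg (by linarith) hs.le

theorem eta_mid {t h s x : ℝ} (hs : 0 < s) (h1 : t + s ≤ x) (h2 : x ≤ t + h - s) : eta t h s x = 1 := by
  unfold eta
  have e1 : 1 ≤ (x - t) / s := by rw [le_div_iff₀ hs]; linarith
  have e2 : 1 ≤ (t + h - x) / s := by rw [le_div_iff₀ hs]; linarith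
  rw [min_eq_left (le_min e1 e2)]
  norm_num

/-- primitive of the trapezoid -/
noncomputable def th (t h s x : ℝ) : ℝ := ∫ u in t..x, eta t h s u

theorem th_deriv (t h s x : ℝ) : HasDerivAt (th t h s) (eta t h s x) x :=
  ((eta_cont t h s).integral_hasStrictDerivAt t x).hasDerivAt

theorem th_left {t h s x : ℝ} (hs : 0 < s) (hx : x ≤ t) : th t h s x = 0 := by
  unfold th
  rw [intervalIntegral.integral_symm]
  have : (∫ u in x..t, eta t h s u) = ∫ _u in x..t, (0 : ℝ) := by
    apply intervalIntegral.integral_congr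
    intro u hu
    rw [uIcc_of_le hx] at hu
    exact eta_left hs hu.2
  rw [this]
  simp

theorem th_mono (t h s : ℝ) : Monotone (th t h s) := by
  apply monotone_of_deriv_nonneg
  · intro x
    exact (th_deriv t h s x).differentiableAt
  · intro x
    rw [(th_deriv t h s x).deriv]
    exact eta_nonneg _ _ _ _

theorem th_cont (t h s : ℝ) : Continuous (th t h s) :=
  continuous_iff_continuousAt.2 fun x => (th_deriv t h s x).continuousAt

theorem th_right {t h s x : ℝ} (hs : 0 < s) (hx : t + h ≤ x) : th t h s x = th t h s (t + h) := by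
  unfold th
  have e := intervalIntegral.integral_add_adjacent_intervals (μ := volume)
    ((eta_cont t h s).intervalIntegrable t (t + h)) ((eta_cont t h s).intervalIntegrable (t + h) x)
  have : (∫ u in (t + h)..x, eta t h s u) = ∫ _u in (t + h)..x, (0 : ℝ) := by
    apply intervalIntegral.integral_congr
    intro u hu
    rw [uIcc_of_le hx] at hu
    exact eta_right hs hu.1
  rw [this] at e
  simp only [intervalIntegral.integral_zero, add_zero] at e
  exact e.symm

theorem th_nonneg {t h s : ℝ} (hs : 0 < s) (x : ℝ) : 0 ≤ th t h s x := by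
  rcases le_total x t with hx | hx
  · rw [th_left hs hx]
  · rw [← th_left (h := h) hs (le_refl t)]
    exact th_mono t h s hx

theorem th_le {t h s : ℝ} (hs : 0 < s) (x : ℝ) : th t h s x ≤ th t h s (t + h) := by
  rcases le_total x (t + h) with hx | hx
  · exact th_mono t h s hx
  · rw [th_right hs hx]

theorem th_big {t h s : ℝ} (hs : 0 < s) (h2 : 2 * s ≤ h) : h - 2 * s ≤ th t h s (t + h) := by
  have e0 : (0 : ℝ) ≤ th t h s (t + s) := th_nonneg hs _
  have e1 : th t h s (t + h - s) ≤ th t h s (t + h) := th_mono t h s (by linarith)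
  have e := intervalIntegral.integral_add_adjacent_intervals (μ := volume)
    ((eta_cont t h s).intervalIntegrable t (t + s))
    ((eta_cont t h s).intervalIntegrable (t + s) (t + h - s))
  have hle : t + s ≤ t + h - s := by linarith
  have : (∫ u in (t + s)..(t + h - s), eta t h s u) = ∫ _u in (t + s)..(t + h - s), (1 : ℝ) := by
    apply intervalIntegral.integral_congr
    intro u hu
    rw [uIcc_of_le hle] at hu
    exact eta_mid hs hu.1 hu.2
  rw [this, intervalIntegral.integral_const, smul_eq_mul, mul_one] at e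
  unfold th at e0 e1 ⊢
  linarith

/-- the open disc -/
abbrev Di : Set ℂ := Metric.ball (0 : ℂ) 1

theorem intg {a : ℕ → ℂ} (hτ : ContinuousOn (tau a) Di)
    (hi : IntegrableOn (fun w => ‖psd a w‖ ^ 2) Di) {g : ℝ → ℝ} (hg : Continuous g) {M : ℝ}
    (hM : ∀ x, |g x| ≤ M) : IntegrableOn (fun w => g (tau a w) * ‖psd a w‖ ^ 2) Di := by
  refine Integrable.mono' (Integrable.const_mul hi M) ?_ ?_
  · exact ((hg.comp_continuousOn hτ).aestronglyMeasurable measurableSet_ball).mul
      hi.aestronglyMeasurable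
  · refine ae_of_all _ fun w => ?_
    rw [norm_mul, Real.norm_eq_abs, Real.norm_of_nonneg (sq_nonneg _)]
    exact mul_le_mul_of_nonneg_right (hM _) (sq_nonneg _)

/-- superlevel set -/
def Su (a : ℕ → ℂ) (t : ℝ) : Set ℂ := {w : ℂ | ‖w‖ < 1 ∧ t < tau a w}

theorem Su_meas {a : ℕ → ℂ} (hτ : ContinuousOn (tau a) Di) (t : ℝ) : MeasurableSet (Su a t) := by
  have h := hτ.isOpen_inter_preimage Metric.isOpen_ball (isOpen_Ioi (a := t))
  have e : Su a t = Di ∩ tau a ⁻¹' Ioi t := by
    ext w
    simp [Su]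
  rw [e]
  exact h.measurableSet

theorem av_eq {a : ℕ → ℂ} (hτ : ContinuousOn (tau a) Di) (t : ℝ) :
    av a t = ∫ w in Di, (Su a t).indicator (fun w => ‖psd a w‖ ^ 2) w := by
  rw [setIntegral_indicator (Su_meas hτ t)]
  have e : Di ∩ Su a t = Su a t := by
    ext w
    simp [Su]
  rw [e]
  rfl

theorem ind_int {a : ℕ → ℂ} (hτ : ContinuousOn (tau a) Di)
    (hi : IntegrableOn (fun w => ‖psd a w‖ ^ 2) Di) (t : ℝ) :
    IntegrableOn ((Su a t).indicator (fun w => ‖psd a w‖ ^ 2)) Di :=
  Integrable.indicator hi (Su_meas hτ t)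

theorem av_nonneg (a : ℕ → ℂ) (t : ℝ) : 0 ≤ av a t :=
  integral_nonneg fun _ => sq_nonneg _

theorem av_anti {a : ℕ → ℂ} (hτ : ContinuousOn (tau a) Di)
    (hi : IntegrableOn (fun w => ‖psd a w‖ ^ 2) Di) {t u : ℝ} (htu : t ≤ u) : av a u ≤ av a t := by
  rw [av_eq hτ, av_eq hτ]
  refine integral_mono (ind_int hτ hi u) (ind_int hτ hi t) fun w => ?_
  refine indicator_le_indicator_of_subset ?_ (fun _ => sq_nonneg _) w
  intro z hz
  exact ⟨hz.1, lt_of_le_of_lt htu hz.2⟩

theorem av_le {a : ℕ → ℂ} (hτ : ContinuousOn (tau a) Di)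
    (hi : IntegrableOn (fun w => ‖psd a w‖ ^ 2) Di) (t : ℝ) :
    av a t ≤ ∫ w in Di, ‖psd a w‖ ^ 2 := by
  rw [av_eq hτ]
  refine integral_mono (ind_int hτ hi t) hi fun w => ?_
  exact indicator_le_self' (fun _ _ => sq_nonneg _) w

theorem th_abs {t h s : ℝ} (hs : 0 < s) (x : ℝ) : |th t h s x| ≤ th t h s (t + h) := by
  rw [abs_of_nonneg (th_nonneg hs x)]
  exact th_le hs x

theorem qint {a : ℕ → ℂ} {R : ℝ} (hR : 1 < R) (hq : ContinuousOn (qq a) (Metric.ball 0 R)) :
    IntegrableOn (fun w => ‖qq a w‖ ^ 2 / 4) Di := by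
  have hsub : Metric.closedBall (0 : ℂ) 1 ⊆ Metric.ball 0 R := Metric.closedBall_subset_ball hR
  have hc : ContinuousOn (fun w => ‖qq a w‖ ^ 2 / 4) (Metric.closedBall (0 : ℂ) 1) :=
    (((hq.mono hsub).norm).pow 2).div_const 4
  exact (hc.integrableOn_compact (isCompact_closedBall 0 1)).mono_set Metric.ball_subset_closedBall

theorem psd_meas {a : ℕ → ℂ} (hi : IntegrableOn (fun w => ‖psd a w‖ ^ 2) Di) :
    AEStronglyMeasurable (fun w => ‖psd a w‖) (volume.restrict Di) := by
  have h := hi.aestronglyMeasurable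
  have h2 : AEStronglyMeasurable (fun w => Real.sqrt (‖psd a w‖ ^ 2)) (volume.restrict Di) :=
    Real.continuous_sqrt.comp_aestronglyMeasurable h
  refine h2.congr (ae_of_all _ fun w => ?_)
  exact Real.sqrt_sq (norm_nonneg _)

/-- Cauchy-Schwarz -/
theorem cs {a : ℕ → ℂ} {R : ℝ} (hR : 1 < R) (hq : ContinuousOn (qq a) (Metric.ball 0 R))
    (hτ : ContinuousOn (tau a) Di) (hi : IntegrableOn (fun w => ‖psd a w‖ ^ 2) Di) (t h s : ℝ) :
    (∫ w in Di, eta t h s (tau a w) * (‖qq a w‖ / 2) * ‖psd a w‖) ^ 2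
      ≤ (∫ w in Di, eta t h s (tau a w) * ‖psd a w‖ ^ 2)
        * ∫ w in Di, eta t h s (tau a w) * (‖qq a w‖ ^ 2 / 4) := by
  have hqD : ContinuousOn (qq a) Di := hq.mono (Metric.ball_subset_ball hR.le)
  have hηm : AEStronglyMeasurable (fun w => eta t h s (tau a w)) (volume.restrict Di) :=
    ((eta_cont t h s).comp_continuousOn hτ).aestronglyMeasurable measurableSet_ball
  have hA : IntegrableOn (fun w => eta t h s (tau a w) * ‖psd a w‖ ^ 2) Di :=
    intg hτ hi (eta_cont t h s) (M := 1) fun x => by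
      rw [abs_of_nonneg (eta_nonneg _ _ _ _)]
      exact eta_le_one _ _ _ _
  have hqi := qint hR hq
  have hB : IntegrableOn (fun w => eta t h s (tau a w) * (‖qq a w‖ ^ 2 / 4)) Di := by
    refine Integrable.mono' hqi (hηm.mul hqi.aestronglyMeasurable) (ae_of_all _ fun w => ?_)
    rw [norm_mul, Real.norm_of_nonneg (eta_nonneg _ _ _ _), Real.norm_of_nonneg (by positivity)]
    exact mul_le_of_le_one_left (by positivity) (eta_le_one _ _ _ _)
  have hqm : AEStronglyMeasurable (fun w => ‖qq a w‖ / 2) (volume.restrict Di) :=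
    (hqD.norm.div_const 2).aestronglyMeasurable measurableSet_ball
  have hC : IntegrableOn (fun w => eta t h s (tau a w) * (‖qq a w‖ / 2) * ‖psd a w‖) Di := by
    refine Integrable.mono' (hqi.add hi) ((hηm.mul hqm).mul (psd_meas hi)) (ae_of_all _ fun w => ?_)
    rw [norm_mul, norm_mul, Real.norm_of_nonneg (eta_nonneg _ _ _ _),
      Real.norm_of_nonneg (by positivity : (0 : ℝ) ≤ ‖qq a w‖ / 2), norm_norm]
    have h1 : eta t h s (tau a w) * (‖qq a w‖ / 2) * ‖psd a w‖ ≤ (‖qq a w‖ / 2) * ‖psd a w‖ := by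
      rw [mul_assoc]
      exact mul_le_of_le_one_left (by positivity) (eta_le_one _ _ _ _)
    show _ ≤ ‖qq a w‖ ^ 2 / 4 + ‖psd a w‖ ^ 2
    nlinarith [sq_nonneg (‖qq a w‖ / 2 - ‖psd a w‖), sq_nonneg (‖qq a w‖ / 2),
      sq_nonneg (‖psd a w‖)]
  set A := ∫ w in Di, eta t h s (tau a w) * ‖psd a w‖ ^ 2 with hAd
  set Bq := ∫ w in Di, eta t h s (tau a w) * (‖qq a w‖ ^ 2 / 4) with hBd
  set C := ∫ w in Di, eta t h s (tau a w) * (‖qq a w‖ / 2) * ‖psd a w‖ with hCd
  have key : ∀ x : ℝ, 0 ≤ A * (x * x) + (-2 * C) * x + Bq := by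
    intro x
    have e : A * (x * x) + (-2 * C) * x + Bq
        = ∫ w in Di, ((x * x) * (eta t h s (tau a w) * ‖psd a w‖ ^ 2)
          + (-2 * x) * (eta t h s (tau a w) * (‖qq a w‖ / 2) * ‖psd a w‖))
          + eta t h s (tau a w) * (‖qq a w‖ ^ 2 / 4) := by
      have i1 : IntegrableOn (fun w => (x * x) * (eta t h s (tau a w) * ‖psd a w‖ ^ 2)) Di :=
        Integrable.const_mul hA (x * x)
      have i2 : IntegrableOn (fun w => (-2 * x)
          * (eta t h s (tau a w) * (‖qq a w‖ / 2) * ‖psd a w‖)) Di :=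
        Integrable.const_mul hC (-2 * x)
      have i3 : IntegrableOn (fun w => (x * x) * (eta t h s (tau a w) * ‖psd a w‖ ^ 2)
          + (-2 * x) * (eta t h s (tau a w) * (‖qq a w‖ / 2) * ‖psd a w‖)) Di := i1.add i2
      rw [integral_add i3 hB, integral_add i1 i2, integral_const_mul, integral_const_mul,
        ← hAd, ← hBd, ← hCd]
      ring
    rw [e]
    refine integral_nonneg fun w => ?_
    have e2 : ((x * x) * (eta t h s (tau a w) * ‖psd a w‖ ^ 2)
          + (-2 * x) * (eta t h s (tau a w) * (‖qq a w‖ / 2) * ‖psd a w‖))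
          + eta t h s (tau a w) * (‖qq a w‖ ^ 2 / 4)
        = eta t h s (tau a w) * (x * ‖psd a w‖ - ‖qq a w‖ / 2) ^ 2 := by ring
    show 0 ≤ ((x * x) * (eta t h s (tau a w) * ‖psd a w‖ ^ 2)
          + (-2 * x) * (eta t h s (tau a w) * (‖qq a w‖ / 2) * ‖psd a w‖))
          + eta t h s (tau a w) * (‖qq a w‖ ^ 2 / 4)
    rw [e2]
    exact mul_nonneg (eta_nonneg _ _ _ _) (sq_nonneg _)
  have hd := discrim_le_zero key
  unfold discrim at hd
  nlinarith [hd]

/-- one step -/
theorem step (hG : StGrn) (hI : StIso) {a : ℕ → ℂ} (ha : Nice a)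
    (hinj : InjOn (ps a) (Metric.ball 0 1)) {R : ℝ} (hR : 1 < R)
    (hq : ContinuousOn (qq a) (Metric.ball 0 R)) (hτ : ContinuousOn (tau a) Di)
    (hi : IntegrableOn (fun w => ‖psd a w‖ ^ 2) Di) {t h : ℝ} (ht : 0 < t) (hh : 0 < h) :
    4 * Real.pi * h * av a (t + h) ≤ (av a t - av a (t + h)) * av a t := by
  have key : ∀ s : ℝ, 0 < s → 2 * s < h →
      4 * Real.pi * (h - 2 * s) * av a (t + h) ≤ (av a t - av a (t + h)) * av a t := by
    intro s hs hs2
    set I := th t h s (t + h) with hId
    have hIb : h - 2 * s ≤ I := th_big hs hs2.le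
    have hIp : 0 < I := by linarith
    have g1 := hG a ha (th t h s) (eta t h s) t ht (th_deriv t h s) (eta_cont t h s)
      (fun x hx => th_left hs hx)
    have g2 := hI a ha hinj (th t h s) (eta t h s) t ht (th_deriv t h s) (eta_cont t h s)
      (fun x hx => th_left hs hx) (fun x => eta_nonneg _ _ _ _)
    have g3 := cs hR hq hτ hi t h s
    have hthi : IntegrableOn (fun w => th t h s (tau a w) * ‖psd a w‖ ^ 2) Di :=
      intg hτ hi (th_cont t h s) (M := I) fun x => th_abs hs x
    have hth2 : IntegrableOn (fun w => th t h s (tau a w) ^ 2 * ‖psd a w‖ ^ 2) Di :=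
      intg hτ hi (g := fun x => th t h s x ^ 2) ((th_cont t h s).pow 2) (M := I ^ 2) fun x => by
        rw [abs_of_nonneg (sq_nonneg _)]
        exact pow_le_pow_left₀ (th_nonneg hs x) (th_le hs x) 2
    have hA : IntegrableOn (fun w => eta t h s (tau a w) * ‖psd a w‖ ^ 2) Di :=
      intg hτ hi (eta_cont t h s) (M := 1) fun x => by
        rw [abs_of_nonneg (eta_nonneg _ _ _ _)]
        exact eta_le_one _ _ _ _
    -- lower bound of the square
    have l1 : I ^ 2 * av a (t + h) ≤ ∫ w in Di, th t h s (tau a w) ^ 2 * ‖psd a w‖ ^ 2 := by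
      rw [av_eq hτ, ← integral_const_mul]
      refine setIntegral_mono_on (Integrable.const_mul (ind_int hτ hi _) _) hth2 measurableSet_ball
        fun w _ => ?_
      by_cases hw : w ∈ Su a (t + h)
      · rw [indicator_of_mem hw, th_right hs hw.2.le]
      · rw [indicator_of_notMem hw, mul_zero]
        positivity
    have l2 : (∫ w in Di, th t h s (tau a w) * ‖psd a w‖ ^ 2) ≤ I * av a t := by
      rw [av_eq hτ, ← integral_const_mul]
      refine setIntegral_mono_on hthi (Integrable.const_mul (ind_int hτ hi _) _) measurableSet_ball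
        fun w hw1 => ?_
      by_cases hw : w ∈ Su a t
      · rw [indicator_of_mem hw]
        exact mul_le_mul_of_nonneg_right (th_le hs _) (sq_nonneg _)
      · rw [indicator_of_notMem hw, mul_zero]
        have : tau a w ≤ t := by
          by_contra hc
          exact hw ⟨by simpa using hw1, not_le.1 hc⟩
        rw [th_left hs this, zero_mul]
    have l3 : (∫ w in Di, eta t h s (tau a w) * ‖psd a w‖ ^ 2) ≤ av a t - av a (t + h) := by
      rw [av_eq hτ, av_eq hτ, ← integral_sub (ind_int hτ hi _) (ind_int hτ hi _)]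
      refine setIntegral_mono_on hA ((ind_int hτ hi _).sub (ind_int hτ hi _)) measurableSet_ball
        fun w hw1 => ?_
      by_cases hw : w ∈ Su a (t + h)
      · have hw' : w ∈ Su a t := ⟨hw.1, lt_trans (by linarith) hw.2⟩
        rw [indicator_of_mem hw, indicator_of_mem hw', eta_right hs hw.2.le]
        simp
      · rw [indicator_of_notMem hw]
        by_cases hw' : w ∈ Su a t
        · rw [indicator_of_mem hw', sub_zero]
          exact mul_le_of_le_one_left (sq_nonneg _) (eta_le_one _ _ _ _)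
        · rw [indicator_of_notMem hw']
          have : tau a w ≤ t := by
            by_contra hc
            exact hw' ⟨by simpa using hw1, not_le.1 hc⟩
          rw [eta_left hs this]
          simp
    have hEn : 0 ≤ ∫ w in Di, eta t h s (tau a w) * ‖psd a w‖ ^ 2 :=
      integral_nonneg fun w => mul_nonneg (eta_nonneg _ _ _ _) (sq_nonneg _)
    have hTn : 0 ≤ ∫ w in Di, th t h s (tau a w) * ‖psd a w‖ ^ 2 :=
      integral_nonneg fun w => mul_nonneg (th_nonneg hs _) (sq_nonneg _)
    rw [← g1] at g3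
    have c1 : 4 * Real.pi * (I ^ 2 * av a (t + h))
        ≤ (av a t - av a (t + h)) * (I * av a t) := by
      calc 4 * Real.pi * (I ^ 2 * av a (t + h))
          ≤ 4 * Real.pi * ∫ w in Di, th t h s (tau a w) ^ 2 * ‖psd a w‖ ^ 2 :=
            mul_le_mul_of_nonneg_left l1 (by positivity)
        _ ≤ _ := g2
        _ ≤ _ := g3
        _ ≤ _ := mul_le_mul l3 l2 hTn (le_trans hEn l3)
    have c2 : 4 * Real.pi * I * av a (t + h) ≤ (av a t - av a (t + h)) * av a t := by
      have : I * (4 * Real.pi * I * av a (t + h)) ≤ I * ((av a t - av a (t + h)) * av a t) := by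
        nlinarith [c1]
      exact le_of_mul_le_mul_left this hIp
    have c3 : 4 * Real.pi * (h - 2 * s) * av a (t + h) ≤ 4 * Real.pi * I * av a (t + h) := by
      apply mul_le_mul_of_nonneg_right _ (av_nonneg a _)
      exact mul_le_mul_of_nonneg_left hIb (by positivity)
    exact le_trans c3 c2
  -- let s tend to 0
  have hlim : Tendsto (fun s : ℝ => 4 * Real.pi * (h - 2 * s) * av a (t + h)) (𝓝[>] 0)
      (𝓝 (4 * Real.pi * (h - 2 * 0) * av a (t + h))) := by
    apply Tendsto.mono_left _ nhdsWithin_le_nhds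
    apply Continuous.tendsto
    fun_prop
  rw [mul_zero, sub_zero] at hlim
  refine le_of_tendsto hlim ?_
  have : Ioo (0 : ℝ) (h / 2) ∈ 𝓝[>] (0 : ℝ) := Ioo_mem_nhdsGT (by linarith)
  filter_upwards [this] with s hs
  exact key s hs.1 (by linarith [hs.2])

/-- the summation -/
theorem summ {α : ℝ → ℝ} (hanti : ∀ {t u : ℝ}, t ≤ u → α u ≤ α t)
    (hstep : ∀ {t h : ℝ}, 0 < t → 0 < h → 4 * Real.pi * h * α (t + h) ≤ (α t - α (t + h)) * α t)
    {t₀ t : ℝ} (h0 : 0 < t₀) (ht : t₀ < t) (hp : 0 < α t) : 4 * Real.pi * (t - t₀) ≤ α t₀ - α t := by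
  have key : ∀ n : ℕ, 0 < n → 4 * Real.pi * (t - t₀)
      ≤ (α t₀ - α t) * (1 + 4 * Real.pi * ((t - t₀) / n) / α t) := by
    intro n hn
    have hn' : (0 : ℝ) < n := by exact_mod_cast hn
    set h := (t - t₀) / n with hh
    have hhp : 0 < h := div_pos (by linarith) hn'
    have hnh : (n : ℝ) * h = t - t₀ := by rw [hh]; field_simp
    set K := 1 + 4 * Real.pi * h / α t with hK
    have hKp : 0 < K := by positivity
    have ind : ∀ i : ℕ, i ≤ n → 4 * Real.pi * h * i ≤ (α t₀ - α (t₀ + i * h)) * K := by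
      intro i
      induction i with
      | zero => intro _; simp
      | succ i ih =>
        intro hin
        have hi := ih (by omega)
        have hti : 0 < t₀ + i * h := by positivity
        have hst := hstep hti hhp
        have e1 : t₀ + ((i + 1 : ℕ) : ℝ) * h = t₀ + i * h + h := by push_cast; ring
        rw [e1]
        have hle : t₀ + i * h + h ≤ t := by
          have : ((i + 1 : ℕ) : ℝ) ≤ n := by exact_mod_cast hin
          have := mul_le_mul_of_nonneg_right this hhp.le
          rw [hnh] at this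
          push_cast at this
          linarith
        have hm1 : α t ≤ α (t₀ + i * h + h) := hanti hle
        have hm2 : α (t₀ + i * h + h) ≤ α (t₀ + i * h) := hanti (by linarith)
        set x := α (t₀ + i * h) with hx
        set y := α (t₀ + i * h + h) with hy
        have hxp : 0 < x := lt_of_lt_of_le hp (le_trans hm1 hm2)
        -- (x - y) * K ≥ 4 π h
        have c : 4 * Real.pi * h ≤ (x - y) * K := by
          have d1 : 4 * Real.pi * h * y ≤ (x - y) * x := hst
          have d2 : 4 * Real.pi * h ≤ (x - y) * (1 + 4 * Real.pi * h / x) := by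
            have : (x - y) * (1 + 4 * Real.pi * h / x) = ((x - y) * x + (x - y) * (4 * Real.pi * h)) / x := by
              field_simp
            rw [this, le_div_iff₀ hxp]
            nlinarith [d1]
          have d3 : 4 * Real.pi * h / x ≤ 4 * Real.pi * h / α t :=
            div_le_div_of_nonneg_left (by positivity) hp (le_trans hm1 hm2)
          have d4 : (x - y) * (1 + 4 * Real.pi * h / x) ≤ (x - y) * K :=
            mul_le_mul_of_nonneg_left (by rw [hK]; linarith) (by linarith)
          linarith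
        push_cast
        nlinarith [hi, c]
    have fin := ind n le_rfl
    rw [hnh] at fin
    have e : t₀ + (t - t₀) = t := by ring
    rw [e] at fin
    have e2 : 4 * Real.pi * h * n = 4 * Real.pi * (t - t₀) := by rw [← hnh]; ring
    rw [e2] at fin
    exact fin
  have hlim : Tendsto (fun n : ℕ => (α t₀ - α t) * (1 + 4 * Real.pi * ((t - t₀) / n) / α t)) atTop
      (𝓝 ((α t₀ - α t) * (1 + 4 * Real.pi * 0 / α t))) := by
    have h1 : Tendsto (fun n : ℕ => (t - t₀) / (n : ℝ)) atTop (𝓝 0) :=
      tendsto_const_div_atTop_nhds_zero_nat _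
    exact ((((h1.const_mul (4 * Real.pi)).div_const (α t)).const_add 1).const_mul (α t₀ - α t))
  have e : (α t₀ - α t) * (1 + 4 * Real.pi * 0 / α t) = α t₀ - α t := by simp
  rw [e] at hlim
  refine ge_of_tendsto hlim ?_
  filter_upwards [eventually_gt_atTop 0] with n hn
  exact key n hn

end ITal

open ITal in
theorem pr_Tal (hG : StGrn) (hI : StIso) (hDir : StDir) (hDer : StDer) (hHc : StHc) : StTal := by
  intro a ha hinj t ht hpos
  obtain ⟨R, hR, hτ2, hq, -⟩ := hDer a ha
  obtain ⟨-, hs, -⟩ := hHc.2 a ha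
  obtain ⟨hi, hval⟩ := hDir a hs
  have hτ : ContinuousOn (tau a) Di :=
    hτ2.continuousOn.mono (Metric.ball_subset_ball hR.le)
  have hanti : ∀ {t u : ℝ}, t ≤ u → av a u ≤ av a t := fun h => av_anti hτ hi h
  have hstep : ∀ {t h : ℝ}, 0 < t → 0 < h →
      4 * Real.pi * h * av a (t + h) ≤ (av a t - av a (t + h)) * av a t :=
    fun ht hh => step hG hI ha hinj hR hq hτ hi ht hh
  have key : ∀ t₀ : ℝ, 0 < t₀ → t₀ < t → 4 * Real.pi * (t - t₀) ≤ Real.pi * Ar a - av a t := by
    intro t₀ h0 h1
    have := summ (α := av a) hanti hstep h0 h1 hpos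
    have h2 := av_le hτ hi t₀
    rw [hval] at h2
    linarith
  have hlim : Tendsto (fun t₀ : ℝ => 4 * Real.pi * (t - t₀)) (𝓝[>] 0)
      (𝓝 (4 * Real.pi * (t - 0))) := by
    apply Tendsto.mono_left _ nhdsWithin_le_nhds
    apply Continuous.tendsto
    fun_prop
  rw [sub_zero] at hlim
  have : 4 * Real.pi * t ≤ Real.pi * Ar a - av a t := by
    refine le_of_tendsto hlim ?_
    have : Ioo (0 : ℝ) t ∈ 𝓝[>] (0 : ℝ) := Ioo_mem_nhdsGT ht
    filter_upwards [this] with s hs
    exact key s hs.1 hs.2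
  linarith

end Pool.Agent.MFK.RT
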