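import Pool.Agent.Work.MP_8826fd_mp.RT.Stmts

/-!
# MP_8826fd_mp, block RT, item Tst (helper58)
The torsion test function: the value of the energy quotient bounds the ground state energy.
(The lemmas `summable_sq`, `hasFDerivAt_real` and `hasFDerivAt_tau` are those of `I_Lmp.lean` and `I_Der.lean`.)
-/

set_option autoImplicit false

namespace Pool.Agent.MFK.RT

open MeasureTheory Set Filter Topology Pool.Agent.MFK.NF
open scoped ComplexConjugate

namespace ITst

/-- the weighted sum controls the sum of squares -/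
lemma summable_sq {a : ℕ → ℂ} (h : Summable (fun n : ℕ => (n : ℝ) * ‖a n‖ ^ 2)) :
    Summable (fun n => ‖a n‖ ^ 2) := by
  rw [← summable_nat_add_iff 1]
  have h1 := (summable_nat_add_iff 1).2 h
  refine Summable.of_nonneg_of_le (fun n => by positivity) (fun n => ?_) h1
  have h2 : (1 : ℝ) ≤ ((n + 1 : ℕ) : ℝ) := by
    push_cast
    linarith [Nat.cast_nonneg (α := ℝ) n]
  nlinarith [sq_nonneg ‖a (n + 1)‖]

lemma norm_le {a : ℕ → ℂ} (h : Summable (fun n => ‖a n‖ ^ 2)) (n : ℕ) :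
    ‖a n‖ ≤ Real.sqrt (∑' l, ‖a l‖ ^ 2) := by
  refine Real.le_sqrt_of_sq_le ?_
  exact h.le_tsum n (fun j _ => by positivity)

/-- real derivative of a holomorphic function -/
lemma hasFDerivAt_real {f : ℂ → ℂ} {d w : ℂ} (h : HasDerivAt f d w) :
    HasFDerivAt f ((ContinuousLinearMap.mul ℝ ℂ) d) w := by
  have h1 := h.hasFDerivAt.restrictScalars ℝ
  refine h1.congr_fderiv ?_
  ext z
  all_goals simp [mul_comm]

/-- real derivative of the torsion function -/
lemma hasFDerivAt_tau {a : ℕ → ℂ} {w : ℂ} (h1 : HasDerivAt (ps a) (psd a w) w)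
    (h2 : HasDerivAt (ps (hc a)) (psd (hc a) w) w) :
    ∃ L : ℂ →L[ℝ] ℝ, HasFDerivAt (tau a) L w ∧ ∀ h : ℂ, L h = -(qq a w * h).re / 2 := by
  have e1 := hasFDerivAt_real h1
  have e2 := hasFDerivAt_real h2
  have e3 : HasFDerivAt (fun z => ‖ps a z‖ ^ 2)
      (2 • (innerSL ℝ (ps a w)).comp ((ContinuousLinearMap.mul ℝ ℂ) (psd a w))) w := e1.norm_sq
  have e4 : HasFDerivAt (fun z => (ps (hc a) z).re)
      (Complex.reCLM.comp ((ContinuousLinearMap.mul ℝ ℂ) (psd (hc a) w))) w :=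
    Complex.reCLM.hasFDerivAt.comp w e2
  have e5 := (e4.sub e3).const_mul (4⁻¹ : ℝ)
  refine ⟨_, e5.congr_of_eventuallyEq ?_, ?_⟩
  · refine Filter.Eventually.of_forall fun z => ?_
    simp only [tau, Pi.sub_apply]
    ring
  · intro h
    simp only [smul_apply, sub_apply,
      ContinuousLinearMap.comp_apply, ContinuousLinearMap.mul_apply', Complex.reCLM_apply,
      innerSL_apply_apply, Complex.inner, qq, smul_eq_mul, nsmul_eq_mul]
    simp only [Complex.mul_re, Complex.mul_im, Complex.sub_re, Complex.sub_im, Complex.conj_re,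
      Complex.conj_im]
    have t1 : (psd (hc a) w / 2).re = (psd (hc a) w).re / 2 := by
      rw [show (psd (hc a) w / 2 : ℂ) = psd (hc a) w / ((2 : ℝ) : ℂ) by norm_num,
        Complex.div_ofReal_re]
    have t2 : (psd (hc a) w / 2).im = (psd (hc a) w).im / 2 := by
      rw [show (psd (hc a) w / 2 : ℂ) = psd (hc a) w / ((2 : ℝ) : ℂ) by norm_num,
        Complex.div_ofReal_im]
    rw [t1, t2]
    push_cast
    ring

/-- real derivative of the gauge function `Im H / 4` -/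
lemma fderiv_phi {a : ℕ → ℂ} {w : ℂ} (h2 : HasDerivAt (ps (hc a)) (psd (hc a) w) w) (h : ℂ) :
    fderiv ℝ (fun z => (ps (hc a) z).im / 4) w h = (psd (hc a) w * h).im / 4 := by
  have e4 : HasFDerivAt (fun z => (ps (hc a) z).im)
      (Complex.imCLM.comp ((ContinuousLinearMap.mul ℝ ℂ) (psd (hc a) w))) w :=
    Complex.imCLM.hasFDerivAt.comp w (hasFDerivAt_real h2)
  have e5 := e4.const_mul (4⁻¹ : ℝ)
  have e6 : HasFDerivAt (fun z => (ps (hc a) z).im / 4)
      ((4⁻¹ : ℝ) • (Complex.imCLM.comp ((ContinuousLinearMap.mul ℝ ℂ) (psd (hc a) w)))) w := by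
    refine e5.congr_of_eventuallyEq (Filter.Eventually.of_forall fun z => ?_)
    simp only []
    ring
  rw [e6.fderiv]
  simp only [smul_apply, ContinuousLinearMap.comp_apply,
    ContinuousLinearMap.mul_apply', Complex.imCLM_apply, smul_eq_mul]
  ring

/-- `AA (F w) (F' h) - dφ(h) = Im(q h)/2` -/
lemma gauge {a : ℕ → ℂ} {w : ℂ} (h2 : HasDerivAt (ps (hc a)) (psd (hc a) w) w) (h : ℂ) :
    AA (ps a w) (psd a w * h) - fderiv ℝ (fun z => (ps (hc a) z).im / 4) w h =
      (qq a w * h).im / 2 := by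
  rw [fderiv_phi h2 h]
  unfold AA qq
  have t1 : (psd (hc a) w / 2).re = (psd (hc a) w).re / 2 := by
    rw [show (psd (hc a) w / 2 : ℂ) = psd (hc a) w / ((2 : ℝ) : ℂ) by norm_num,
      Complex.div_ofReal_re]
  have t2 : (psd (hc a) w / 2).im = (psd (hc a) w).im / 2 := by
    rw [show (psd (hc a) w / 2 : ℂ) = psd (hc a) w / ((2 : ℝ) : ℂ) by norm_num,
      Complex.div_ofReal_im]
  simp only [Complex.mul_re, Complex.mul_im, Complex.sub_re, Complex.sub_im, Complex.conj_re,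
    Complex.conj_im]
  rw [t1, t2]
  ring

/-- the squared norm of the covariant derivative -/
lemma norm_cov (x y g : ℝ) : ‖(x : ℂ) - Complex.I * (y : ℂ) * (g : ℂ)‖ ^ 2 = x ^ 2 + y ^ 2 * g ^ 2 := by
  have h : (x : ℂ) - Complex.I * (y : ℂ) * (g : ℂ) = ⟨x, -(y * g)⟩ := by
    apply Complex.ext <;> simp
  rw [h, ← Complex.normSq_eq_norm_sq, Complex.normSq_mk]
  ring

end ITst

open ITst

theorem pr_Tst (hPC : StPC0) (hDn : StDn0) (hRay : StRay) (hPs : StPs) (hHc : StHc) : StTst := by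
  intro Ω f F a B ℓ g hR hs hg hiE hiM hM0 hle
  have hop : IsOpen (Metric.ball (0 : ℂ) 1) := Metric.isOpen_ball
  -- coefficients
  have hsq := summable_sq hs
  obtain ⟨a1, a2, a3⟩ := hPs a 1 (Real.sqrt (∑' l, ‖a l‖ ^ 2)) one_pos
    (fun n => by simpa using norm_le hsq n)
  obtain ⟨b1, b2, b3⟩ := hPs (hc a) 1 (2 * ∑' l, ‖a l‖ ^ 2) one_pos
    (fun n => by simpa using (hHc.1 a hsq n).2)
  -- `F = ps a`, `F' = psd a` on the disc
  have hF : ∀ w ∈ Metric.ball (0 : ℂ) 1, F w = ps a w := by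
    intro w hw
    exact (hR.ser w hw).tsum_eq.symm
  have hF' : ∀ w ∈ Metric.ball (0 : ℂ) 1, deriv F w = psd a w := by
    intro w hw
    have h1 : F =ᶠ[𝓝 w] ps a := by
      filter_upwards [hop.mem_nhds hw] with z hz using hF z hz
    rw [h1.deriv_eq]
    exact (a3 w (by simpa using hw)).2.1.deriv
  -- smoothness
  have c1 : ContDiffOn ℝ 1 (ps a) (Metric.ball 0 1) := (a1.contDiffOn hop).restrict_scalars ℝ
  have c2 : ContDiffOn ℝ 1 (ps (hc a)) (Metric.ball 0 1) :=
    (b1.contDiffOn hop).restrict_scalars ℝ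
  have c3 : ContDiffOn ℝ 1 (fun w => (ps (hc a) w).re) (Metric.ball 0 1) :=
    Complex.reCLM.contDiff.comp_contDiffOn c2
  have c4 : ContDiffOn ℝ 1 (fun w => ‖ps a w‖ ^ 2) (Metric.ball 0 1) := c1.norm_sq ℝ
  have ct : ContDiffOn ℝ 1 (tau a) (Metric.ball 0 1) := (c3.sub c4).div_const 4
  have c5 : ContDiffOn ℝ 1 (fun w => (ps (hc a) w).im) (Metric.ball 0 1) :=
    Complex.imCLM.contDiff.comp_contDiffOn c2
  set φ : ℂ → ℝ := fun z => (ps (hc a) z).im / 4 with hφ
  have cφ : ContDiffOn ℝ 1 φ (Metric.ball 0 1) := c5.div_const 4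
  set v : ℂ → ℂ := fun z => ((g (tau a z) : ℝ) : ℂ) with hv
  have cv : ContDiffOn ℝ 1 v (Metric.ball 0 1) :=
    Complex.ofRealCLM.contDiff.comp_contDiffOn (hg.comp_contDiffOn ct)
  obtain ⟨hU, hden⟩ := hDn Ω f F a φ v B hR cφ cv
  set U : ℂ → ℂ := fun z => v (f z) * Complex.exp (Complex.I * ((B * φ (f z) : ℝ) : ℂ)) with hUdef
  -- derivative of `v`
  have dv : ∀ w ∈ Metric.ball (0 : ℂ) 1, ∀ h : ℂ,
      fderiv ℝ v w h = ((deriv g (tau a w) * (-(qq a w * h).re / 2) : ℝ) : ℂ) := by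
    intro w hw h
    obtain ⟨L, hL, hL'⟩ := hasFDerivAt_tau (a3 w (by simpa using hw)).2.1
      (b3 w (by simpa using hw)).2.1
    have hgd : HasDerivAt g (deriv g (tau a w)) (tau a w) :=
      (hg.differentiable (by norm_num) _).hasDerivAt
    have h1 : HasFDerivAt (fun z => g (tau a z)) (deriv g (tau a w) • L) w :=
      hgd.comp_hasFDerivAt w hL
    have h2 : HasFDerivAt v (Complex.ofRealCLM.comp (deriv g (tau a w) • L)) w :=
      Complex.ofRealCLM.hasFDerivAt.comp w h1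
    rw [h2.fderiv]
    simp only [ContinuousLinearMap.comp_apply, smul_apply, smul_eq_mul,
      Complex.ofRealCLM_apply]
    rw [hL' h]
  -- the energy density
  have hE : ∀ w ∈ Metric.ball (0 : ℂ) 1, ‖deriv F w‖ ^ 2 * edC B U (F w) =
      (deriv g (tau a w) ^ 2 + B ^ 2 * g (tau a w) ^ 2) * (‖qq a w‖ ^ 2 / 4) := by
    intro w hw
    obtain ⟨h1, -⟩ := hden w hw
    have hHd := (b3 w (by simpa using hw)).2.1
    have g1 : AA (F w) (deriv F w) - fderiv ℝ φ w 1 = (qq a w).im / 2 := by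
      have := gauge (a := a) hHd 1
      rw [mul_one, mul_one] at this
      rw [hF w hw, hF' w hw]
      exact this
    have g2 : AA (F w) (deriv F w * Complex.I) - fderiv ℝ φ w Complex.I =
        (qq a w).re / 2 := by
      have := gauge (a := a) hHd Complex.I
      rw [hF w hw, hF' w hw]
      rw [this]
      simp
    rw [h1, dv w hw 1, dv w hw Complex.I, g1, g2]
    have e1 : v w = ((g (tau a w) : ℝ) : ℂ) := rfl
    rw [e1, norm_cov, norm_cov, ← Complex.normSq_eq_norm_sq, Complex.normSq_apply, mul_one]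
    have e2 : (qq a w * Complex.I).re = -(qq a w).im := by simp
    rw [e2]
    ring
  have hM : ∀ w ∈ Metric.ball (0 : ℂ) 1, ‖deriv F w‖ ^ 2 * ‖U (F w)‖ ^ 2 =
      g (tau a w) ^ 2 * ‖psd a w‖ ^ 2 := by
    intro w hw
    obtain ⟨-, h2⟩ := hden w hw
    have h3 : ‖U (F w)‖ = ‖v w‖ := h2
    have e1 : v w = ((g (tau a w) : ℝ) : ℂ) := rfl
    rw [h3, e1, Complex.norm_real, Real.norm_eq_abs, sq_abs, hF' w hw]
    ring
  -- continuity
  have hFc : ContinuousOn F (Metric.ball 0 1) := hR.Fd.continuousOn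
  have hUc : ContinuousOn U Ω := hU.continuousOn
  have hcf : ContinuousOn (fun z => fderiv ℝ U z) Ω :=
    hU.continuousOn_fderiv_of_isOpen hR.opn le_rfl
  have hec : ContinuousOn (fun z => edC B U z) Ω := by
    unfold edC AA
    have k1 : ContinuousOn (fun z => fderiv ℝ U z 1) Ω := hcf.clm_apply continuousOn_const
    have k2 : ContinuousOn (fun z => fderiv ℝ U z Complex.I) Ω := hcf.clm_apply continuousOn_const
    have k3 : Continuous (fun z : ℂ => Complex.I * ((B * (((starRingEnd ℂ) z * 1).im / 2) : ℝ) : ℂ)) := by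
      fun_prop
    have k4 : Continuous (fun z : ℂ => Complex.I *
        ((B * (((starRingEnd ℂ) z * Complex.I).im / 2) : ℝ) : ℂ)) := by
      fun_prop
    exact ((k1.sub (k3.continuousOn.mul hUc)).norm.pow 2).add
      ((k2.sub (k4.continuousOn.mul hUc)).norm.pow 2)
  have m1 : AEMeasurable (fun w => ENNReal.ofReal (edC B U (F w)))
      (volume.restrict (Metric.ball (0 : ℂ) 1)) :=
    ((hec.comp hFc hR.Fm).aemeasurable hop.measurableSet).ennreal_ofReal
  have m2 : AEMeasurable (fun w => ENNReal.ofReal (‖U (F w)‖ ^ 2))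
      (volume.restrict (Metric.ball (0 : ℂ) 1)) :=
    (((hUc.comp hFc hR.Fm).norm.pow 2).aemeasurable hop.measurableSet).ennreal_ofReal
  -- change of variables
  have l1 : (∫⁻ z in Ω, ENNReal.ofReal (edC B U z)) = ENNReal.ofReal
      (∫ w in Metric.ball (0 : ℂ) 1, (deriv g (tau a w) ^ 2 + B ^ 2 * g (tau a w) ^ 2) *
        (‖qq a w‖ ^ 2 / 4)) := by
    rw [hPC Ω f F a (fun z => ENNReal.ofReal (edC B U z)) hR m1,
      ofReal_integral_eq_lintegral_ofReal hiE (Eventually.of_forall fun w => by positivity)]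
    refine setLIntegral_congr_fun hop.measurableSet fun w hw => ?_
    rw [← ENNReal.ofReal_mul (by positivity), hE w hw]
  have l2 : (∫⁻ z in Ω, ENNReal.ofReal (‖U z‖ ^ 2)) = ENNReal.ofReal
      (∫ w in Metric.ball (0 : ℂ) 1, g (tau a w) ^ 2 * ‖psd a w‖ ^ 2) := by
    rw [hPC Ω f F a (fun z => ENNReal.ofReal (‖U z‖ ^ 2)) hR m2,
      ofReal_integral_eq_lintegral_ofReal hiM (Eventually.of_forall fun w => by positivity)]
    refine setLIntegral_congr_fun hop.measurableSet fun w hw => ?_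
    rw [← ENNReal.ofReal_mul (by positivity), hM w hw]
  have hE0 : 0 ≤ ∫ w in Metric.ball (0 : ℂ) 1,
      (deriv g (tau a w) ^ 2 + B ^ 2 * g (tau a w) ^ 2) * (‖qq a w‖ ^ 2 / 4) :=
    integral_nonneg fun w => by positivity
  refine hRay B ℓ Ω U hR.opn hU ?_ ?_ ?_ ?_
  · rw [l1]
    exact ENNReal.ofReal_ne_top
  · rw [l2]
    exact ENNReal.ofReal_ne_top
  · rw [l2]
    exact (ENNReal.ofReal_pos.2 hM0).ne'
  · rw [l1, l2, ENNReal.toReal_ofReal hE0, ENNReal.toReal_ofReal hM0.le]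
    exact hle

end Pool.Agent.MFK.RT
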