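import Pool.Agent.Work.MP_8826fd_mp.RT.Stmts

/-!
# MP_8826fd_mp, block RT, item Upp: the upper bound for nice domains
-/

set_option autoImplicit false

namespace Pool.Agent.MFK.RT

open MeasureTheory Set Filter Topology Pool.Agent.MFK.NF

namespace IUpp

/-- layer cake formula, measurable `τ` -/
theorem lc1 (D : Set ℂ) (hD : MeasurableSet D) (τ g : ℂ → ℝ) (T : ℝ) (hτ : Measurable τ)
    (hg : IntegrableOn g D) (hb : ∀ w ∈ D, 0 < τ w ∧ τ w ≤ T) (hT : 0 < T) (θ θ' : ℝ → ℝ)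
    (hθ : ∀ t, HasDerivAt θ (θ' t) t) (hc : Continuous θ') :
    (∫ w in D, θ (τ w) * g w) = θ 0 * (∫ w in D, g w)
      + ∫ t in (0 : ℝ)..T, θ' t * (∫ w in D ∩ {w | t < τ w}, g w) := by
  have hI1 : IntegrableOn θ' (Ioc 0 T) := (hc.integrableOn_Icc (a := 0) (b := T)).mono_set Ioc_subset_Icc_self
  have hP : Integrable (fun p : ℂ × ℝ => g p.1 * θ' p.2)
      ((volume.restrict D).prod (volume.restrict (Ioc 0 T))) := Integrable.mul_prod hg hI1
  have hS : MeasurableSet {p : ℂ × ℝ | p.2 < τ p.1} :=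
    measurableSet_lt measurable_snd (hτ.comp measurable_fst)
  have hQ := hP.indicator hS
  have hsw := integral_integral_swap
    (f := fun (w : ℂ) (t : ℝ) => ({p : ℂ × ℝ | p.2 < τ p.1}.indicator (fun p => g p.1 * θ' p.2)) (w, t)) hQ
  have hin1 : ∀ w ∈ D, (∫ t in Ioc 0 T,
      ({p : ℂ × ℝ | p.2 < τ p.1}.indicator (fun p => g p.1 * θ' p.2)) (w, t)) = g w * (θ (τ w) - θ 0) := by
    intro w hw
    obtain ⟨h0, h1⟩ := hb w hw
    have e1 : (fun t : ℝ => ({p : ℂ × ℝ | p.2 < τ p.1}.indicator (fun p => g p.1 * θ' p.2)) (w, t))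
        = (Iio (τ w)).indicator (fun t => g w * θ' t) := by
      funext t
      by_cases ht : t < τ w
      · rw [indicator_of_mem (by exact ht), indicator_of_mem (by exact ht)]
      · rw [indicator_of_notMem (by exact ht), indicator_of_notMem (by exact ht)]
    rw [e1, setIntegral_indicator measurableSet_Iio]
    have e2 : Ioc 0 T ∩ Iio (τ w) = Ioo 0 (τ w) := by
      ext t
      simp only [mem_inter_iff, mem_Ioc, mem_Iio, mem_Ioo]
      constructor
      · rintro ⟨⟨h2, h3⟩, h4⟩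
        exact ⟨h2, h4⟩
      · rintro ⟨h2, h3⟩
        exact ⟨⟨h2, by linarith⟩, h3⟩
    rw [e2, ← integral_Ioc_eq_integral_Ioo, ← intervalIntegral.integral_of_le h0.le,
      intervalIntegral.integral_const_mul]
    congr 1
    exact intervalIntegral.integral_eq_sub_of_hasDerivAt (fun t _ => hθ t) (hc.intervalIntegrable _ _)
  have hin2 : ∀ t : ℝ, (∫ w in D,
      ({p : ℂ × ℝ | p.2 < τ p.1}.indicator (fun p => g p.1 * θ' p.2)) (w, t))
      = θ' t * (∫ w in D ∩ {w | t < τ w}, g w) := by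
    intro t
    have e1 : (fun w : ℂ => ({p : ℂ × ℝ | p.2 < τ p.1}.indicator (fun p => g p.1 * θ' p.2)) (w, t))
        = ({w : ℂ | t < τ w}).indicator (fun w => θ' t * g w) := by
      funext w
      by_cases ht : t < τ w
      · rw [indicator_of_mem (by exact ht), indicator_of_mem (by exact ht)]
        ring
      · rw [indicator_of_notMem (by exact ht), indicator_of_notMem (by exact ht)]
    rw [e1, setIntegral_indicator (measurableSet_lt measurable_const hτ), integral_const_mul]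
  have hL : IntegrableOn (fun w => g w * (θ (τ w) - θ 0)) D := by
    have h := hQ.integral_prod_left
    refine Integrable.congr h ?_
    filter_upwards [ae_restrict_mem hD] with w hw
    exact hin1 w hw
  have e3 : (∫ w in D, θ (τ w) * g w) = ∫ w in D, (θ 0 * g w + g w * (θ (τ w) - θ 0)) := by
    apply setIntegral_congr_fun hD
    intro w _
    simp only
    ring
  rw [e3, integral_add (hg.const_mul _) hL, integral_const_mul]
  congr 1
  rw [intervalIntegral.integral_of_le hT.le]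
  rw [← setIntegral_congr_fun hD (fun w hw => hin1 w hw), hsw]
  apply setIntegral_congr_fun measurableSet_Ioc
  intro t _
  exact hin2 t

/-- layer cake formula -/
theorem lc (D : Set ℂ) (hD : MeasurableSet D) (τ g : ℂ → ℝ) (T : ℝ) (hτ : ContinuousOn τ D)
    (hg : IntegrableOn g D) (hb : ∀ w ∈ D, 0 < τ w ∧ τ w ≤ T) (hT : 0 < T) (θ θ' : ℝ → ℝ)
    (hθ : ∀ t, HasDerivAt θ (θ' t) t) (hc : Continuous θ') :
    (∫ w in D, θ (τ w) * g w) = θ 0 * (∫ w in D, g w)
      + ∫ t in (0 : ℝ)..T, θ' t * (∫ w in D ∩ {w | t < τ w}, g w) := by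
  classical
  have hm : Measurable (D.piecewise τ (fun _ => (0 : ℝ))) :=
    hτ.measurable_piecewise continuousOn_const hD
  have hb' : ∀ w ∈ D, 0 < (D.piecewise τ (fun _ => (0 : ℝ))) w ∧ (D.piecewise τ (fun _ => (0 : ℝ))) w ≤ T := by
    intro w hw
    rw [piecewise_eq_of_mem _ _ _ hw]
    exact hb w hw
  have h := lc1 D hD (D.piecewise τ (fun _ => (0 : ℝ))) g T hm hg hb' hT θ θ' hθ hc
  have e1 : (∫ w in D, θ (D.piecewise τ (fun _ => (0 : ℝ)) w) * g w) = ∫ w in D, θ (τ w) * g w := by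
    apply setIntegral_congr_fun hD
    intro w hw
    simp only
    rw [piecewise_eq_of_mem _ _ _ hw]
  have e2 : ∀ t : ℝ, D ∩ {w | t < D.piecewise τ (fun _ => (0 : ℝ)) w} = D ∩ {w | t < τ w} := by
    intro t
    ext w
    simp only [mem_inter_iff, mem_ofPred_eq]
    constructor
    · rintro ⟨h1, h2⟩
      rw [piecewise_eq_of_mem _ _ _ h1] at h2
      exact ⟨h1, h2⟩
    · rintro ⟨h1, h2⟩
      rw [piecewise_eq_of_mem _ _ _ h1]
      exact ⟨h1, h2⟩
  rw [e1] at h
  simp only [e2] at h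
  exact h

theorem avEq (a : ℕ → ℂ) (t : ℝ) :
    av a t = ∫ w in Metric.ball (0 : ℂ) 1 ∩ {w | t < tau a w}, ‖psd a w‖ ^ 2 := by
  have e : {w : ℂ | ‖w‖ < 1 ∧ t < tau a w} = Metric.ball (0 : ℂ) 1 ∩ {w | t < tau a w} := by
    ext w
    simp only [mem_ofPred_eq, mem_inter_iff, Metric.mem_ball, dist_zero_right]
  unfold av
  rw [e]

theorem avNonneg (a : ℕ → ℂ) (t : ℝ) : 0 ≤ av a t := by
  unfold av
  exact integral_nonneg (fun w => by positivity)

theorem psdInt (hHc : StHc) (hDir : StDir) (a : ℕ → ℂ) (ha : Nice a) :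
    IntegrableOn (fun w => ‖psd a w‖ ^ 2) (Metric.ball (0 : ℂ) 1) ∧
      (∫ w in Metric.ball (0 : ℂ) 1, ‖psd a w‖ ^ 2) = Real.pi * Ar a :=
  hDir a (hHc.2 a ha).2.1

theorem avAnti (hHc : StHc) (hDir : StDir) (a : ℕ → ℂ) (ha : Nice a) : Antitone (av a) := by
  intro s t hst
  rw [avEq, avEq]
  have hI := (psdInt hHc hDir a ha).1
  apply setIntegral_mono_set (hI.mono_set inter_subset_left)
  · exact Eventually.of_forall (fun w => by positivity)
  · apply LE.le.eventuallyLE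
    rintro w ⟨h1, h2⟩
    exact ⟨h1, lt_of_le_of_lt hst h2⟩

theorem avLe (hHc : StHc) (hDir : StDir) (a : ℕ → ℂ) (ha : Nice a) (t : ℝ) : av a t ≤ Real.pi * Ar a := by
  rw [avEq]
  have hI := psdInt hHc hDir a ha
  rw [← hI.2]
  apply setIntegral_mono_set hI.1
  · exact Eventually.of_forall (fun w => by positivity)
  · exact LE.le.eventuallyLE inter_subset_left

theorem tauCont (hDer : StDer) (a : ℕ → ℂ) (ha : Nice a) :
    ContinuousOn (tau a) (Metric.closedBall (0 : ℂ) 1) := by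
  obtain ⟨R, hR, h1, _, _⟩ := hDer a ha
  exact h1.continuousOn.mono (Metric.closedBall_subset_ball hR)

theorem qqCont (hDer : StDer) (a : ℕ → ℂ) (ha : Nice a) :
    ContinuousOn (qq a) (Metric.closedBall (0 : ℂ) 1) := by
  obtain ⟨R, hR, _, h2, _⟩ := hDer a ha
  exact h2.mono (Metric.closedBall_subset_ball hR)

theorem enInt (hDer : StDer) (a : ℕ → ℂ) (ha : Nice a) (Ψ : ℝ → ℝ) (hΨ : Continuous Ψ) :
    IntegrableOn (fun w => Ψ (tau a w) * (‖qq a w‖ ^ 2 / 4)) (Metric.ball (0 : ℂ) 1) := by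
  have h : ContinuousOn (fun w => Ψ (tau a w) * (‖qq a w‖ ^ 2 / 4)) (Metric.closedBall (0 : ℂ) 1) := by
    apply ContinuousOn.mul
    · exact hΨ.comp_continuousOn (tauCont hDer a ha)
    · exact ((qqCont hDer a ha).norm.pow 2).div_const 4
  exact (h.integrableOn_compact (isCompact_closedBall _ _)).mono_set Metric.ball_subset_closedBall

theorem avInt (hHc : StHc) (hDir : StDir) (a : ℕ → ℂ) (ha : Nice a) (Ψ : ℝ → ℝ) (hΨ : Continuous Ψ) (s t : ℝ) :
    IntervalIntegrable (fun t => Ψ t * av a t) volume s t := by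
  have h := (avAnti hHc hDir a ha).intervalIntegrable (μ := volume) (a := s) (b := t)
  exact h.continuousOn_mul hΨ.continuousOn

theorem lcAv (hDer : StDer) (hHc : StHc) (hDir : StDir) (a : ℕ → ℂ) (ha : Nice a) (T : ℝ) (hT : 0 < T)
    (hb : ∀ w : ℂ, ‖w‖ < 1 → 0 < tau a w ∧ tau a w ≤ T) (θ θ' : ℝ → ℝ)
    (hθ : ∀ t, HasDerivAt θ (θ' t) t) (hc : Continuous θ') :
    (∫ w in Metric.ball (0 : ℂ) 1, θ (tau a w) * ‖psd a w‖ ^ 2) = θ 0 * (Real.pi * Ar a)
      + ∫ t in (0 : ℝ)..T, θ' t * av a t := by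
  have hI := psdInt hHc hDir a ha
  have h := lc (Metric.ball (0 : ℂ) 1) measurableSet_ball (tau a) (fun w => ‖psd a w‖ ^ 2) T
    ((tauCont hDer a ha).mono Metric.ball_subset_closedBall) hI.1
    (fun w hw => hb w (by simpa using hw)) hT θ θ' hθ hc
  rw [h, hI.2]
  congr 1
  apply intervalIntegral.integral_congr
  intro t _
  simp only
  rw [avEq]

theorem en0 (hGrn : StGrn) (hDer : StDer) (hHc : StHc) (hDir : StDir) (a : ℕ → ℂ) (ha : Nice a) (T : ℝ)
    (hT : 0 < T) (hb : ∀ w : ℂ, ‖w‖ < 1 → 0 < tau a w ∧ tau a w ≤ T) (Ψ : ℝ → ℝ) (hΨ : Continuous Ψ)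
    (t₀ : ℝ) (ht₀ : 0 < t₀) (hz : ∀ t ≤ t₀, Ψ t = 0) :
    (∫ w in Metric.ball (0 : ℂ) 1, Ψ (tau a w) * (‖qq a w‖ ^ 2 / 4)) = ∫ t in (0 : ℝ)..T, Ψ t * av a t := by
  have hθ : ∀ t, HasDerivAt (fun x => ∫ s in (0 : ℝ)..x, Ψ s) (Ψ t) t :=
    fun t => (hΨ.integral_hasStrictDerivAt 0 t).hasDerivAt
  have hz' : ∀ t ≤ t₀, (∫ s in (0 : ℝ)..t, Ψ s) = 0 := by
    intro t ht
    have e : (∫ s in (0 : ℝ)..t, Ψ s) = ∫ s in (0 : ℝ)..t, (0 : ℝ) := by
      apply intervalIntegral.integral_congr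
      intro s hs
      simp only
      apply hz
      rw [mem_uIcc] at hs
      rcases hs with hs | hs
      · linarith [hs.2]
      · linarith [hs.2]
    rw [e]
    simp
  have h1 := hGrn a ha (fun x => ∫ s in (0 : ℝ)..x, Ψ s) Ψ t₀ ht₀ hθ hΨ hz'
  rw [← h1, lcAv hDer hHc hDir a ha T hT hb (fun x => ∫ s in (0 : ℝ)..x, Ψ s) Ψ hθ hΨ]
  simp

/-- cut off functions -/
noncomputable def chi (n : ℕ) (t : ℝ) : ℝ := min 1 (max 0 (((n : ℝ) + 1) * t - 1))

theorem chiCont (n : ℕ) : Continuous (chi n) := by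
  unfold chi
  fun_prop

theorem chiZero (n : ℕ) (t : ℝ) (ht : t ≤ 1 / ((n : ℝ) + 1)) : chi n t = 0 := by
  unfold chi
  have hn : (0 : ℝ) < (n : ℝ) + 1 := by positivity
  have h1 : ((n : ℝ) + 1) * t ≤ 1 := by
    rw [le_div_iff₀ hn] at ht
    linarith
  rw [max_eq_left (by linarith)]
  simp

theorem chiAbs (n : ℕ) (t : ℝ) : |chi n t| ≤ 1 := by
  unfold chi
  rw [abs_le]
  constructor
  · have : (0 : ℝ) ≤ min 1 (max 0 (((n : ℝ) + 1) * t - 1)) := le_min (by norm_num) (le_max_left _ _)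
    linarith
  · exact min_le_left _ _

theorem chiLim (t : ℝ) (ht : 0 < t) : Tendsto (fun n => chi n t) atTop (𝓝 1) := by
  apply tendsto_const_nhds.congr'
  have h : Tendsto (fun n : ℕ => ((n : ℝ) + 1) * t) atTop atTop := by
    apply Tendsto.atTop_mul_const ht
    exact tendsto_atTop_add_const_right _ _ tendsto_natCast_atTop_atTop
  filter_upwards [h.eventually_ge_atTop 2] with n hn
  unfold chi
  rw [max_eq_right (by linarith), min_eq_left (by linarith)]

theorem en (hGrn : StGrn) (hDer : StDer) (hHc : StHc) (hDir : StDir) (a : ℕ → ℂ) (ha : Nice a) (T : ℝ)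
    (hT : 0 < T) (hb : ∀ w : ℂ, ‖w‖ < 1 → 0 < tau a w ∧ tau a w ≤ T) (Ψ : ℝ → ℝ) (hΨ : Continuous Ψ) :
    (∫ w in Metric.ball (0 : ℂ) 1, Ψ (tau a w) * (‖qq a w‖ ^ 2 / 4)) = ∫ t in (0 : ℝ)..T, Ψ t * av a t := by
  have hcn : ∀ n, Continuous (fun t => chi n t * Ψ t) := fun n => (chiCont n).mul hΨ
  have hn : ∀ n : ℕ, (∫ w in Metric.ball (0 : ℂ) 1, (chi n (tau a w) * Ψ (tau a w)) * (‖qq a w‖ ^ 2 / 4))
      = ∫ t in (0 : ℝ)..T, (chi n t * Ψ t) * av a t := by
    intro n
    exact en0 hGrn hDer hHc hDir a ha T hT hb (fun t => chi n t * Ψ t) (hcn n) (1 / ((n : ℝ) + 1)) (by positivity)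
      (fun t ht => by rw [chiZero n t ht, zero_mul])
  have hL : Tendsto (fun n : ℕ => ∫ w in Metric.ball (0 : ℂ) 1,
      (chi n (tau a w) * Ψ (tau a w)) * (‖qq a w‖ ^ 2 / 4)) atTop
      (𝓝 (∫ w in Metric.ball (0 : ℂ) 1, Ψ (tau a w) * (‖qq a w‖ ^ 2 / 4))) := by
    apply tendsto_integral_of_dominated_convergence (fun w => ‖Ψ (tau a w) * (‖qq a w‖ ^ 2 / 4)‖)
    · intro n
      exact (enInt hDer a ha (fun t => chi n t * Ψ t) (hcn n)).aestronglyMeasurable
    · exact (enInt hDer a ha Ψ hΨ).norm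
    · intro n
      apply Eventually.of_forall
      intro w
      rw [mul_assoc, norm_mul]
      calc ‖chi n (tau a w)‖ * ‖Ψ (tau a w) * (‖qq a w‖ ^ 2 / 4)‖
          ≤ 1 * ‖Ψ (tau a w) * (‖qq a w‖ ^ 2 / 4)‖ :=
            mul_le_mul_of_nonneg_right (by rw [Real.norm_eq_abs]; exact chiAbs n _) (norm_nonneg _)
        _ = _ := one_mul _
    · filter_upwards [ae_restrict_mem (measurableSet_ball (x := (0 : ℂ)) (ε := 1))] with w hw
      have hw' : 0 < tau a w := (hb w (by simpa using hw)).1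
      have h1 := ((chiLim (tau a w) hw').mul_const (Ψ (tau a w))).mul_const (‖qq a w‖ ^ 2 / 4)
      rw [one_mul] at h1
      exact h1
  have hR : Tendsto (fun n : ℕ => ∫ t in (0 : ℝ)..T, (chi n t * Ψ t) * av a t) atTop
      (𝓝 (∫ t in (0 : ℝ)..T, Ψ t * av a t)) := by
    apply intervalIntegral.tendsto_integral_filter_of_dominated_convergence (fun t => ‖Ψ t * av a t‖)
    · apply Eventually.of_forall
      intro n
      exact (intervalIntegrable_iff.mp (avInt hHc hDir a ha (fun t => chi n t * Ψ t) (hcn n) 0 T)).aestronglyMeasurable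
    · apply Eventually.of_forall
      intro n
      apply Eventually.of_forall
      intro t _
      rw [mul_assoc, norm_mul]
      calc ‖chi n t‖ * ‖Ψ t * av a t‖
          ≤ 1 * ‖Ψ t * av a t‖ :=
            mul_le_mul_of_nonneg_right (by rw [Real.norm_eq_abs]; exact chiAbs n _) (norm_nonneg _)
        _ = _ := one_mul _
    · exact (avInt hHc hDir a ha Ψ hΨ 0 T).norm
    · apply Eventually.of_forall
      intro t ht
      rw [uIoc_of_le hT.le] at ht
      have h1 := ((chiLim t ht.1).mul_const (Ψ t)).mul_const (av a t)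
      rw [one_mul] at h1
      exact h1
  simp only [hn] at hL
  exact tendsto_nhds_unique hL hR

end IUpp

theorem pr_Upp (hGrn : StGrn) (hTal : StTal) (hDir : StDir) (hDer : StDer) (hHc : StHc) : StUpp := by
  intro a B lam T f ha hinj hAr hT hT4 hb hf hlam hPh
  have hfd : Differentiable ℝ f := hf.differentiable one_ne_zero
  have hf'c : Continuous (deriv f) := hf.continuous_deriv le_rfl
  have hfc : Continuous f := hf.continuous
  have hΨc : Continuous (fun t => deriv f t ^ 2 + B ^ 2 * f t ^ 2) := by fun_prop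
  have hEi := IUpp.enInt hDer a ha (fun t => deriv f t ^ 2 + B ^ 2 * f t ^ 2) hΨc
  have hE := IUpp.en hGrn hDer hHc hDir a ha T hT hb (fun t => deriv f t ^ 2 + B ^ 2 * f t ^ 2) hΨc
  have hθ : ∀ t, HasDerivAt (fun x => f x ^ 2) (2 * (f t * deriv f t)) t := by
    intro t
    have h := ((hfd t).hasDerivAt).pow 2
    have e : 2 * (f t * deriv f t) = ((2 : ℕ) : ℝ) * f t ^ (2 - 1) * deriv f t := by
      norm_num
      ring
    rw [e]
    exact h
  have hθc : Continuous (fun t => 2 * (f t * deriv f t)) := by fun_prop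
  have hM := IUpp.lcAv hDer hHc hDir a ha T hT hb (fun x => f x ^ 2) (fun t => 2 * (f t * deriv f t)) hθ hθc
  refine ⟨hEi, ?_⟩
  rw [hE, hM]
  have hsub : (∫ t in (0 : ℝ)..T, (deriv f t ^ 2 + B ^ 2 * f t ^ 2) * av a t)
      - lam * (∫ t in (0 : ℝ)..T, 2 * (f t * deriv f t) * av a t)
      = ∫ t in (0 : ℝ)..T, Phf B lam f t * av a t := by
    rw [← intervalIntegral.integral_const_mul, ← intervalIntegral.integral_sub
      (IUpp.avInt hHc hDir a ha _ hΨc 0 T) ((IUpp.avInt hHc hDir a ha _ hθc 0 T).const_mul lam)]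
    apply intervalIntegral.integral_congr
    intro t _
    simp only [Phf]
    ring
  have hPc : Continuous (Phf B lam f) := by
    have : Phf B lam f = fun t => deriv f t ^ 2 + B ^ 2 * f t ^ 2 - 2 * lam * (f t * deriv f t) := rfl
    rw [this]
    fun_prop
  have hmono : (∫ t in (0 : ℝ)..T, Phf B lam f t * av a t)
      ≤ ∫ t in (0 : ℝ)..T, Phf B lam f t * (Real.pi - 4 * Real.pi * t) := by
    apply intervalIntegral.integral_mono_on hT.le (IUpp.avInt hHc hDir a ha _ hPc 0 T)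
    · apply Continuous.intervalIntegrable
      exact hPc.mul (by fun_prop)
    · intro t ht
      apply mul_le_mul_of_nonneg_left _ (hPh t ht)
      have hpi := Real.pi_pos
      rcases eq_or_lt_of_le ht.1 with h0 | h0
      · rw [← h0]
        have h1 := IUpp.avLe hHc hDir a ha 0
        nlinarith
      · rcases eq_or_lt_of_le (IUpp.avNonneg a t) with h1 | h1
        · rw [← h1]
          have h2 : t ≤ 1 / 4 := le_trans ht.2 hT4
          nlinarith
        · have h2 := hTal a ha hinj t h0 h1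
          nlinarith
  linarith

end Pool.Agent.MFK.RT
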