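import Pool.Agent.Work.MP_8826fd_mp.RT.Tors
import Pool.Agent.Work.MP_8826fd_mp.CD.StmtsU
import Pool.Agent.Work.MP_8826fd_mp.CD.I_Fin

/-!
# MP_8826fd_mp, block RT: the range theorem with a deficit

There is `b > 0` beyond the radial regime such that for `B R² ≤ b` and all open simply connected `Ω` of area `π R²`:
`λ(B, Ω) ≤ λ(B, D_R) - c ∫_{Ω Δ D(q,R)} min(||x - q| - R|, R) dx` for some `q`, `c = c(B, R) > 0`.
Near the disc this is `CD.StMUU` (locally uniform in the field), elsewhere `StLim` leaves a gap.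
-/

set_option autoImplicit false

namespace Pool.Agent.MFK.RT

open MeasureTheory Set Filter Topology Pool.Agent.MFK.NF

/-- the range theorem with a deficit, area `π` -/
def StRngD : Prop := ∃ b : ℝ, 0 < b ∧ lamN b disc < lamRad b ∧ ∀ B : ℝ, 0 < B → B ≤ b → ∃ c > (0 : ℝ),
  ∀ Ω : Set ℂ, IsOpen Ω → IsSimplyConnected Ω → volume Ω = ENNReal.ofReal Real.pi →
  ∃ q : ℂ, lamN B (toR Ω) ≤ lamN B disc - c * CD.dft q 1 Ω ∧
    (lamN B (toR Ω) = lamN B disc → Ω = Metric.ball q 1)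

/-- the range theorem with a deficit -/
def StFinD : Prop := ∃ b : ℝ, 0 < b ∧ lamN b disc < lamRad b ∧ ∀ B R : ℝ, 0 < B → 0 < R → B * R ^ 2 ≤ b → ∃ c > (0 : ℝ),
  ∀ Ω : Set (ℝ × ℝ), IsOpen Ω → SimplyConnectedSpace Ω → volume Ω = volume (edisc 0 R) →
  ∃ q : ℝ × ℝ, lamN B Ω ≤ lamN B (edisc 0 R)
      - c * ∫ x in symmDiff Ω (edisc q R), min |Real.sqrt ((x.1 - q.1) ^ 2 + (x.2 - q.2) ^ 2) - R| R ∧
    (lamN B Ω = lamN B (edisc 0 R) → Ω = edisc q R)

namespace IRngD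

theorem dft_nonneg (q : ℂ) (Ω : Set ℂ) : 0 ≤ CD.dft q 1 Ω := by
  unfold CD.dft
  exact integral_nonneg fun z => le_min (abs_nonneg _) zero_le_one

theorem dft_le (q : ℂ) {Ω : Set ℂ} (hO : IsOpen Ω) (hvol : volume Ω = ENNReal.ofReal Real.pi) :
    CD.dft q 1 Ω ≤ 2 * Real.pi := by
  have hb : volume (Metric.ball q 1) = ENNReal.ofReal Real.pi := by
    rw [Complex.volume_ball, ENNReal.ofReal_one, one_pow, one_mul, ← NNReal.coe_real_pi,
      ENNReal.ofReal_coe_nnreal]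
  have hm : MeasurableSet (symmDiff Ω (Metric.ball q 1)) :=
    hO.measurableSet.symmDiff Metric.isOpen_ball.measurableSet
  have hle : volume (symmDiff Ω (Metric.ball q 1)) ≤ ENNReal.ofReal (2 * Real.pi) := by
    calc volume (symmDiff Ω (Metric.ball q 1)) ≤ volume (Ω ∪ Metric.ball q 1) :=
          measure_mono symmDiff_subset_union
      _ ≤ volume Ω + volume (Metric.ball q 1) := measure_union_le _ _
      _ = ENNReal.ofReal (2 * Real.pi) := by
          rw [hvol, hb, ← ENNReal.ofReal_add Real.pi_pos.le Real.pi_pos.le]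
          congr 1
          ring
  have hfin : volume (symmDiff Ω (Metric.ball q 1)) ≠ ⊤ := (hle.trans_lt ENNReal.ofReal_lt_top).ne
  unfold CD.dft
  calc (∫ z in symmDiff Ω (Metric.ball q 1), min |‖z - q‖ - 1| 1)
      ≤ ∫ z in symmDiff Ω (Metric.ball q 1), (1 : ℝ) := by
        refine integral_mono_of_nonneg (Eventually.of_forall fun z => le_min (abs_nonneg _) zero_le_one)
          ((integrable_const_iff).2 (Or.inr ?_)) (Eventually.of_forall fun z => min_le_right _ _)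
        rw [isFiniteMeasure_restrict]
        exact hfin
    _ = (volume (symmDiff Ω (Metric.ball q 1))).toReal := by
        rw [integral_const, smul_eq_mul, mul_one, measureReal_restrict_apply_univ]
        rfl
    _ ≤ 2 * Real.pi := by
        have := ENNReal.toReal_mono ENNReal.ofReal_ne_top hle
        rwa [ENNReal.toReal_ofReal (by positivity)] at this

end IRngD

theorem pr_RngD (hLim : StLim) (hArr : StArr) (hC1p : CD.StC1p) (hCMx : CD.StCMx) (hSer : CD.StSer)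
    (hMU : CD.StMUU) (hCrs : StCrs) (hSml : StSml) (hRdE : StRdE) (hUd : StUd) (hRdL : StRdL) : StRngD := by
  obtain ⟨B₀, hB0, hle, hgt⟩ := hCrs
  obtain ⟨η₁, hη1, ε₀, hε0, c₀, hc0, hM⟩ := hMU B₀ hB0
  set ε := min ε₀ 1 with hεd
  have hε : 0 < ε := lt_min hε0 one_pos
  have hε1 : ε ≤ 1 := min_le_right _ _
  obtain ⟨η₂, hη2, hS⟩ := hSml B₀ (ε ^ 2) hB0 (by positivity) (hle B₀ hB0 le_rfl)
  obtain ⟨b, hb1, hb2, hb3⟩ := hgt (min η₁ η₂) (lt_min hη1 hη2)
  refine ⟨b, by linarith, hb3, fun B hB hBb => ?_⟩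
  obtain ⟨lam, hR⟩ := hRdE B hB
  have hrad : lamRad B = lam :=
    le_antisymm ((hUd B lam 0 hR.hB hR.lt hR.zero).2 rfl) (hRdL B lam hR.hB hR.pos hR.lt hR.zero.ge)
  set k := 1 / 32 * Real.exp (-B) * (B ^ 2 - lam ^ 2) with hkd
  have hk : 0 < k := by
    have h1 : 0 < B ^ 2 - lam ^ 2 := by nlinarith [hR.lt, hR.pos, hR.hB]
    have h2 := Real.exp_pos (-B)
    positivity
  -- a radius of the neighbourhood, its constant, and the gap outside
  obtain ⟨e, he0, he1, c₁, hc1, hnear, hgap⟩ : ∃ e : ℝ, 0 < e ∧ e ≤ 1 ∧ ∃ c₁ > (0 : ℝ),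
      (∀ (Ω : Set ℂ) (F₁ : ℂ → ℂ), IsOpen Ω → IsSimplyConnected Ω →
        volume Ω = ENNReal.ofReal Real.pi → DifferentiableOn ℂ F₁ (Metric.ball 0 1) →
        MapsTo F₁ (Metric.ball 0 1) Ω → 1 - e ≤ ‖deriv F₁ 0‖ →
        ∃ q : ℂ, lamN B (toR Ω) ≤ lamN B disc - c₁ * CD.dft q 1 Ω ∧
          (lamN B (toR Ω) = lamN B disc → Ω = Metric.ball q 1)) ∧
      lam - k * e ^ 2 < lamN B disc := by
    rcases le_or_gt B B₀ with hBB | hBB
    · obtain ⟨η, hη, ε₁, hε1', c₁, hc1, h⟩ := hMU B hB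
      refine ⟨min ε₁ 1, lt_min hε1' one_pos, min_le_right _ _, c₁, hc1, ?_, ?_⟩
      · intro Ω F₁ hO hsc hvol hF hm hd
        exact h B hB (by rwa [sub_self, abs_zero]) Ω F₁ hO hsc hvol hF hm
          (by have := min_le_left ε₁ 1; linarith)
      · have : 0 < k * min ε₁ 1 ^ 2 := by
          have := lt_min hε1' one_pos
          positivity
        rw [hle B hB hBB, hrad]
        linarith
    · have hBabs : |B - B₀| < min η₁ η₂ := by
        rw [abs_of_pos (by linarith)]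
        linarith
      refine ⟨ε, hε, hε1, c₀, hc0, ?_, ?_⟩
      · intro Ω F₁ hO hsc hvol hF hm hd
        exact hM B hB (hBabs.trans_le (min_le_left _ _)) Ω F₁ hO hsc hvol hF hm
          (by have := min_le_left ε₀ 1; linarith)
      · have h1 := hS B hB (hBabs.trans_le (min_le_right _ _))
        rw [hrad] at h1
        have h1' : lam - lamN B disc < k * ε ^ 2 := h1
        linarith
  set g := lamN B disc - (lam - k * e ^ 2) with hg
  have hg0 : 0 < g := by linarith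
  have hpi := Real.pi_pos
  refine ⟨min c₁ (g / (2 * Real.pi)), lt_min hc1 (by positivity), fun Ω hO hsc hvol => ?_⟩
  have hne := IRng.ne_univ hvol
  have hnon : Ω.Nonempty := by
    rw [nonempty_iff_ne_empty]
    intro h
    rw [h, measure_empty] at hvol
    exact (ENNReal.ofReal_pos.2 Real.pi_pos).ne' hvol.symm
  obtain ⟨p, hp⟩ := hnon
  obtain ⟨f₁, F₁, hf1, hF1, hm1, hM1, hfF1, hFf1, -⟩ := hC1p Ω p hO hsc hne hp
  have hd1 := IRng.deriv_ne hO hf1 hF1 hM1 hfF1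
  obtain ⟨f, F, a, s, hCM, hN, hρs, hmax⟩ :=
    hCMx Ω F₁ ‖deriv F₁ 0‖ hO hsc hvol hF1 hM1 (norm_pos_iff.2 hd1) le_rfl
  have hs0 := hN.s0
  have hs1 : s ≤ 1 := (hSer F a s hN).1
  have hRM := IRng.rm hCM
  obtain ⟨-, -, hA⟩ := hArr Ω f F a hRM hvol
  have hcr : ∀ w : ℂ, ‖w‖ < 1 → cr a w ≤ s := by
    intro w hw
    unfold cr
    rw [← (hA w hw).2.1]
    exact hmax w (by rwa [mem_ball_zero_iff])
  have hF0 : ‖deriv F 0‖ = s := by
    rw [(hA 0 (by simp)).2.1, IRng.psd_zero, hN.a1, Complex.norm_real, Real.norm_eq_abs, abs_of_pos hs0]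
  have hL := hLim Ω f F a B lam s hRM hvol hR hs0 hs1 hcr
  rcases le_or_gt (1 - e) s with h | h
  · obtain ⟨q, hq1, hq2⟩ := hnear Ω F hO hsc hvol hCM.Fd hCM.Fm (by rw [hF0]; exact h)
    refine ⟨q, hq1.trans ?_, hq2⟩
    have h1 := mul_le_mul_of_nonneg_right (min_le_left c₁ (g / (2 * Real.pi))) (IRngD.dft_nonneg q Ω)
    linarith
  · have h2 : e ^ 2 ≤ (1 - s ^ 2) ^ 2 := by
      have h3 : e ≤ 1 - s ^ 2 := by nlinarith
      exact pow_le_pow_left₀ he0.le h3 2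
    have h4 := mul_le_mul_of_nonneg_left h2 hk.le
    have h5 : lamN B (toR Ω) ≤ lamN B disc - g := by
      rw [hg]
      have : lamN B (toR Ω) ≤ lam - k * (1 - s ^ 2) ^ 2 := hL
      linarith
    refine ⟨0, h5.trans ?_, fun he => ?_⟩
    · have h6 : min c₁ (g / (2 * Real.pi)) * CD.dft 0 1 Ω ≤ g / (2 * Real.pi) * (2 * Real.pi) :=
        mul_le_mul (min_le_right _ _) (IRngD.dft_le 0 hO hvol) (IRngD.dft_nonneg 0 Ω) (by positivity)
      have h7 : g / (2 * Real.pi) * (2 * Real.pi) = g := by field_simp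
      linarith
    · rw [he] at h5
      linarith

theorem pr_FinD (h1 : StRngD) : StFinD := by
  obtain ⟨b, hb, hb2, hN₀⟩ := h1
  refine ⟨b, hb, hb2, fun B R hB hR hBR => ?_⟩
  obtain ⟨c, hc, H⟩ := hN₀ (B * R ^ 2) (by positivity) hBR
  refine ⟨c * ((R ^ 2)⁻¹ * (R ^ 3)⁻¹), by positivity, fun Ω hO hsc hvol => ?_⟩
  have hne := NF.IFin.nd_eq (0 : ℝ × ℝ) hR Ω
  have hO' : IsOpen (NF.IFin.nd (0 : ℝ × ℝ) R Ω) := by
    rw [hne]
    exact hO.preimage (NF.IFin.hom (0 : ℝ × ℝ) hR).continuous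
  have hsc' : IsSimplyConnected (NF.IFin.nd (0 : ℝ × ℝ) R Ω) := by
    rw [hne, Homeomorph.isSimplyConnected_preimage]
    exact hsc
  have himg := NF.IFin.image_toR (0 : ℝ × ℝ) hR Ω
  have hvol' : volume (NF.IFin.nd (0 : ℝ × ℝ) R Ω) = ENNReal.ofReal Real.pi := by
    have e1 := NF.IFin.vol_aff (0 : ℝ × ℝ) hR (toR (NF.IFin.nd (0 : ℝ × ℝ) R Ω))
    rw [himg, hvol, F3.vol_edisc (0 : ℝ × ℝ) hR.le, NF.IFin.vol_toR hO', mul_comm Real.pi,
      ENNReal.ofReal_mul (by positivity)] at e1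
    have h0 : ENNReal.ofReal (R ^ 2) ≠ 0 := by
      rw [Ne, ENNReal.ofReal_eq_zero, not_le]
      positivity
    exact ((ENNReal.mul_right_inj h0 ENNReal.ofReal_ne_top).1 e1).symm
  obtain ⟨q, hle, heq⟩ := H (NF.IFin.nd (0 : ℝ × ℝ) R Ω) hO' hsc' hvol'
  have s1 : lamN B Ω = (R ^ 2)⁻¹ * lamN (B * R ^ 2) (toR (NF.IFin.nd (0 : ℝ × ℝ) R Ω)) := by
    have h2 := sc B R (0 : ℝ × ℝ) (toR (NF.IFin.nd (0 : ℝ × ℝ) R Ω)) hR (NF.IFin.isOpen_toR hO')
    rw [← h2]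
    congr 1
    exact himg.symm
  have s2 : lamN B (edisc (0 : ℝ × ℝ) R) = (R ^ 2)⁻¹ * lamN (B * R ^ 2) disc := by
    have h2 := sc B R (0 : ℝ × ℝ) disc hR NF.IFin.isOpen_disc
    rw [← h2]
    congr 1
    exact F2.edisc_image hR (0 : ℝ × ℝ)
  have hR2 : (0 : ℝ) < (R ^ 2)⁻¹ := by positivity
  refine ⟨CD.IFin.ctr R q, ?_, fun he => ?_⟩
  · have h5 := CD.IFin.int_eq hR q hO'
    rw [himg] at h5
    rw [h5, s1, s2]
    have h6 : c * ((R ^ 2)⁻¹ * (R ^ 3)⁻¹) * (R ^ 3 * CD.dft q 1 (NF.IFin.nd 0 R Ω)) =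
        (R ^ 2)⁻¹ * (c * CD.dft q 1 (NF.IFin.nd 0 R Ω)) := by
      field_simp
    rw [h6, ← mul_sub]
    exact mul_le_mul_of_nonneg_left hle hR2.le
  · rw [s1, s2] at he
    have h3 := heq (mul_left_cancel₀ hR2.ne' he)
    rw [← CD.IFin.aff_ball hR q, ← h3]
    exact himg.symm

/-- the range theorem with a deficit, from the statements of the block CD -/
theorem finD_of (hC1p : CD.StC1p) (hCMx : CD.StCMx) (hSer : CD.StSer) (hMU : CD.StMUU) : StFinD :=
  pr_FinD (pr_RngD all_Lim all_Arr hC1p hCMx hSer hMU all_Crs all_Sml pr_RdE pr_Ud pr_RdL)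

end Pool.Agent.MFK.RT
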