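import Pool.Agent.Work.MP_8826fd_mp.RT.Defs

/-!
# MP_8826fd_mp, block RT, torsion half: statements of the items, each with its proof.  Captain helper88.

FORMAT.  Item NAME: file `RT/I_NAME.lean`, namespace `Pool.Agent.MFK.RT`, auxiliary lemmas in the namespace `INAME`, main theorem
`theorem pr_NAME (h1 : StA) ... : StNAME`.  The hypotheses are only the statements named in the docstring (take the ones you need).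
All integrals over the disc are integrals over `Metric.ball (0 : ℂ) 1` (volume of `ℂ`).
-/

set_option autoImplicit false

namespace Pool.Agent.MFK.RT

open MeasureTheory Set Filter Topology Pool.Agent.MFK.NF
open scoped ComplexConjugate

/-! ### part 1: the sharp Sobolev inequality in the plane -/

/-- ITEM Kno (Knothe map in one variable).  `H(ξ) = ∫_{-1}^ξ 2 √(1-u²) du` is continuous and strictly increasing from `[-1,1]` onto `[0, π]`, `G(x) = ∫_{-∞}^x P`, `T = H⁻¹ ∘ G`: continuous, monotone.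
`T' = P/(2 √(1-T²))` where `|T| < 1`, `T' = 0` elsewhere.  `{|T| < 1}` is an open interval, on it `T` has the derivative `T'` (inverse function), outside `T` is constant; a continuous function with a nonnegative derivative in the open interval has an integrable
derivative and the fundamental theorem holds (`intervalIntegral.integrableOn_deriv_of_nonneg`, `intervalIntegral.integral_eq_sub_of_hasDerivAt_of_le`).  If `P x > 0` then `0 < G x < π`. -/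
def StKno : Prop := ∀ P : ℝ → ℝ, Continuous P → HasCompactSupport P → (∀ x, 0 ≤ P x) → (∫ x, P x) = Real.pi →
  ∃ T T' : ℝ → ℝ, Continuous T ∧ (∀ x, |T x| ≤ 1) ∧ (∀ x, 0 ≤ T' x) ∧ Integrable T' ∧
    (∀ a b : ℝ, a ≤ b → (∫ x in a..b, T' x) = T b - T a) ∧
    ∀ x, 0 < P x → |T x| < 1 ∧ T' x * (2 * Real.sqrt (1 - T x ^ 2)) = P x

/-- ITEM Sob (sharp inequality `4π ∫ w² ≤ (∫ |∇w|)²`, proof of Gromov; uses StKno).  `I = ∫ w² > 0` (otherwise trivial).  `P(x) = (π/I) ∫ w(x,y)² dy` (continuous, compact support, `∫ P = π`), `T₁ = T`, `T₁' = T'` from StKno.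
For `x` with `P x > 0`: `ℓ = √(1 - T₁(x)²)`, `T₂(x,y) = ℓ (2 G_x(y) - 1)`, `G_x(y) = (π/I) ∫_{-∞}^y w(x,·)²/P(x)`, so `∂_y T₂ = 2ℓ (π/I) w²/P` and `T₁² + T₂² ≤ 1`; `T₂ = 0` if `P x = 0`.
`T₁' · ∂_y T₂ = (π/I) w²`, so `T₁' + ∂_y T₂ ≥ 2 √(π/I) w`, and `∫ w (T₁' + ∂_y T₂) ≥ 2 √(π/I) ∫ w²`.  On every line `∫ w ∂_y T₂ dy = -∫ w_y T₂ dy` (parts; `w(x,·) = 0` and `w_y(x,·) = 0` if `P x = 0`), and
`∫ w T₁' dx = -∫ w_x T₁ dx` (`T₁` is the integral of `T₁'`: Fubini or `intervalIntegral` parts; `w` is `C¹` with compact support).  Sum: `2 √(π I) ≤ -∫ (w_x T₁ + w_y T₂) ≤ ∫ |∇w|`. -/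
def StSob : Prop := ∀ w : ℝ × ℝ → ℝ, ContDiff ℝ 1 w → HasCompactSupport w → (∀ x, 0 ≤ w x) →
  4 * Real.pi * (∫ x, w x ^ 2) ≤ (∫ x, Real.sqrt (fderiv ℝ w x (1, 0) ^ 2 + fderiv ℝ w x (0, 1) ^ 2)) ^ 2

/-! ### part 2: power series -/

/-- ITEM Ps (power series; geometric domination, `hasDerivAt_tsum` or `FormalMultilinearSeries`). -/
def StPs : Prop := ∀ (b : ℕ → ℂ) (R C : ℝ), 0 < R → (∀ n, ‖b n‖ * R ^ n ≤ C) →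
  DifferentiableOn ℂ (ps b) (Metric.ball 0 R) ∧ DifferentiableOn ℂ (psd b) (Metric.ball 0 R) ∧ ∀ w : ℂ, ‖w‖ < R →
    HasSum (fun n : ℕ => b n * w ^ n) (ps b w) ∧ HasDerivAt (ps b) (psd b w) w ∧
    HasSum (fun n : ℕ => (n : ℂ) * b n * w ^ (n - 1)) (psd b w) ∧
    Summable (fun n : ℕ => ‖b n‖ * ‖w‖ ^ n) ∧ Summable (fun n : ℕ => (n : ℝ) * ‖b n‖ * ‖w‖ ^ (n - 1))

/-- ITEM Hc.  (1) Cauchy-Schwarz.  (2) `‖a n‖ ≤ C θ^n` gives `‖hc a k‖ ≤ 2 C² θ^k/(1-θ²)`; `R = 1/θ`. -/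
def StHc : Prop :=
  (∀ a : ℕ → ℂ, Summable (fun n => ‖a n‖ ^ 2) → ∀ k, Summable (fun l => a (l + k) * conj (a l)) ∧ ‖hc a k‖ ≤ 2 * ∑' l, ‖a l‖ ^ 2) ∧
  (∀ a : ℕ → ℂ, Nice a → Summable (fun n => ‖a n‖ ^ 2) ∧ Summable (fun n : ℕ => (n : ℝ) * ‖a n‖ ^ 2) ∧
    ∃ R C : ℝ, 1 < R ∧ ∀ n, ‖a n‖ * R ^ n ≤ C ∧ ‖hc a n‖ * R ^ n ≤ C)

/-- ITEM Lmp (pointwise limits; uses StPs, StHc).  `hc (rs ρ a) k → hc a k` as `ρ → 1-` (dominated convergence for series, Cauchy-Schwarz), bounded by `2 ∑ ‖a l‖²`, so the power series and their derivatives converge for `‖w‖ < 1`.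
`∑ n ‖a n‖² < ∞` gives `Summable ‖a n‖²` and `‖a n‖` bounded. -/
def StLmp : Prop := ∀ a : ℕ → ℂ, Summable (fun n : ℕ => (n : ℝ) * ‖a n‖ ^ 2) → ∀ w : ℂ, ‖w‖ < 1 →
  Tendsto (fun ρ : ℝ => tau (rs ρ a) w) (𝓝[<] 1) (𝓝 (tau a w)) ∧
  Tendsto (fun ρ : ℝ => qq (rs ρ a) w) (𝓝[<] 1) (𝓝 (qq a w)) ∧
  Tendsto (fun ρ : ℝ => psd (rs ρ a) w) (𝓝[<] 1) (𝓝 (psd a w))

/-- ITEM Der (uses StPs, StHc).  `τ` is `C²` on a larger disc, `dτ(h) = -Re(q h)/2`; the derivative of `q`: `Dq(h) = conj(F' h) F' + (conj F F'' - H''/2) h`, so `½ Im(Dq(i)) - ½ Re(Dq(1)) = -|F'|²`, which is `Δτ = -|F'|²`.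
(`F'' = psd` of the coefficients of the derivative; state the Laplacian through `g₁ = -Re q/2`, `g₂ = Im q/2`.) -/
def StDer : Prop := ∀ a : ℕ → ℂ, Nice a → ∃ R : ℝ, 1 < R ∧ ContDiffOn ℝ 2 (tau a) (Metric.ball 0 R) ∧ ContinuousOn (qq a) (Metric.ball 0 R) ∧
  ∀ w : ℂ, ‖w‖ < R → (∀ h : ℂ, fderiv ℝ (tau a) w h = -(qq a w * h).re / 2) ∧
    DifferentiableAt ℝ (qq a) w ∧
    -(fderiv ℝ (qq a) w 1).re / 2 + (fderiv ℝ (qq a) w Complex.I).im / 2 = -‖psd a w‖ ^ 2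

/-- ITEM Bd (uses StPs, StHc).  On `‖w‖ = 1`: `|F|² = ∑_{l,p} a_l conj(a_p) w^{l-p}` (absolutely convergent), grouped by `k = l - p` it is `Re H`. -/
def StBd : Prop := ∀ a : ℕ → ℂ, Nice a → ∀ w : ℂ, ‖w‖ = 1 → tau a w = 0

/-- ITEM Dir (area; polar coordinates and Parseval on circles, or `lintegral` with monotone convergence: `∫_{‖w‖<1} ‖∑ n a_n w^{n-1}‖² = ∑ n² ‖a_n‖² π/n`).  See also `NF/I_F1.lean` (Fourier coefficients on circles), `NF/I_Area.lean`, `Asm`'s `lPars`. -/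
def StDir : Prop := ∀ a : ℕ → ℂ, Summable (fun n : ℕ => (n : ℝ) * ‖a n‖ ^ 2) →
  IntegrableOn (fun w => ‖psd a w‖ ^ 2) (Metric.ball (0 : ℂ) 1) ∧ (∫ w in Metric.ball (0 : ℂ) 1, ‖psd a w‖ ^ 2) = Real.pi * Ar a

/-- ITEM Mob (torsion function at a point; uses StPs, StHc, StBd, StDir).  `μ(ζ) = (ζ + w₀)/(1 + conj w₀ ζ)`, `F ∘ μ` is holomorphic on a larger disc, `= ∑ b_j ζ^j`, `b` is `Nice` (Cauchy estimates), `b_0 = F(w₀)`, `b_1 = F'(w₀)(1 - |w₀|²)`.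
`Re(H_a ∘ μ - H_b)` is the real part of a holomorphic function near the closed disc and vanishes on the circle (StBd for `a` and `b`: `|F ∘ μ|²` on the circle, `μ` maps the circle to the circle), so it vanishes in the disc
(maximum principle for `exp(± (H_a ∘ μ - H_b))`).  Hence `4 τ_a(w₀) = 4 τ_b(0) = ∑_{j ≥ 1} ‖b_j‖²`, and `∑ j ‖b_j‖² = (1/π) ∫ |(F∘μ)'|² = (1/π) ∫ |F'|² = Ar a` (StDir twice, change of variables for the bijection `μ` of the disc).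
So `‖b_1‖² ≤ 4 τ(w₀) ≤ ‖b_1‖² + ½ (Ar a - ‖b_1‖²)`. -/
def StMob : Prop := ∀ a : ℕ → ℂ, Nice a → ∀ w : ℂ, ‖w‖ < 1 →
  cr a w ^ 2 ≤ 4 * tau a w ∧ 4 * tau a w ≤ (Ar a + cr a w ^ 2) / 2

/-! ### part 3: level sets of the torsion function -/

/-- ITEM Grn (Green's identity; uses StDer, StBd).  `θ(τ)` vanishes near the circle (`{τ ≥ t₀}` is a compact subset of the open disc by StBd and continuity), so `u = θ(τ)` extended by `0` is `C¹` with compact support, and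
`∫ θ(τ) Δτ = -∫ θ'(τ) |∇τ|²`: the integral of the derivative of the compactly supported `C¹` functions `θ(τ) ∂_i τ` in direction `i` is `0` (`∂_1 τ = -Re q/2`, `∂_2 τ = Im q/2`, StDer). -/
def StGrn : Prop := ∀ a : ℕ → ℂ, Nice a → ∀ (θ θ' : ℝ → ℝ) (t₀ : ℝ), 0 < t₀ → (∀ t, HasDerivAt θ (θ' t) t) → Continuous θ' →
  (∀ t ≤ t₀, θ t = 0) →
  (∫ w in Metric.ball (0 : ℂ) 1, θ (tau a w) * ‖psd a w‖ ^ 2) = ∫ w in Metric.ball (0 : ℂ) 1, θ' (tau a w) * (‖qq a w‖ ^ 2 / 4)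

/-- ITEM Iso (the Sobolev inequality in the coordinate of the disc; uses StDer, StBd, StSob, StPs, StHc).  `W(z) = θ(τ(F⁻¹(z)))` on `Ω = F(disc)`, `0` outside: `F` is injective and holomorphic, so `F' ≠ 0` and `F⁻¹` is holomorphic on the open set `Ω`
(see `NF/I_C1.lean`, `NF/I_PC.lean`, `NF/I_Den.lean`); the support is the image of the compact set `{τ ≥ t₀}`, so `W` is `C¹` with compact support on the plane.  StSob for `W` in the coordinates `(x, y)`; change of variables with the Jacobian `|F'|²`: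
`∫ W² = ∫ θ(τ)² |F'|²`, `|∇W|(F(w)) = θ'(τ) |∇τ|/|F'|`, `∫ |∇W| = ∫ θ'(τ) |∇τ| |F'|`, `|∇τ| = |q|/2`. -/
def StIso : Prop := ∀ a : ℕ → ℂ, Nice a → InjOn (ps a) (Metric.ball 0 1) → ∀ (θ θ' : ℝ → ℝ) (t₀ : ℝ), 0 < t₀ →
  (∀ t, HasDerivAt θ (θ' t) t) → Continuous θ' → (∀ t ≤ t₀, θ t = 0) → (∀ t, 0 ≤ θ' t) →
  4 * Real.pi * (∫ w in Metric.ball (0 : ℂ) 1, θ (tau a w) ^ 2 * ‖psd a w‖ ^ 2)
    ≤ (∫ w in Metric.ball (0 : ℂ) 1, θ' (tau a w) * (‖qq a w‖ / 2) * ‖psd a w‖) ^ 2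

/-- ITEM Tal (inequality of Talenti; uses StGrn, StIso, StDir, StDer, StHc).  Write `μ(S) = ∫_{τ ∈ S} |F'|²`, `α(t) = av a t = μ((t,∞))`.  Cauchy-Schwarz and StGrn: `(∫ θ'(τ) |∇τ| |F'|)² ≤ ∫ θ'(τ) |F'|² · ∫ θ'(τ) |∇τ|² = ∫ θ'(τ) |F'|² · ∫ θ(τ) |F'|²`.
For `0 < t`, `h, ε > 0` take `θ(x) = ∫_{-∞}^x η`, `η ≥ 0` continuous, zero outside `(t, t+h)`, `∫ η = 1`, `η ≤ (1+ε)/h` (trapezoid): StIso gives `4π α(t+h) ≤ 4π ∫ θ(τ)² |F'|² ≤ ((1+ε)/h) (α(t) - α(t+h)) α(t)`; let `ε → 0`: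
`4π h α(t+h) ≤ (α(t) - α(t+h)) α(t)`.  (`μ((t,t+h)) ≤ α(t) - α(t+h)`; `∫ θ(τ) |F'|² ≤ α(t)`.)
Let `α(t) > 0`, `0 < t₀ < t`, `t_i = t₀ + i h`, `h = (t - t₀)/n`, `δ_i = α(t_i) - α(t_{i+1})`: `δ_i ≥ 4πh (1 - δ_i/α(t_i)) ≥ 4πh (1 - δ_i/α(t))`, so `δ_i ≥ 4πh/(1 + 4πh/α(t))`, and `α(t₀) - α(t) ≥ 4π (t - t₀)/(1 + 4πh/α(t)) → 4π (t - t₀)`;
`α(t₀) ≤ π Ar a` (StDir), let `t₀ → 0`. -/
def StTal : Prop := ∀ a : ℕ → ℂ, Nice a → InjOn (ps a) (Metric.ball 0 1) → ∀ t : ℝ, 0 < t → 0 < av a t →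
  av a t ≤ Real.pi * Ar a - 4 * Real.pi * t

/-- ITEM Upp (upper bound for nice domains; uses StGrn, StTal, StDir, StDer, StHc).  LAYER CAKE: `∫ θ(τ) |F'|² = θ(0) π Ar a + ∫_0^∞ θ'(t) av a t dt` for `C¹` functions `θ` (`θ(τ) - θ(0) = ∫_0^∞ θ'(t) 1[t < τ] dt`, `τ > 0`, Fubini; `τ ≤ T`).
ENERGY: for `Ψ ≥ 0` continuous, `∫ Ψ(τ) |q|²/4 = ∫_0^∞ Ψ(t) av a t dt`: if `Ψ = 0` on `(-∞, t₀]` take `θ = ∫_0^t Ψ` in StGrn and the layer cake formula; in general `Ψ χ_n`, `χ_n ↑ 1` on `(0,∞)` continuous with `χ_n = 0` on `(-∞, 1/n]`, monotone convergence (`τ > 0` on the disc).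
With `Ψ = f'² + B² f²` and `θ = f²` (`θ' = 2 f f'`): the left side is `∫_0^∞ Φ(t) av a t dt - lam f(0)² π Ar a`, `av a t = 0` for `t ≥ T`, `Φ ≥ 0` on `[0,T]` and `av a t ≤ π - 4πt` for `0 < t < T ≤ 1/4` (StTal if `av a t > 0`; `Ar a ≤ 1`). -/
def StUpp : Prop := ∀ (a : ℕ → ℂ) (B lam T : ℝ) (f : ℝ → ℝ), Nice a → InjOn (ps a) (Metric.ball 0 1) → Ar a ≤ 1 →
  0 < T → T ≤ 1 / 4 → (∀ w : ℂ, ‖w‖ < 1 → 0 < tau a w ∧ tau a w ≤ T) → ContDiff ℝ 1 f → 0 ≤ lam →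
  (∀ t ∈ Icc (0 : ℝ) T, 0 ≤ Phf B lam f t) →
  IntegrableOn (fun w => (deriv f (tau a w) ^ 2 + B ^ 2 * f (tau a w) ^ 2) * (‖qq a w‖ ^ 2 / 4)) (Metric.ball (0 : ℂ) 1) ∧
  (∫ w in Metric.ball (0 : ℂ) 1, (deriv f (tau a w) ^ 2 + B ^ 2 * f (tau a w) ^ 2) * (‖qq a w‖ ^ 2 / 4))
    - lam * (∫ w in Metric.ball (0 : ℂ) 1, f (tau a w) ^ 2 * ‖psd a w‖ ^ 2)
    ≤ (∫ t in (0 : ℝ)..T, Phf B lam f t * (Real.pi - 4 * Real.pi * t)) - lam * f 0 ^ 2 * (Real.pi * Ar a)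

/-- ITEM One (one-dimensional facts; `Phi A 1 z`: `1 ≤ Phi ≤ e^z` for `0 ≤ A ≤ 1`, `z ≥ 0`).  `f = fr B lam`, `f(t) = g_0(r)`, `t = (1-r²)/4`: `f(t) = e^{-y} Phi(A, 1, 2y)`, `y = B (1-4t)/4 ∈ [0, B/4]`, so `e^{-B/4} ≤ e^{-y} ≤ f ≤ e^y ≤ e^{B/4}` for `t ∈ [0,1/4]`.
`Φ - (B² - lam²) f² = (f' - lam f)² ≥ 0`.  Identity: `UEn` for `g_0` (`∫_0^1 (g'² + (B r/2)² g² - lam g²) r dr = g(1) g'(1) = 0`) with the substitution `t = (1-r²)/4`, `f' = -2 g'/r`: `∫_0^{1/4} [(1-4t)(f'² + B² f²)/2 - 2 lam f²] dt = 0`, and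
`-2 lam f² = (½ lam f² (1-4t))' - lam f f' (1-4t)`; so `½ ∫ (1-4t) Φ = ½ lam f(0)²`.  (Or directly: `(1-4t) Φ(t)` has the primitive `(1-4t) (f f' - lam f²)` by the ODE `((1-4t) f')' = B² (1-4t) f - 4 lam f`, and `f'(0) = 0`.) -/
def StOne : Prop := ∀ B lam : ℝ, Rd B lam → ContDiff ℝ 1 (fr B lam) ∧
  (∀ t ∈ Icc (0 : ℝ) (1 / 4), Real.exp (-(B / 2)) ≤ fr B lam t ^ 2 ∧ fr B lam t ^ 2 ≤ Real.exp (B / 2)) ∧
  (∀ t : ℝ, (B ^ 2 - lam ^ 2) * fr B lam t ^ 2 ≤ Phf B lam (fr B lam) t) ∧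
  (∫ t in (0 : ℝ)..(1 / 4), Phf B lam (fr B lam) t * (Real.pi - 4 * Real.pi * t)) = lam * fr B lam 0 ^ 2 * Real.pi

/-! ### part 4: the test function -/

/-- ITEM PC0 (change of variables; copy of `NF/I_PC.lean` without polar coordinates). -/
def StPC0 : Prop := ∀ (Ω : Set ℂ) (f F : ℂ → ℂ) (a : ℕ → ℂ) (h : ℂ → ENNReal), RM Ω f F a →
  AEMeasurable (fun w => h (F w)) (volume.restrict (Metric.ball (0 : ℂ) 1)) →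
  (∫⁻ z in Ω, h z) = ∫⁻ w in Metric.ball (0 : ℂ) 1, ENNReal.ofReal (‖deriv F w‖ ^ 2) * h (F w)

/-- ITEM Dn0 (energy density of a transplanted function with a general gauge; compare `NF/I_Den.lean`).  `U(z) = v(f z) exp(i B φ(f z))`; `L(h) = fderiv U z h - i B AA z h U z` at `z = F w`: `L(F'(w) h) = e^{iBφ}(fderiv v w h - i B (AA (F w) (F'(w) h) - fderiv φ w h) v w)`
and `‖L c‖² + ‖L (ic)‖² = ‖c‖² (‖L 1‖² + ‖L I‖²)` for `c = F'(w)`. -/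
def StDn0 : Prop := ∀ (Ω : Set ℂ) (f F : ℂ → ℂ) (a : ℕ → ℂ) (φ : ℂ → ℝ) (v : ℂ → ℂ) (B : ℝ), RM Ω f F a →
  ContDiffOn ℝ 1 φ (Metric.ball 0 1) → ContDiffOn ℝ 1 v (Metric.ball 0 1) →
  ContDiffOn ℝ 1 (fun z => v (f z) * Complex.exp (Complex.I * ((B * φ (f z) : ℝ) : ℂ))) Ω ∧
  ∀ w ∈ Metric.ball (0 : ℂ) 1,
    ‖deriv F w‖ ^ 2 * edC B (fun z => v (f z) * Complex.exp (Complex.I * ((B * φ (f z) : ℝ) : ℂ))) (F w)
      = ‖fderiv ℝ v w 1 - Complex.I * ((B * (AA (F w) (deriv F w) - fderiv ℝ φ w 1) : ℝ) : ℂ) * v w‖ ^ 2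
        + ‖fderiv ℝ v w Complex.I
            - Complex.I * ((B * (AA (F w) (deriv F w * Complex.I) - fderiv ℝ φ w Complex.I) : ℝ) : ℂ) * v w‖ ^ 2 ∧
    ‖v (f (F w)) * Complex.exp (Complex.I * ((B * φ (f (F w)) : ℝ) : ℂ))‖ = ‖v w‖

/-- ITEM Tst (the torsion test function; uses StPC0, StDn0, StRay, StPs, StHc).  `v = g(τ)` (real), `φ = Im H/4` (`H = ps (hc a)`; `∑ n‖a n‖² < ∞` gives all convergences on the open disc): `AA (F w) (F' h) - dφ(h) = Im(q h)/2`, `dτ(h) = -Re(q h)/2`, so the density is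
`(g'(τ)² + B² g(τ)²) |q|²/4`.  `F = ps a`, `F' = psd a` on the disc.  Then StRay with `ℓ`; `X` and `M` finite. -/
def StTst : Prop := ∀ (Ω : Set ℂ) (f F : ℂ → ℂ) (a : ℕ → ℂ) (B ℓ : ℝ) (g : ℝ → ℝ), RM Ω f F a →
  Summable (fun n : ℕ => (n : ℝ) * ‖a n‖ ^ 2) → ContDiff ℝ 1 g →
  IntegrableOn (fun w => (deriv g (tau a w) ^ 2 + B ^ 2 * g (tau a w) ^ 2) * (‖qq a w‖ ^ 2 / 4)) (Metric.ball (0 : ℂ) 1) →
  IntegrableOn (fun w => g (tau a w) ^ 2 * ‖psd a w‖ ^ 2) (Metric.ball (0 : ℂ) 1) →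
  0 < (∫ w in Metric.ball (0 : ℂ) 1, g (tau a w) ^ 2 * ‖psd a w‖ ^ 2) →
  (∫ w in Metric.ball (0 : ℂ) 1, (deriv g (tau a w) ^ 2 + B ^ 2 * g (tau a w) ^ 2) * (‖qq a w‖ ^ 2 / 4))
    ≤ ℓ * (∫ w in Metric.ball (0 : ℂ) 1, g (tau a w) ^ 2 * ‖psd a w‖ ^ 2) →
  lamN B (toR Ω) ≤ ℓ

/-- ITEM Arr (area; uses StPC0, StDir).  `volume Ω = ∫⁻ |F'|²`; if it is `π` then `∑ n‖a n‖² = 1` (summability: for `ρ < 1` the series `rs ρ a` is summable and `∫_{‖w‖<1} ‖psd (rs ρ a)‖² = ∫_{‖w‖<ρ} |F'|² ≤ π`; let `ρ → 1`).  Also `F = ps a`, `deriv F = psd a` on the disc, `psd a w ≠ 0`. -/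
def StArr : Prop := ∀ (Ω : Set ℂ) (f F : ℂ → ℂ) (a : ℕ → ℂ), RM Ω f F a → volume Ω = ENNReal.ofReal Real.pi →
  Summable (fun n : ℕ => (n : ℝ) * ‖a n‖ ^ 2) ∧ Ar a = 1 ∧
  ∀ w : ℂ, ‖w‖ < 1 → F w = ps a w ∧ deriv F w = psd a w ∧ psd a w ≠ 0

/-- ITEM Lim (uses StUpp, StOne, StMob, StLmp, StTst, StDir, StHc, StArr).  `a_ρ = rs ρ a` (`0 < ρ < 1`) is `Nice` (`‖a n‖` is bounded), `ps a_ρ w = F(ρ w)` is injective, `Ar a_ρ ≤ 1`, `Ar a_ρ → 1`, `cr a_ρ w = ρ ‖F'(ρw)‖ (1 - ‖w‖²) ≤ cr a (ρ w) ≤ s` (`ρ (1 - x²) ≤ 1 - ρ² x²`), `cr a_ρ w > 0`; so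
StMob: `0 < τ_ρ ≤ T := (1 + s²)/8 ≤ 1/4`.  StUpp with `f = fr B lam` and StOne: `E_ρ - lam M_ρ ≤ ∫_0^T Φ (π - 4πt) - lam f(0)² π Ar a_ρ`.
One application of Fatou's lemma as `ρ → 1` (StLmp) to `(f'(τ_ρ)² + B² f(τ_ρ)²) |q_ρ|²/4 + lam (e^{B/2} - f(τ_ρ)²) |F_ρ'|² ≥ 0` (StDir: `∫ |F_ρ'|² = π Ar a_ρ → π = ∫ |F'|²`) gives `E` finite and `E - lam M ≤ ∫_0^T Φ (π - 4πt) - lam f(0)² π = -∫_T^{1/4} Φ (π - 4πt)
≤ -(B² - lam²) e^{-B/2} 2π (1/4 - T)² = -(B² - lam²) e^{-B/2} (π/32) (1 - s²)²`, and `0 < M ≤ e^{B/2} π`.  StTst with `ℓ = E/M ≤ lam - (1/32) e^{-B} (B² - lam²) (1 - s²)²`. -/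
def StLim : Prop := ∀ (Ω : Set ℂ) (f F : ℂ → ℂ) (a : ℕ → ℂ) (B lam s : ℝ), RM Ω f F a → volume Ω = ENNReal.ofReal Real.pi →
  Rd B lam → 0 < s → s ≤ 1 → (∀ w : ℂ, ‖w‖ < 1 → cr a w ≤ s) →
  lamN B (toR Ω) ≤ lam - 1 / 32 * Real.exp (-B) * (B ^ 2 - lam ^ 2) * (1 - s ^ 2) ^ 2

end Pool.Agent.MFK.RT
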