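import Pool.Agent.Work.MP_8826fd_mp.NF.I_Ray
import Pool.Agent.Work.MP_8826fd_mp.RT.I_Kno
import Pool.Agent.Work.MP_8826fd_mp.RT.I_Sob
import Pool.Agent.Work.MP_8826fd_mp.RT.I_Ps
import Pool.Agent.Work.MP_8826fd_mp.RT.I_Hc
import Pool.Agent.Work.MP_8826fd_mp.RT.I_Lmp
import Pool.Agent.Work.MP_8826fd_mp.RT.I_Der
import Pool.Agent.Work.MP_8826fd_mp.RT.I_Bd
import Pool.Agent.Work.MP_8826fd_mp.RT.I_Dir
import Pool.Agent.Work.MP_8826fd_mp.RT.I_Mob
import Pool.Agent.Work.MP_8826fd_mp.RT.I_Grn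
import Pool.Agent.Work.MP_8826fd_mp.RT.I_Iso
import Pool.Agent.Work.MP_8826fd_mp.RT.I_Tal
import Pool.Agent.Work.MP_8826fd_mp.RT.I_Upp
import Pool.Agent.Work.MP_8826fd_mp.RT.I_One
import Pool.Agent.Work.MP_8826fd_mp.RT.I_PC0
import Pool.Agent.Work.MP_8826fd_mp.RT.I_Dn0
import Pool.Agent.Work.MP_8826fd_mp.RT.I_Tst
import Pool.Agent.Work.MP_8826fd_mp.RT.I_Arr
import Pool.Agent.Work.MP_8826fd_mp.RT.I_Lim
import Pool.Agent.Work.MP_8826fd_mp.RT.I_RdE
import Pool.Agent.Work.MP_8826fd_mp.RT.I_RdL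
import Pool.Agent.Work.MP_8826fd_mp.RT.I_Ud
import Pool.Agent.Work.MP_8826fd_mp.RT.I_Le
import Pool.Agent.Work.MP_8826fd_mp.RT.I_Lip
import Pool.Agent.Work.MP_8826fd_mp.RT.I_Sm
import Pool.Agent.Work.MP_8826fd_mp.RT.I_Big
import Pool.Agent.Work.MP_8826fd_mp.RT.I_Crs
import Pool.Agent.Work.MP_8826fd_mp.RT.I_Sml
import Pool.Agent.Work.MP_8826fd_mp.RT.I_Dsc
import Pool.Agent.Work.MP_8826fd_mp.RT.I_Rng
import Pool.Agent.Work.MP_8826fd_mp.RT.I_FinR

/-!
# MP_8826fd_mp, block RT: assembly of the torsion half and of the one-dimensional half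

`all_Lim` is the inequality of Colbois, Lena, Provenzano and Savo with a deficit, without hypotheses; `fin_of` is the range theorem from the
locally uniform local maximality `StMUc` (block CD) and the three statements of that block on conformal maps.
-/

set_option autoImplicit false

namespace Pool.Agent.MFK.RT

open Pool.Agent.MFK.NF

theorem all_Sob : StSob := pr_Sob pr_Kno

theorem all_Lmp : StLmp := pr_Lmp pr_Hc

theorem all_Der : StDer := pr_Der pr_Ps pr_Hc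

theorem all_Mob : StMob := pr_Mob pr_Ps pr_Hc pr_Bd pr_Dir

theorem all_Grn : StGrn := pr_Grn all_Der pr_Bd

theorem all_Iso : StIso := pr_Iso all_Der pr_Bd all_Sob pr_Ps pr_Hc

theorem all_Tal : StTal := pr_Tal all_Grn all_Iso pr_Dir all_Der pr_Hc

theorem all_Upp : StUpp := pr_Upp all_Grn all_Tal pr_Dir all_Der pr_Hc

theorem all_Arr : StArr := pr_Arr pr_PC0

theorem all_Tst : StTst := pr_Tst pr_PC0 pr_Dn0 pr_Ray pr_Ps pr_Hc

theorem all_Lim : StLim := pr_Lim all_Upp pr_One all_Mob all_Lmp all_Tst pr_Dir pr_Hc all_Arr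

theorem all_Sm : StSm := pr_Sm pr_Ud pr_Le

theorem all_Big : StBig := pr_Big pr_Ud pr_RdL

theorem all_Crs : StCrs := pr_Crs pr_Lip all_Sm all_Big pr_Le

theorem all_Sml : StSml := pr_Sml pr_Lip pr_RdE pr_Ud pr_RdL

theorem fin_of (hC1p : CD.StC1p) (hCMx : CD.StCMx) (hSer : CD.StSer) (hMU : StMUc) : StFinR :=
  pr_FinR (pr_Rng all_Lim all_Arr hC1p hCMx hSer hMU all_Crs all_Sml (pr_Dsc hSer) pr_RdE pr_Ud pr_RdL)

end Pool.Agent.MFK.RT
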